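import Pool.Agent.W_44c680_h9.Poly

/-!
Graph energy under the deletion of an edge: two centres.
-/

set_option autoImplicit false

namespace Pool.Agent.W_44c680_h9

open Matrix Polynomial

/-- The two centres. -/
def twoE : Fin 2 ≃ Unit ⊕ Unit where
  toFun := ![Sum.inl (), Sum.inr ()]
  invFun := Sum.elim (fun _ => 0) (fun _ => 1)
  left_inv := by intro i; fin_cases i <;> rfl
  right_inv := by rintro (_ | _) <;> rfl

/-- The determinant with two centres and two halves. -/
theorem det_two {L R : Type*} [Fintype L] [DecidableEq L] [CommRing R] (x b : R)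
    (N : Matrix (L ⊕ L) (L ⊕ L) R) (w w' : L → R) (δ δ' : R)
    (h : N *ᵥ (Sum.elim w w) = Sum.elim (fun _ => δ) (fun _ => δ))
    (h' : N *ᵥ (Sum.elim w' fun p => - w' p) = Sum.elim (fun _ => δ') (fun _ => - δ')) :
    (fromBlocks (fromBlocks (of fun _ _ : Unit => x) (of fun _ _ : Unit => -b)
        (of fun _ _ : Unit => -b) (of fun _ _ : Unit => x))
      (fromBlocks (of fun _ _ => -1) 0 0 (of fun _ _ => -1))
      (fromBlocks (of fun _ _ => -1) 0 0 (of fun _ _ => -1)) N).det * (2 * (δ * δ')) =
      2 * (((x - b) * δ - ∑ i, w i) * ((x + b) * δ' - ∑ i, w' i)) * N.det := by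
  have h1 : fromBlocks (fromBlocks (of fun _ _ : Unit => x) (of fun _ _ : Unit => -b)
        (of fun _ _ : Unit => -b) (of fun _ _ : Unit => x))
      (fromBlocks (of fun _ _ => -1) 0 0 (of fun _ _ => -1))
      (fromBlocks (of fun _ _ => -1) 0 0 (of fun _ _ => -1)) N *
      fromBlocks (fromBlocks (of fun _ _ : Unit => δ) (of fun _ _ : Unit => δ')
        (of fun _ _ : Unit => δ) (of fun _ _ : Unit => - δ')) 0
      (fromBlocks (of fun i _ => w i) (of fun i _ => w' i) (of fun i _ => w i)
        (of fun i _ => - w' i)) 1 =
      fromBlocks (fromBlocks (of fun _ _ => (x - b) * δ - ∑ i, w i)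
        (of fun _ _ => (x + b) * δ' - ∑ i, w' i)
        (of fun _ _ => (x - b) * δ - ∑ i, w i)
        (of fun _ _ => - ((x + b) * δ' - ∑ i, w' i)))
      (fromBlocks (of fun _ _ => -1) 0 0 (of fun _ _ => -1)) 0 N := by
    rw [fromBlocks_multiply]
    congr 1
    · ext i j
      rcases i with i | i <;> rcases j with j | j <;>
        simp [Matrix.mul_apply] <;> ring
    · simp
    · ext i j
      rcases j with j | j
      · have h2 := congrFun h i
        simp only [Matrix.mulVec, dotProduct, Fintype.sum_sum_type, Sum.elim_inl,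
          Sum.elim_inr] at h2
        rcases i with i | i
        · simp only [Sum.elim_inl] at h2
          simp [Matrix.mul_apply, Fintype.sum_sum_type, h2]
        · simp only [Sum.elim_inr] at h2
          simp [Matrix.mul_apply, Fintype.sum_sum_type, h2]
      · have h2 := congrFun h' i
        simp only [Matrix.mulVec, dotProduct, Fintype.sum_sum_type, Sum.elim_inl,
          Sum.elim_inr] at h2
        rcases i with i | i
        · simp only [Sum.elim_inl] at h2
          simp only [Matrix.add_apply, Matrix.mul_apply, Fintype.sum_sum_type,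
            fromBlocks_apply₁₁, fromBlocks_apply₁₂, fromBlocks_apply₂₁, fromBlocks_apply₂₂,
            of_apply, Matrix.zero_apply, h2]
          simp
        · simp only [Sum.elim_inr] at h2
          simp only [Matrix.add_apply, Matrix.mul_apply, Fintype.sum_sum_type,
            fromBlocks_apply₁₁, fromBlocks_apply₁₂, fromBlocks_apply₂₁, fromBlocks_apply₂₂,
            of_apply, Matrix.zero_apply, h2]
          simp
    · simp
  have hU : ∀ p q r s : R, (fromBlocks (of fun _ _ : Unit => p) (of fun _ _ : Unit => q)
      (of fun _ _ : Unit => r) (of fun _ _ : Unit => s)).det = p * s - q * r := by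
    intro p q r s
    rw [← Matrix.det_submatrix_equiv_self twoE, det_fin_two]
    rfl
  have h2 := congrArg Matrix.det h1
  rw [det_mul, det_fromBlocks_zero₁₂, det_fromBlocks_zero₂₁, hU, hU, det_one, mul_one] at h2
  linear_combination (-1 : R) * h2

end Pool.Agent.W_44c680_h9
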