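import Pool.Agent.W_44c680_h9.Gal6

/-!
Two finite symmetric sets in a field on each of which a finite group of automorphisms acts as the
full group of signed permutations: equal sums of representatives force the sets to be equal.
-/

set_option autoImplicit false

namespace Pool.Agent.W_44c680_h9

section Abs

variable {Γ L : Type*} [Group Γ] [Fintype Γ] [Field L] [CharZero L] [MulSemiringAction Γ L]

/-- The group preserves the finite set and acts on it as the full group of the permutations that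
commute with the sign. -/
def FullB (Γ : Type*) {L : Type*} [Group Γ] [Field L] [MulSemiringAction Γ L]
    (R : Finset L) : Prop :=
  (∀ γ : Γ, ∀ z ∈ R, γ • z ∈ R) ∧
    ∀ f : Equiv.Perm L, (∀ z ∈ R, f z ∈ R) → (∀ z ∈ R, f (-z) = - f z) →
      ∃ γ : Γ, ∀ z ∈ R, γ • z = f z

/-- `P` contains exactly one of `z`, `-z` for every `z` in `R`. -/
def Half {L : Type*} [Field L] (R P : Finset L) : Prop :=
  P ⊆ R ∧ (∀ z ∈ R, - z ∈ R) ∧ ∀ z ∈ R, (z ∈ P ↔ - z ∉ P)

omit [CharZero L] [Fintype Γ] [Group Γ] [MulSemiringAction Γ L] in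
theorem half_ne {R P : Finset L} (h : Half R P) {z : L} (hz : z ∈ R) : z ≠ - z := by
  intro hc
  have h1 := h.2.2 z hz
  rw [← hc] at h1
  tauto

omit [Fintype Γ] [CharZero L] in
open Classical in
theorem sign_at {R P : Finset L} (h : FullB Γ R) (hP : Half R P) {a : L} (ha : a ∈ R) :
    ∃ γ : Γ, γ • a = - a ∧ ∀ z ∈ R, z ≠ a → z ≠ - a → γ • z = z := by
  have hne := half_ne hP ha
  obtain ⟨γ, hγ⟩ := h.2 (Equiv.swap a (-a)) (by
    intro z hz
    by_cases h1 : z = a
    · rw [h1, Equiv.swap_apply_left]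
      exact hP.2.1 a ha
    · by_cases h2 : z = - a
      · rw [h2, Equiv.swap_apply_right]
        exact ha
      · rw [Equiv.swap_apply_of_ne_of_ne h1 h2]
        exact hz) (by
    intro z hz
    by_cases h1 : z = a
    · rw [h1, Equiv.swap_apply_left, Equiv.swap_apply_right, neg_neg]
    · by_cases h2 : z = - a
      · rw [h2, neg_neg, Equiv.swap_apply_left, Equiv.swap_apply_right]
      · rw [Equiv.swap_apply_of_ne_of_ne h1 h2, Equiv.swap_apply_of_ne_of_ne]
        · intro h3
          apply h2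
          rw [← h3, neg_neg]
        · intro h3
          exact h1 (neg_injective h3))
  refine ⟨γ, by rw [hγ a ha, Equiv.swap_apply_left], fun z hz h1 h2 => ?_⟩
  rw [hγ z hz, Equiv.swap_apply_of_ne_of_ne h1 h2]

omit [Fintype Γ] [CharZero L] in
open Classical in
theorem move_to {R P : Finset L} (h : FullB Γ R) (hP : Half R P) {a b : L} (ha : a ∈ R)
    (hb : b ∈ R) (hab : a ≠ b) (hab' : a ≠ - b) : ∃ γ : Γ, γ • a = b := by
  have hna := half_ne hP ha
  have hnb := half_ne hP hb
  have hba' : b ≠ - a := fun hc => hab' (by rw [hc, neg_neg])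
  have hn : - a ≠ - b := fun hc => hab (neg_injective hc)
  have e1 : (Equiv.swap a b * Equiv.swap (-a) (-b)) a = b := by
    rw [Equiv.Perm.mul_apply, Equiv.swap_apply_of_ne_of_ne hna hab', Equiv.swap_apply_left]
  have e2 : (Equiv.swap a b * Equiv.swap (-a) (-b)) b = a := by
    rw [Equiv.Perm.mul_apply, Equiv.swap_apply_of_ne_of_ne hba' hnb, Equiv.swap_apply_right]
  have e3 : (Equiv.swap a b * Equiv.swap (-a) (-b)) (-a) = - b := by
    rw [Equiv.Perm.mul_apply, Equiv.swap_apply_left,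
      Equiv.swap_apply_of_ne_of_ne (Ne.symm hab') (Ne.symm hnb)]
  have e4 : (Equiv.swap a b * Equiv.swap (-a) (-b)) (-b) = - a := by
    rw [Equiv.Perm.mul_apply, Equiv.swap_apply_right,
      Equiv.swap_apply_of_ne_of_ne (Ne.symm hna) (Ne.symm hba')]
  have e5 : ∀ z, z ≠ a → z ≠ b → z ≠ - a → z ≠ - b →
      (Equiv.swap a b * Equiv.swap (-a) (-b)) z = z := by
    intro z h1 h2 h3 h4
    rw [Equiv.Perm.mul_apply, Equiv.swap_apply_of_ne_of_ne h3 h4,
      Equiv.swap_apply_of_ne_of_ne h1 h2]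
  obtain ⟨γ, hγ⟩ := h.2 (Equiv.swap a b * Equiv.swap (-a) (-b)) (by
    intro z hz
    by_cases h1 : z = a
    · rw [h1, e1]
      exact hb
    by_cases h2 : z = b
    · rw [h2, e2]
      exact ha
    by_cases h3 : z = - a
    · rw [h3, e3]
      exact hP.2.1 b hb
    by_cases h4 : z = - b
    · rw [h4, e4]
      exact hP.2.1 a ha
    rw [e5 z h1 h2 h3 h4]
    exact hz) (by
    intro z hz
    by_cases h1 : z = a
    · rw [h1, e1, e3]
    by_cases h2 : z = b
    · rw [h2, e2, e4]
    by_cases h3 : z = - a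
    · rw [h3, e3, neg_neg, e1, neg_neg]
    by_cases h4 : z = - b
    · rw [h4, e4, neg_neg, e2, neg_neg]
    rw [e5 z h1 h2 h3 h4, e5]
    · intro hc
      exact h3 (by rw [← hc, neg_neg])
    · intro hc
      exact h4 (by rw [← hc, neg_neg])
    · intro hc
      exact h1 (neg_injective hc)
    · intro hc
      exact h2 (neg_injective hc))
  exact ⟨γ, by rw [hγ a ha, e1]⟩

omit [CharZero L] [Fintype Γ] [Group Γ] [MulSemiringAction Γ L] in
open Classical in
theorem half_sum {R P : Finset L} (h : Half R P) (g : L → L) (hg : ∀ z, g (-z) = g z) :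
    ∑ z ∈ R, g z = 2 * ∑ z ∈ P, g z := by
  have h1 : R \ P = P.image fun z => - z := by
    ext z
    rw [Finset.mem_sdiff, Finset.mem_image]
    constructor
    · rintro ⟨h1, h2⟩
      refine ⟨- z, ?_, neg_neg z⟩
      by_contra h3
      exact h2 ((h.2.2 z h1).mpr h3)
    · rintro ⟨w, hw, rfl⟩
      exact ⟨h.2.1 w (h.1 hw), (h.2.2 w (h.1 hw)).mp hw⟩
  rw [← Finset.sum_sdiff h.1, h1, Finset.sum_image fun a _ b _ hab => neg_injective hab]
  simp only [hg]
  ring

omit [CharZero L] [Fintype Γ] [Group Γ] [MulSemiringAction Γ L] in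
open Classical in
theorem half_card {R P : Finset L} (h : Half R P) : R.card = 2 * P.card := by
  have h1 : R \ P = P.image fun z => - z := by
    ext z
    rw [Finset.mem_sdiff, Finset.mem_image]
    constructor
    · rintro ⟨h1, h2⟩
      refine ⟨- z, ?_, neg_neg z⟩
      by_contra h3
      exact h2 ((h.2.2 z h1).mpr h3)
    · rintro ⟨w, hw, rfl⟩
      exact ⟨h.2.1 w (h.1 hw), (h.2.2 w (h.1 hw)).mp hw⟩
  have h2 := Finset.card_sdiff_add_card_eq_card h.1
  rw [h1, Finset.card_image_of_injective _ neg_injective] at h2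
  omega

open Classical in
/-- The trace form on the half. -/
theorem formB {R P : Finset L} (h : FullB Γ R) (hP : Half R P) :
    ∃ t : L, (∀ J ⊆ P, tr Γ ((∑ z ∈ J, z) * ∑ z ∈ J, z) = (J.card : L) * t) ∧
      2 * ((P.card : L) * t) = (Fintype.card Γ : L) * ∑ z ∈ R, z * z := by
  have e0 : ∀ u ∈ P, ∀ v ∈ P, u ≠ v → tr Γ (u * v) = 0 := by
    intro u hu v hv huv
    obtain ⟨γ, h1, h2⟩ := sign_at h hP (hP.1 hu)
    have h3 : γ • v = v := h2 v (hP.1 hv) huv.symm (by
      intro hc
      have := (hP.2.2 u (hP.1 hu)).mp hu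
      rw [← hc] at this
      exact this hv)
    have h4 := tr_smul γ (u * v)
    rw [smul_mul', h1, h3, neg_mul] at h4
    have h5 : tr Γ (-(u * v)) = - tr Γ (u * v) := by
      unfold tr
      rw [← Finset.sum_neg_distrib]
      exact Finset.sum_congr rfl fun γ _ => smul_neg γ _
    rw [h5] at h4
    have h6 : (2 : L) * tr Γ (u * v) = 0 := by linear_combination -h4
    exact (mul_eq_zero.mp h6).resolve_left two_ne_zero
  obtain ⟨t, ht⟩ : ∃ t : L, ∀ u ∈ P, tr Γ (u * u) = t := by
    rcases P.eq_empty_or_nonempty with hemp | ⟨u0, hu0⟩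
    · exact ⟨0, fun u hu => absurd (hemp ▸ hu) (Finset.notMem_empty u)⟩
    · refine ⟨tr Γ (u0 * u0), fun u hu => ?_⟩
      by_cases huu : u0 = u
      · rw [huu]
      · obtain ⟨γ, hγ⟩ := move_to h hP (hP.1 hu0) (hP.1 hu) huu (by
          intro hc
          have := (hP.2.2 u (hP.1 hu)).mp hu
          rw [← hc] at this
          exact this hu0)
        rw [← tr_smul γ (u0 * u0), smul_mul', hγ]
  have e1 : ∀ J ⊆ P, tr Γ ((∑ z ∈ J, z) * ∑ z ∈ J, z) = (J.card : L) * t := by
    intro J hJ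
    rw [Finset.sum_mul_sum, tr_sum]
    have h1 : ∀ u ∈ J, tr Γ (∑ v ∈ J, u * v) = t := by
      intro u hu
      rw [tr_sum, ← Finset.add_sum_erase J _ hu, ht u (hJ hu), Finset.sum_eq_zero, add_zero]
      intro v hv
      exact e0 u (hJ hu) v (hJ (Finset.mem_of_mem_erase hv)) (Finset.ne_of_mem_erase hv).symm
    rw [Finset.sum_congr rfl h1, Finset.sum_const, nsmul_eq_mul]
  refine ⟨t, e1, ?_⟩
  have e2 : (Fintype.card Γ : L) * ∑ z ∈ R, z * z = tr Γ (∑ z ∈ R, z * z) := by
    rw [tr_fix]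
    intro γ
    rw [Finset.smul_sum]
    have h1 : R.image (fun z => γ • z) = R := by
      apply Finset.eq_of_subset_of_card_le
      · intro w hw
        rw [Finset.mem_image] at hw
        obtain ⟨v, hv, rfl⟩ := hw
        exact h.1 γ v hv
      · rw [Finset.card_image_of_injective _ (MulAction.injective γ)]
    conv_rhs => rw [← h1]
    rw [Finset.sum_image fun a _ b _ hab => MulAction.injective γ hab]
    apply Finset.sum_congr rfl
    intro z _
    rw [smul_mul']
  have e3 : tr Γ (∑ z ∈ R, z * z) = 2 * ∑ z ∈ P, tr Γ (z * z) := by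
    rw [half_sum hP (fun z => z * z) fun z => neg_mul_neg z z, two_mul, tr_add, tr_sum]
    ring
  rw [e2, e3, Finset.sum_congr rfl ht, Finset.sum_const, nsmul_eq_mul]

omit [Fintype Γ] [CharZero L] in
open Classical in
theorem diffB {R P : Finset L} (h : ∀ γ : Γ, ∀ z ∈ R, γ • z ∈ R) (hP : Half R P) (γ : Γ) :
    ∃ J ⊆ P, (∑ z ∈ P, z) - γ • (∑ z ∈ P, z) = 2 * ∑ z ∈ J, z ∧
      (J = ∅ → ∀ u ∈ P, γ • u ∈ P) := by
  set Q := P.image fun z => γ • z with hQ
  have hQR : Q ⊆ R := by
    intro w hw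
    rw [hQ, Finset.mem_image] at hw
    obtain ⟨v, hv, rfl⟩ := hw
    exact h γ v (hP.1 hv)
  have hQh : ∀ z ∈ R, (z ∈ Q ↔ - z ∉ Q) := by
    intro z hz
    have h1 : ∀ w : L, w ∈ Q ↔ γ⁻¹ • w ∈ P := by
      intro w
      rw [hQ, Finset.mem_image]
      constructor
      · rintro ⟨v, hv, rfl⟩
        rw [inv_smul_smul]
        exact hv
      · intro hw
        exact ⟨γ⁻¹ • w, hw, smul_inv_smul γ w⟩
    rw [h1, h1, smul_neg]
    exact hP.2.2 _ (h γ⁻¹ z hz)
  refine ⟨P.filter fun v => - v ∈ Q, Finset.filter_subset _ _, ?_, ?_⟩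
  · have h1 : γ • (∑ z ∈ P, z) = ∑ z ∈ Q, z := by
      rw [hQ, Finset.sum_image fun a _ b _ hab => MulAction.injective γ hab, ← Finset.smul_sum]
    have h2 : Q \ P = (P.filter fun v => - v ∈ Q).image fun z => - z := by
      ext z
      constructor
      · intro hz
        obtain ⟨h3, h4⟩ := Finset.mem_sdiff.mp hz
        refine Finset.mem_image.mpr ⟨- z, Finset.mem_filter.mpr ⟨?_, ?_⟩, neg_neg z⟩
        · by_contra h5
          exact h4 ((hP.2.2 z (hQR h3)).mpr h5)
        · rw [neg_neg]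
          exact h3
      · intro hz
        obtain ⟨w, hw, rfl⟩ := Finset.mem_image.mp hz
        obtain ⟨hw1, hw2⟩ := Finset.mem_filter.mp hw
        exact Finset.mem_sdiff.mpr ⟨hw2, (hP.2.2 w (hP.1 hw1)).mp hw1⟩
    have h3 : Q ∩ P = P \ (P.filter fun v => - v ∈ Q) := by
      ext z
      rw [Finset.mem_inter, Finset.mem_sdiff, Finset.mem_filter]
      constructor
      · rintro ⟨h4, h5⟩
        exact ⟨h5, fun h6 => (hQh z (hP.1 h5)).mp h4 h6.2⟩
      · rintro ⟨h4, h5⟩
        refine ⟨(hQh z (hP.1 h4)).mpr fun h6 => h5 ⟨h4, h6⟩, h4⟩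
    have h4 : ∑ z ∈ Q, z = ∑ z ∈ Q ∩ P, z + ∑ z ∈ Q \ P, z :=
      (Finset.sum_inter_add_sum_sdiff Q P _).symm
    have h5 : ∑ z ∈ P, z = ∑ z ∈ P \ (P.filter fun v => - v ∈ Q), z +
        ∑ z ∈ P.filter (fun v => - v ∈ Q), z :=
      (Finset.sum_sdiff (Finset.filter_subset _ _)).symm
    rw [h1, h4, h2, h3, Finset.sum_image fun a _ b _ hab => neg_injective hab,
      Finset.sum_neg_distrib, h5]
    ring
  · intro hJ u hu
    have h1 : γ • u ∈ Q := Finset.mem_image_of_mem _ hu
    by_contra h2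
    have h3 : - (γ • u) ∈ P := by
      by_contra h4
      exact h2 ((hP.2.2 _ (hQR h1)).mpr h4)
    have h4 : - (γ • u) ∈ P.filter fun v => - v ∈ Q := by
      rw [Finset.mem_filter, neg_neg]
      exact ⟨h3, h1⟩
    rw [hJ] at h4
    exact Finset.notMem_empty _ h4

open Classical in
theorem stabB {R P : Finset L} (h : FullB Γ R) (hP : Half R P)
    (hs0 : ∑ z ∈ R, z * z ≠ 0) (γ : Γ) (hγ : γ • ∑ z ∈ P, z = ∑ z ∈ P, z) (u : L)
    (hu : u ∈ P) : γ • u ∈ P := by
  obtain ⟨t, ht, hs⟩ := formB h hP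
  obtain ⟨J, hJ, h1, h2⟩ := diffB h.1 hP γ
  apply h2 _ u hu
  rw [hγ, sub_self] at h1
  have h3 : ∑ z ∈ J, z = 0 := (mul_eq_zero.mp h1.symm).resolve_left two_ne_zero
  have h4 := ht J hJ
  rw [h3, mul_zero] at h4
  have h5 : tr Γ (0 : L) = 0 := by
    unfold tr
    simp
  rw [h5] at h4
  have hΓ : (Fintype.card Γ : L) ≠ 0 := by
    have : 0 < Fintype.card Γ := Fintype.card_pos
    exact_mod_cast this.ne'
  have h6 : t ≠ 0 := by
    intro hc
    rw [hc, mul_zero, mul_zero] at hs
    exact mul_ne_zero hΓ hs0 hs.symm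
  have h7 : (J.card : L) = 0 := (mul_eq_zero.mp h4.symm).resolve_right h6
  have h8 : J.card = 0 := by exact_mod_cast h7
  exact Finset.card_eq_zero.mp h8

theorem faithfulB {R P : Finset L} (h : FullB Γ R) (hP : Half R P)
    (hs0 : ∑ z ∈ R, z * z ≠ 0) (S : Set L) (hS : ∀ γ : Γ, ∀ z ∈ S, γ • z ∈ S)
    (hx : ∀ γ : Γ, (∀ z ∈ S, γ • z = z) → γ • ∑ z ∈ P, z = ∑ z ∈ P, z) (γ : Γ)
    (hγ : ∀ z ∈ S, γ • z = z) (a : L) (ha : a ∈ R) : γ • a = a := by
  by_contra hne
  have key : ∀ σ : Γ, σ • a ∈ P → σ • (γ • a) ∈ P := by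
    intro σ hσ
    have h3 : ∀ z ∈ S, (σ * γ * σ⁻¹) • z = z := by
      intro z hz
      rw [mul_smul, mul_smul, hγ _ (hS σ⁻¹ z hz), smul_inv_smul]
    have h4 := stabB h hP hs0 (σ * γ * σ⁻¹) (hx _ h3) _ hσ
    rw [mul_smul, mul_smul, inv_smul_smul] at h4
    exact h4
  have hb : γ • a ∈ R := h.1 γ a ha
  by_cases hba : γ • a = - a
  · rw [hba] at key
    by_cases haP : a ∈ P
    · have h1 := key 1 (by rw [one_smul]; exact haP)
      rw [one_smul] at h1
      exact (hP.2.2 a ha).mp haP h1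
    · obtain ⟨σ, h1, -⟩ := sign_at h hP ha
      have h2 : - a ∈ P := by
        by_contra h3
        exact haP ((hP.2.2 a ha).mpr h3)
      have h3 := key σ (by rw [h1]; exact h2)
      rw [smul_neg, h1, neg_neg] at h3
      exact haP h3
  · -- make `a` positive and `γ • a` negative
    obtain ⟨σ, h1, h2⟩ : ∃ σ : Γ, σ • a ∈ P ∧ σ • (γ • a) = γ • a := by
      by_cases haP : a ∈ P
      · exact ⟨1, by rw [one_smul]; exact haP, one_smul _ _⟩
      · obtain ⟨σ, h1, h2⟩ := sign_at h hP ha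
        refine ⟨σ, ?_, h2 _ hb hne hba⟩
        rw [h1]
        by_contra h3
        exact haP ((hP.2.2 a ha).mpr h3)
    by_cases hbP : γ • a ∈ P
    · obtain ⟨τ, h3, h4⟩ := sign_at h hP hb
      have h5 : σ • a ∈ R := h.1 σ a ha
      have h6 : σ • a ≠ γ • a := by
        intro hc
        rw [← h2] at hc
        exact hne (MulAction.injective σ hc).symm
      have h7 : σ • a ≠ - (γ • a) := by
        intro hc
        have hd : σ • a = σ • (- (γ • a)) := by
          rw [smul_neg, h2]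
          exact hc
        have hd2 : a = - (γ • a) := MulAction.injective σ hd
        apply hba
        rw [← neg_neg (γ • a), ← hd2]
      have h8 := key (τ * σ) (by rw [mul_smul, h4 _ h5 h6 h7]; exact h1)
      rw [mul_smul, h2, h3] at h8
      exact (hP.2.2 _ hb).mp hbP h8
    · have h3 := key σ h1
      rw [h2] at h3
      exact hbP h3

open Classical in
/-- Equal sums over the halves force the two sets to be equal. -/
theorem eqB {R P R' P' : Finset L} (h : FullB Γ R) (hP : Half R P) (h' : FullB Γ R')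
    (hP' : Half R' P') (hc : R'.card ≤ R.card) (hs : ∑ z ∈ P, z = ∑ z ∈ P', z)
    (hs0 : ∑ z ∈ R, z * z ≠ 0) : R = R' := by
  obtain ⟨t, ht, hs1⟩ := formB h hP
  obtain ⟨t', ht', hs1'⟩ := formB h' hP'
  have hΓ : (Fintype.card Γ : L) ≠ 0 := by
    have : 0 < Fintype.card Γ := Fintype.card_pos
    exact_mod_cast this.ne'
  have e1 : (P.card : L) * t = (P'.card : L) * t' := by
    rw [← ht P (Finset.Subset.refl P), ← ht' P' (Finset.Subset.refl P'), hs]
  have ht0 : (P.card : L) * t ≠ 0 := by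
    intro hc0
    rw [hc0, mul_zero] at hs1
    exact mul_ne_zero hΓ hs0 hs1.symm
  have ht0' : t' ≠ 0 := by
    intro hc0
    rw [e1, hc0, mul_zero] at ht0
    exact ht0 rfl
  have hcP : P'.card ≤ P.card := by
    have h1 := half_card hP
    have h2 := half_card hP'
    omega
  have hsub : P ⊆ R' := by
    intro u hu
    obtain ⟨γ, h1, h2⟩ := sign_at h hP (hP.1 hu)
    obtain ⟨J, hJ, h3, -⟩ := diffB h'.1 hP' γ
    rw [← hs] at h3
    have h4 : (∑ z ∈ P, z) - γ • (∑ z ∈ P, z) = 2 * u := by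
      rw [Finset.smul_sum, ← Finset.add_sum_erase P _ hu, ← Finset.add_sum_erase P _ hu, h1]
      have h5 : ∑ z ∈ P.erase u, γ • z = ∑ z ∈ P.erase u, z := by
        apply Finset.sum_congr rfl
        intro z hz
        apply h2 z (hP.1 (Finset.mem_of_mem_erase hz)) (Finset.ne_of_mem_erase hz)
        intro hc0
        have h6 := (hP.2.2 u (hP.1 hu)).mp hu
        rw [← hc0] at h6
        exact h6 (Finset.mem_of_mem_erase hz)
      rw [h5]
      ring
    rw [h4] at h3
    have h5 : u = ∑ z ∈ J, z := mul_left_cancel₀ two_ne_zero h3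
    have h6 := ht {u} (Finset.singleton_subset_iff.mpr hu)
    rw [Finset.sum_singleton, Finset.card_singleton, Nat.cast_one, one_mul] at h6
    have h7 := ht' J hJ
    rw [← h5, h6] at h7
    have h8 : ((P.card * J.card : ℕ) : L) = (P'.card : L) := by
      apply mul_right_cancel₀ ht0'
      rw [← e1, h7]
      push_cast
      ring
    have h9 : P.card * J.card = P'.card := by exact_mod_cast h8
    have h10 : J.card ≠ 0 := by
      intro hc0
      rw [Finset.card_eq_zero] at hc0
      rw [hc0, Finset.sum_empty] at h5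
      have h11 := half_ne hP (hP.1 hu)
      apply h11
      rw [h5, neg_zero]
    have h11 : 0 < P.card := Finset.card_pos.mpr ⟨u, hu⟩
    have h12 : J.card = 1 := by
      by_contra hc0
      have h13 : 2 ≤ J.card := by omega
      have h14 : P.card * 2 ≤ P.card * J.card := Nat.mul_le_mul_left _ h13
      omega
    obtain ⟨v, hv⟩ := Finset.card_eq_one.mp h12
    rw [hv, Finset.sum_singleton] at h5
    rw [h5]
    exact hP'.1 (hJ (by rw [hv]; exact Finset.mem_singleton_self v))
  have hsub2 : R ⊆ R' := by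
    intro z hz
    by_cases hzP : z ∈ P
    · exact hsub hzP
    · have h1 : - z ∈ P := by
        by_contra h3
        exact hzP ((hP.2.2 z hz).mpr h3)
      have h2 := hP'.2.1 _ (hsub h1)
      rw [neg_neg] at h2
      exact h2
  exact Finset.eq_of_subset_of_card_le hsub2 hc

end Abs

end Pool.Agent.W_44c680_h9
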