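import Pool.Agent.W_44c680_h9.Gal9

/-!
A finite group of automorphisms of a field that acts on a finite set `R` as the full symmetric
group and preserves a multiset with at most two elements more: equal partial sums force the
multiset to contain a translate of `R` or of `-R`.
-/

set_option autoImplicit false

namespace Pool.Agent.W_44c680_h9

section Abs

variable {Γ L : Type*} [Group Γ] [Fintype Γ] [Field L] [CharZero L] [MulSemiringAction Γ L]

omit [CharZero L] in
theorem pr_add (y z u : L) : pr Γ (y + z) u = pr Γ y u + pr Γ z u := by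
  unfold pr tr
  rw [← Finset.sum_add_distrib]
  apply Finset.sum_congr rfl
  intro γ _
  rw [add_mul, smul_add]

omit [CharZero L] in
theorem pr_zero (u : L) : pr Γ 0 u = 0 := by
  unfold pr tr
  simp

omit [CharZero L] in
theorem pr_int (n : ℤ) (y u : L) : pr Γ ((n : L) * y) u = (n : L) * pr Γ y u := by
  unfold pr tr
  rw [Finset.mul_sum]
  apply Finset.sum_congr rfl
  intro γ _
  rw [mul_assoc, smul_mul']
  congr 1
  exact map_intCast (MulSemiringAction.toRingHom Γ L γ) n

omit [CharZero L] in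
theorem pr_sub (y z u : L) : pr Γ (y - z) u = pr Γ y u - pr Γ z u := by
  have h := pr_add (Γ := Γ) (y - z) z u
  rw [sub_add_cancel] at h
  rw [h]
  ring

omit [CharZero L] in
theorem pr_comb (i j l : ℤ) (y1 y2 y3 u : L) :
    pr Γ ((i : L) * (y1 - y2) + (j : L) * (y2 - y3) + (l : L) * (y3 - y1)) u =
      (i : L) * (pr Γ y1 u - pr Γ y2 u) + (j : L) * (pr Γ y2 u - pr Γ y3 u) +
        (l : L) * (pr Γ y3 u - pr Γ y1 u) := by
  rw [pr_add, pr_add, pr_int, pr_int, pr_int, pr_sub, pr_sub, pr_sub]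

omit [CharZero L] in
theorem pr_msum (s : Multiset L) (u : L) :
    pr Γ s.sum u = (s.map fun y => pr Γ y u).sum := by
  induction s using Multiset.induction_on with
  | empty => simp [pr_zero]
  | cons a s ih => rw [Multiset.sum_cons, Multiset.map_cons, Multiset.sum_cons, pr_add, ih]

omit [CharZero L] [Fintype Γ] in
open Classical in
theorem three_cycle {R : Finset L} (h : Full Γ R) {a b c : L} (ha : a ∈ R) (hb : b ∈ R)
    (hc : c ∈ R) (hab : a ≠ b) (hac : a ≠ c) (hbc : b ≠ c) :
    ∃ γ : Γ, (γ * γ) • a = b ∧ (γ * γ) • b = c ∧ (γ * γ) • c = a ∧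
      ∀ z ∈ R, z ≠ a → z ≠ b → z ≠ c → (γ * γ) • z = z := by
  have e1 : (Equiv.swap a b * Equiv.swap a c) a = c := by
    rw [Equiv.Perm.mul_apply, Equiv.swap_apply_left,
      Equiv.swap_apply_of_ne_of_ne hac.symm hbc.symm]
  have e2 : (Equiv.swap a b * Equiv.swap a c) c = b := by
    rw [Equiv.Perm.mul_apply, Equiv.swap_apply_right, Equiv.swap_apply_left]
  have e3 : (Equiv.swap a b * Equiv.swap a c) b = a := by
    rw [Equiv.Perm.mul_apply, Equiv.swap_apply_of_ne_of_ne hab.symm hbc,
      Equiv.swap_apply_right]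
  have e4 : ∀ z, z ≠ a → z ≠ b → z ≠ c → (Equiv.swap a b * Equiv.swap a c) z = z := by
    intro z h1 h2 h3
    rw [Equiv.Perm.mul_apply, Equiv.swap_apply_of_ne_of_ne h1 h3,
      Equiv.swap_apply_of_ne_of_ne h1 h2]
  obtain ⟨γ, hγ⟩ := h.2 (Equiv.swap a b * Equiv.swap a c) (by
    intro z hz
    by_cases h1 : z = a
    · rw [h1, e1]
      exact hc
    by_cases h2 : z = b
    · rw [h2, e3]
      exact ha
    by_cases h3 : z = c
    · rw [h3, e2]
      exact hb
    rw [e4 z h1 h2 h3]
    exact hz)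
  refine ⟨γ, ?_, ?_, ?_, ?_⟩
  · rw [mul_smul, hγ a ha, e1, hγ c hc, e2]
  · rw [mul_smul, hγ b hb, e3, hγ a ha, e1]
  · rw [mul_smul, hγ c hc, e2, hγ b hb, e3]
  · intro z hz h1 h2 h3
    rw [mul_smul, hγ z hz, e4 z h1 h2 h3, hγ z hz, e4 z h1 h2 h3]

omit [CharZero L] [Fintype Γ] in
open Classical in
theorem three_sum {R S : Finset L} (hS : S ⊆ R) {a b c : L} (ha : a ∈ R) (hb : b ∈ R)
    (hc : c ∈ R) (hab : a ≠ b) (hac : a ≠ c) (hbc : b ≠ c) (γ : Γ) (h1 : γ • a = b)
    (h2 : γ • b = c) (h3 : γ • c = a) (h4 : ∀ z ∈ R, z ≠ a → z ≠ b → z ≠ c → γ • z = z)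
    (f : L → L) :
    ∑ s ∈ S, f s - ∑ s ∈ S, f (γ • s) =
      ((if a ∈ S then 1 else 0 : ℤ) : L) * (f a - f b) +
        ((if b ∈ S then 1 else 0 : ℤ) : L) * (f b - f c) +
          ((if c ∈ S then 1 else 0 : ℤ) : L) * (f c - f a) := by
  have e1 : ∑ s ∈ S, f s - ∑ s ∈ S, f (γ • s) =
      ∑ s ∈ R, ((if s ∈ S then 1 else 0 : ℤ) : L) * (f s - f (γ • s)) := by
    rw [← Finset.sum_sub_distrib, ← Finset.sum_subset hS]
    · apply Finset.sum_congr rfl
      intro s hs
      rw [if_pos hs, Int.cast_one, one_mul]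
    · intro s _ hs
      rw [if_neg hs, Int.cast_zero, zero_mul]
  have hsub : ({a, b, c} : Finset L) ⊆ R := by
    intro z hz
    rw [Finset.mem_insert, Finset.mem_insert, Finset.mem_singleton] at hz
    rcases hz with rfl | rfl | rfl
    · exact ha
    · exact hb
    · exact hc
  rw [e1, ← Finset.sum_subset hsub]
  · rw [Finset.sum_insert (by simp [hab, hac]), Finset.sum_insert (by simp [hbc]),
      Finset.sum_singleton, h1, h2, h3]
    ring
  · intro s hs hs'
    rw [Finset.mem_insert, Finset.mem_insert, Finset.mem_singleton, not_or, not_or] at hs'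
    rw [h4 s hs hs'.1 hs'.2.1 hs'.2.2, sub_self, mul_zero]

omit [CharZero L] [Fintype Γ] in
theorem sq_fix (O : Multiset L) (hO : O.card ≤ 2) (γ : Γ) (h : O.map (fun z => γ • z) = O) :
    ∀ o ∈ O, (γ * γ) • o = o := by
  intro o ho
  rw [mul_smul]
  have hpos : 0 < O.card := Multiset.card_pos_iff_exists_mem.mpr ⟨o, ho⟩
  rcases (by omega : O.card = 1 ∨ O.card = 2) with h1 | h1
  · obtain ⟨a, rfl⟩ := Multiset.card_eq_one.mp h1
    rw [Multiset.map_singleton, Multiset.singleton_inj] at h
    rw [Multiset.mem_singleton] at ho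
    rw [ho, h, h]
  · obtain ⟨a, b, rfl⟩ := Multiset.card_eq_two.mp h1
    have h2 : (γ • a) ::ₘ {γ • b} = ({a, b} : Multiset L) := by
      rw [← h]
      simp
    have h3 : γ • a ∈ ({a, b} : Multiset L) := by
      rw [← h2]
      exact Multiset.mem_cons_self _ _
    have key : (γ • a = a ∧ γ • b = b) ∨ (γ • a = b ∧ γ • b = a) := by
      rcases Multiset.mem_cons.mp h3 with h4 | h4
      · left
        refine ⟨h4, ?_⟩
        rw [h4] at h2
        exact Multiset.singleton_inj.mp ((Multiset.cons_inj_right a).mp h2)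
      · right
        rw [Multiset.mem_singleton] at h4
        refine ⟨h4, ?_⟩
        rw [h4, Multiset.pair_comm a b] at h2
        exact Multiset.singleton_inj.mp ((Multiset.cons_inj_right b).mp h2)
    rcases Multiset.mem_cons.mp ho with h5 | h5
    · rw [h5]
      rcases key with ⟨k1, k2⟩ | ⟨k1, k2⟩
      · rw [k1, k1]
      · rw [k1, k2]
    · rw [Multiset.mem_singleton] at h5
      rw [h5]
      rcases key with ⟨k1, k2⟩ | ⟨k1, k2⟩
      · rw [k2, k2]
      · rw [k2, k1]

open Classical in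
/-- Equal partial sums force the multiset to contain a translate of `R` or of `-R`. -/
theorem shift {R : Finset L} (h : Full Γ R) (hR : ∑ z ∈ R, z = 0) (hd : 6 ≤ R.card)
    (hs0 : ∑ z ∈ R, z * z ≠ 0) {P : Finset L} (hP : P ⊆ R) {a c : L} (ha : a ∈ P) (hc : c ∈ R)
    (hc' : c ∉ P) (M : Multiset L) (hM : ∀ γ : Γ, M.map (fun z => γ • z) = M)
    (hcard : M.card ≤ R.card + 2) (p : L → Prop) [DecidablePred p]
    (hx : ∑ z ∈ P, z = (M.filter p).sum) :
    ∃ (k : ℤ) (w : L) (O : Multiset L), (k = 1 ∨ k = -1) ∧ (∀ γ : Γ, γ • w = w) ∧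
      M = R.val.map (fun s => (k : L) * s + w) + O ∧ O.card ≤ 2 := by
  obtain ⟨t, τ, hf, hτ⟩ := form h hR (by omega)
  have hΓ : (Fintype.card Γ : L) ≠ 0 := by
    have : 0 < Fintype.card Γ := Fintype.card_pos
    exact_mod_cast this.ne'
  have hτ0 : τ ≠ 0 := by
    intro hcon
    rw [hcon, mul_zero] at hτ
    exact mul_ne_zero hΓ hs0 hτ.symm
  have haR : a ∈ R := hP ha
  have hac : a ≠ c := fun hcon => hc' (hcon ▸ ha)
  -- the pairing of the common sum
  have hpx : ∀ u ∈ R, pr Γ (∑ z ∈ P, z) u = (P.card : L) * t + if u ∈ P then τ else 0 := by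
    intro u hu
    have h1 : pr Γ (∑ z ∈ P, z) u = ∑ z ∈ P, pr Γ z u := by
      unfold pr
      rw [Finset.sum_mul, tr_sum]
    have h2 : ∀ z ∈ P, pr Γ z u = t + if z = u then τ else 0 := fun z hz => hf z (hP hz) u hu
    rw [h1, Finset.sum_congr rfl h2, Finset.sum_add_distrib, Finset.sum_const, nsmul_eq_mul,
      Finset.sum_ite_eq']
  set T := M.toFinset with hTdef
  have hTc : T.card ≤ R.card + 2 := (Multiset.toFinset_card_le M).trans hcard
  have hT : ∀ γ : Γ, ∀ y ∈ T, γ • y ∈ T := by
    intro γ y hy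
    rw [hTdef, Multiset.mem_toFinset] at hy ⊢
    rw [← hM γ]
    exact Multiset.mem_map_of_mem _ hy
  have hn : ∃ y ∈ T, NC Γ R y := by
    by_contra hcon
    push Not at hcon
    have h1 : ∀ y ∈ M.filter p, pr Γ y a = pr Γ y c := by
      intro y hy
      by_contra h2
      exact hcon y (by
        rw [hTdef, Multiset.mem_toFinset]
        exact Multiset.mem_of_mem_filter hy) ⟨a, haR, c, hc, h2⟩
    have h2 : pr Γ (M.filter p).sum a = pr Γ (M.filter p).sum c := by
      rw [pr_msum, pr_msum]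
      congr 1
      exact Multiset.map_congr rfl h1
    rw [← hx, hpx a haR, hpx c hc, if_pos ha, if_neg hc', add_zero] at h2
    exact hτ0 (by linear_combination h2)
  obtain ⟨φ, φT, φe, φi, A, B, hAB, φv⟩ := phi_exists h hT hd hTc hn
  -- the multiset splits
  have hle : R.val.map φ ≤ M := by
    rw [Multiset.le_iff_subset]
    · intro z hz
      obtain ⟨s, hs, rfl⟩ := Multiset.mem_map.mp hz
      have h1 := φT s hs
      rw [hTdef, Multiset.mem_toFinset] at h1
      exact h1
    · exact Multiset.Nodup.map_on (fun s hs s' hs' heq => φi s hs s' hs' heq) R.nodup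
  obtain ⟨O, hO⟩ := Multiset.le_iff_exists_add.mp hle
  have hOc : O.card ≤ 2 := by
    have h1 := congrArg Multiset.card hO
    rw [Multiset.card_add, Multiset.card_map] at h1
    have h2 : R.val.card = R.card := rfl
    omega
  have hOγ : ∀ γ : Γ, O.map (fun z => γ • z) = O := by
    intro γ
    have h1 := hM γ
    have h2 : (R.val.map φ).map (fun z => γ • z) = R.val.map φ := by
      have h3 : R.val.map (fun z => γ • z) = R.val := by
        conv_rhs => rw [← image_eq h γ]
        rw [Finset.image_val_of_injOn ((MulAction.injective γ).injOn)]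
      rw [Multiset.map_map]
      conv_rhs => rw [← h3]
      rw [Multiset.map_map]
      apply Multiset.map_congr rfl
      intro s hs
      exact φe γ s hs
    rw [hO, Multiset.map_add, h2] at h1
    exact add_left_cancel h1
  -- the three-cycle
  obtain ⟨b, hb, hba, hbc⟩ := other (R := R) (by omega) a c
  obtain ⟨γ0, g1, g2, g3, g4⟩ := three_cycle h haR hb hc hba.symm hac hbc
  set γ := γ0 * γ0 with hγdef
  have hfix := sq_fix O hOc γ0 (hOγ γ0)
  set Q := R.filter (fun s => p (φ s)) with hQ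
  have hQR : Q ⊆ R := Finset.filter_subset _ _
  have hx2 : ∑ z ∈ P, z = ∑ s ∈ Q, φ s + (O.filter p).sum := by
    rw [hx, hO, Multiset.filter_add, Multiset.sum_add, Multiset.filter_map]
    rfl
  have hω : γ • (O.filter p).sum = (O.filter p).sum := by
    rw [Multiset.smul_sum]
    conv_rhs => rw [← Multiset.map_id (O.filter p)]
    congr 1
    apply Multiset.map_congr rfl
    intro o ho
    exact hfix o (Multiset.mem_of_mem_filter ho)
  have D1 := three_sum hP haR hb hc hba.symm hac hbc γ g1 g2 g3 g4 (fun z => z)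
  have D2 := three_sum hQR haR hb hc hba.symm hac hbc γ g1 g2 g3 g4 φ
  have hD : (∑ s ∈ P, s - ∑ s ∈ P, γ • s) = ∑ s ∈ Q, φ s - ∑ s ∈ Q, φ (γ • s) := by
    have h1 : ∑ s ∈ P, γ • s = ∑ s ∈ Q, φ (γ • s) + (O.filter p).sum := by
      rw [← Finset.smul_sum, hx2, smul_add, hω, Finset.smul_sum]
      congr 1
      apply Finset.sum_congr rfl
      intro s hs
      exact φe γ s (hQR hs)
    rw [h1, hx2]
    ring
  rw [D1, D2] at hD
  have va : ∀ u ∈ R, ∀ v ∈ R, u ≠ v → pr Γ u v = t := by
    intro u hu v hv huv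
    show tr Γ (u * v) = t
    rw [hf u hu v hv, if_neg huv, add_zero]
  have vb : ∀ u ∈ R, pr Γ u u = t + τ := by
    intro u hu
    show tr Γ (u * u) = t + τ
    rw [hf u hu u hu, if_pos rfl]
  have ea := congrArg (fun z => pr Γ z a) hD
  have eb := congrArg (fun z => pr Γ z b) hD
  simp only [pr_comb] at ea eb
  rw [vb a haR, va b hb a haR hba, va c hc a haR hac.symm, (φv a haR).1,
    (φv b hb).2 a haR hba.symm, (φv c hc).2 a haR hac] at ea
  rw [va a haR b hb hba.symm, vb b hb, va c hc b hb hbc.symm, (φv a haR).2 b hb hba,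
    (φv b hb).1, (φv c hc).2 b hb hbc] at eb
  rw [if_pos ha, if_neg hc'] at hD ea eb
  have one0 : (1 : L) ≠ 0 := one_ne_zero
  obtain ⟨k, s, r, hk, hs, hr, hsr, hkr⟩ : ∃ (k : ℤ) (s r : L), (k = 1 ∨ k = -1) ∧ s ∈ R ∧
      r ∈ R ∧ s ≠ r ∧ φ s - φ r = (k : L) * (s - r) := by
    by_cases qa : a ∈ Q <;> by_cases qb : b ∈ Q <;> by_cases qc : c ∈ Q <;>
      by_cases pb : b ∈ P <;>
      simp only [qa, qb, qc, pb, if_true, if_false, Int.cast_one, Int.cast_zero] at hD ea eb
    -- in each of the sixteen cases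
    · exact absurd (show τ = 0 by linear_combination ea) hτ0
    · exact absurd (show τ = 0 by linear_combination ea) hτ0
    · exact ⟨1, a, c, Or.inl rfl, haR, hc, hac, by push_cast; linear_combination -hD⟩
    · exact absurd (show τ = 0 by linear_combination -eb) hτ0
    · exact absurd (show τ = 0 by linear_combination ea) hτ0
    · exact absurd (show τ = 0 by linear_combination ea) hτ0
    · exact absurd (show τ = 0 by linear_combination ea + eb) hτ0
    · exact ⟨1, a, b, Or.inl rfl, haR, hb, hba.symm, by push_cast; linear_combination -hD⟩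
    · exact absurd (show τ = 0 by linear_combination ea + eb) hτ0
    · exact ⟨-1, a, b, Or.inr rfl, haR, hb, hba.symm, by push_cast; linear_combination hD⟩
    · exact absurd (show τ = 0 by linear_combination ea) hτ0
    · exact absurd (show τ = 0 by linear_combination ea) hτ0
    · exact ⟨-1, a, c, Or.inr rfl, haR, hc, hac, by push_cast; linear_combination hD⟩
    · exact absurd (show τ = 0 by linear_combination -eb) hτ0
    · exact absurd (show τ = 0 by linear_combination ea) hτ0
    · exact absurd (show τ = 0 by linear_combination ea) hτ0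
  have hkγ : ∀ (σ : Γ) (z : L), σ • ((k : L) * z) = (k : L) * σ • z := by
    intro σ z
    rw [smul_mul']
    congr 1
    exact map_intCast (MulSemiringAction.toRingHom Γ L σ) k
  have all : ∀ u ∈ R, φ u = (k : L) * u + (φ s - (k : L) * s) := by
    intro u hu
    by_cases hus : u = s
    · rw [hus]
      ring
    · obtain ⟨σ, h1, h2⟩ := full_pair h hs hr hu hs hsr hus
      have h3 := congrArg (fun z => σ • z) hkr
      simp only [smul_sub, hkγ] at h3
      rw [φe σ s hs, φe σ r hr, h1, h2] at h3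
      linear_combination h3
  refine ⟨k, φ s - (k : L) * s, O, hk, ?_, ?_, hOc⟩
  · intro σ
    rw [smul_sub, hkγ, φe σ s hs]
    have h1 := all (σ • s) (h.1 σ s hs)
    linear_combination h1
  · conv_lhs => rw [hO]
    congr 1
    exact Multiset.map_congr rfl fun u hu => all u hu

end Abs

end Pool.Agent.W_44c680_h9
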