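import Pool.Agent.W_44c680_h9.Bip9
import Pool.Agent.W_44c680_h9.Gal10

/-!
A finite group of automorphisms of a field that contains the three-cycles and the changes of two
signs on a symmetric set `R`, and preserves a second symmetric set with at most two elements more.
-/

set_option autoImplicit false

namespace Pool.Agent.W_44c680_h9

section Abs

variable {Γ L : Type*} [Group Γ] [Fintype Γ] [Field L] [CharZero L] [MulSemiringAction Γ L]

omit [CharZero L] in
theorem pr_neg (y u : L) : pr Γ (-y) u = - pr Γ y u := by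
  have h := pr_sub (Γ := Γ) 0 y u
  rw [zero_sub, pr_zero, zero_sub] at h
  exact h

omit [CharZero L] in
theorem pr_neg' (y u : L) : pr Γ y (-u) = - pr Γ y u := by
  unfold pr
  rw [mul_neg, ← neg_mul]
  exact pr_neg y u

/-- The positive representative. -/
noncomputable def posr {L : Type*} [Field L] (ι : L →+* ℝ) (y : L) : L :=
  open Classical in if 0 < ι y then y else - y

omit [CharZero L] [Group Γ] [Fintype Γ] [MulSemiringAction Γ L] in
theorem posr_cases (ι : L →+* ℝ) (y : L) : posr ι y = y ∨ posr ι y = - y := by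
  unfold posr
  split_ifs
  · exact Or.inl rfl
  · exact Or.inr rfl

omit [CharZero L] [Group Γ] [Fintype Γ] [MulSemiringAction Γ L] in
theorem posr_eq (ι : L →+* ℝ) {y z : L} (h : posr ι y = posr ι z) : y = z ∨ y = - z := by
  rcases posr_cases ι y with h1 | h1 <;> rcases posr_cases ι z with h2 | h2 <;>
    rw [h1, h2] at h
  · exact Or.inl h
  · exact Or.inr h
  · right
    rw [← h, neg_neg]
  · exact Or.inl (neg_injective h)

omit [CharZero L] [Group Γ] [Fintype Γ] [MulSemiringAction Γ L] in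
open Classical in
theorem posr_mem (ι : L →+* ℝ) {T : Finset L} (hN : ∀ y ∈ T, - y ∈ T) (h0 : (0 : L) ∉ T)
    {y : L} (hy : y ∈ T) : posr ι y ∈ T.filter (fun z => 0 < ι z) := by
  rw [Finset.mem_filter]
  unfold posr
  by_cases h1 : 0 < ι y
  · rw [if_pos h1]
    exact ⟨hy, h1⟩
  · rw [if_neg h1, map_neg]
    refine ⟨hN y hy, ?_⟩
    have h2 : ι y ≠ 0 := by
      intro hc
      apply h0
      have h3 : y = 0 := ι.injective (by rw [hc, map_zero])
      rw [← h3]
      exact hy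
    have h3 := lt_of_le_of_ne (not_lt.mp h1) h2
    linarith

omit [CharZero L] [Fintype Γ] in
open Classical in
theorem count_pos (ι : L →+* ℝ) {T : Finset L} (hT : ∀ γ : Γ, ∀ y ∈ T, γ • y ∈ T)
    (hN : ∀ y ∈ T, - y ∈ T) (h0 : (0 : L) ∉ T) {α : Type*} (I : Finset α) (g : α → Γ) {y : L}
    (hy : y ∈ T) (hi : ∀ i ∈ I, ∀ j ∈ I, i ≠ j → g i • y ≠ g j • y ∧ g i • y ≠ - (g j • y)) :
    I.card ≤ (T.filter fun z => 0 < ι z).card := by
  rw [← Finset.card_image_of_injOn (f := fun i => posr ι (g i • y)) (s := I)]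
  · apply Finset.card_le_card
    intro z hz
    obtain ⟨i, -, rfl⟩ := Finset.mem_image.mp hz
    exact posr_mem ι hN h0 (hT _ y hy)
  · intro i hi' j hj heq
    by_contra hne
    obtain ⟨h1, h2⟩ := hi i hi' j hj hne
    rcases posr_eq ι heq with h3 | h3
    · exact h1 h3
    · exact h2 h3

omit [CharZero L] in
open Classical in
/-- The support of the pairing cannot have two elements inside and two outside. -/
theorem count_i (ι : L →+* ℝ) {R P T : Finset L} (hP : Half R P) (hC : Cyc Γ R)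
    (hT : ∀ γ : Γ, ∀ y ∈ T, γ • y ∈ T) (hN : ∀ y ∈ T, - y ∈ T) (h0 : (0 : L) ∉ T) {y : L}
    (hy : y ∈ T) (h2 : 2 ≤ (P \ P.filter fun u => pr Γ y u ≠ 0).card) :
    (P.filter fun u => pr Γ y u ≠ 0).card * (P \ P.filter fun u => pr Γ y u ≠ 0).card ≤
      (T.filter fun z => 0 < ι z).card := by
  set S := P.filter fun u => pr Γ y u ≠ 0 with hS
  have memS : ∀ u ∈ P, u ∈ S ↔ pr Γ y u ≠ 0 := by
    intro u hu
    rw [hS, Finset.mem_filter]
    exact ⟨fun h => h.2, fun h => ⟨hu, h⟩⟩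
  have hSP : S ⊆ P := Finset.filter_subset _ _
  have h1 : ∀ a ∈ S, ∀ b ∈ P \ S, ∃ γ : Γ, pr Γ (γ • y) a = 0 ∧ pr Γ (γ • y) b ≠ 0 ∧
      (∀ u ∈ S, u ≠ a → pr Γ (γ • y) u ≠ 0) ∧
        ∀ u ∈ P \ S, u ≠ b → pr Γ (γ • y) u = 0 := by
    intro a ha b hb
    obtain ⟨c, hc, hcb⟩ : ∃ c ∈ P \ S, c ≠ b := by
      obtain ⟨c, hc, d, hd, hcd⟩ := Finset.one_lt_card.mp (by omega : 1 < (P \ S).card)
      by_cases h3 : c = b
      · exact ⟨d, hd, fun h4 => hcd (h3.trans h4.symm)⟩
      · exact ⟨c, hc, h3⟩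
    have hb' := Finset.mem_sdiff.mp hb
    have hc' := Finset.mem_sdiff.mp hc
    have haP := hSP ha
    have nab : a ≠ b := fun h3 => hb'.2 (h3 ▸ ha)
    have nac : a ≠ c := fun h3 => hc'.2 (h3 ▸ ha)
    obtain ⟨γ, g1, g2, g3, g4⟩ := hC a (hP.1 haP) b (hP.1 hb'.1) c (hP.1 hc'.1) nab
      (half_neg hP hb'.1 haP) nac (half_neg hP hc'.1 haP) hcb.symm (half_neg hP hc'.1 hb'.1)
    refine ⟨γ, ?_, ?_, ?_, ?_⟩
    · rw [pr_inv, inv_smul_eq_iff.mpr g3.symm]
      by_contra h3
      exact hc'.2 ((memS c hc'.1).mpr h3)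
    · rw [pr_inv, inv_smul_eq_iff.mpr g1.symm]
      exact (memS a haP).mp ha
    · intro u hu hua
      have huP := hSP hu
      have h3 := g4 u (hP.1 huP) hua (half_neg hP haP huP) (fun h4 => hb'.2 (h4 ▸ hu))
        (half_neg hP hb'.1 huP) (fun h4 => hc'.2 (h4 ▸ hu)) (half_neg hP hc'.1 huP)
      rw [pr_inv, inv_smul_eq_iff.mpr h3.symm]
      exact (memS u huP).mp hu
    · intro u hu hub
      have hu' := Finset.mem_sdiff.mp hu
      by_cases huc : u = c
      · rw [huc, pr_inv, inv_smul_eq_iff.mpr g2.symm]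
        by_contra h3
        exact hb'.2 ((memS b hb'.1).mpr h3)
      · have h3 := g4 u (hP.1 hu'.1) (fun h4 => hu'.2 (h4 ▸ ha)) (half_neg hP haP hu'.1) hub
          (half_neg hP hb'.1 hu'.1) huc (half_neg hP hc'.1 hu'.1)
        rw [pr_inv, inv_smul_eq_iff.mpr h3.symm]
        by_contra h4
        exact hu'.2 ((memS u hu'.1).mpr h4)
  choose! g hg using h1
  rw [← Finset.card_product]
  apply count_pos ι hT hN h0 (S ×ˢ (P \ S)) (fun p => g p.1 p.2) hy
  intro p hp p' hp' hne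
  rw [Finset.mem_product] at hp hp'
  obtain ⟨a1, a2, a3, a4⟩ := hg p.1 hp.1 p.2 hp.2
  obtain ⟨b1, b2, b3, b4⟩ := hg p'.1 hp'.1 p'.2 hp'.2
  obtain ⟨u, hu⟩ : ∃ u, ¬ (pr Γ (g p.1 p.2 • y) u = 0 ↔ pr Γ (g p'.1 p'.2 • y) u = 0) := by
    by_cases h3 : p.1 = p'.1
    · have h4 : p.2 ≠ p'.2 := fun h5 => hne (Prod.ext h3 h5)
      refine ⟨p.2, fun h5 => a2 (h5.mpr (b4 p.2 hp.2 h4))⟩
    · exact ⟨p.1, fun h5 => b3 p.1 hp.1 h3 (h5.mp a1)⟩
  constructor
  · intro h3
    apply hu
    rw [h3]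
  · intro h3
    apply hu
    rw [h3, pr_neg, neg_eq_zero]

open Classical in
/-- The support of the pairing cannot be almost everything. -/
theorem count_ii (ι : L →+* ℝ) {R P T : Finset L} (h : Pairs Γ R) (hP : Half R P)
    (hT : ∀ γ : Γ, ∀ y ∈ T, γ • y ∈ T) (hN : ∀ y ∈ T, - y ∈ T) (h0 : (0 : L) ∉ T) {y : L}
    (hy : y ∈ T) (h5 : 5 ≤ (P.filter fun u => pr Γ y u ≠ 0).card) :
    (P.filter fun u => pr Γ y u ≠ 0).card.choose 2 ≤ (T.filter fun z => 0 < ι z).card := by
  set S := P.filter fun u => pr Γ y u ≠ 0 with hS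
  have memS : ∀ u ∈ S, pr Γ y u ≠ 0 := fun u hu => (Finset.mem_filter.mp hu).2
  have hSP : S ⊆ P := Finset.filter_subset _ _
  have h1 : ∀ A ∈ Finset.powersetCard 2 S, ∃ γ : Γ, ∀ u ∈ P,
      pr Γ (γ • y) u = if u ∈ A then - pr Γ y u else pr Γ y u := by
    intro A hA
    rw [Finset.mem_powersetCard] at hA
    obtain ⟨a, b, hab, rfl⟩ := Finset.card_eq_two.mp hA.2
    have ha : a ∈ P := hSP (hA.1 (Finset.mem_insert_self a _))
    have hb : b ∈ P := hSP (hA.1 (Finset.mem_insert_of_mem (Finset.mem_singleton_self b)))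
    obtain ⟨γ, g1, g2, g3⟩ := h.2 a (hP.1 ha) b (hP.1 hb) hab.symm (half_neg hP ha hb)
    refine ⟨γ, fun u hu => ?_⟩
    rw [pr_inv]
    by_cases h2 : u = a
    · have h3 : γ • (- a) = a := by rw [smul_neg, g1, neg_neg]
      rw [h2, if_pos (Finset.mem_insert_self a _), inv_smul_eq_iff.mpr h3.symm, pr_neg']
    by_cases h3 : u = b
    · have h4 : γ • (- b) = b := by rw [smul_neg, g2, neg_neg]
      rw [h3, if_pos (Finset.mem_insert_of_mem (Finset.mem_singleton_self b)),
        inv_smul_eq_iff.mpr h4.symm, pr_neg']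
    have h4 : u ∉ ({a, b} : Finset L) := by
      rw [Finset.mem_insert, Finset.mem_singleton, not_or]
      exact ⟨h2, h3⟩
    rw [if_neg h4, inv_smul_eq_iff.mpr
      (g3 u (hP.1 hu) h2 (half_neg hP ha hu) h3 (half_neg hP hb hu)).symm]
  choose! g hg using h1
  rw [← Finset.card_powersetCard]
  apply count_pos ι hT hN h0 (Finset.powersetCard 2 S) g hy
  have two : ∀ x : L, x = - x → x = 0 := by
    intro x hx
    have h2 : (2 : L) * x = 0 := by linear_combination hx
    exact (mul_eq_zero.mp h2).resolve_left two_ne_zero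
  intro A hA B hB hAB
  have hA' := Finset.mem_powersetCard.mp hA
  have hB' := Finset.mem_powersetCard.mp hB
  constructor
  · intro heq
    obtain ⟨u, hu, hu'⟩ : ∃ u ∈ A, u ∉ B := by
      by_contra hc
      push Not at hc
      exact hAB (Finset.eq_of_subset_of_card_le hc (by omega))
    have h2 := hg A hA u (hSP (hA'.1 hu))
    rw [heq, hg B hB u (hSP (hA'.1 hu)), if_pos hu, if_neg hu'] at h2
    exact memS u (hA'.1 hu) (two _ h2)
  · intro heq
    obtain ⟨u, hu, hu'⟩ : ∃ u ∈ S, u ∉ A ∪ B := by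
      apply Finset.exists_mem_notMem_of_card_lt_card
      have := Finset.card_union_le A B
      omega
    rw [Finset.mem_union, not_or] at hu'
    have h2 := hg A hA u (hSP hu)
    rw [heq, pr_neg, hg B hB u (hSP hu), if_neg hu'.1, if_neg hu'.2] at h2
    exact memS u hu (two _ h2.symm)

open Classical in
/-- A point of the small symmetric invariant set with nonzero pairing has one exceptional
point. -/
theorem exceptionalB (ι : L →+* ℝ) {R P T : Finset L} (h : Pairs Γ R) (hP : Half R P)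
    (hC : Cyc Γ R) (hm : 6 ≤ P.card) (hT : ∀ γ : Γ, ∀ y ∈ T, γ • y ∈ T)
    (hN : ∀ y ∈ T, - y ∈ T) (h0 : (0 : L) ∉ T)
    (hc : (T.filter fun z => 0 < ι z).card ≤ P.card + 1) {y : L} (hy : y ∈ T)
    (hn : ∃ u ∈ P, pr Γ y u ≠ 0) :
    ∃ s ∈ P, pr Γ y s ≠ 0 ∧ ∀ u ∈ P, u ≠ s → pr Γ y u = 0 := by
  set S := P.filter fun u => pr Γ y u ≠ 0 with hS
  have hcard := Finset.card_sdiff_add_card_eq_card (Finset.filter_subset
    (fun u => pr Γ y u ≠ 0) P)
  rw [← hS] at hcard
  have hpos : 0 < S.card := by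
    obtain ⟨u, hu, hu'⟩ := hn
    exact Finset.card_pos.mpr ⟨u, Finset.mem_filter.mpr ⟨hu, hu'⟩⟩
  have hone : S.card = 1 := by
    by_contra hne
    by_cases h2 : 2 ≤ (P \ S).card
    · have h3 := (count_i ι hP hC hT hN h0 hy h2).trans hc
      obtain ⟨a, ha⟩ := Nat.exists_eq_add_of_le (by omega : 2 ≤ S.card)
      obtain ⟨b, hb⟩ := Nat.exists_eq_add_of_le h2
      rw [ha, hb] at hcard
      rw [← hS, ha, hb] at h3
      nlinarith [Nat.zero_le (a * b)]
    · have h3 := (count_ii ι h hP hT hN h0 hy (by rw [← hS]; omega)).trans hc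
      rw [← hS] at h3
      have h4 : (P.card - 1).choose 2 ≤ S.card.choose 2 := Nat.choose_le_choose 2 (by omega)
      obtain ⟨n, hn'⟩ := Nat.exists_eq_add_of_le (by omega : 5 ≤ P.card - 1)
      have h5 : P.card = n + 6 := by omega
      have h6 := Nat.add_one_mul_choose_eq (n + 4) 1
      rw [Nat.choose_one_right] at h6
      have h7 : (P.card - 1).choose 2 * 2 = (n + 5) * (n + 4) := by
        rw [hn', add_comm 5 n]
        exact h6.symm
      nlinarith
  obtain ⟨s, hs⟩ := Finset.card_eq_one.mp hone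
  have hsS : s ∈ S := by
    rw [hs]
    exact Finset.mem_singleton_self s
  refine ⟨s, (Finset.mem_filter.mp hsS).1, (Finset.mem_filter.mp hsS).2, fun u hu hus => ?_⟩
  by_contra hcon
  have : u ∈ S := Finset.mem_filter.mpr ⟨hu, hcon⟩
  rw [hs, Finset.mem_singleton] at this
  exact hus this

end Abs

end Pool.Agent.W_44c680_h9
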