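import Pool.Agent.W_44c680_h9.Bip10

/-!
A finite group of automorphisms of a field that contains the three-cycles and the changes of two
signs on a symmetric set `R`, and preserves a symmetric multiset with at most two elements more:
equal sums of representatives force the multiset to contain `R`.
-/

set_option autoImplicit false

namespace Pool.Agent.W_44c680_h9

section Abs

variable {Γ L : Type*} [Group Γ] [Fintype Γ] [Field L] [CharZero L] [MulSemiringAction Γ L]

/-- The pairing with `y` vanishes on `R` outside of `s` and `-s`. -/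
def ExB (Γ : Type*) {L : Type*} [Group Γ] [Fintype Γ] [Field L] [MulSemiringAction Γ L]
    (R : Finset L) (y s : L) : Prop :=
  s ∈ R ∧ pr Γ y s ≠ 0 ∧ ∀ u ∈ R, u ≠ s → u ≠ - s → pr Γ y u = 0

omit [CharZero L] in
theorem exB_of {R P : Finset L} (hP : Half R P) {y s : L} (hs : s ∈ P) (h1 : pr Γ y s ≠ 0)
    (h2 : ∀ u ∈ P, u ≠ s → pr Γ y u = 0) : ExB Γ R y s := by
  refine ⟨hP.1 hs, h1, fun u hu n1 n2 => ?_⟩
  by_cases huP : u ∈ P
  · exact h2 u huP n1
  · have h3 : - u ∈ P := by
      by_contra h4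
      exact huP ((hP.2.2 u hu).mpr h4)
    have h4 := h2 (-u) h3 (fun h5 => n2 (by rw [← h5, neg_neg]))
    rw [pr_neg', neg_eq_zero] at h4
    exact h4

omit [CharZero L] in
theorem exB_smul {R : Finset L} (h : ∀ γ : Γ, ∀ z ∈ R, γ • z ∈ R) {y s : L}
    (h1 : ExB Γ R y s) (γ : Γ) : ExB Γ R (γ • y) (γ • s) := by
  refine ⟨h γ s h1.1, by rw [pr_smul]; exact h1.2.1, fun u hu n1 n2 => ?_⟩
  rw [pr_inv]
  apply h1.2.2 _ (h _ u hu)
  · intro hc
    exact n1 (by rw [← hc, smul_inv_smul])
  · intro hc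
    exact n2 (by rw [← smul_neg, ← hc, smul_inv_smul])

omit [CharZero L] in
theorem exB_neg {R P : Finset L} (hP : Half R P) {y s : L} (h1 : ExB Γ R y s) :
    ExB Γ R y (-s) := by
  refine ⟨hP.2.1 s h1.1, by rw [pr_neg', neg_ne_zero]; exact h1.2.1, fun u hu n1 n2 => ?_⟩
  rw [neg_neg] at n2
  exact h1.2.2 u hu n2 n1

omit [CharZero L] in
theorem exB_neg' {R : Finset L} {y s : L} (h1 : ExB Γ R y s) : ExB Γ R (-y) s := by
  refine ⟨h1.1, by rw [pr_neg, neg_ne_zero]; exact h1.2.1, fun u hu n1 n2 => ?_⟩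
  rw [pr_neg, h1.2.2 u hu n1 n2, neg_zero]

omit [CharZero L] in
theorem exB_two {R : Finset L} {y s s' : L} (h1 : ExB Γ R y s) (h2 : ExB Γ R y s') :
    s' = s ∨ s' = - s := by
  by_contra hc
  rw [not_or] at hc
  exact h2.2.1 (h1.2.2 s' h2.1 hc.1 hc.2)

omit [CharZero L] [Fintype Γ] in
theorem trans2 {R P : Finset L} (h : Pairs Γ R) (hM : Moves Γ R) (hP : Half R P)
    (h3 : 3 ≤ P.card) {s t : L} (hs : s ∈ R) (ht : t ∈ R) : ∃ γ : Γ, γ • s = t := by
  by_cases h1 : t = s
  · exact ⟨1, by rw [one_smul, h1]⟩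
  by_cases h2 : t = - s
  · obtain ⟨w, hw, w1, w2⟩ := third h3 s (-s)
    obtain ⟨γ, g1, -, -⟩ := h.2 s hs w (hP.1 hw) w1 w2
    exact ⟨γ, by rw [g1, h2]⟩
  · exact hM s hs t ht h1 h2

omit [CharZero L] in
open Classical in
/-- The exceptional point determines the point up to the sign. -/
theorem exB_inj (ι : L →+* ℝ) {R P T : Finset L} (h : Pairs Γ R) (hM : Moves Γ R)
    (hP : Half R P) (h3 : 3 ≤ P.card) (hT : ∀ γ : Γ, ∀ y ∈ T, γ • y ∈ T)
    (hN : ∀ y ∈ T, - y ∈ T) (h0 : (0 : L) ∉ T)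
    (hc : (T.filter fun z => 0 < ι z).card ≤ P.card + 1) {y y1 s : L} (hy : y ∈ T)
    (hy1 : y1 ∈ T) (he : ExB Γ R y s) (he1 : ExB Γ R y1 s) : y1 = y ∨ y1 = - y := by
  by_contra hne
  rw [not_or] at hne
  have h1 : ∀ t ∈ P, ∃ γ : Γ, γ • s = t := fun t ht => trans2 h hM hP h3 he.1 (hP.1 ht)
  choose! g hg using h1
  have inj : ∀ z z' : L, ExB Γ R z s → ExB Γ R z' s → ∀ t ∈ P, ∀ t' ∈ P,
      posr ι (g t • z) = posr ι (g t' • z') → t = t' := by
    intro z z' e1 e2 t ht t' ht' heq
    have e3 := exB_smul h.1 e1 (g t)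
    have e4 := exB_smul h.1 e2 (g t')
    rw [hg t ht] at e3
    rw [hg t' ht'] at e4
    have e5 : ExB Γ R (g t' • z') t := by
      rcases posr_eq ι heq with h4 | h4
      · rw [← h4]
        exact e3
      · have h5 := exB_neg' e3
        rw [h4, neg_neg] at h5
        exact h5
    rcases exB_two e5 e4 with h4 | h4
    · exact h4.symm
    · exact absurd h4 (half_neg hP ht ht')
  have c1 : (P.image fun t => posr ι (g t • y)).card = P.card :=
    Finset.card_image_of_injOn fun t ht t' ht' heq => inj y y he he t ht t' ht' heq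
  have c2 : (P.image fun t => posr ι (g t • y1)).card = P.card :=
    Finset.card_image_of_injOn fun t ht t' ht' heq => inj y1 y1 he1 he1 t ht t' ht' heq
  have hdis : Disjoint (P.image fun t => posr ι (g t • y))
      (P.image fun t => posr ι (g t • y1)) := by
    rw [Finset.disjoint_left]
    intro z hz hz'
    obtain ⟨t, ht, h4⟩ := Finset.mem_image.mp hz
    obtain ⟨t', ht', h5⟩ := Finset.mem_image.mp hz'
    have h6 : posr ι (g t • y) = posr ι (g t' • y1) := h4.trans h5.symm
    have h7 := inj y y1 he he1 t ht t' ht' h6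
    rw [h7] at h6
    rcases posr_eq ι h6 with h8 | h8
    · exact hne.1 (MulAction.injective _ h8).symm
    · rw [← smul_neg] at h8
      apply hne.2
      rw [MulAction.injective _ h8, neg_neg]
  have hsub : (P.image fun t => posr ι (g t • y)) ∪ (P.image fun t => posr ι (g t • y1)) ⊆
      T.filter fun z => 0 < ι z := by
    intro z hz
    rcases Finset.mem_union.mp hz with h4 | h4
    · obtain ⟨t, -, rfl⟩ := Finset.mem_image.mp h4
      exact posr_mem ι hN h0 (hT _ y hy)
    · obtain ⟨t, -, rfl⟩ := Finset.mem_image.mp h4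
      exact posr_mem ι hN h0 (hT _ y1 hy1)
  have h6 := Finset.card_le_card hsub
  rw [Finset.card_union_of_disjoint hdis, c1, c2] at h6
  omega

open Classical in
/-- The equivariant odd injection of `R` into the small symmetric invariant set. -/
theorem phiB (ι : L →+* ℝ) {R P T : Finset L} (h : Pairs Γ R) (hM : Moves Γ R)
    (hP : Half R P) (hC : Cyc Γ R) (hm : 6 ≤ P.card) (hT : ∀ γ : Γ, ∀ y ∈ T, γ • y ∈ T)
    (hN : ∀ y ∈ T, - y ∈ T) (h0 : (0 : L) ∉ T)
    (hc : (T.filter fun z => 0 < ι z).card ≤ P.card + 1)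
    (hn : ∃ y ∈ T, ∃ u ∈ P, pr Γ y u ≠ 0) :
    ∃ φ : L → L, (∀ t ∈ R, φ t ∈ T) ∧ (∀ γ : Γ, ∀ t ∈ R, γ • φ t = φ (γ • t)) ∧
      (∀ t ∈ R, φ (-t) = - φ t) ∧ ∀ s ∈ R, ∀ t ∈ R, φ s = φ t → s = t := by
  obtain ⟨y, hy, hny⟩ := hn
  obtain ⟨s0, hs0P, hs1, hs2⟩ := exceptionalB ι h hP hC hm hT hN h0 hc hy hny
  have he := exB_of hP hs0P hs1 hs2
  have h1 : ∀ t ∈ R, ∃ γ : Γ, γ • s0 = t := fun t ht => trans2 h hM hP (by omega) he.1 ht
  choose! g hg using h1
  have m1 : ∀ t, g t • y ∈ T := fun t => hT _ y hy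
  have e1 : ∀ t ∈ R, ExB Γ R (g t • y) t := by
    intro t ht
    have h2 := exB_smul h.1 he (g t)
    rw [hg t ht] at h2
    exact h2
  have v1 : ∀ t ∈ R, pr Γ (g t • y) t = pr Γ y s0 := by
    intro t ht
    conv_lhs => rw [← hg t ht]
    rw [hg t ht, ← hg t ht, hg t ht]
    have h2 := pr_smul (g t) y s0
    rw [hg t ht] at h2
    exact h2
  have two : ∀ x : L, x = - x → x = 0 := by
    intro x hx
    have h2 : (2 : L) * x = 0 := by linear_combination hx
    exact (mul_eq_zero.mp h2).resolve_left two_ne_zero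
  have uniq : ∀ t ∈ R, ∀ z ∈ T, ExB Γ R z t → pr Γ z t = pr Γ y s0 → z = g t • y := by
    intro t ht z hz e2 v2
    rcases exB_inj ι h hM hP (by omega) hT hN h0 hc (m1 t) hz (e1 t ht) e2 with h2 | h2
    · exact h2
    · exfalso
      rw [h2, pr_neg, v1 t ht] at v2
      exact he.2.1 (two _ v2.symm)
  have odd : ∀ t ∈ R, g (-t) • y = - (g t • y) := by
    intro t ht
    symm
    apply uniq (-t) (hP.2.1 t ht) _ (hN _ (m1 t))
    · exact exB_neg' (exB_neg hP (e1 t ht))
    · rw [pr_neg, pr_neg', neg_neg, v1 t ht]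
  refine ⟨fun t => g t • y, fun t _ => m1 t, ?_, odd, ?_⟩
  · intro γ t ht
    apply uniq (γ • t) (h.1 γ t ht) _ (hT γ _ (m1 t))
    · exact exB_smul h.1 (e1 t ht) γ
    · rw [pr_smul, v1 t ht]
  · intro s hs t ht hst
    have hst' : g s • y = g t • y := hst
    have e2 := e1 s hs
    rw [hst'] at e2
    rcases exB_two (e1 t ht) e2 with h2 | h2
    · exact h2
    · exfalso
      rw [h2, odd t ht] at hst'
      apply h0
      rw [← two _ hst'.symm]
      exact m1 t

omit [CharZero L] [Fintype Γ] in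
theorem comm_fix (O : Multiset L) (hO : O.card ≤ 2)
    (h : ∀ γ : Γ, O.map (fun z => γ • z) = O) (α β : Γ) :
    ∀ o ∈ O, (α * β) • o = (β * α) • o := by
  intro o ho
  rw [mul_smul, mul_smul]
  have hpos : 0 < O.card := Multiset.card_pos_iff_exists_mem.mpr ⟨o, ho⟩
  rcases (by omega : O.card = 1 ∨ O.card = 2) with h1 | h1
  · obtain ⟨a, rfl⟩ := Multiset.card_eq_one.mp h1
    have key : ∀ γ : Γ, γ • a = a := by
      intro γ
      have h2 := h γ
      rw [Multiset.map_singleton, Multiset.singleton_inj] at h2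
      exact h2
    rw [Multiset.mem_singleton] at ho
    rw [ho, key, key, key]
  · obtain ⟨a, b, rfl⟩ := Multiset.card_eq_two.mp h1
    have key : ∀ γ : Γ, (γ • a = a ∧ γ • b = b) ∨ (γ • a = b ∧ γ • b = a) := by
      intro γ
      have h2 : (γ • a) ::ₘ {γ • b} = ({a, b} : Multiset L) := by
        rw [← h γ]
        simp
      have h3 : γ • a ∈ ({a, b} : Multiset L) := by
        rw [← h2]
        exact Multiset.mem_cons_self _ _
      rcases Multiset.mem_cons.mp h3 with h4 | h4
      · left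
        refine ⟨h4, ?_⟩
        rw [h4] at h2
        exact Multiset.singleton_inj.mp ((Multiset.cons_inj_right a).mp h2)
      · right
        rw [Multiset.mem_singleton] at h4
        refine ⟨h4, ?_⟩
        rw [h4, Multiset.pair_comm a b] at h2
        exact Multiset.singleton_inj.mp ((Multiset.cons_inj_right b).mp h2)
    rcases Multiset.mem_cons.mp ho with h5 | h5
    · rw [h5]
      rcases key α with ⟨k1, k2⟩ | ⟨k1, k2⟩ <;> rcases key β with ⟨l1, l2⟩ | ⟨l1, l2⟩ <;>
        simp only [k1, k2, l1, l2]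
    · rw [Multiset.mem_singleton] at h5
      rw [h5]
      rcases key α with ⟨k1, k2⟩ | ⟨k1, k2⟩ <;> rcases key β with ⟨l1, l2⟩ | ⟨l1, l2⟩ <;>
        simp only [k1, k2, l1, l2]

omit [CharZero L] [Fintype Γ] in
/-- The change of two signs is a commutator. -/
theorem comm_elt {R P : Finset L} (h : Pairs Γ R) (hP : Half R P) (hC : Cyc Γ R)
    (h4 : 4 ≤ P.card) {w v : L} (hw : w ∈ P) (hv : v ∈ P) (hwv : w ≠ v) :
    ∃ α β : Γ, (α * β * (β * α)⁻¹) • w = - w ∧ (α * β * (β * α)⁻¹) • v = - v ∧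
      ∀ t ∈ R, t ≠ w → t ≠ - w → t ≠ v → t ≠ - v → (α * β * (β * α)⁻¹) • t = t := by
  classical
  obtain ⟨z, hz, hzw, hzv⟩ := third (P := P) (by omega) w v
  obtain ⟨u, hu, hu'⟩ : ∃ u ∈ P, u ∉ ({w, v, z} : Finset L) := by
    apply Finset.exists_mem_notMem_of_card_lt_card
    exact lt_of_le_of_lt Finset.card_le_three (by omega)
  rw [Finset.mem_insert, Finset.mem_insert, Finset.mem_singleton, not_or, not_or] at hu'
  obtain ⟨u1, u2, u3⟩ := hu'
  obtain ⟨α, a1, a2, a3⟩ := h.2 u (hP.1 hu) w (hP.1 hw) (Ne.symm u1) (half_neg hP hu hw)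
  obtain ⟨β, b1, b2, b3, b4⟩ := hC w (hP.1 hw) v (hP.1 hv) z (hP.1 hz) hwv
    (half_neg hP hv hw) hzw.symm (half_neg hP hz hw) hzv.symm (half_neg hP hz hv)
  have nn : ∀ {p q : L}, p ∈ P → q ∈ P → p ≠ - q := fun hp hq => half_neg hP hq hp
  -- the inverses
  have ai : ∀ x y : L, α • x = y → α⁻¹ • y = x := fun x y hxy => by
    rw [inv_smul_eq_iff, hxy]
  have bi : ∀ x y : L, β • x = y → β⁻¹ • y = x := fun x y hxy => by
    rw [inv_smul_eq_iff, hxy]
  have av : α • v = v := a3 v (hP.1 hv) (Ne.symm u2) (nn hv hu) hwv.symm (nn hv hw)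
  have az : α • z = z := a3 z (hP.1 hz) (Ne.symm u3) (nn hz hu) hzw (nn hz hw)
  have bu : β • u = u := b4 u (hP.1 hu) u1 (nn hu hw) u2 (nn hu hv) u3 (nn hu hz)
  have ex : ∀ t : L, (α * β * (β * α)⁻¹) • t = α • β • α⁻¹ • β⁻¹ • t := by
    intro t
    rw [mul_inv_rev, mul_smul, mul_smul, mul_smul]
  refine ⟨α, β, ?_, ?_, ?_⟩
  · rw [ex, bi z w b3, ai z z az, b3, a2]
  · rw [ex, bi w v b1]
    have h5 : α⁻¹ • w = - w := by
      apply ai
      rw [smul_neg, a2, neg_neg]
    rw [h5, smul_neg, b1, smul_neg, av]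
  · intro t ht t1 t2 t3 t4
    rw [ex]
    by_cases tz : t = z
    · rw [tz, bi v z b2, ai v v av, b2, az]
    by_cases tz' : t = - z
    · have h5 : β⁻¹ • (-z) = - v := by
        apply bi
        rw [smul_neg, b2]
      have h6 : α⁻¹ • (-v) = - v := by
        apply ai
        rw [smul_neg, av]
      rw [tz', h5, h6, smul_neg, b2, smul_neg, az]
    have bt : β • t = t := b4 t ht t1 t2 t3 t4 tz tz'
    rw [bi t t bt]
    by_cases tu : t = u
    · have h5 : α⁻¹ • u = - u := by
        apply ai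
        rw [smul_neg, a1, neg_neg]
      rw [tu, h5, smul_neg, bu, smul_neg, a1, neg_neg]
    by_cases tu' : t = - u
    · have h5 : α⁻¹ • (-u) = u := by
        apply ai
        exact a1
      rw [tu', h5, bu, a1]
    have at' : α • t = t := a3 t ht tu tu' t1 t2
    rw [ai t t at', bt, at']

open Classical in
/-- Equal sums of representatives force the multiset to contain `R`. -/
theorem containsB (ι : L →+* ℝ) {R P : Finset L} (h : Pairs Γ R) (hM : Moves Γ R)
    (hP : Half R P) (hC : Cyc Γ R) (hm : 6 ≤ P.card) (M : Multiset L)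
    (hMγ : ∀ γ : Γ, M.map (fun z => γ • z) = M) (hMn : ∀ z ∈ M, - z ∈ M)
    (hM0 : (0 : L) ∉ M) (hcard : M.card ≤ 2 * P.card + 2) (p : L → Prop) [DecidablePred p]
    (hp : ∀ z, p z ↔ 0 < ι z) (hx : ∑ z ∈ P, z = (M.filter p).sum) :
    ∀ w ∈ R, w ∈ M := by
  set T := M.toFinset with hTdef
  have memT : ∀ z, z ∈ T ↔ z ∈ M := fun z => by rw [hTdef, Multiset.mem_toFinset]
  have hT : ∀ γ : Γ, ∀ y ∈ T, γ • y ∈ T := by
    intro γ y hy
    rw [memT] at hy ⊢
    rw [← hMγ γ]
    exact Multiset.mem_map_of_mem _ hy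
  have hN : ∀ y ∈ T, - y ∈ T := fun y hy => (memT _).mpr (hMn y ((memT y).mp hy))
  have h0 : (0 : L) ∉ T := fun hc => hM0 ((memT 0).mp hc)
  have hne : ∀ z ∈ T, ι z ≠ 0 := by
    intro z hz hc
    apply h0
    have h1 : z = 0 := ι.injective (by rw [hc, map_zero])
    rw [← h1]
    exact hz
  have hTh : Half T (T.filter fun z => 0 < ι z) := by
    refine ⟨Finset.filter_subset _ _, hN, fun z hz => ?_⟩
    rw [Finset.mem_filter, Finset.mem_filter, map_neg]
    constructor
    · rintro ⟨-, h2⟩ ⟨-, h3⟩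
      linarith
    · intro h2
      refine ⟨hz, ?_⟩
      by_contra h3
      apply h2
      refine ⟨hN z hz, ?_⟩
      have := lt_of_le_of_ne (not_lt.mp h3) (hne z hz)
      linarith
  have hc : (T.filter fun z => 0 < ι z).card ≤ P.card + 1 := by
    have h1 := half_card hTh
    have h2 : T.card ≤ M.card := Multiset.toFinset_card_le M
    omega
  have hRne : ∀ z ∈ R, z ≠ 0 := by
    intro z hz hc0
    apply half_ne hP hz
    rw [hc0, neg_zero]
  have hn : ∃ y ∈ T, ∃ u ∈ P, pr Γ y u ≠ 0 := by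
    by_contra hcon
    push Not at hcon
    obtain ⟨u, hu⟩ : P.Nonempty := Finset.card_pos.mp (by omega)
    have h1 : pr Γ (M.filter p).sum u = 0 := by
      rw [pr_msum]
      apply Multiset.sum_eq_zero
      intro x hx'
      obtain ⟨y, hy, rfl⟩ := Multiset.mem_map.mp hx'
      exact hcon y ((memT y).mpr (Multiset.mem_of_mem_filter hy)) u hu
    rw [← hx] at h1
    have h2 : pr Γ (∑ z ∈ P, z) u = pr Γ u u := by
      have h3 : pr Γ (∑ z ∈ P, z) u = ∑ z ∈ P, pr Γ z u := by
        unfold pr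
        rw [Finset.sum_mul, tr_sum]
      rw [h3, ← Finset.add_sum_erase P _ hu, Finset.sum_eq_zero, add_zero]
      intro z hz
      exact ortho h hP (by omega) (Finset.mem_of_mem_erase hz) hu (Finset.ne_of_mem_erase hz)
    rw [h2] at h1
    exact tr_ne ι (hRne u (hP.1 hu)) h1
  obtain ⟨φ, φT, φe, φo, φi⟩ := phiB ι h hM hP hC hm hT hN h0 hc hn
  have φne : ∀ s ∈ R, ι (φ s) ≠ 0 := fun s hs => hne _ (φT s hs)
  -- the multiset splits
  have hle : R.val.map φ ≤ M := by
    rw [Multiset.le_iff_subset]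
    · intro z hz
      obtain ⟨s, hs, rfl⟩ := Multiset.mem_map.mp hz
      exact (memT _).mp (φT s hs)
    · exact Multiset.Nodup.map_on (fun s hs s' hs' heq => φi s hs s' hs' heq) R.nodup
  obtain ⟨O, hO⟩ := Multiset.le_iff_exists_add.mp hle
  have hOc : O.card ≤ 2 := by
    have h1 := congrArg Multiset.card hO
    rw [Multiset.card_add, Multiset.card_map] at h1
    have h2 : R.val.card = R.card := rfl
    have h3 := half_card hP
    omega
  have hOγ : ∀ γ : Γ, O.map (fun z => γ • z) = O := by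
    intro γ
    have h1 := hMγ γ
    have h2 : (R.val.map φ).map (fun z => γ • z) = R.val.map φ := by
      have h3 : R.val.map (fun z => γ • z) = R.val := by
        have h4 : R.image (fun z => γ • z) = R := by
          apply Finset.eq_of_subset_of_card_le
          · intro w hw
            rw [Finset.mem_image] at hw
            obtain ⟨v, hv, rfl⟩ := hw
            exact h.1 γ v hv
          · rw [Finset.card_image_of_injective _ (MulAction.injective γ)]
        conv_rhs => rw [← h4]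
        rw [Finset.image_val_of_injOn ((MulAction.injective γ).injOn)]
      rw [Multiset.map_map]
      conv_rhs => rw [← h3]
      rw [Multiset.map_map]
      apply Multiset.map_congr rfl
      intro s hs
      exact φe γ s hs
    rw [hO, Multiset.map_add, h2] at h1
    exact add_left_cancel h1
  set Q := R.filter (fun s => p (φ s)) with hQ
  have hQR : Q ⊆ R := Finset.filter_subset _ _
  have memQ : ∀ s ∈ R, s ∈ Q ↔ 0 < ι (φ s) := by
    intro s hs
    rw [hQ, Finset.mem_filter, hp]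
    exact ⟨fun h1 => h1.2, fun h1 => ⟨hs, h1⟩⟩
  have hx2 : ∑ z ∈ P, z = ∑ s ∈ Q, φ s + (O.filter p).sum := by
    rw [hx, hO, Multiset.filter_add, Multiset.sum_add, Multiset.filter_map]
    rfl
  -- the representative of `w` in `Q`
  have rep : ∀ w ∈ P, ∃ w' ∈ Q, w' = w ∨ w' = - w := by
    intro w hw
    by_cases h1 : 0 < ι (φ w)
    · exact ⟨w, (memQ w (hP.1 hw)).mpr h1, Or.inl rfl⟩
    · refine ⟨- w, (memQ _ (hP.2.1 w (hP.1 hw))).mpr ?_, Or.inr rfl⟩
      rw [φo w (hP.1 hw), map_neg]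
      have := lt_of_le_of_ne (not_lt.mp h1) (φne w (hP.1 hw))
      linarith
  choose! r hrQ hr using rep
  have hnegQ : ∀ s ∈ Q, - s ∉ Q := by
    intro s hs hs'
    have h1 := (memQ s (hQR hs)).mp hs
    have h2 := (memQ _ (hQR hs')).mp hs'
    rw [φo s (hQR hs), map_neg] at h2
    linarith
  -- sums of two representatives
  have pair : ∀ w ∈ P, ∀ v ∈ P, w ≠ v → w + v = φ (r w) + φ (r v) := by
    intro w hw v hv hwv
    obtain ⟨α, β, g1, g2, g3⟩ := comm_elt h hP hC (by omega) hw hv hwv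
    set γ := α * β * (β * α)⁻¹ with hγ
    have hω : γ • (O.filter p).sum = (O.filter p).sum := by
      rw [Multiset.smul_sum]
      conv_rhs => rw [← Multiset.map_id (O.filter p)]
      congr 1
      apply Multiset.map_congr rfl
      intro o ho
      have ho' := Multiset.mem_of_mem_filter ho
      have h1 : (β * α)⁻¹ • o ∈ O := by
        rw [← hOγ (β * α)⁻¹]
        exact Multiset.mem_map_of_mem _ ho'
      show γ • o = o
      rw [hγ, mul_smul, comm_fix O hOc hOγ α β _ h1, smul_inv_smul]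
    have g3' : ∀ z ∈ P, z ≠ w → z ≠ v → γ • z = z := fun z hz hzw hzv =>
      g3 z (hP.1 hz) hzw (half_neg hP hw hz) hzv (half_neg hP hv hz)
    have D1 := two_signs hw hv hwv.symm γ g1 g2 g3' (fun _ => 1)
    have one : ∑ z ∈ P, (((fun _ => 1 : L → ℤ) z : ℤ) : L) * z = ∑ z ∈ P, z := by
      apply Finset.sum_congr rfl
      intro z _
      rw [Int.cast_one, one_mul]
    rw [one, Int.cast_one, one_mul, one_mul] at D1
    have g4 : ∀ s ∈ R, (s = w ∨ s = - w ∨ s = v ∨ s = - v → γ • s = - s) ∧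
        (¬ (s = w ∨ s = - w ∨ s = v ∨ s = - v) → γ • s = s) := by
      intro s hs
      constructor
      · rintro (rfl | rfl | rfl | rfl)
        · exact g1
        · rw [smul_neg, g1]
        · exact g2
        · rw [smul_neg, g2]
      · intro hns
        simp only [not_or] at hns
        exact g3 s hs hns.1 hns.2.1 hns.2.2.1 hns.2.2.2
    have hrw := hr w hw
    have hrv := hr v hv
    have hrne : r v ≠ r w := by
      intro hc0
      rcases hrw with h1 | h1 <;> rcases hrv with h2 | h2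
      · exact hwv (by rw [← h1, ← hc0, h2])
      · exact half_neg hP hv hw (by rw [← h1, ← hc0, h2])
      · exact half_neg hP hw hv (by rw [← h2, hc0, h1])
      · apply hwv
        apply neg_injective
        rw [← h1, ← hc0, h2]
    have D2 : ∑ s ∈ Q, φ s - ∑ s ∈ Q, φ (γ • s) = 2 * φ (r w) + 2 * φ (r v) := by
      rw [← Finset.sum_sub_distrib, ← Finset.add_sum_erase Q _ (hrQ w hw),
        ← Finset.add_sum_erase (Q.erase (r w)) _ (Finset.mem_erase.mpr ⟨hrne, hrQ v hv⟩),
        Finset.sum_eq_zero (s := (Q.erase (r w)).erase (r v))]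
      · have h1 : γ • (r w) = - r w := (g4 _ (hQR (hrQ w hw))).1 (by tauto)
        have h2 : γ • (r v) = - r v := (g4 _ (hQR (hrQ v hv))).1 (by tauto)
        rw [h1, h2, φo _ (hQR (hrQ w hw)), φo _ (hQR (hrQ v hv))]
        ring
      · intro s hs
        rw [Finset.mem_erase, Finset.mem_erase] at hs
        obtain ⟨s1, s2, s3⟩ := hs
        have hrw' : - r w ∉ Q := hnegQ _ (hrQ w hw)
        have hrv' : - r v ∉ Q := hnegQ _ (hrQ v hv)
        have h1 : ¬ (s = w ∨ s = - w ∨ s = v ∨ s = - v) := by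
          rintro (h2 | h2 | h2 | h2)
          · rcases hrw with h3 | h3
            · exact s2 (by rw [h2, h3])
            · exact hrw' (by rw [h3, neg_neg, ← h2]; exact s3)
          · rcases hrw with h3 | h3
            · exact hrw' (by rw [h3, ← h2]; exact s3)
            · exact s2 (by rw [h2, h3])
          · rcases hrv with h3 | h3
            · exact s1 (by rw [h2, h3])
            · exact hrv' (by rw [h3, neg_neg, ← h2]; exact s3)
          · rcases hrv with h3 | h3
            · exact hrv' (by rw [h3, ← h2]; exact s3)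
            · exact s1 (by rw [h2, h3])
        rw [(g4 s (hQR s3)).2 h1, sub_self]
    have hD : (∑ z ∈ P, z) - γ • (∑ z ∈ P, z) = ∑ s ∈ Q, φ s - ∑ s ∈ Q, φ (γ • s) := by
      rw [hx2, smul_add, hω, Finset.smul_sum, Finset.sum_congr rfl fun s hs =>
        φe γ s (hQR hs)]
      ring
    rw [D1, D2] at hD
    apply mul_left_cancel₀ (two_ne_zero (α := L))
    linear_combination hD
  have pos : ∀ w ∈ P, w ∈ T := by
    intro w hw
    obtain ⟨v, hv, hvw, -⟩ := third (P := P) (by omega) w w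
    obtain ⟨z, hz, hzw, hzv⟩ := third (P := P) (by omega) w v
    have e1 := pair w hw v hv hvw.symm
    have e2 := pair w hw z hz hzw.symm
    have e3 := pair v hv z hz hzv.symm
    have e4 : w = φ (r w) := by
      apply mul_left_cancel₀ (two_ne_zero (α := L))
      linear_combination e1 + e2 - e3
    rw [e4]
    exact φT _ (hQR (hrQ w hw))
  intro w hw
  rw [← memT]
  by_cases hwP : w ∈ P
  · exact pos w hwP
  · have h1 : - w ∈ P := by
      by_contra h2
      exact hwP ((hP.2.2 w hw).mpr h2)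
    have h2 := hN _ (pos _ h1)
    rw [neg_neg] at h2
    exact h2

end Abs

end Pool.Agent.W_44c680_h9
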