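import Pool.Agent.W_44c680_h9.Gal8
import Pool.Agent.W_44c680_h9.Gal10

/-!
The Galois group and the sum of the absolute values of the roots: no rank condition.
-/

set_option autoImplicit false

namespace Pool.Agent.W_44c680_h9

open Matrix Polynomial

section Real

variable {L : Type} [Field L] [Algebra ℚ L]

theorem aroots_map (ψ : ℚ[X]) (h : (ψ.map (algebraMap ℚ L)).Splits) (γ : L ≃ₐ[ℚ] L) :
    (ψ.aroots L).map (fun z => γ • z) = ψ.aroots L := by
  have key := h.roots_map ((γ : L →ₐ[ℚ] L) : L →+* L)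
  rw [Polynomial.map_map, AlgHom.comp_algebraMap] at key
  exact key.symm

/-- Equal sums of absolute values of the roots force equal roots if the Galois group of one
polynomial is the full symmetric group, the other one has at most two roots more and its sum of
squares is not much larger. -/
theorem spec_wide [Normal ℚ L] [FiniteDimensional ℚ L] (φ ψ : ℚ[X]) [IsSplittingField ℚ L (φ * ψ)]
    (ι : L →ₐ[ℚ] ℝ) (h0 : φ * ψ ≠ 0) (hn : 6 ≤ φ.natDegree)
    (hd : ψ.natDegree ≤ φ.natDegree + 2)
    (hG : ∀ _ : Fact ((φ.map (algebraMap ℚ L)).Splits), Function.Surjective (act L φ) ∧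
      φ.natDegree.factorial ≤ Nat.card (Equiv.Perm (φ.rootSet L)))
    (t1 : (φ.map (algebraMap ℚ ℝ)).roots.sum = 0) (t2 : (ψ.map (algebraMap ℚ ℝ)).roots.sum = 0)
    (hE : rs (φ.map (algebraMap ℚ ℝ)) = rs (ψ.map (algebraMap ℚ ℝ)))
    (o1 : ∀ j : ℕ, 0 ≤ ((φ.map (algebraMap ℚ ℝ)).roots.map fun x => x ^ (2 * j + 1)).sum)
    (o2 : ∀ j : ℕ, 0 ≤ ((ψ.map (algebraMap ℚ ℝ)).roots.map fun x => x ^ (2 * j + 1)).sum)
    (zψ : ∀ z ∈ ψ.aroots L, z ≠ 0) (iφ : ∀ z ∈ φ.aroots L, IsIntegral ℤ z)
    (iψ : ∀ z ∈ ψ.aroots L, IsIntegral ℤ z)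
    (hsq : ((ψ.map (algebraMap ℚ ℝ)).roots.map fun x => x * x).sum <
      ((φ.map (algebraMap ℚ ℝ)).roots.map fun x => x * x).sum + φ.natDegree) :
    (φ.map (algebraMap ℚ ℝ)).roots = (ψ.map (algebraMap ℚ ℝ)).roots := by
  classical
  haveI : CharZero L := algebraRat.charZero L
  have hs := IsSplittingField.splits L (φ * ψ)
  have hne : (φ * ψ).map (algebraMap ℚ L) ≠ 0 := (Polynomial.map_ne_zero_iff
    (algebraMap ℚ L).injective).mpr h0
  have f1 : (φ.map (algebraMap ℚ L)).Splits :=
    hs.of_dvd hne (Polynomial.map_dvd _ (dvd_mul_right φ ψ))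
  have f2 : (ψ.map (algebraMap ℚ L)).Splits :=
    hs.of_dvd hne (Polynomial.map_dvd _ (dvd_mul_left ψ φ))
  haveI : Fact ((φ.map (algebraMap ℚ L)).Splits) := ⟨f1⟩
  have z1 := sum_zero ι φ f1 t1
  have z2 := sum_zero ι ψ f2 t2
  obtain ⟨s1, s2⟩ := hG ⟨f1⟩
  have F1 : Full (L ≃ₐ[ℚ] L) (rts L φ) := full_of_surj φ s1
  have c1 : (rts L φ).card = φ.natDegree := card_of_surj φ (by omega) s2
  have n1 := nodup_of_card φ c1
  have r1 : ∑ z ∈ rts L φ, z = 0 := by
    rw [sum_rts φ n1 fun z => z, Multiset.map_id']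
    exact z1
  have hx : xs ι φ = xs ι ψ := by
    apply (ι : L →+* ℝ).injective
    show ι (xs ι φ) = ι (xs ι ψ)
    rw [rs_eq_xs ι φ f1 z1, rs_eq_xs ι ψ f2 z2] at hE
    linarith
  set P := (rts L φ).filter (fun z => 0 < ι z) with hP
  have hPR : P ⊆ rts L φ := Finset.filter_subset _ _
  have hr1 : ∑ z ∈ rts L φ, ι z = 0 := by
    rw [← map_sum, r1, map_zero]
  obtain ⟨i, hi⟩ : P.Nonempty := by
    by_contra hemp
    rw [Finset.not_nonempty_iff_eq_empty] at hemp
    have h1 : ∀ z ∈ rts L φ, ι z ≤ 0 := by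
      intro z hz
      by_contra hc
      have : z ∈ P := Finset.mem_filter.mpr ⟨hz, not_le.mp hc⟩
      rw [hemp] at this
      exact absurd this (Finset.notMem_empty z)
    have h2 := (Finset.sum_eq_zero_iff_of_nonpos h1).mp hr1
    have h3 : (rts L φ).card ≤ 1 := by
      rw [Finset.card_le_one]
      intro a ha b hb
      apply (ι : L →+* ℝ).injective
      show ι a = ι b
      rw [h2 a ha, h2 b hb]
    omega
  obtain ⟨l, hl, hl'⟩ : ∃ l ∈ rts L φ, l ∉ P := by
    by_contra hc
    push Not at hc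
    have h1 : 0 < ∑ z ∈ rts L φ, ι z := by
      apply Finset.sum_pos
      · intro z hz
        exact (Finset.mem_filter.mp (hc z hz)).2
      · exact ⟨i, hPR hi⟩
    linarith
  have hxP : ∑ z ∈ P, z = xs ι φ := sum_pos ι φ n1
  have hs0 : ∑ z ∈ rts L φ, z * z ≠ 0 := by
    intro hc
    have h1 : ∑ z ∈ rts L φ, ι z * ι z = 0 := by
      rw [← map_zero ι, ← hc, map_sum]
      exact Finset.sum_congr rfl fun z _ => (map_mul ι z z).symm
    have h2 := (Finset.sum_eq_zero_iff_of_nonneg fun z _ => mul_self_nonneg (ι z)).mp h1 i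
      (hPR hi)
    have h3 : 0 < ι i := (Finset.mem_filter.mp hi).2
    exact (mul_pos h3 h3).ne' h2
  have hMcard : (ψ.aroots L).card ≤ (rts L φ).card + 2 := by
    rw [c1]
    refine le_trans ?_ hd
    exact (card_roots' _).trans natDegree_map_le
  obtain ⟨k, w, O, hk, hw, hM, -⟩ := shift (Γ := L ≃ₐ[ℚ] L) F1 r1 (by omega) hs0 hPR hi hl hl'
    (ψ.aroots L) (aroots_map ψ f2) hMcard (fun z => 0 < ι z) (by
      rw [hxP, hx]
      rfl)
  -- the translation is an integer
  have hiR : i ∈ φ.aroots L := by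
    rw [← rts_val φ n1]
    exact hPR hi
  obtain ⟨n, hn'⟩ : ∃ n : ℤ, w = (n : L) := by
    haveI : IsGalois ℚ L := ⟨⟩
    have h1 : w ∈ Set.range (algebraMap ℚ L) := by
      rw [IsGalois.mem_range_algebraMap_iff_fixed]
      intro f
      exact hw f
    obtain ⟨q, hq⟩ := h1
    have h2 : (k : L) * i + w ∈ ψ.aroots L := by
      rw [hM, Multiset.mem_add]
      left
      exact Multiset.mem_map_of_mem (fun s => (k : L) * s + w) (hPR hi)
    have h3 : IsIntegral ℤ w := by
      have h4 := iψ _ h2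
      have h5 : IsIntegral ℤ ((k : L) * i) := by
        apply IsIntegral.mul _ (iφ i hiR)
        have h6 := isIntegral_algebraMap (R := ℤ) (A := L) (x := k)
        rw [eq_intCast] at h6
        exact h6
      have h6 := h4.sub h5
      rw [add_sub_cancel_left] at h6
      exact h6
    rw [← hq, isIntegral_algebraMap_iff (algebraMap ℚ L).injective] at h3
    obtain ⟨n, hn⟩ := IsIntegrallyClosed.isIntegral_iff.mp h3
    refine ⟨n, ?_⟩
    rw [← hq, ← hn, eq_intCast, map_intCast]
  have hk2 : (k : ℝ) * k = 1 := by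
    rcases hk with rfl | rfl <;> norm_num
  have hroots : (ψ.map (algebraMap ℚ ℝ)).roots =
      (rts L φ).val.map (fun s => (k : ℝ) * ι s + n) + O.map ι := by
    rw [roots_real ψ f2 ι, hM, Multiset.map_add, Multiset.map_map]
    congr 1
    apply Multiset.map_congr rfl
    intro s _
    show ι ((k : L) * s + w) = _
    rw [hn', map_add, map_mul, map_intCast, map_intCast]
  have hφr : (φ.map (algebraMap ℚ ℝ)).roots = (rts L φ).val.map (fun s => ι s) := by
    rw [roots_real φ f1 ι, rts_val φ n1]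
  have q1 : ((φ.map (algebraMap ℚ ℝ)).roots.map fun x => x * x).sum =
      ∑ s ∈ rts L φ, ι s * ι s := by
    rw [hφr, Multiset.map_map]
    rfl
  have q2 : ((ψ.map (algebraMap ℚ ℝ)).roots.map fun x => x * x).sum =
      ∑ s ∈ rts L φ, ((k : ℝ) * ι s + n) * ((k : ℝ) * ι s + n) +
        (O.map fun o => ι o * ι o).sum := by
    rw [hroots, Multiset.map_add, Multiset.sum_add, Multiset.map_map, Multiset.map_map]
    rfl
  have q3 : ∑ s ∈ rts L φ, ((k : ℝ) * ι s + n) * ((k : ℝ) * ι s + n) =
      ∑ s ∈ rts L φ, ι s * ι s + (φ.natDegree : ℝ) * (n * n) := by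
    have h1 : ∀ s ∈ rts L φ, ((k : ℝ) * ι s + n) * ((k : ℝ) * ι s + n) =
        ι s * ι s + (2 * k * n) * ι s + n * n := by
      intro s _
      linear_combination (ι s * ι s) * hk2
    rw [Finset.sum_congr rfl h1, Finset.sum_add_distrib, Finset.sum_add_distrib,
      ← Finset.mul_sum, hr1, Finset.sum_const, nsmul_eq_mul, c1]
    ring
  have q4 : 0 ≤ (O.map fun o => ι o * ι o).sum := by
    apply Multiset.sum_nonneg
    intro x hx
    obtain ⟨o, _, rfl⟩ := Multiset.mem_map.mp hx
    exact mul_self_nonneg _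
  have hn0 : n = 0 := by
    by_contra hc
    have h1 : (1 : ℝ) ≤ (n : ℝ) * n := by
      have h2 : 1 ≤ n * n := by
        have := mul_self_pos.mpr hc
        omega
      exact_mod_cast h2
    rw [q1, q2, q3] at hsq
    have h3 : (0 : ℝ) ≤ (φ.natDegree : ℝ) := Nat.cast_nonneg _
    nlinarith
  -- the energy leaves no room for other roots
  have e1 : rs (φ.map (algebraMap ℚ ℝ)) = ∑ s ∈ rts L φ, |ι s| := by
    unfold rs
    rw [hφr, Multiset.map_map]
    rfl
  have e2 : rs (ψ.map (algebraMap ℚ ℝ)) = ∑ s ∈ rts L φ, |(k : ℝ) * ι s + n| +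
      (O.map fun o => |ι o|).sum := by
    unfold rs
    rw [hroots, Multiset.map_add, Multiset.sum_add, Multiset.map_map, Multiset.map_map]
    rfl
  have e3 : ∑ s ∈ rts L φ, |(k : ℝ) * ι s + n| = ∑ s ∈ rts L φ, |ι s| := by
    apply Finset.sum_congr rfl
    intro s _
    rw [hn0, Int.cast_zero, add_zero, abs_mul]
    rcases hk with rfl | rfl <;> simp
  have hO : O = 0 := by
    apply Multiset.eq_zero_of_forall_notMem
    intro o ho
    have h1 : ∀ x ∈ O.map (fun o => |ι o|), 0 ≤ x := by
      intro x hx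
      obtain ⟨o, _, rfl⟩ := Multiset.mem_map.mp hx
      exact abs_nonneg _
    have h2 := Multiset.single_le_sum h1 _ (Multiset.mem_map_of_mem (fun o => |ι o|) ho)
    rw [e1, e2, e3] at hE
    have h3 : |ι o| ≤ 0 := by linarith
    have h4 : ι o = 0 := abs_eq_zero.mp (le_antisymm h3 (abs_nonneg _))
    apply zψ o
    · rw [hM, Multiset.mem_add]
      exact Or.inr ho
    · apply (ι : L →+* ℝ).injective
      rw [map_zero]
      exact h4
  rw [hO, Multiset.map_zero, add_zero, hn0] at hroots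
  rcases hk with rfl | rfl
  · rw [hroots, hφr]
    apply Multiset.map_congr rfl
    intro s _
    push_cast
    ring
  · have key : rts L φ = ((rts L φ).image fun z => - z).image fun z => - z := by
      rw [Finset.image_image]
      have : (fun z : L => - z) ∘ (fun z : L => - z) = id := by
        funext z
        simp
      rw [this, Finset.image_id]
    have hneg : (ψ.map (algebraMap ℚ ℝ)).roots =
        ((rts L φ).image fun z => - z).val.map (fun s => ι s) := by
      rw [hroots, Finset.image_val_of_injOn (neg_injective.injOn), Multiset.map_map]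
      apply Multiset.map_congr rfl
      intro s _
      show ((-1 : ℤ) : ℝ) * ι s + ((0 : ℤ) : ℝ) = ι (- s)
      rw [map_neg]
      push_cast
      ring
    have hRR := same_of_neg F1 (by omega) key ι (by
      intro j
      have h1 := o1 j
      rw [hφr, Multiset.map_map] at h1
      exact h1) (by
      intro j
      have h1 := o2 j
      rw [hneg, Multiset.map_map] at h1
      exact h1)
    rw [hneg, ← hRR, hφr]

end Real

end Pool.Agent.W_44c680_h9
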