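import Pool.Agent.W_44c680_h9.Gal5

/-!
The rank of the adjacency matrix changes by at most two when an edge is deleted.
-/

set_option autoImplicit false

namespace Pool.Agent.W_44c680_h9

open Matrix

theorem rank_add_le_h31 {V : Type} [Fintype V] (A B : Matrix V V ℝ) :
    (A + B).rank ≤ A.rank + B.rank := by
  classical
  have h : LinearMap.range ((A + B).mulVecLin) ≤
      LinearMap.range A.mulVecLin ⊔ LinearMap.range B.mulVecLin := by
    rintro _ ⟨x, rfl⟩
    rw [Matrix.mulVecLin_add, LinearMap.add_apply]
    exact Submodule.add_mem_sup ⟨x, rfl⟩ ⟨x, rfl⟩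
  calc (A + B).rank = Module.finrank ℝ (LinearMap.range ((A + B).mulVecLin)) := rfl
    _ ≤ Module.finrank ℝ
        ((LinearMap.range A.mulVecLin ⊔ LinearMap.range B.mulVecLin : Submodule ℝ (V → ℝ))) :=
      Submodule.finrank_mono h
    _ ≤ Module.finrank ℝ (LinearMap.range A.mulVecLin) +
        Module.finrank ℝ (LinearMap.range B.mulVecLin) :=
      Submodule.finrank_add_le_finrank_add_finrank _ _
    _ = A.rank + B.rank := rfl

open Classical in
/-- A matrix all of whose nonzero rows are indexed by the ends of `e` has rank at most two. -/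
theorem rank_two_h31 {V : Type} [Fintype V] (D : Matrix V V ℝ) (e : Sym2 V)
    (h : ∀ i j, D i j ≠ 0 → i ∈ e) : D.rank ≤ 2 := by
  refine (rank_le_card_of_support_subset D (Finset.univ.filter fun i => i ∈ e) ?_).trans ?_
  · intro i hi
    rw [Function.mem_support] at hi
    obtain ⟨j, hj⟩ := Function.ne_iff.mp hi
    simp only [Finset.coe_filter, Finset.mem_univ, true_and, Set.mem_ofPred_eq]
    exact h i j hj
  · induction e using Sym2.ind with
    | _ a b =>
      refine (Finset.card_le_card (t := {a, b}) ?_).trans Finset.card_le_two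
      intro i hi
      rw [Finset.mem_filter, Sym2.mem_iff] at hi
      rw [Finset.mem_insert, Finset.mem_singleton]
      exact hi.2

/-- Two graphs which have the same adjacencies at every vertex outside the ends of `e` have
ranks which differ by at most two. -/
theorem rank_near {V : Type} [Fintype V] (G H : SimpleGraph V) (e : Sym2 V)
    (h : ∀ i j, i ∉ e → (G.Adj i j ↔ H.Adj i j)) : rankG G ≤ rankG H + 2 := by
  classical
  unfold rankG
  have hs : ∀ i j, (G.adjMatrix ℝ - H.adjMatrix ℝ) i j ≠ 0 → i ∈ e := by
    intro i j hij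
    rw [Matrix.sub_apply, SimpleGraph.adjMatrix_apply, SimpleGraph.adjMatrix_apply] at hij
    by_contra hi
    apply hij
    by_cases h3 : G.Adj i j
    · rw [if_pos h3, if_pos ((h i j hi).mp h3), sub_self]
    · rw [if_neg h3, if_neg fun h4 => h3 ((h i j hi).mpr h4), sub_self]
  have h1 := rank_add_le_h31 (H.adjMatrix ℝ) (G.adjMatrix ℝ - H.adjMatrix ℝ)
  have h2 : H.adjMatrix ℝ + (G.adjMatrix ℝ - H.adjMatrix ℝ) = G.adjMatrix ℝ := by abel
  rw [h2] at h1
  exact h1.trans (Nat.add_le_add_left (rank_two_h31 _ e hs) _)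

/-- Deleting an edge changes the rank of the adjacency matrix by at most two. -/
theorem rank_delete {V : Type} [Fintype V] (G : SimpleGraph V) (e : Sym2 V) :
    rankG (G.deleteEdges {e}) ≤ rankG G + 2 ∧ rankG G ≤ rankG (G.deleteEdges {e}) + 2 := by
  have h : ∀ i j, i ∉ e → (G.Adj i j ↔ (G.deleteEdges {e}).Adj i j) := by
    intro i j hi
    rw [SimpleGraph.deleteEdges_adj]
    constructor
    · intro h1
      refine ⟨h1, ?_⟩
      intro h2
      apply hi
      rw [Set.mem_singleton_iff] at h2
      rw [← h2]
      exact Sym2.mem_mk_left i j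
    · exact fun h1 => h1.1
  exact ⟨rank_near _ _ e fun i j hi => (h i j hi).symm, rank_near _ _ e h⟩

end Pool.Agent.W_44c680_h9
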