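import Pool.Agent.W_44c680_h9.Bip6
import Pool.Agent.W_44c680_h9.Bip11
import Pool.Agent.W_44c680_h9.Gal11
import Pool.Agent.W_44c680_h9.GalRank

/-!
Bipartite graphs whose characteristic polynomial has a large Galois group: the energy, no rank
condition.
-/

set_option autoImplicit false

namespace Pool.Agent.W_44c680_h9

open Matrix Polynomial

section Real

variable {L : Type} [Field L] [Algebra ℚ L]

/-- The roots agree if the Galois group of one polynomial has at least half of the possible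
elements, there are at least six positive roots, and the other one has at most two roots more. -/
theorem roots_wide [Normal ℚ L] [FiniteDimensional ℚ L] (φ ψ : ℚ[X])
    [IsSplittingField ℚ L (φ * ψ)] (ι : L →ₐ[ℚ] ℝ) (h0 : φ * ψ ≠ 0) (m : ℕ) (hm : 6 ≤ m)
    (dφ : φ.natDegree = 2 * m) (dψ : ψ.natDegree ≤ 2 * m + 2)
    (hG : ∀ _ : Fact ((φ.map (algebraMap ℚ L)).Splits),
      2 ^ m * m.factorial ≤ 2 * Nat.card (act L φ).range)
    (sφ : ∀ z ∈ φ.rootSet L, - z ∈ φ.rootSet L) (zφ : ∀ z ∈ φ.rootSet L, z ≠ 0)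
    (sψ : ∀ z ∈ ψ.rootSet L, - z ∈ ψ.rootSet L) (zψ : ∀ z ∈ ψ.rootSet L, z ≠ 0)
    (t1 : (φ.map (algebraMap ℚ ℝ)).roots.sum = 0) (t2 : (ψ.map (algebraMap ℚ ℝ)).roots.sum = 0)
    (hE : rs (φ.map (algebraMap ℚ ℝ)) = rs (ψ.map (algebraMap ℚ ℝ))) :
    (φ.map (algebraMap ℚ ℝ)).roots = (ψ.map (algebraMap ℚ ℝ)).roots := by
  classical
  haveI : CharZero L := algebraRat.charZero L
  have hs := IsSplittingField.splits L (φ * ψ)
  have hne : (φ * ψ).map (algebraMap ℚ L) ≠ 0 := (Polynomial.map_ne_zero_iff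
    (algebraMap ℚ L).injective).mpr h0
  have f1 : (φ.map (algebraMap ℚ L)).Splits :=
    hs.of_dvd hne (Polynomial.map_dvd _ (dvd_mul_right φ ψ))
  have f2 : (ψ.map (algebraMap ℚ L)).Splits :=
    hs.of_dvd hne (Polynomial.map_dvd _ (dvd_mul_left ψ φ))
  haveI : Fact ((φ.map (algebraMap ℚ L)).Splits) := ⟨f1⟩
  have hx : xs ι φ = xs ι ψ := by
    apply (ι : L →+* ℝ).injective
    show ι (xs ι φ) = ι (xs ι ψ)
    rw [rs_eq_xs ι φ f1 (sum_zero ι φ f1 t1), rs_eq_xs ι ψ f2 (sum_zero ι ψ f2 t2)] at hE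
    linarith
  obtain ⟨F1, c1⟩ := pairs_of_card φ sφ zφ m (by omega) dφ.le (hG ⟨f1⟩)
  have M1 := moves_of_card φ sφ zφ m (by omega) dφ.le (hG ⟨f1⟩)
  have C1 := cyc_of_card φ sφ zφ m (by omega) dφ.le (hG ⟨f1⟩)
  have n1 := nodup_of_card φ (c1.trans dφ.symm)
  have P1 := half_roots ι φ sφ zφ
  have p1 := half_card P1
  have x1 := sum_pos ι φ n1
  have hψ0 : ψ ≠ 0 := right_ne_zero_of_mul h0
  have memM : ∀ z, z ∈ ψ.aroots L ↔ z ∈ ψ.rootSet L := by
    intro z
    rw [mem_aroots, mem_rootSet]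
  have hcard : (ψ.aroots L).card ≤ 2 * ((rts L φ).filter fun z => 0 < ι z).card + 2 := by
    have h1 : (ψ.aroots L).card ≤ ψ.natDegree := (card_roots' _).trans natDegree_map_le
    omega
  have hcon := containsB (ι : L →+* ℝ) F1 M1 P1 C1 (by omega) (ψ.aroots L)
    (aroots_map ψ f2) (fun z hz => (memM _).mpr (sψ z ((memM z).mp hz)))
    (fun hz => zψ 0 ((memM 0).mp hz) rfl) hcard (fun z => 0 < ι z) (fun z => Iff.rfl) (by
      rw [x1, hx]
      rfl)
  have hle : (rts L φ).val ≤ ψ.aroots L := by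
    rw [Multiset.le_iff_subset (rts L φ).nodup]
    exact fun z hz => hcon z hz
  obtain ⟨O, hO⟩ := Multiset.le_iff_exists_add.mp hle
  have hφr : (φ.map (algebraMap ℚ ℝ)).roots = (rts L φ).val.map ι := by
    rw [roots_real φ f1 ι, rts_val φ n1]
  have hψr : (ψ.map (algebraMap ℚ ℝ)).roots = (rts L φ).val.map ι + O.map ι := by
    rw [roots_real ψ f2 ι, hO, Multiset.map_add]
  have e1 : rs (ψ.map (algebraMap ℚ ℝ)) = rs (φ.map (algebraMap ℚ ℝ)) +
      (O.map fun o => |ι o|).sum := by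
    unfold rs
    rw [hψr, hφr, Multiset.map_add, Multiset.sum_add]
    congr 1
    rw [Multiset.map_map]
    rfl
  have hO0 : O = 0 := by
    apply Multiset.eq_zero_of_forall_notMem
    intro o ho
    have h1 : ∀ x ∈ O.map (fun o => |ι o|), 0 ≤ x := by
      intro x hx'
      obtain ⟨o, _, rfl⟩ := Multiset.mem_map.mp hx'
      exact abs_nonneg _
    have h2 := Multiset.single_le_sum h1 _ (Multiset.mem_map_of_mem (fun o => |ι o|) ho)
    have h3 : |ι o| ≤ 0 := by linarith
    have h4 : ι o = 0 := abs_eq_zero.mp (le_antisymm h3 (abs_nonneg _))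
    apply zψ o
    · rw [← memM, hO, Multiset.mem_add]
      exact Or.inr ho
    · apply (ι : L →+* ℝ).injective
      rw [map_zero]
      exact h4
  rw [hψr, hφr, hO0, Multiset.map_zero, add_zero]

end Real

/-- Equal energies force equal nonzero eigenvalues, half of the possible Galois group, rank at
least twelve, no rank condition. -/
theorem bip_wide {V W : Type} [Fintype V] [Fintype W] (G : SimpleGraph V) (H : SimpleGraph W)
    (hGB : G.IsBipartite) (hHB : H.IsBipartite) (hr : rankG H ≤ rankG G + 2)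
    (h12 : 12 ≤ rankG G)
    (hG : 2 ^ (rankG G / 2) * (rankG G / 2).factorial ≤ 2 * Nat.card (chp G).Gal)
    (hE : energy G = energy H) :
    X ^ Fintype.card W * chp G = X ^ Fintype.card V * chp H := by
  obtain ⟨k, f, hf, hX, hf0, mf, sf, r1, ev1, eG, b1, q1, d1, c1⟩ := bip_data G hGB
  obtain ⟨l, g, hg, hY, hg0, mg, sg, r2, ev2, eH, b2, q2, d2, c2⟩ := bip_data H hHB
  rw [r1, hf] at hG
  rw [r1] at h12
  rw [r1, r2] at hr
  have h0 : f * g ≠ 0 := mul_ne_zero hf0 hg0
  have hs : ((f * g).map (algebraMap ℚ ℝ)).Splits := by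
    rw [Polynomial.map_mul]
    exact sf.mul sg
  have gen : ∀ (L : Type) [Field L] [Algebra ℚ L] [IsSplittingField ℚ L (f * g)],
      (f.map (algebraMap ℚ ℝ)).roots = (g.map (algebraMap ℚ ℝ)).roots := by
    intro L _ _ _
    haveI : Normal ℚ L := Normal.of_isSplittingField (f * g)
    haveI : FiniteDimensional ℚ L := IsSplittingField.finiteDimensional L (f * g)
    exact roots_wide (L := L) f g (IsSplittingField.lift L (f * g) hs) h0 (f.natDegree / 2)
      (by omega) ev1 (by omega)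
      (fun _ => by rw [card_range_pow f hf0 k]; exact hG)
      (c1 L).1 (c1 L).2 (c2 L).1 (c2 L).2 b1 b2 (by rw [← eG, ← eH]; exact hE)
  have hroots := @gen (f * g).SplittingField _ _ (IsSplittingField.splittingField (f * g))
  have hfg : f = g := eq_of_roots f g mf mg sf sg hroots
  rw [hf, hg, d1, d2, hfg]
  ring

theorem bip_rigid_wide {V W : Type} [Fintype V] [Fintype W] (G : SimpleGraph V)
    (H : SimpleGraph W) (hGB : G.IsBipartite) (hHB : H.IsBipartite) (hG : HalfSigned G)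
    (h12 : 12 ≤ rankG G) (hr : rankG H ≤ rankG G + 2) :
    energy H = energy G ↔ X ^ Fintype.card V * chp H = X ^ Fintype.card W * chp G := by
  constructor
  · intro h
    exact (bip_wide G H hGB hHB hr h12 hG h.symm).symm
  · intro h
    exact (energy_of_spec G H h.symm).symm

theorem bip_delete_wide {V : Type} [Fintype V] (G : SimpleGraph V) (hGB : G.IsBipartite)
    (e : Sym2 V) (he : e ∈ G.edgeSet)
    (h : (HalfSigned G ∧ 12 ≤ rankG G) ∨
      (HalfSigned (G.deleteEdges {e}) ∧ 12 ≤ rankG (G.deleteEdges {e})) ∨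
      (SignedGalois G ∧ rankG (G.deleteEdges {e}) ≤ rankG G) ∨
      (SignedGalois (G.deleteEdges {e}) ∧ rankG G ≤ rankG (G.deleteEdges {e}))) :
    energy (G.deleteEdges {e}) ≠ energy G := by
  have hDB : (G.deleteEdges {e}).IsBipartite :=
    SimpleGraph.Colorable.mono_left (SimpleGraph.deleteEdges_le _) hGB
  obtain ⟨r1, r2⟩ := rank_delete G e
  rcases h with ⟨h1, h2⟩ | ⟨h1, h2⟩ | h | h
  · intro hE
    exact delete_ne G e he
      (edges_of_spec _ _ ((bip_rigid_wide G _ hGB hDB h1 h2 r1).mp hE))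
  · intro hE
    exact delete_ne G e he
      (edges_of_spec _ _ ((bip_rigid_wide _ G hDB hGB h1 h2 r2).mp hE.symm)).symm
  · exact bip_delete G hGB e he (Or.inl h)
  · exact bip_delete G hGB e he (Or.inr h)

end Pool.Agent.W_44c680_h9
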