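import Pool.Agent.W_44c680_h9.Bip1

/-!
Finite symmetric sets in a field on which a finite group of automorphisms contains all changes of
two signs: the trace of the square of the sum of representatives.
-/

set_option autoImplicit false

namespace Pool.Agent.W_44c680_h9

section Abs

variable {Γ L : Type*} [Group Γ] [Fintype Γ] [Field L] [CharZero L] [MulSemiringAction Γ L]

/-- The group preserves the finite set and contains the change of any two signs. -/
def Pairs (Γ : Type*) {L : Type*} [Group Γ] [Field L] [MulSemiringAction Γ L]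
    (R : Finset L) : Prop :=
  (∀ γ : Γ, ∀ z ∈ R, γ • z ∈ R) ∧
    ∀ u ∈ R, ∀ w ∈ R, w ≠ u → w ≠ - u → ∃ γ : Γ, γ • u = - u ∧ γ • w = - w ∧
      ∀ z ∈ R, z ≠ u → z ≠ - u → z ≠ w → z ≠ - w → γ • z = z

omit [CharZero L] [Fintype Γ] [Group Γ] [MulSemiringAction Γ L] in
theorem half_neg {R P : Finset L} (hP : Half R P) {u w : L} (hu : u ∈ P) (hw : w ∈ P) :
    w ≠ - u := by
  intro hc
  have h1 := (hP.2.2 u (hP.1 hu)).mp hu
  rw [← hc] at h1
  exact h1 hw

omit [CharZero L] [Fintype Γ] [Group Γ] [MulSemiringAction Γ L] in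
open Classical in
theorem third {P : Finset L} (h3 : 3 ≤ P.card) (u v : L) : ∃ w ∈ P, w ≠ u ∧ w ≠ v := by
  have h1 : ({u, v} : Finset L).card < P.card := lt_of_le_of_lt Finset.card_le_two (by omega)
  obtain ⟨w, hw, hw'⟩ := Finset.exists_mem_notMem_of_card_lt_card h1
  rw [Finset.mem_insert, Finset.mem_singleton, not_or] at hw'
  exact ⟨w, hw, hw'.1, hw'.2⟩

theorem ortho {R P : Finset L} (h : Pairs Γ R) (hP : Half R P) (h3 : 3 ≤ P.card) {u v : L}
    (hu : u ∈ P) (hv : v ∈ P) (huv : u ≠ v) : tr Γ (u * v) = 0 := by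
  obtain ⟨w, hw, hwu, hwv⟩ := third h3 u v
  obtain ⟨γ, h1, -, h2⟩ := h.2 u (hP.1 hu) w (hP.1 hw) hwu (half_neg hP hu hw)
  have h3 : γ • v = v := h2 v (hP.1 hv) huv.symm (half_neg hP hu hv) hwv.symm
    (half_neg hP hw hv)
  have h4 := tr_smul γ (u * v)
  rw [smul_mul', h1, h3, neg_mul] at h4
  have h5 : tr Γ (-(u * v)) = - tr Γ (u * v) := by
    unfold tr
    rw [← Finset.sum_neg_distrib]
    exact Finset.sum_congr rfl fun γ _ => smul_neg γ _
  rw [h5] at h4
  have h6 : (2 : L) * tr Γ (u * v) = 0 := by linear_combination -h4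
  exact (mul_eq_zero.mp h6).resolve_left two_ne_zero

open Classical in
theorem form2 {R P : Finset L} (h : Pairs Γ R) (hP : Half R P) (h3 : 3 ≤ P.card)
    {J : Finset L} (hJ : J ⊆ P) :
    tr Γ ((∑ z ∈ J, z) * ∑ z ∈ J, z) = tr Γ (∑ z ∈ J, z * z) := by
  rw [Finset.sum_mul_sum, tr_sum, tr_sum]
  apply Finset.sum_congr rfl
  intro u hu
  rw [tr_sum, ← Finset.add_sum_erase J _ hu, Finset.sum_eq_zero, add_zero]
  intro v hv
  exact ortho h hP h3 (hJ hu) (hJ (Finset.mem_of_mem_erase hv)) (Finset.ne_of_mem_erase hv).symm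

open Classical in
/-- The trace of the square of the sum over the half is determined by the sum of the squares. -/
theorem trace_form {R P : Finset L} (h : Pairs Γ R) (hP : Half R P) (h3 : 3 ≤ P.card) :
    2 * tr Γ ((∑ z ∈ P, z) * ∑ z ∈ P, z) = (Fintype.card Γ : L) * ∑ z ∈ R, z * z := by
  have e2 : (Fintype.card Γ : L) * ∑ z ∈ R, z * z = tr Γ (∑ z ∈ R, z * z) := by
    rw [tr_fix]
    intro γ
    rw [Finset.smul_sum]
    have h1 : R.image (fun z => γ • z) = R := by
      apply Finset.eq_of_subset_of_card_le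
      · intro w hw
        rw [Finset.mem_image] at hw
        obtain ⟨v, hv, rfl⟩ := hw
        exact h.1 γ v hv
      · rw [Finset.card_image_of_injective _ (MulAction.injective γ)]
    conv_rhs => rw [← h1]
    rw [Finset.sum_image fun a _ b _ hab => MulAction.injective γ hab]
    apply Finset.sum_congr rfl
    intro z _
    rw [smul_mul']
  rw [e2, form2 h hP h3 (Finset.Subset.refl P),
    half_sum hP (fun z => z * z) fun z => neg_mul_neg z z, two_mul, two_mul, tr_add]

omit [CharZero L] in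
theorem tr_pos (ι : L →+* ℝ) {J : Finset L} (h : tr Γ (∑ z ∈ J, z * z) = 0) (u : L)
    (hu : u ∈ J) : u = 0 := by
  have h1 : ∑ γ : Γ, ∑ z ∈ J, ι (γ • z) * ι (γ • z) = 0 := by
    rw [← map_zero ι, ← h]
    unfold tr
    rw [map_sum]
    apply Finset.sum_congr rfl
    intro γ _
    rw [Finset.smul_sum, map_sum]
    apply Finset.sum_congr rfl
    intro z _
    rw [smul_mul', map_mul]
  have h2 : ∀ γ ∈ (Finset.univ : Finset Γ), 0 ≤ ∑ z ∈ J, ι (γ • z) * ι (γ • z) := fun γ _ =>
    Finset.sum_nonneg fun z _ => mul_self_nonneg _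
  have h3 := (Finset.sum_eq_zero_iff_of_nonneg h2).mp h1 1 (Finset.mem_univ _)
  have h4 := (Finset.sum_eq_zero_iff_of_nonneg fun z _ => mul_self_nonneg _).mp h3 u hu
  rw [one_smul] at h4
  have h5 : ι u = 0 := mul_self_eq_zero.mp h4
  exact ι.injective (by rw [h5, map_zero])

open Classical in
theorem stab2 (ι : L →+* ℝ) {R P : Finset L} (h : Pairs Γ R) (hP : Half R P)
    (h3 : 3 ≤ P.card) (γ : Γ) (hγ : γ • ∑ z ∈ P, z = ∑ z ∈ P, z) (u : L)
    (hu : u ∈ P) : γ • u ∈ P := by
  obtain ⟨J, hJ, h1, h2⟩ := diffB h.1 hP γ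
  apply h2 _ u hu
  rw [hγ, sub_self] at h1
  have h4 : ∑ z ∈ J, z = 0 := (mul_eq_zero.mp h1.symm).resolve_left two_ne_zero
  have h5 := form2 h hP h3 hJ
  rw [h4, mul_zero] at h5
  have h6 : tr Γ (0 : L) = 0 := by
    unfold tr
    simp
  rw [h6] at h5
  rw [Finset.eq_empty_iff_forall_notMem]
  intro v hv
  have h7 := tr_pos ι h5.symm v hv
  apply half_ne hP (hP.1 (hJ hv))
  rw [h7, neg_zero]

theorem faithful2 (ι : L →+* ℝ) {R P : Finset L} (h : Pairs Γ R) (hP : Half R P)
    (h3 : 3 ≤ P.card) (S : Set L) (hS : ∀ γ : Γ, ∀ z ∈ S, γ • z ∈ S)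
    (hx : ∀ γ : Γ, (∀ z ∈ S, γ • z = z) → γ • ∑ z ∈ P, z = ∑ z ∈ P, z) (γ : Γ)
    (hγ : ∀ z ∈ S, γ • z = z) (a : L) (ha : a ∈ R) : γ • a = a := by
  have key : ∀ σ : Γ, ∀ z : L, σ • z ∈ P → σ • (γ • z) ∈ P := by
    intro σ z hσ
    have h3' : ∀ z ∈ S, (σ * γ * σ⁻¹) • z = z := by
      intro z hz
      rw [mul_smul, mul_smul, hγ _ (hS σ⁻¹ z hz), smul_inv_smul]
    have h4 := stab2 ι h hP h3 (σ * γ * σ⁻¹) (hx _ h3') _ hσ
    rw [mul_smul, mul_smul, inv_smul_smul] at h4
    exact h4
  have pos : ∀ u ∈ P, γ • u = u := by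
    intro u hu
    by_contra hne
    have hv : γ • u ∈ P := by
      have h4 := key 1 u (by rw [one_smul]; exact hu)
      rw [one_smul] at h4
      exact h4
    obtain ⟨w, hw, hwu, hwv⟩ := third h3 u (γ • u)
    obtain ⟨σ, h1, -, h2⟩ := h.2 u (hP.1 hu) w (hP.1 hw) hwu (half_neg hP hu hw)
    have h4 : σ • (γ • u) = γ • u := h2 _ (hP.1 hv) hne (half_neg hP hu hv) hwv.symm
      (half_neg hP hw hv)
    have h5 := key σ (-u) (by rw [smul_neg, h1, neg_neg]; exact hu)
    rw [smul_neg, smul_neg, h4] at h5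
    exact (hP.2.2 _ (hP.1 hv)).mp hv h5
  by_cases haP : a ∈ P
  · exact pos a haP
  · have h1 : - a ∈ P := by
      by_contra hc
      exact haP ((hP.2.2 a ha).mpr hc)
    have h2 := pos _ h1
    rw [smul_neg] at h2
    exact neg_injective h2

end Abs

section Index

/-- A subgroup with at least half of the elements contains all commutators. -/
theorem comm_mem {C : Type*} [Group C] [Finite C] (K : Subgroup C)
    (h : Nat.card C ≤ 2 * Nat.card K) (a b : C) : a * (b * a * b⁻¹) ∈ K := by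
  have h1 := K.card_mul_index
  have hK : 0 < Nat.card K := Nat.card_pos
  have h2 : K.index ≤ 2 := by
    by_contra hc
    have h3 : Nat.card K * 3 ≤ Nat.card K * K.index := Nat.mul_le_mul_left _ (by omega)
    omega
  have h3 : K.index ≠ 0 := by
    intro hc
    rw [hc, mul_zero] at h1
    have : 0 < Nat.card C := Nat.card_pos
    omega
  rcases (by omega : K.index = 1 ∨ K.index = 2) with h4 | h4
  · rw [Subgroup.index_eq_one.mp h4]
    exact Subgroup.mem_top _
  · rw [Subgroup.mul_mem_iff_of_index_two h4, Subgroup.mul_mem_iff_of_index_two h4,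
      Subgroup.mul_mem_iff_of_index_two h4, inv_mem_iff]
    tauto

open Equiv in
/-- The number of permutations that commute with a fixed-point-free involution. -/
theorem card_centralizer {X : Type*} [Fintype X] [DecidableEq X] (ν : Perm X)
    (h1 : ∀ x, ν x ≠ x) (h2 : ∀ x, ν (ν x) = x) :
    ∃ r : ℕ, Fintype.card X = 2 * r ∧
      Nat.card (Subgroup.centralizer {ν}) = 2 ^ r * r.factorial := by
  rcases isEmpty_or_nonempty X with hX | ⟨⟨x⟩⟩
  · refine ⟨0, by simp, ?_⟩
    have : Subsingleton (Perm X) := by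
      constructor
      intro a b
      ext y
      exact (hX.false y).elim
    have h3 : Nat.card (Subgroup.centralizer {ν}) = 1 := by
      rw [Nat.card_eq_one_iff_unique]
      exact ⟨inferInstance, inferInstance⟩
    rw [h3]
    simp
  · have hν : orderOf ν = 2 := by
      apply orderOf_eq_prime
      · ext y
        rw [pow_two, Perm.mul_apply, h2, Perm.one_apply]
      · intro hc
        apply h1 x
        rw [hc, Perm.one_apply]
    obtain ⟨n, hn⟩ := Perm.cycleType_prime_order (σ := ν) (by rw [hν]; exact Nat.prime_two)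
    rw [hν] at hn
    have h3 := Perm.sum_cycleType ν
    have h4 : ν.support = Finset.univ := by
      ext y
      simp [h1 y]
    rw [h4, hn, Multiset.sum_replicate, Finset.card_univ, smul_eq_mul] at h3
    refine ⟨n + 1, by omega, ?_⟩
    have h5 : (Multiset.replicate (n + 1) 2).toFinset = {2} := by
      rw [Multiset.toFinset_replicate, if_neg (by omega)]
    rw [Perm.nat_card_centralizer, hn, h5, Finset.prod_singleton, Multiset.sum_replicate,
      Multiset.prod_replicate, Multiset.count_replicate_self, smul_eq_mul, h3, Nat.sub_self,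
      Nat.factorial_zero, one_mul]

end Index

end Pool.Agent.W_44c680_h9
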