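import Pool.Agent.W_44c680_h9.Gal6

/-!
Two finite sets in a field on each of which a finite group of automorphisms acts as the full
symmetric group: equal partial sums force the sets to be equal up to sign.
-/

set_option autoImplicit false

namespace Pool.Agent.W_44c680_h9

section Abs

variable {Γ L : Type*} [Group Γ] [Fintype Γ] [Field L] [CharZero L] [MulSemiringAction Γ L]

open Classical in
theorem one_side {L : Type*} [Field L] [CharZero L] {R R' : Finset L} (hR : ∑ z ∈ R, z = 0)
    (hR' : ∑ z ∈ R', z = 0) (hc : R.card = R'.card) {i w : L} (hi : i ∈ R) (hw : w ∈ R')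
    (c : L → L) (hcm : ∀ k ∈ R.erase i, c k ∈ R') (ε : L) (hε : ε ≠ 0)
    (h : ∀ k ∈ R.erase i, i - k = ε * (w - c k)) : i = ε * w := by
  have hne : ∀ k ∈ R.erase i, c k ≠ w := by
    intro k hk hcw
    have h1 := h k hk
    rw [hcw, sub_self, mul_zero, sub_eq_zero] at h1
    exact Finset.ne_of_mem_erase hk h1.symm
  have hinj : Set.InjOn c (R.erase i : Finset L) := by
    intro k hk l hl hkl
    have h1 := h k hk
    have h2 := h l hl
    rw [hkl, ← h2] at h1
    exact sub_right_injective h1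
  have himg : (R.erase i).image c = R'.erase w := by
    apply Finset.eq_of_subset_of_card_le
    · intro z hz
      rw [Finset.mem_image] at hz
      obtain ⟨k, hk, rfl⟩ := hz
      exact Finset.mem_erase.mpr ⟨hne k hk, hcm k hk⟩
    · rw [Finset.card_image_of_injOn hinj, Finset.card_erase_of_mem hi,
        Finset.card_erase_of_mem hw, hc]
  have h1 : ∑ k ∈ R.erase i, c k = ∑ z ∈ R'.erase w, z := by
    rw [← himg, Finset.sum_image hinj]
  have h2 := Finset.add_sum_erase R (fun z => z) hi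
  have h3 := Finset.add_sum_erase R' (fun z => z) hw
  rw [hR] at h2
  rw [hR'] at h3
  have h4 := Finset.sum_congr rfl h
  rw [← Finset.mul_sum, Finset.sum_sub_distrib, Finset.sum_sub_distrib, Finset.sum_const,
    Finset.sum_const, nsmul_eq_mul, nsmul_eq_mul, h1, Finset.card_erase_of_mem hi,
    Nat.cast_sub (Finset.card_pos.mpr ⟨i, hi⟩), Nat.cast_one] at h4
  have h5 : (R.card : L) * (i - ε * w) = 0 := by linear_combination h4 + h2 - ε * h3
  have h6 : (R.card : L) ≠ 0 := by
    have : 0 < R.card := Finset.card_pos.mpr ⟨i, hi⟩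
    exact_mod_cast this.ne'
  exact sub_eq_zero.mp ((mul_eq_zero.mp h5).resolve_left h6)

open Classical in
/-- Equal partial sums force the two sets to be equal up to sign. -/
theorem up_to_sign {R R' : Finset L} (h : Full Γ R) (h' : Full Γ R') (hR : ∑ z ∈ R, z = 0)
    (hR' : ∑ z ∈ R', z = 0) (hc : R.card = R'.card) (hn : 2 ≤ R.card) {P P' : Finset L}
    (hP : P ⊆ R) (hP' : P' ⊆ R') (h0 : 0 < P.card) (h1 : P.card < R.card)
    (hs : ∑ z ∈ P, z = ∑ z ∈ P', z) (hs0 : ∑ z ∈ R, z * z ≠ 0) :
    R = R' ∨ R = R'.image fun z => - z := by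
  have hsq := squares_eq (Γ := Γ) h h' hR hR' hc hn hP hP' h0 h1 hs
  obtain ⟨t, τ, hf, hτ⟩ := form h hR hn
  obtain ⟨t', τ', hf', hτ'⟩ := form h' hR' (by omega)
  have hΓ : (Fintype.card Γ : L) ≠ 0 := by
    have : 0 < Fintype.card Γ := Fintype.card_pos
    exact_mod_cast this.ne'
  have hd : (R.card : L) - 1 ≠ 0 := by
    rw [sub_ne_zero]
    have h2 : R.card ≠ 1 := by omega
    exact_mod_cast h2
  have hττ : τ' = τ := by
    apply mul_left_cancel₀ hd
    rw [hτ, hsq, ← hτ', hc]
  rw [hττ] at hf'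
  have hτ0 : τ ≠ 0 := by
    intro h2
    rw [h2, mul_zero] at hτ
    exact mul_ne_zero hΓ hs0 hτ.symm
  obtain ⟨i, hi⟩ := Finset.card_pos.mp h0
  obtain ⟨k1, hk1, hk1'⟩ : ∃ k ∈ R, k ∉ P := by
    by_contra hcon
    push Not at hcon
    have := Finset.card_le_card (show R ⊆ P from hcon)
    omega
  have hik1 : i ≠ k1 := fun hc' => hk1' (hc' ▸ hi)
  obtain ⟨a1, ha1, b1, hb1, hab1⟩ := diff_eq h h' hf hf' hτ0 hP hP' hs hi hk1 hk1'
  have hex : ∀ k : L, ∃ a b : L, k ∈ R.erase i → a ∈ R' ∧ b ∈ R' ∧ i - k = a - b := by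
    intro k
    by_cases hk : k ∈ R.erase i
    · obtain ⟨σ, hσ1, hσ2⟩ := full_pair h (hP hi) hk1 (hP hi) (Finset.mem_of_mem_erase hk) hik1
        (Finset.ne_of_mem_erase hk).symm
      refine ⟨σ • a1, σ • b1, fun _ => ⟨h'.1 σ a1 ha1, h'.1 σ b1 hb1, ?_⟩⟩
      rw [← smul_sub, ← hab1, smul_sub, hσ1, hσ2]
    · exact ⟨0, 0, fun hk' => absurd hk' hk⟩
  choose a b hab using hex
  have pair : ∀ k ∈ R.erase i, ∀ l ∈ R.erase i, k ≠ l → a k = a l ∨ b k = b l := by
    intro k hk l hl hkl
    obtain ⟨p1, p2, p3⟩ := hab k hk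
    obtain ⟨q1, q2, q3⟩ := hab l hl
    have e1 : tr Γ ((i - k) * (i - l)) = τ := by
      have h2 : (i - k) * (i - l) = i * i - i * l - (k * i - k * l) := by ring
      rw [h2, tr_sub, tr_sub, tr_sub, hf i (hP hi) i (hP hi),
        hf i (hP hi) l (Finset.mem_of_mem_erase hl), hf k (Finset.mem_of_mem_erase hk) i (hP hi),
        hf k (Finset.mem_of_mem_erase hk) l (Finset.mem_of_mem_erase hl), if_pos rfl,
        if_neg (Finset.ne_of_mem_erase hl).symm, if_neg (Finset.ne_of_mem_erase hk), if_neg hkl]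
      ring
    have e2 : tr Γ ((i - k) * (i - l)) = (if a k = a l then τ else 0) -
        (if a k = b l then τ else 0) - ((if b k = a l then τ else 0) -
          (if b k = b l then τ else 0)) := by
      have h2 : (i - k) * (i - l) = a k * a l - a k * b l - (b k * a l - b k * b l) := by
        rw [p3, q3]
        ring
      rw [h2, tr_sub, tr_sub, tr_sub, hf' _ p1 _ q1, hf' _ p1 _ q2, hf' _ p2 _ q1,
        hf' _ p2 _ q2]
      ring
    by_contra hcon
    rw [not_or] at hcon
    rw [e1, if_neg hcon.1, if_neg hcon.2] at e2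
    apply hτ0
    by_cases c1 : a k = b l <;> by_cases c2 : b k = a l
    · rw [if_pos c1, if_pos c2] at e2
      have h3 : (3 : L) * τ = 0 := by linear_combination e2
      exact (mul_eq_zero.mp h3).resolve_left three_ne_zero
    · rw [if_pos c1, if_neg c2] at e2
      have h3 : (2 : L) * τ = 0 := by linear_combination e2
      exact (mul_eq_zero.mp h3).resolve_left two_ne_zero
    · rw [if_neg c1, if_pos c2] at e2
      have h3 : (2 : L) * τ = 0 := by linear_combination e2
      exact (mul_eq_zero.mp h3).resolve_left two_ne_zero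
    · rw [if_neg c1, if_neg c2] at e2
      linear_combination e2
  have hk1e : k1 ∈ R.erase i := Finset.mem_erase.mpr ⟨hik1.symm, hk1⟩
  have dich : (∀ k ∈ R.erase i, a k = a k1) ∨ (∀ k ∈ R.erase i, b k = b k1) := by
    by_contra hcon
    rw [not_or] at hcon
    obtain ⟨hc1, hc2⟩ := hcon
    push Not at hc1 hc2
    obtain ⟨k, hk, hka⟩ := hc1
    obtain ⟨l, hl, hlb⟩ := hc2
    have hkk1 : k ≠ k1 := fun hc' => hka (by rw [hc'])
    have hlk1 : l ≠ k1 := fun hc' => hlb (by rw [hc'])
    have g1 : b k = b k1 := (pair k hk k1 hk1e hkk1).resolve_left hka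
    have g2 : a l = a k1 := (pair l hl k1 hk1e hlk1).resolve_right hlb
    have hkl : k ≠ l := by
      intro hc'
      rw [hc'] at g1
      exact hlb g1
    rcases pair k hk l hl hkl with g3 | g3
    · exact hka (g3.trans g2)
    · exact hlb (g3.symm.trans g1)
  have spread : ∀ z ∈ R, ∃ γ : Γ, γ • i = z := by
    intro z hz
    obtain ⟨γ, hγ⟩ := full_swap h (hP hi) hz
    exact ⟨γ, by rw [hγ i (hP hi), Equiv.swap_apply_left]⟩
  obtain ⟨p1, p2, p3⟩ := hab k1 hk1e
  rcases dich with hI | hII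
  · left
    have e : i = 1 * a k1 := by
      apply one_side hR hR' hc (hP hi) p1 b (fun k hk => (hab k hk).2.1) 1 one_ne_zero
      intro k hk
      rw [(hab k hk).2.2, hI k hk, one_mul]
    rw [one_mul] at e
    apply Finset.eq_of_subset_of_card_le _ hc.ge
    intro z hz
    obtain ⟨γ, hγ⟩ := spread z hz
    rw [← hγ, e]
    exact h'.1 γ _ p1
  · right
    have e : i = (-1) * b k1 := by
      apply one_side hR hR' hc (hP hi) p2 a (fun k hk => (hab k hk).1) (-1)
        (neg_ne_zero.mpr one_ne_zero)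
      intro k hk
      rw [(hab k hk).2.2, hII k hk]
      ring
    rw [neg_one_mul] at e
    apply Finset.eq_of_subset_of_card_le
    · intro z hz
      obtain ⟨γ, hγ⟩ := spread z hz
      rw [← hγ, e, smul_neg, Finset.mem_image]
      exact ⟨γ • b k1, h'.1 γ _ p2, rfl⟩
    · rw [Finset.card_image_of_injective _ neg_injective, hc]

end Abs

end Pool.Agent.W_44c680_h9
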