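import Pool.Agent.W_44c680_h9.Gal2
import Pool.Agent.W_44c680_h9.Gal7

/-!
The Galois group of the characteristic polynomial and the energy: polynomials with real roots.
-/

set_option autoImplicit false

namespace Pool.Agent.W_44c680_h9

open Matrix Polynomial

section Real

variable {L : Type} [Field L] [Algebra ℚ L]

theorem roots_real (q : ℚ[X]) (h : (q.map (algebraMap ℚ L)).Splits) (ι : L →ₐ[ℚ] ℝ) :
    (q.map (algebraMap ℚ ℝ)).roots = (q.aroots L).map ι := by
  have key := h.roots_map (ι : L →+* ℝ)
  rw [Polynomial.map_map, AlgHom.comp_algebraMap] at key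
  exact key

open Classical in
/-- The sum of the roots that are sent to positive reals. -/
noncomputable def xs (ι : L →ₐ[ℚ] ℝ) (q : ℚ[X]) : L :=
  ((q.aroots L).filter fun z => 0 < ι z).sum

open Classical in
theorem abs_sum (ι : L →ₐ[ℚ] ℝ) (s : Multiset L) :
    (s.map fun z => |ι z|).sum = 2 * ι (s.filter fun z => 0 < ι z).sum - ι s.sum := by
  induction s using Multiset.induction_on with
  | empty => simp
  | cons a s ih =>
    by_cases h : 0 < ι a
    · rw [Multiset.map_cons, Multiset.sum_cons, Multiset.filter_cons_of_pos (p := fun z => 0 < ι z) s h,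
        Multiset.sum_cons, Multiset.sum_cons, ih, map_add, map_add, abs_of_pos h]
      ring
    · rw [Multiset.map_cons, Multiset.sum_cons, Multiset.filter_cons_of_neg (p := fun z => 0 < ι z) s h,
        Multiset.sum_cons, ih, map_add, abs_of_nonpos (not_lt.mp h)]
      ring

theorem rs_eq_xs (ι : L →ₐ[ℚ] ℝ) (q : ℚ[X]) (h : (q.map (algebraMap ℚ L)).Splits)
    (h0 : (q.aroots L).sum = 0) : rs (q.map (algebraMap ℚ ℝ)) = 2 * ι (xs ι q) := by
  unfold rs xs
  rw [roots_real q h ι, Multiset.map_map]
  have h1 := abs_sum ι (q.aroots L)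
  rw [h0, map_zero, sub_zero] at h1
  exact h1

theorem nodup_of_card (q : ℚ[X]) (h : (rts L q).card = q.natDegree) : (q.aroots L).Nodup := by
  letI := Classical.decEq L
  have h1 : (q.aroots L).toFinset.card = q.natDegree := h
  rw [← Multiset.toFinset_card_eq_card_iff_nodup]
  apply le_antisymm (Multiset.toFinset_card_le _)
  rw [h1]
  refine (card_roots' _).trans ?_
  exact natDegree_map_le

theorem rts_val (q : ℚ[X]) (h : (q.aroots L).Nodup) : (rts L q).val = q.aroots L := by
  letI := Classical.decEq L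
  show ((q.aroots L).toFinset).val = q.aroots L
  rw [Multiset.toFinset_val]
  exact Multiset.dedup_eq_self.mpr h

theorem sum_rts {M : Type} [AddCommMonoid M] (q : ℚ[X]) (h : (q.aroots L).Nodup) (f : L → M) :
    ∑ z ∈ rts L q, f z = ((q.aroots L).map f).sum := by
  rw [← rts_val q h]
  rfl

open Classical in
theorem sum_pos (ι : L →ₐ[ℚ] ℝ) (q : ℚ[X]) (h : (q.aroots L).Nodup) :
    ∑ z ∈ (rts L q).filter (fun z => 0 < ι z), z = xs ι q := by
  unfold xs
  rw [← rts_val q h, ← Finset.filter_val]
  show (((rts L q).filter (fun z => 0 < ι z)).val.map fun z => z).sum = _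
  rw [Multiset.map_id']

theorem sum_zero (ι : L →ₐ[ℚ] ℝ) (q : ℚ[X]) (h : (q.map (algebraMap ℚ L)).Splits)
    (h0 : (q.map (algebraMap ℚ ℝ)).roots.sum = 0) : (q.aroots L).sum = 0 := by
  apply (ι : L →+* ℝ).injective
  rw [map_zero]
  show ι (q.aroots L).sum = 0
  rw [map_multiset_sum, ← roots_real q h ι, h0]

end Real

end Pool.Agent.W_44c680_h9
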