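import Pool.Agent.W_44c680_h9.Bip2
import Pool.Agent.W_44c680_h9.Gal3

/-!
The Galois group of a polynomial whose roots are closed under the change of the sign.
-/

set_option autoImplicit false

namespace Pool.Agent.W_44c680_h9

open Matrix Polynomial

section Inv

open Equiv

variable {X : Type*} [DecidableEq X]

theorem swap_cent (ν : Perm X) (h2 : ∀ x, ν (ν x) = x) (u : X) :
    swap u (ν u) ∈ Subgroup.centralizer {ν} := by
  rw [Subgroup.mem_centralizer_singleton_iff]
  have h := swap_apply_apply ν u (ν u)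
  rw [h2, Equiv.swap_comm (ν u) u] at h
  have h' : Equiv.swap u (ν u) * ν = ν * Equiv.swap u (ν u) := by
    conv_lhs => rw [h]
    rw [inv_mul_cancel_right]
  exact h'

theorem tau_cent (ν : Perm X) (h2 : ∀ x, ν (ν x) = x) (h1 : ∀ x, ν x ≠ x) (u w : X)
    (huw : w ≠ u) (huw' : w ≠ ν u) :
    swap u w * swap (ν u) (ν w) ∈ Subgroup.centralizer {ν} := by
  have hwu : ν w ≠ u := fun hc => huw' (by rw [← hc, h2])
  rw [Subgroup.mem_centralizer_singleton_iff]
  have e1 := swap_apply_apply ν u w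
  have e2 := swap_apply_apply ν (ν u) (ν w)
  rw [h2, h2] at e2
  have e3 := swap_apply_apply (swap (ν u) (ν w)) u w
  rw [swap_apply_of_ne_of_ne (h1 u).symm hwu.symm,
    swap_apply_of_ne_of_ne huw' (h1 w).symm] at e3
  have e4 : swap u w * swap (ν u) (ν w) = swap (ν u) (ν w) * swap u w := by
    conv_lhs => rw [e3]
    rw [inv_mul_cancel_right]
  have e5 : ν * swap (ν u) (ν w) = swap u w * ν := by
    rw [e2, inv_mul_cancel_right]
  have e6 : ν * swap u w = swap (ν u) (ν w) * ν := by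
    rw [e1, inv_mul_cancel_right]
  calc Equiv.swap u w * Equiv.swap (ν u) (ν w) * ν
      = Equiv.swap u w * (Equiv.swap (ν u) (ν w) * ν) := mul_assoc _ _ _
    _ = Equiv.swap u w * (ν * Equiv.swap u w) := by rw [e6]
    _ = Equiv.swap u w * ν * Equiv.swap u w := (mul_assoc _ _ _).symm
    _ = ν * Equiv.swap (ν u) (ν w) * Equiv.swap u w := by rw [e5]
    _ = ν * (Equiv.swap (ν u) (ν w) * Equiv.swap u w) := mul_assoc _ _ _
    _ = ν * (Equiv.swap u w * Equiv.swap (ν u) (ν w)) := by rw [e4]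

/-- A subgroup of index at most two of the centralizer contains the change of two signs. -/
theorem pair_mem [Finite X] (ν : Perm X) (h2 : ∀ x, ν (ν x) = x) (h1 : ∀ x, ν x ≠ x)
    (K : Subgroup (Subgroup.centralizer {ν}))
    (hK : Nat.card (Subgroup.centralizer {ν}) ≤ 2 * Nat.card K) (u w : X)
    (huw : w ≠ u) (huw' : w ≠ ν u) :
    ∃ k : Subgroup.centralizer {ν}, k ∈ K ∧ (k : Perm X) = swap u (ν u) * swap w (ν w) := by
  have hwu : ν w ≠ u := fun hc => huw' (by rw [← hc, h2])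
  have hnn : ν u ≠ ν w := fun hc => huw (ν.injective hc).symm
  refine ⟨_, comm_mem K hK ⟨_, swap_cent ν h2 u⟩ ⟨_, tau_cent ν h2 h1 u w huw huw'⟩, ?_⟩
  show swap u (ν u) * ((swap u w * swap (ν u) (ν w)) * swap u (ν u) *
    (swap u w * swap (ν u) (ν w))⁻¹) = _
  rw [← swap_apply_apply]
  congr 2
  · rw [Perm.mul_apply, swap_apply_of_ne_of_ne (h1 u).symm hwu.symm, swap_apply_left]
  · rw [Perm.mul_apply, swap_apply_left, swap_apply_of_ne_of_ne hwu (h1 w)]

end Inv

section Field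

variable {L : Type} [Field L] [Algebra ℚ L] [Normal ℚ L]

/-- The change of the sign on the roots. -/
def negPerm (q : ℚ[X]) (h : ∀ z ∈ q.rootSet L, - z ∈ q.rootSet L) :
    Equiv.Perm (q.rootSet L) where
  toFun z := ⟨- z, h z z.2⟩
  invFun z := ⟨- z, h z z.2⟩
  left_inv z := Subtype.ext (neg_neg _)
  right_inv z := Subtype.ext (neg_neg _)

omit [Normal ℚ L] in
theorem negPerm_apply (q : ℚ[X]) (h : ∀ z ∈ q.rootSet L, - z ∈ q.rootSet L)
    (z : q.rootSet L) : (negPerm q h z : L) = - z := rfl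

omit [Normal ℚ L] in
theorem negPerm_negPerm (q : ℚ[X]) (h : ∀ z ∈ q.rootSet L, - z ∈ q.rootSet L)
    (z : q.rootSet L) : negPerm q h (negPerm q h z) = z := Subtype.ext (neg_neg _)

omit [Normal ℚ L] in
theorem negPerm_ne (q : ℚ[X]) (h : ∀ z ∈ q.rootSet L, - z ∈ q.rootSet L)
    (h0 : ∀ z ∈ q.rootSet L, z ≠ 0) (z : q.rootSet L) : negPerm q h z ≠ z := by
  haveI : CharZero L := algebraRat.charZero L
  intro hc
  have h1 := congrArg Subtype.val hc
  rw [negPerm_apply] at h1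
  have h2 : (2 : L) * (z : L) = 0 := by linear_combination -h1
  exact h0 z z.2 ((mul_eq_zero.mp h2).resolve_left two_ne_zero)

theorem act_cent (q : ℚ[X]) [Fact ((q.map (algebraMap ℚ L)).Splits)]
    (h : ∀ z ∈ q.rootSet L, - z ∈ q.rootSet L) (γ : L ≃ₐ[ℚ] L) :
    act L q γ ∈ Subgroup.centralizer {negPerm q h} := by
  rw [Subgroup.mem_centralizer_singleton_iff]
  apply Equiv.ext
  intro z
  apply Subtype.ext
  rw [Equiv.Perm.mul_apply, Equiv.Perm.mul_apply, act_apply, negPerm_apply, negPerm_apply,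
    act_apply, map_neg]

/-- The action on the roots, with values in the permutations that commute with the sign. -/
noncomputable def act' (q : ℚ[X]) [Fact ((q.map (algebraMap ℚ L)).Splits)]
    (h : ∀ z ∈ q.rootSet L, - z ∈ q.rootSet L) :
    (L ≃ₐ[ℚ] L) →* Subgroup.centralizer {negPerm q h} :=
  (act L q).codRestrict _ (act_cent q h)

theorem act'_apply (q : ℚ[X]) [Fact ((q.map (algebraMap ℚ L)).Splits)]
    (h : ∀ z ∈ q.rootSet L, - z ∈ q.rootSet L) (γ : L ≃ₐ[ℚ] L) :
    ((act' q h γ : Subgroup.centralizer {negPerm q h}) : Equiv.Perm (q.rootSet L)) = act L q γ :=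
  rfl

theorem card_act' (q : ℚ[X]) [Fact ((q.map (algebraMap ℚ L)).Splits)]
    (h : ∀ z ∈ q.rootSet L, - z ∈ q.rootSet L) :
    Nat.card (act' q h).range = Nat.card (act L q).range := by
  rw [← Subgroup.index_ker, ← Subgroup.index_ker]
  congr 1
  exact MonoidHom.ker_codRestrict _ _ _

open Classical in
theorem two_cases (q : ℚ[X]) (h : ∀ z ∈ q.rootSet L, - z ∈ q.rootSet L)
    (h0 : ∀ z ∈ q.rootSet L, z ≠ 0) :
    ∃ r : ℕ, (rts L q).card = 2 * r ∧
      Nat.card (Subgroup.centralizer {negPerm q h}) = 2 ^ r * r.factorial := by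
  haveI : Fintype (q.rootSet L) := (rootSet_finite q L).fintype
  obtain ⟨r, h1, h2⟩ := card_centralizer (negPerm q h) (negPerm_ne q h h0) (negPerm_negPerm q h)
  refine ⟨r, ?_, h2⟩
  rw [card_rts, Nat.card_eq_fintype_card, h1]

theorem rts_invariant (q : ℚ[X]) [Fact ((q.map (algebraMap ℚ L)).Splits)] (γ : L ≃ₐ[ℚ] L)
    (z : L) (hz : z ∈ rts L q) : γ • z ∈ rts L q := by
  rw [mem_rts] at hz ⊢
  have h1 := act_apply q γ ⟨z, hz⟩
  rw [AlgEquiv.smul_def, ← h1]
  exact (act L q γ ⟨z, hz⟩).2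

theorem pow_fact {r m : ℕ} (h : r < m) : 2 * (2 ^ r * r.factorial) ≤ 2 ^ m * (m - 1).factorial := by
  obtain ⟨k, rfl⟩ := Nat.exists_eq_succ_of_ne_zero (by omega : m ≠ 0)
  have h1 : r ≤ k := by omega
  rw [Nat.succ_sub_one, pow_succ]
  calc 2 * (2 ^ r * r.factorial) ≤ 2 * (2 ^ k * k.factorial) :=
        Nat.mul_le_mul_left _ (Nat.mul_le_mul (Nat.pow_le_pow_right (by norm_num) h1)
          (Nat.factorial_le h1))
    _ = 2 ^ k * 2 * k.factorial := by ring

/-- If the Galois group has at least half of the possible elements, it contains all changes of two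
signs. -/
theorem pairs_of_card (q : ℚ[X]) [Fact ((q.map (algebraMap ℚ L)).Splits)]
    (h : ∀ z ∈ q.rootSet L, - z ∈ q.rootSet L) (h0 : ∀ z ∈ q.rootSet L, z ≠ 0) (m : ℕ)
    (hm : 2 ≤ m) (hd : q.natDegree ≤ 2 * m)
    (hc : 2 ^ m * m.factorial ≤ 2 * Nat.card (act L q).range) :
    Pairs (L ≃ₐ[ℚ] L) (rts L q) ∧ (rts L q).card = 2 * m := by
  classical
  haveI : Fintype (q.rootSet L) := (rootSet_finite q L).fintype
  obtain ⟨r, h1, h2⟩ := two_cases q h h0
  have h3 : Nat.card (act' q h).range ≤ 2 ^ r * r.factorial := by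
    rw [← h2]
    exact Subgroup.card_le_card_group _
  have h4 : (rts L q).card ≤ 2 * m := by
    rw [card_rts]
    exact (card_root_le q).trans hd
  rw [← card_act' q h] at hc
  have h5 : r = m := by
    by_contra hcon
    have h6 := pow_fact (by omega : r < m)
    have h7 : (m - 1).factorial < m.factorial := (Nat.factorial_lt (by omega)).mpr (by omega)
    have h8 : 2 ^ m * (m - 1).factorial < 2 ^ m * m.factorial :=
      Nat.mul_lt_mul_of_pos_left h7 (by positivity)
    omega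
  subst h5
  refine ⟨⟨fun γ z hz => rts_invariant q γ z hz, ?_⟩, h1⟩
  intro u hu w hw hwu hwu'
  rw [mem_rts] at hu hw
  obtain ⟨k, hk, hk'⟩ := pair_mem (negPerm q h) (negPerm_negPerm q h) (negPerm_ne q h h0)
    (act' q h).range (by rw [h2]; exact hc) ⟨u, hu⟩ ⟨w, hw⟩
    (fun hcon => hwu (congrArg Subtype.val hcon))
    (fun hcon => hwu' (congrArg Subtype.val hcon))
  obtain ⟨γ, hγ⟩ := hk
  have h6 : ∀ z : q.rootSet L, γ • (z : L) =
      ((Equiv.swap (⟨u, hu⟩ : q.rootSet L) (negPerm q h ⟨u, hu⟩) *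
        Equiv.swap ⟨w, hw⟩ (negPerm q h ⟨w, hw⟩)) z : q.rootSet L) := by
    intro z
    rw [← hk', ← hγ, act'_apply, act_apply, AlgEquiv.smul_def]
  have nu := negPerm_ne q h h0 ⟨u, hu⟩
  have nw := negPerm_ne q h h0 ⟨w, hw⟩
  have n1 : (⟨w, hw⟩ : q.rootSet L) ≠ ⟨u, hu⟩ := fun hcon => hwu (congrArg Subtype.val hcon)
  have n2 : (⟨w, hw⟩ : q.rootSet L) ≠ negPerm q h ⟨u, hu⟩ := fun hcon =>
    hwu' (congrArg Subtype.val hcon)
  have n3 : negPerm q h ⟨w, hw⟩ ≠ ⟨u, hu⟩ := fun hcon => n2 (by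
    rw [← hcon, negPerm_negPerm])
  have n4 : negPerm q h ⟨w, hw⟩ ≠ negPerm q h ⟨u, hu⟩ := fun hcon =>
    n1 ((negPerm q h).injective hcon)
  refine ⟨γ, ?_, ?_, ?_⟩
  · rw [h6 ⟨u, hu⟩, Equiv.Perm.mul_apply, Equiv.swap_apply_of_ne_of_ne n1.symm n3.symm,
      Equiv.swap_apply_left, negPerm_apply]
  · rw [h6 ⟨w, hw⟩, Equiv.Perm.mul_apply, Equiv.swap_apply_left,
      Equiv.swap_apply_of_ne_of_ne n3 n4, negPerm_apply]
  · intro z hz z1 z2 z3 z4
    rw [mem_rts] at hz
    have s1 : Equiv.swap (⟨w, hw⟩ : q.rootSet L) (negPerm q h ⟨w, hw⟩) ⟨z, hz⟩ = ⟨z, hz⟩ :=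
      Equiv.swap_apply_of_ne_of_ne (fun hcon => z3 (congrArg Subtype.val hcon))
        (fun hcon => z4 (congrArg Subtype.val hcon))
    have s2 : Equiv.swap (⟨u, hu⟩ : q.rootSet L) (negPerm q h ⟨u, hu⟩) ⟨z, hz⟩ = ⟨z, hz⟩ :=
      Equiv.swap_apply_of_ne_of_ne (fun hcon => z1 (congrArg Subtype.val hcon))
        (fun hcon => z2 (congrArg Subtype.val hcon))
    rw [h6 ⟨z, hz⟩, Equiv.Perm.mul_apply, s1, s2]

/-- If the Galois group has all of the possible elements, it is the full group of signed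
permutations. -/
theorem fullB_of_card (q : ℚ[X]) [Fact ((q.map (algebraMap ℚ L)).Splits)]
    (h : ∀ z ∈ q.rootSet L, - z ∈ q.rootSet L) (h0 : ∀ z ∈ q.rootSet L, z ≠ 0) (m : ℕ)
    (hm : 1 ≤ m) (hd : q.natDegree ≤ 2 * m)
    (hc : 2 ^ m * m.factorial ≤ Nat.card (act L q).range) :
    FullB (L ≃ₐ[ℚ] L) (rts L q) ∧ (rts L q).card = 2 * m := by
  classical
  haveI : Fintype (q.rootSet L) := (rootSet_finite q L).fintype
  obtain ⟨r, h1, h2⟩ := two_cases q h h0
  have h3 : Nat.card (act' q h).range ≤ 2 ^ r * r.factorial := by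
    rw [← h2]
    exact Subgroup.card_le_card_group _
  have h4 : (rts L q).card ≤ 2 * m := by
    rw [card_rts]
    exact (card_root_le q).trans hd
  rw [← card_act' q h] at hc
  have h5 : r = m := by
    by_contra hcon
    have h6 := pow_fact (by omega : r < m)
    have h7 : (m - 1).factorial ≤ m.factorial := Nat.factorial_le (by omega)
    have h8 : 2 ^ m * (m - 1).factorial ≤ 2 ^ m * m.factorial := Nat.mul_le_mul_left _ h7
    have h9 : 0 < 2 ^ r * r.factorial := Nat.mul_pos (by positivity) (Nat.factorial_pos r)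
    omega
  subst h5
  have htop : (act' q h).range = ⊤ := by
    apply Subgroup.eq_top_of_le_card
    rw [h2]
    exact hc
  refine ⟨⟨fun γ z hz => rts_invariant q γ z hz, ?_⟩, h1⟩
  intro f hf hf2
  have hf' : ∀ z : q.rootSet L, f z ∈ q.rootSet L := fun z =>
    (mem_rts q _).mp (hf z ((mem_rts q _).mpr z.2))
  have hinj : Function.Injective fun z : q.rootSet L => (⟨f z, hf' z⟩ : q.rootSet L) := by
    intro z w hzw
    exact Subtype.ext (f.injective (congrArg Subtype.val hzw))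
  have hcent : Equiv.ofBijective _ (Finite.injective_iff_bijective.mp hinj) ∈
      Subgroup.centralizer {negPerm q h} := by
    rw [Subgroup.mem_centralizer_singleton_iff]
    apply Equiv.ext
    intro z
    apply Subtype.ext
    show f (-z) = - f z
    exact hf2 z ((mem_rts q _).mpr z.2)
  have hmem : (⟨_, hcent⟩ : Subgroup.centralizer {negPerm q h}) ∈ (act' q h).range := by
    rw [htop]
    exact Subgroup.mem_top _
  obtain ⟨γ, hγ⟩ := hmem
  refine ⟨γ, fun z hz => ?_⟩
  have h6 := act_apply q γ ⟨z, (mem_rts q z).mp hz⟩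
  rw [← act'_apply q h, hγ] at h6
  rw [AlgEquiv.smul_def, ← h6]
  rfl

end Field

end Pool.Agent.W_44c680_h9
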