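import Pool.Agent.W_44c680_h9.Bip3

/-!
The Galois group and the sum of the absolute values of the roots: polynomials with real roots that
are closed under the change of the sign.
-/

set_option autoImplicit false

namespace Pool.Agent.W_44c680_h9

open Matrix Polynomial

section Real

variable {L : Type} [Field L] [Algebra ℚ L]

open Classical in
theorem half_roots (ι : L →ₐ[ℚ] ℝ) (q : ℚ[X]) (h : ∀ z ∈ q.rootSet L, - z ∈ q.rootSet L)
    (h0 : ∀ z ∈ q.rootSet L, z ≠ 0) :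
    Half (rts L q) ((rts L q).filter fun z => 0 < ι z) := by
  refine ⟨Finset.filter_subset _ _,
    fun z hz => (mem_rts q _).mpr (h z ((mem_rts q z).mp hz)), fun z hz => ?_⟩
  have hz' := (mem_rts q z).mp hz
  have h1 : ι z ≠ 0 := fun hc => h0 z hz' ((ι : L →+* ℝ).injective (by
    rw [map_zero]
    exact hc))
  rw [Finset.mem_filter, Finset.mem_filter, map_neg]
  constructor
  · rintro ⟨-, h2⟩ ⟨-, h3⟩
    linarith
  · intro h2
    refine ⟨hz, ?_⟩
    by_contra h3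
    apply h2
    refine ⟨(mem_rts q _).mpr (h z hz'), ?_⟩
    have := lt_of_le_of_ne (not_lt.mp h3) h1
    linarith

theorem inj_act (φ ψ : ℚ[X]) [Normal ℚ L] [IsSplittingField ℚ L (φ * ψ)]
    [Fact ((ψ.map (algebraMap ℚ L)).Splits)] (ι : L →ₐ[ℚ] ℝ) (h0 : φ * ψ ≠ 0)
    (hx : xs ι φ = xs ι ψ)
    (hf : ∀ S : Set L, (∀ γ : L ≃ₐ[ℚ] L, ∀ z ∈ S, γ • z ∈ S) →
      (∀ γ : L ≃ₐ[ℚ] L, (∀ z ∈ S, γ • z = z) → γ • xs ι φ = xs ι φ) →
        ∀ γ : L ≃ₐ[ℚ] L, (∀ z ∈ S, γ • z = z) → ∀ a ∈ rts L φ, γ • a = a) :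
    Function.Injective (act L ψ) := by
  classical
  rw [injective_iff_map_eq_one]
  intro γ hγ
  have g1 : ∀ z ∈ ψ.rootSet L, γ • z = z := by
    intro z hz
    have h1 := act_apply ψ γ ⟨z, hz⟩
    rw [hγ] at h1
    exact h1.symm
  have g2 : ∀ z ∈ rts L φ, γ • z = z := by
    apply hf (ψ.rootSet L)
    · intro σ z hz
      have h1 := act_apply ψ σ ⟨z, hz⟩
      rw [AlgEquiv.smul_def, ← h1]
      exact (act L ψ σ ⟨z, hz⟩).2
    · intro σ hσ
      rw [hx]
      unfold xs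
      rw [AlgEquiv.smul_def, map_multiset_sum]
      congr 1
      conv_rhs => rw [← Multiset.map_id (Multiset.filter (fun z => 0 < ι z) (ψ.aroots L))]
      apply Multiset.map_congr rfl
      intro z hz
      have h1 : z ∈ ψ.rootSet L := by
        have h2 := Multiset.mem_of_mem_filter hz
        rw [← mem_rts]
        unfold rts
        rw [Multiset.mem_toFinset]
        exact h2
      exact hσ z h1
    · exact g1
  have g3 : (γ : L →ₐ[ℚ] L) = AlgHom.id ℚ L := by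
    apply AlgHom.ext_of_adjoin_eq_top (IsSplittingField.adjoin_rootSet L (φ * ψ))
    intro z hz
    rw [mem_rootSet] at hz
    have h1 : aeval z φ * aeval z ψ = 0 := by
      rw [← map_mul]
      exact hz.2
    rcases mul_eq_zero.mp h1 with h2 | h2
    · have h3 : z ∈ φ.rootSet L := mem_rootSet.mpr ⟨left_ne_zero_of_mul h0, h2⟩
      exact g2 z ((mem_rts φ z).mpr h3)
    · have h3 : z ∈ ψ.rootSet L := mem_rootSet.mpr ⟨right_ne_zero_of_mul h0, h2⟩
      exact g1 z h3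
  ext z
  exact DFunLike.congr_fun g3 z

theorem range_le (φ ψ : ℚ[X]) [Normal ℚ L] [FiniteDimensional ℚ L]
    [Fact ((φ.map (algebraMap ℚ L)).Splits)] [Fact ((ψ.map (algebraMap ℚ L)).Splits)]
    (inj : Function.Injective (act L ψ)) :
    Nat.card (act L φ).range ≤ Nat.card (act L ψ).range := by
  have fin2 : Finite (ψ.rootSet L) := (rootSet_finite ψ L).to_subtype
  have h1 : Nat.card (act L φ).range ≤ Nat.card (L ≃ₐ[ℚ] L) :=
    Nat.card_le_card_of_surjective _ (MonoidHom.rangeRestrict_surjective _)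
  have h2 : Nat.card (L ≃ₐ[ℚ] L) ≤ Nat.card (act L ψ).range := by
    apply Nat.card_le_card_of_injective (act L ψ).rangeRestrict
    intro a b hab
    exact inj (congrArg Subtype.val hab)
  exact h1.trans h2

theorem squares_real (ι : L →ₐ[ℚ] ℝ) (q : ℚ[X]) (h : (q.map (algebraMap ℚ L)).Splits)
    (hn : (q.aroots L).Nodup) :
    ((q.map (algebraMap ℚ ℝ)).roots.map fun x => x * x).sum = ι (∑ z ∈ rts L q, z * z) := by
  rw [roots_real q h ι, Multiset.map_map, map_sum, sum_rts q hn]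
  congr 1
  apply Multiset.map_congr rfl
  intro z _
  exact (map_mul ι z z).symm

/-- The sums of the squares of the roots agree if the Galois group of one polynomial has at least
half of the possible elements. -/
theorem squares_main [Normal ℚ L] [FiniteDimensional ℚ L] (φ ψ : ℚ[X])
    [IsSplittingField ℚ L (φ * ψ)] (ι : L →ₐ[ℚ] ℝ) (h0 : φ * ψ ≠ 0) (m : ℕ) (hm : 3 ≤ m)
    (dφ : φ.natDegree = 2 * m) (dψ : ψ.natDegree ≤ 2 * m)
    (hG : ∀ _ : Fact ((φ.map (algebraMap ℚ L)).Splits),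
      2 ^ m * m.factorial ≤ 2 * Nat.card (act L φ).range)
    (sφ : ∀ z ∈ φ.rootSet L, - z ∈ φ.rootSet L) (zφ : ∀ z ∈ φ.rootSet L, z ≠ 0)
    (sψ : ∀ z ∈ ψ.rootSet L, - z ∈ ψ.rootSet L) (zψ : ∀ z ∈ ψ.rootSet L, z ≠ 0)
    (t1 : (φ.map (algebraMap ℚ ℝ)).roots.sum = 0) (t2 : (ψ.map (algebraMap ℚ ℝ)).roots.sum = 0)
    (hE : rs (φ.map (algebraMap ℚ ℝ)) = rs (ψ.map (algebraMap ℚ ℝ))) :
    ((φ.map (algebraMap ℚ ℝ)).roots.map fun x => x * x).sum =
      ((ψ.map (algebraMap ℚ ℝ)).roots.map fun x => x * x).sum := by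
  classical
  haveI : CharZero L := algebraRat.charZero L
  have hs := IsSplittingField.splits L (φ * ψ)
  have hne : (φ * ψ).map (algebraMap ℚ L) ≠ 0 := (Polynomial.map_ne_zero_iff
    (algebraMap ℚ L).injective).mpr h0
  have f1 : (φ.map (algebraMap ℚ L)).Splits :=
    hs.of_dvd hne (Polynomial.map_dvd _ (dvd_mul_right φ ψ))
  have f2 : (ψ.map (algebraMap ℚ L)).Splits :=
    hs.of_dvd hne (Polynomial.map_dvd _ (dvd_mul_left ψ φ))
  haveI : Fact ((φ.map (algebraMap ℚ L)).Splits) := ⟨f1⟩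
  haveI : Fact ((ψ.map (algebraMap ℚ L)).Splits) := ⟨f2⟩
  have hx : xs ι φ = xs ι ψ := by
    apply (ι : L →+* ℝ).injective
    show ι (xs ι φ) = ι (xs ι ψ)
    rw [rs_eq_xs ι φ f1 (sum_zero ι φ f1 t1), rs_eq_xs ι ψ f2 (sum_zero ι ψ f2 t2)] at hE
    linarith
  obtain ⟨F1, c1⟩ := pairs_of_card φ sφ zφ m (by omega) dφ.le (hG ⟨f1⟩)
  have n1 := nodup_of_card φ (c1.trans dφ.symm)
  have P1 := half_roots ι φ sφ zφ
  have k1 : 3 ≤ ((rts L φ).filter fun z => 0 < ι z).card := by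
    have := half_card P1
    omega
  have x1 := sum_pos ι φ n1
  have inj : Function.Injective (act L ψ) := by
    apply inj_act φ ψ ι h0 hx
    intro S hS hxS
    apply faithful2 (ι : L →+* ℝ) F1 P1 k1 S hS
    intro γ hγ
    rw [x1]
    exact hxS γ hγ
  have hG2 := (hG ⟨f1⟩).trans (Nat.mul_le_mul_left 2 (range_le φ ψ inj))
  obtain ⟨F2, c2⟩ := pairs_of_card ψ sψ zψ m (by omega) dψ hG2
  have n2 : (ψ.aroots L).Nodup := nodup_of_card ψ (by
    have h1 := card_root_le (L := L) ψ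
    rw [← card_rts] at h1
    omega)
  have P2 := half_roots ι ψ sψ zψ
  have k2 : 3 ≤ ((rts L ψ).filter fun z => 0 < ι z).card := by
    have := half_card P2
    omega
  have e1 := trace_form F1 P1 k1
  have e2 := trace_form F2 P2 k2
  rw [x1, hx] at e1
  rw [sum_pos ι ψ n2, e1] at e2
  have hΓ : (Fintype.card (L ≃ₐ[ℚ] L) : L) ≠ 0 := by
    have : 0 < Fintype.card (L ≃ₐ[ℚ] L) := Fintype.card_pos
    exact_mod_cast this.ne'
  rw [squares_real ι φ f1 n1, squares_real ι ψ f2 n2, mul_left_cancel₀ hΓ e2]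

/-- The roots agree if the Galois group of one polynomial is the full group of signed
permutations. -/
theorem roots_main [Normal ℚ L] [FiniteDimensional ℚ L] (φ ψ : ℚ[X])
    [IsSplittingField ℚ L (φ * ψ)] (ι : L →ₐ[ℚ] ℝ) (h0 : φ * ψ ≠ 0) (m : ℕ) (hm : 1 ≤ m)
    (dφ : φ.natDegree = 2 * m) (dψ : ψ.natDegree ≤ 2 * m)
    (hG : ∀ _ : Fact ((φ.map (algebraMap ℚ L)).Splits),
      2 ^ m * m.factorial ≤ Nat.card (act L φ).range)
    (sφ : ∀ z ∈ φ.rootSet L, - z ∈ φ.rootSet L) (zφ : ∀ z ∈ φ.rootSet L, z ≠ 0)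
    (sψ : ∀ z ∈ ψ.rootSet L, - z ∈ ψ.rootSet L) (zψ : ∀ z ∈ ψ.rootSet L, z ≠ 0)
    (t1 : (φ.map (algebraMap ℚ ℝ)).roots.sum = 0) (t2 : (ψ.map (algebraMap ℚ ℝ)).roots.sum = 0)
    (hE : rs (φ.map (algebraMap ℚ ℝ)) = rs (ψ.map (algebraMap ℚ ℝ))) :
    (φ.map (algebraMap ℚ ℝ)).roots = (ψ.map (algebraMap ℚ ℝ)).roots := by
  classical
  haveI : CharZero L := algebraRat.charZero L
  have hs := IsSplittingField.splits L (φ * ψ)
  have hne : (φ * ψ).map (algebraMap ℚ L) ≠ 0 := (Polynomial.map_ne_zero_iff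
    (algebraMap ℚ L).injective).mpr h0
  have f1 : (φ.map (algebraMap ℚ L)).Splits :=
    hs.of_dvd hne (Polynomial.map_dvd _ (dvd_mul_right φ ψ))
  have f2 : (ψ.map (algebraMap ℚ L)).Splits :=
    hs.of_dvd hne (Polynomial.map_dvd _ (dvd_mul_left ψ φ))
  haveI : Fact ((φ.map (algebraMap ℚ L)).Splits) := ⟨f1⟩
  haveI : Fact ((ψ.map (algebraMap ℚ L)).Splits) := ⟨f2⟩
  have hx : xs ι φ = xs ι ψ := by
    apply (ι : L →+* ℝ).injective
    show ι (xs ι φ) = ι (xs ι ψ)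
    rw [rs_eq_xs ι φ f1 (sum_zero ι φ f1 t1), rs_eq_xs ι ψ f2 (sum_zero ι ψ f2 t2)] at hE
    linarith
  obtain ⟨F1, c1⟩ := fullB_of_card φ sφ zφ m hm dφ.le (hG ⟨f1⟩)
  have n1 := nodup_of_card φ (c1.trans dφ.symm)
  have P1 := half_roots ι φ sφ zφ
  have x1 := sum_pos ι φ n1
  have hs0 : ∑ z ∈ rts L φ, z * z ≠ 0 := by
    intro hc
    have h1 : ∑ z ∈ rts L φ, ι z * ι z = 0 := by
      rw [← map_zero ι, ← hc, map_sum]
      exact Finset.sum_congr rfl fun z _ => (map_mul ι z z).symm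
    obtain ⟨i, hi⟩ : (rts L φ).Nonempty := Finset.card_pos.mp (by omega)
    have h2 := (Finset.sum_eq_zero_iff_of_nonneg fun z _ => mul_self_nonneg (ι z)).mp h1 i hi
    apply zφ i ((mem_rts φ i).mp hi)
    apply (ι : L →+* ℝ).injective
    rw [map_zero]
    exact mul_self_eq_zero.mp h2
  have inj : Function.Injective (act L ψ) := by
    apply inj_act φ ψ ι h0 hx
    intro S hS hxS
    apply faithfulB F1 P1 hs0 S hS
    intro γ hγ
    rw [x1]
    exact hxS γ hγ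
  have hG2 := (hG ⟨f1⟩).trans (range_le φ ψ inj)
  obtain ⟨F2, c2⟩ := fullB_of_card ψ sψ zψ m hm dψ hG2
  have n2 : (ψ.aroots L).Nodup := nodup_of_card ψ (by
    have h1 := card_root_le (L := L) ψ
    rw [← card_rts] at h1
    omega)
  have P2 := half_roots ι ψ sψ zψ
  have hRR : rts L φ = rts L ψ := eqB F1 P1 F2 P2 (by omega)
    (by rw [x1, hx, sum_pos ι ψ n2]) hs0
  rw [roots_real φ f1 ι, roots_real ψ f2 ι, ← rts_val φ n1, ← rts_val ψ n2, hRR]

end Real

end Pool.Agent.W_44c680_h9
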