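import Pool.Agent.W_44c680_h9.Gal3

/-!
The Galois group of the characteristic polynomial and the energy: polynomials with real roots.
-/

set_option autoImplicit false

namespace Pool.Agent.W_44c680_h9

open Matrix Polynomial Filter Topology

section Real

variable {L : Type} [Field L] [Algebra ℚ L]

open Classical in
/-- Two sets that differ by the sign are equal if the odd power sums of both are nonnegative. -/
theorem same_of_neg [CharZero L] {Γ : Type*} [Group Γ] [MulSemiringAction Γ L] {R R' : Finset L}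
    (h : Full Γ R) (hn : 2 ≤ R.card) (key : R = R'.image fun z => - z) (ι : L →ₐ[ℚ] ℝ)
    (o1 : ∀ j : ℕ, 0 ≤ ∑ z ∈ R, (ι z) ^ (2 * j + 1))
    (o2 : ∀ j : ℕ, 0 ≤ ∑ z ∈ R', (ι z) ^ (2 * j + 1)) : R = R' := by
  have hinj : Function.Injective ι := (ι : L →+* ℝ).injective
  have h0 : ∀ j : ℕ, ∑ z ∈ R, (ι z) ^ (2 * j + 1) = 0 := by
    intro j
    apply le_antisymm _ (o1 j)
    rw [key, Finset.sum_image fun a _ b _ hab => neg_injective hab]
    have h1 : ∀ z ∈ R', (ι (-z)) ^ (2 * j + 1) = - (ι z) ^ (2 * j + 1) := by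
      intro z _
      rw [map_neg, Odd.neg_pow ⟨j, rfl⟩]
    rw [Finset.sum_congr rfl h1, Finset.sum_neg_distrib]
    have := o2 j
    linarith
  obtain ⟨z0, hz0, hmax⟩ := Finset.exists_max_image R (fun z => |ι z|)
    (Finset.card_pos.mp (by omega))
  have hz0' : ι z0 ≠ 0 := by
    intro hc
    obtain ⟨u, hu, v, hv, huv⟩ := Finset.one_lt_card.mp (by omega : 1 < R.card)
    apply huv
    apply hinj
    have h1 : ∀ w ∈ R, ι w = 0 := by
      intro w hw
      have h2 := hmax w hw
      rw [hc, abs_zero] at h2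
      exact abs_eq_zero.mp (le_antisymm h2 (abs_nonneg _))
    rw [h1 u hu, h1 v hv]
  have hneg : - z0 ∈ R := by
    by_contra hcon
    have hlt : ∀ z ∈ R.erase z0, |ι z / ι z0| < 1 := by
      intro z hz
      rw [abs_div, div_lt_one (abs_pos.mpr hz0')]
      refine lt_of_le_of_ne (hmax z (Finset.mem_of_mem_erase hz)) fun hc => ?_
      rcases abs_eq_abs.mp hc with h1 | h1
      · exact Finset.ne_of_mem_erase hz (hinj h1)
      · apply hcon
        rw [← map_neg] at h1
        rw [← hinj h1]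
        exact Finset.mem_of_mem_erase hz
    have ht : Tendsto (fun j : ℕ => ∑ z ∈ R.erase z0, (ι z / ι z0) ^ (2 * j + 1)) atTop
        (𝓝 (∑ z ∈ R.erase z0, 0)) := by
      apply tendsto_finset_sum
      intro z hz
      apply (tendsto_pow_atTop_nhds_zero_of_abs_lt_one (hlt z hz)).comp
      apply tendsto_atTop_mono (fun j : ℕ => (by omega : j ≤ 2 * j + 1)) tendsto_id
    have hconst : ∀ j : ℕ, ∑ z ∈ R.erase z0, (ι z / ι z0) ^ (2 * j + 1) = -1 := by
      intro j
      have h1 := h0 j
      rw [← Finset.add_sum_erase R _ hz0] at h1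
      have h2 : ∑ z ∈ R.erase z0, (ι z / ι z0) ^ (2 * j + 1) =
          (∑ z ∈ R.erase z0, (ι z) ^ (2 * j + 1)) / (ι z0) ^ (2 * j + 1) := by
        rw [Finset.sum_div]
        exact Finset.sum_congr rfl fun z _ => div_pow _ _ _
      have h3 : (ι z0) ^ (2 * j + 1) ≠ 0 := pow_ne_zero _ hz0'
      rw [h2, div_eq_iff h3]
      linarith
    simp only [hconst, Finset.sum_const_zero] at ht
    have := tendsto_nhds_unique ht tendsto_const_nhds
    norm_num at this
  have hz00 : z0 ≠ 0 := fun hc => hz0' (by rw [hc, map_zero])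
  have hne : z0 ≠ - z0 := by
    intro hc
    have h1 : (2 : L) * z0 = 0 := by linear_combination hc
    exact hz00 ((mul_eq_zero.mp h1).resolve_left two_ne_zero)
  have hpair : ({z0, - z0} : Finset L) ⊆ R := by
    intro w hw
    rw [Finset.mem_insert, Finset.mem_singleton] at hw
    rcases hw with rfl | rfl
    · exact hz0
    · exact hneg
  have hR2 : ({z0, - z0} : Finset L) = R := by
    by_contra hcon
    obtain ⟨w, hw, hw'⟩ := Finset.exists_of_ssubset (hpair.ssubset_of_ne hcon)
    rw [Finset.mem_insert, Finset.mem_singleton, not_or] at hw'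
    obtain ⟨γ, hγ⟩ := full_swap h hneg hw
    have h1 : γ • (z0 + - z0) = 0 := by rw [add_neg_cancel, smul_zero]
    rw [smul_add, hγ z0 hz0, hγ _ hneg, Equiv.swap_apply_left,
      Equiv.swap_apply_of_ne_of_ne hne (Ne.symm hw'.1)] at h1
    apply hw'.2
    linear_combination h1
  have hR' : R' = R.image fun z => - z := by
    rw [key, Finset.image_image]
    have : (fun z : L => - z) ∘ (fun z : L => - z) = id := by
      funext z
      simp
    rw [this, Finset.image_id]
  rw [hR', ← hR2]
  ext w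
  simp only [Finset.mem_insert, Finset.mem_singleton, Finset.mem_image]
  constructor
  · rintro (h1 | h1)
    · exact ⟨- z0, Or.inr rfl, by rw [h1, neg_neg]⟩
    · exact ⟨z0, Or.inl rfl, h1.symm⟩
  · rintro ⟨v, h1 | h1, h2⟩
    · right
      rw [← h2, h1]
    · left
      rw [← h2, h1, neg_neg]

/-- Equal sums of absolute values of the roots force equal roots if the Galois group of one
polynomial is the full symmetric group. -/
theorem spec_main [Normal ℚ L] [FiniteDimensional ℚ L] (φ ψ : ℚ[X]) [IsSplittingField ℚ L (φ * ψ)]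
    (ι : L →ₐ[ℚ] ℝ) (h0 : φ * ψ ≠ 0) (hn : 2 ≤ φ.natDegree) (hd : ψ.natDegree ≤ φ.natDegree)
    (hG : ∀ _ : Fact ((φ.map (algebraMap ℚ L)).Splits), Function.Surjective (act L φ) ∧
      φ.natDegree.factorial ≤ Nat.card (Equiv.Perm (φ.rootSet L)))
    (t1 : (φ.map (algebraMap ℚ ℝ)).roots.sum = 0) (t2 : (ψ.map (algebraMap ℚ ℝ)).roots.sum = 0)
    (hE : rs (φ.map (algebraMap ℚ ℝ)) = rs (ψ.map (algebraMap ℚ ℝ)))
    (o1 : ∀ j : ℕ, 0 ≤ ((φ.map (algebraMap ℚ ℝ)).roots.map fun x => x ^ (2 * j + 1)).sum)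
    (o2 : ∀ j : ℕ, 0 ≤ ((ψ.map (algebraMap ℚ ℝ)).roots.map fun x => x ^ (2 * j + 1)).sum) :
    (φ.map (algebraMap ℚ ℝ)).roots = (ψ.map (algebraMap ℚ ℝ)).roots := by
  classical
  haveI : CharZero L := algebraRat.charZero L
  have hs := IsSplittingField.splits L (φ * ψ)
  have hne : (φ * ψ).map (algebraMap ℚ L) ≠ 0 := (Polynomial.map_ne_zero_iff
    (algebraMap ℚ L).injective).mpr h0
  have f1 : (φ.map (algebraMap ℚ L)).Splits :=
    hs.of_dvd hne (Polynomial.map_dvd _ (dvd_mul_right φ ψ))
  have f2 : (ψ.map (algebraMap ℚ L)).Splits :=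
    hs.of_dvd hne (Polynomial.map_dvd _ (dvd_mul_left ψ φ))
  haveI : Fact ((φ.map (algebraMap ℚ L)).Splits) := ⟨f1⟩
  haveI : Fact ((ψ.map (algebraMap ℚ L)).Splits) := ⟨f2⟩
  have z1 := sum_zero ι φ f1 t1
  have z2 := sum_zero ι ψ f2 t2
  obtain ⟨s1, s2⟩ := hG ⟨f1⟩
  have F1 : Full (L ≃ₐ[ℚ] L) (rts L φ) := full_of_surj φ s1
  have fin1 : Finite (φ.rootSet L) := (rootSet_finite φ L).to_subtype
  have fin2 : Finite (ψ.rootSet L) := (rootSet_finite ψ L).to_subtype
  have c1 : (rts L φ).card = φ.natDegree := card_of_surj φ hn s2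
  have n1 := nodup_of_card φ c1
  have r1 : ∑ z ∈ rts L φ, z = 0 := by
    rw [sum_rts φ n1 fun z => z, Multiset.map_id']
    exact z1
  have hx : xs ι φ = xs ι ψ := by
    apply (ι : L →+* ℝ).injective
    show ι (xs ι φ) = ι (xs ι ψ)
    rw [rs_eq_xs ι φ f1 z1, rs_eq_xs ι ψ f2 z2] at hE
    linarith
  set P := (rts L φ).filter (fun z => 0 < ι z) with hP
  have hPR : P ⊆ rts L φ := Finset.filter_subset _ _
  have hr1 : ∑ z ∈ rts L φ, ι z = 0 := by
    rw [← map_sum, r1, map_zero]
  -- a positive and a non-positive root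
  obtain ⟨i, hi⟩ : P.Nonempty := by
    by_contra hemp
    rw [Finset.not_nonempty_iff_eq_empty] at hemp
    have h1 : ∀ z ∈ rts L φ, ι z ≤ 0 := by
      intro z hz
      by_contra hc
      have : z ∈ P := Finset.mem_filter.mpr ⟨hz, not_le.mp hc⟩
      rw [hemp] at this
      exact absurd this (Finset.notMem_empty z)
    have h2 := (Finset.sum_eq_zero_iff_of_nonpos h1).mp hr1
    have h3 : (rts L φ).card ≤ 1 := by
      rw [Finset.card_le_one]
      intro a ha b hb
      apply (ι : L →+* ℝ).injective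
      show ι a = ι b
      rw [h2 a ha, h2 b hb]
    omega
  obtain ⟨k, hk, hk'⟩ : ∃ k ∈ rts L φ, k ∉ P := by
    by_contra hc
    push Not at hc
    have h1 : 0 < ∑ z ∈ rts L φ, ι z := by
      apply Finset.sum_pos
      · intro z hz
        exact (Finset.mem_filter.mp (hc z hz)).2
      · exact ⟨i, hPR hi⟩
    linarith
  have hxP : ∑ z ∈ P, z = xs ι φ := sum_pos ι φ n1
  -- the group acts faithfully on the roots of the second polynomial
  have inj : Function.Injective (act L ψ) := by
    rw [injective_iff_map_eq_one]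
    intro γ hγ
    have g1 : ∀ z ∈ ψ.rootSet L, γ • z = z := by
      intro z hz
      have h1 := act_apply ψ γ ⟨z, hz⟩
      rw [hγ] at h1
      exact h1.symm
    have g2 : ∀ z ∈ rts L φ, γ • z = z := by
      apply faithful F1 hPR hi hk hk' (ψ.rootSet L)
      · intro σ z hz
        have h1 := act_apply ψ σ ⟨z, hz⟩
        rw [AlgEquiv.smul_def, ← h1]
        exact (act L ψ σ ⟨z, hz⟩).2
      · intro σ hσ
        rw [hxP, hx]
        unfold xs
        rw [AlgEquiv.smul_def, map_multiset_sum]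
        congr 1
        conv_rhs => rw [← Multiset.map_id (Multiset.filter (fun z => 0 < ι z) (ψ.aroots L))]
        apply Multiset.map_congr rfl
        intro z hz
        have h1 : z ∈ ψ.rootSet L := by
          have h2 := Multiset.mem_of_mem_filter hz
          rw [← mem_rts]
          unfold rts
          rw [Multiset.mem_toFinset]
          exact h2
        exact hσ z h1
      · exact g1
    have g3 : (γ : L →ₐ[ℚ] L) = AlgHom.id ℚ L := by
      apply AlgHom.ext_of_adjoin_eq_top (IsSplittingField.adjoin_rootSet L (φ * ψ))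
      intro z hz
      rw [mem_rootSet] at hz
      have h1 : aeval z φ * aeval z ψ = 0 := by
        rw [← map_mul]
        exact hz.2
      rcases mul_eq_zero.mp h1 with h2 | h2
      · have h3 : z ∈ φ.rootSet L := mem_rootSet.mpr ⟨left_ne_zero_of_mul h0, h2⟩
        exact g2 z ((mem_rts φ z).mpr h3)
      · have h3 : z ∈ ψ.rootSet L := mem_rootSet.mpr ⟨right_ne_zero_of_mul h0, h2⟩
        exact g1 z h3
    ext z
    exact DFunLike.congr_fun g3 z
  have hΓ : φ.natDegree.factorial ≤ Nat.card (L ≃ₐ[ℚ] L) := by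
    have h1 : Nat.card (Equiv.Perm (φ.rootSet L)) ≤ Nat.card (L ≃ₐ[ℚ] L) :=
      Nat.card_le_card_of_surjective _ s1
    refine le_trans ?_ h1
    rw [Nat.card_perm, ← card_rts, c1]
  have bij : Function.Bijective (act L ψ) := by
    apply inj.bijective_of_nat_card_le
    exact (card_perm_le ψ).trans ((Nat.factorial_le hd).trans hΓ)
  have F2 : Full (L ≃ₐ[ℚ] L) (rts L ψ) := full_of_surj ψ bij.2
  have hd' : ψ.natDegree = φ.natDegree := by
    have h1 := (hΓ.trans (Nat.card_le_card_of_injective _ inj)).trans (card_perm_le ψ)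
    by_contra hc
    have h2 : ψ.natDegree.factorial ≤ (φ.natDegree - 1).factorial := Nat.factorial_le (by omega)
    have h3 : (φ.natDegree - 1).factorial < φ.natDegree.factorial :=
      (Nat.factorial_lt (by omega)).mpr (by omega)
    omega
  have c2 : (rts L ψ).card = ψ.natDegree := card_of_surj ψ (by omega) (by
    rw [hd']
    exact hΓ.trans (Nat.card_le_card_of_injective _ inj))
  have n2 := nodup_of_card ψ c2
  have r2 : ∑ z ∈ rts L ψ, z = 0 := by
    rw [sum_rts ψ n2 fun z => z, Multiset.map_id']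
    exact z2
  have hs0 : ∑ z ∈ rts L φ, z * z ≠ 0 := by
    intro hc
    have h1 : ∑ z ∈ rts L φ, ι z * ι z = 0 := by
      rw [← map_zero ι, ← hc, map_sum]
      exact Finset.sum_congr rfl fun z _ => (map_mul ι z z).symm
    have h2 := (Finset.sum_eq_zero_iff_of_nonneg fun z _ => mul_self_nonneg (ι z)).mp h1 i
      (hPR hi)
    have h3 : 0 < ι i := (Finset.mem_filter.mp hi).2
    exact (mul_pos h3 h3).ne' h2
  have key := up_to_sign (Γ := L ≃ₐ[ℚ] L) F1 F2 r1 r2 (by rw [c1, c2, hd'])
    (by rw [c1]; exact hn) hPR (Finset.filter_subset (fun z => 0 < ι z) (rts L ψ))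
    (Finset.card_pos.mpr ⟨i, hi⟩)
    (Finset.card_lt_card ((Finset.ssubset_iff_of_subset hPR).mpr ⟨k, hk, hk'⟩))
    (by rw [hxP, hx, sum_pos ι ψ n2]) hs0
  have hRR : rts L φ = rts L ψ := by
    rcases key with key | key
    · exact key
    · apply same_of_neg F1 (by rw [c1]; exact hn) key ι
      · intro j
        have h1 := o1 j
        rw [roots_real φ f1 ι, Multiset.map_map, ← sum_rts φ n1] at h1
        exact h1
      · intro j
        have h1 := o2 j
        rw [roots_real ψ f2 ι, Multiset.map_map, ← sum_rts ψ n2] at h1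
        exact h1
  rw [roots_real φ f1 ι, roots_real ψ f2 ι, ← rts_val φ n1, ← rts_val ψ n2, hRR]

end Real

end Pool.Agent.W_44c680_h9
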