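import Pool.Agent.W_44c680_h9.Gal4
import Pool.Agent.W_44c680_h9.Gal8

/-!
The Galois group of the characteristic polynomial and the energy: the nonzero eigenvalues.
-/

set_option autoImplicit false

namespace Pool.Agent.W_44c680_h9

open Matrix Polynomial

/-- The group acts on the roots of `f` as the full symmetric group if the Galois group of
`X ^ k * f` is large. -/
theorem surj_pow {L : Type} [Field L] [Algebra ℚ L] [Normal ℚ L] [FiniteDimensional ℚ L]
    (f : ℚ[X]) (hf : f ≠ 0) (k : ℕ) [F : Fact ((f.map (algebraMap ℚ L)).Splits)]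
    (hG : f.natDegree.factorial ≤ Nat.card (X ^ k * f).Gal) :
    Function.Surjective (act L f) ∧
      f.natDegree.factorial ≤ Nat.card (Equiv.Perm (f.rootSet L)) := by
  have hs : ((X ^ k * f).map (algebraMap ℚ L)).Splits := by
    rw [Polynomial.map_mul, Polynomial.map_pow, map_X]
    exact (Splits.X_pow k).mul F.1
  haveI : Fact (((X ^ k * f).map (algebraMap ℚ L)).Splits) := ⟨hs⟩
  have fin1 : Finite (f.rootSet L) := (rootSet_finite f L).to_subtype
  have hne : X ^ k * f ≠ 0 := mul_ne_zero (pow_ne_zero k X_ne_zero) hf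
  have hker : (act L f).ker = (Gal.restrict (X ^ k * f) L).ker := by
    ext γ
    rw [MonoidHom.mem_ker, MonoidHom.mem_ker]
    have h1 : Gal.restrict (X ^ k * f) L γ = 1 ↔ act L (X ^ k * f) γ = 1 := by
      constructor
      · intro h
        show Gal.galActionHom (X ^ k * f) L (Gal.restrict (X ^ k * f) L γ) = 1
        rw [h, map_one]
      · intro h
        apply Gal.galActionHom_injective (X ^ k * f) L
        rw [map_one]
        exact h
    rw [h1]
    have h2 : ∀ q : ℚ[X], ∀ _ : Fact ((q.map (algebraMap ℚ L)).Splits),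
        act L q γ = 1 ↔ ∀ z ∈ q.rootSet L, γ z = z := by
      intro q _
      constructor
      · intro h z hz
        have h3 := act_apply q γ ⟨z, hz⟩
        rw [h] at h3
        exact h3.symm
      · intro h
        ext z
        rw [act_apply]
        exact h z z.2
    rw [h2 f F, h2 (X ^ k * f) ⟨hs⟩]
    constructor
    · intro h z hz
      rw [mem_rootSet] at hz
      have h3 : (aeval z) (X ^ k : ℚ[X]) * aeval z f = 0 := by
        rw [← map_mul]
        exact hz.2
      rcases mul_eq_zero.mp h3 with h4 | h4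
      · rw [map_pow, aeval_X] at h4
        rw [eq_zero_of_pow_eq_zero h4, map_zero]
      · exact h z (mem_rootSet.mpr ⟨hf, h4⟩)
    · intro h z hz
      rw [mem_rootSet] at hz
      apply h z
      rw [mem_rootSet]
      refine ⟨hne, ?_⟩
      rw [map_mul, hz.2, mul_zero]
  have hcard : Nat.card (act L f).range = Nat.card (X ^ k * f).Gal := by
    rw [← Subgroup.index_ker, hker, Subgroup.index_ker,
      MonoidHom.range_eq_top.mpr (Gal.restrict_surjective (X ^ k * f) L)]
    exact Subgroup.card_top
  have h1 : (act L f).range = ⊤ := by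
    apply Subgroup.eq_top_of_le_card
    rw [hcard]
    exact (card_perm_le f).trans hG
  refine ⟨MonoidHom.range_eq_top.mp h1, ?_⟩
  rw [h1, Subgroup.card_top] at hcard
  rw [hcard]
  exact hG

/-- The nonzero part of the characteristic polynomial. -/
theorem chp_factor {V : Type} [Fintype V] (G : SimpleGraph V) : ∃ (k : ℕ) (f : ℚ[X]),
    chp G = X ^ k * f ∧ ¬ X ∣ f ∧ f ≠ 0 ∧
      ((chp G).map (algebraMap ℚ ℝ)).roots =
        Multiset.replicate k 0 + (f.map (algebraMap ℚ ℝ)).roots ∧
      (f.map (algebraMap ℚ ℝ)).Splits := by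
  obtain ⟨f, hf, hX⟩ := exists_eq_pow_rootMultiplicity_mul_and_not_dvd (chp G)
    (chp_monic G).ne_zero 0
  rw [C_0, sub_zero] at hf hX
  have hf0 : f ≠ 0 := by
    intro h
    apply hX
    rw [h]
    exact dvd_zero _
  have hm : (f.map (algebraMap ℚ ℝ)) ≠ 0 :=
    (Polynomial.map_ne_zero_iff (algebraMap ℚ ℝ).injective).mpr hf0
  have hXk : (X ^ rootMultiplicity 0 (chp G) : ℝ[X]) ≠ 0 := pow_ne_zero _ X_ne_zero
  refine ⟨_, f, hf, hX, hf0, ?_, ?_⟩
  · conv_lhs => rw [hf]
    rw [Polynomial.map_mul, Polynomial.map_pow, map_X, roots_mul (mul_ne_zero hXk hm),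
      roots_pow, roots_X, Multiset.nsmul_singleton]
  · have h1 := chp_splits G
    have h2 : ((chp G).map (algebraMap ℚ ℝ)) =
        X ^ rootMultiplicity 0 (chp G) * f.map (algebraMap ℚ ℝ) := by
      conv_lhs => rw [hf]
      rw [Polynomial.map_mul, Polynomial.map_pow, map_X]
    exact h1.of_dvd (by rw [h2]; exact mul_ne_zero hXk hm) (by rw [h2]; exact dvd_mul_left _ _)

theorem zero_notMem (f : ℚ[X]) (hX : ¬ X ∣ f) : (0 : ℝ) ∉ (f.map (algebraMap ℚ ℝ)).roots := by
  intro h
  have h1 := (mem_roots'.mp h).2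
  apply hX
  rw [X_dvd_iff]
  rw [IsRoot, ← coeff_zero_eq_eval_zero, coeff_map] at h1
  exact (map_eq_zero (algebraMap ℚ ℝ)).mp h1

open Classical in
theorem chp_rank {V : Type} [Fintype V] (G : SimpleGraph V) (k : ℕ) (f : ℚ[X])
    (hX : ¬ X ∣ f) (hr : ((chp G).map (algebraMap ℚ ℝ)).roots =
        Multiset.replicate k 0 + (f.map (algebraMap ℚ ℝ)).roots)
    (hs : (f.map (algebraMap ℚ ℝ)).Splits) :
    (G.adjMatrix ℝ).rank = f.natDegree := by
  have h1 : (f.map (algebraMap ℚ ℝ)).roots.card = f.natDegree := by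
    rw [splits_iff_card_roots.mp hs, natDegree_map]
  have h2 : (((chp G).map (algebraMap ℚ ℝ)).roots.filter fun x => x ≠ 0) =
      (f.map (algebraMap ℚ ℝ)).roots := by
    rw [hr, Multiset.filter_add]
    have h3 : (Multiset.replicate k (0 : ℝ)).filter (fun x => x ≠ 0) = 0 := by
      rw [Multiset.filter_eq_nil]
      intro a ha
      rw [Multiset.eq_of_mem_replicate ha]
      simp
    have h4 : (f.map (algebraMap ℚ ℝ)).roots.filter (fun x => x ≠ 0) =
        (f.map (algebraMap ℚ ℝ)).roots := by
      rw [Multiset.filter_eq_self]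
      intro a ha hc
      rw [hc] at ha
      exact zero_notMem f hX ha
    rw [h3, h4, zero_add]
  rw [← h1, ← h2, chp_real, (herm G).roots_charpoly_eq_eigenvalues,
    (herm G).rank_eq_card_non_zero_eigs, Multiset.filter_map, Multiset.card_map,
    Fintype.card_subtype]
  rfl

open Unitary in
theorem trace_pow {m : Type} [Fintype m] [DecidableEq m] (A : Matrix m m ℝ)
    (hA : A.IsHermitian) (k : ℕ) : (A ^ k).trace = ∑ i, hA.eigenvalues i ^ k := by
  have h : (A ^ k).trace = (conjStarAlgAut ℝ _ hA.eigenvectorUnitary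
      (diagonal (RCLike.ofReal ∘ hA.eigenvalues) ^ k : Matrix m m ℝ)).trace := by
    rw [map_pow, ← hA.spectral_theorem]
  rw [h, conjStarAlgAut_apply, Matrix.trace_mul_comm, ← mul_assoc]
  have h1 : (star (hA.eigenvectorUnitary : Matrix m m ℝ)) *
      (hA.eigenvectorUnitary : Matrix m m ℝ) = 1 := by simp
  rw [h1, one_mul, diagonal_pow, trace_diagonal]
  simp

open Classical in
theorem chp_odd {V : Type} [Fintype V] (G : SimpleGraph V) (k : ℕ) :
    0 ≤ (((chp G).map (algebraMap ℚ ℝ)).roots.map fun x => x ^ k).sum := by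
  have h1 : ∀ k : ℕ, ∀ i j : V, 0 ≤ ((G.adjMatrix ℝ) ^ k) i j := by
    intro k
    induction k with
    | zero =>
      intro i j
      rw [pow_zero, Matrix.one_apply]
      split_ifs <;> norm_num
    | succ k ih =>
      intro i j
      rw [pow_succ, Matrix.mul_apply]
      apply Finset.sum_nonneg
      intro l _
      apply mul_nonneg (ih i l)
      rw [SimpleGraph.adjMatrix_apply]
      split_ifs <;> norm_num
  have h2 : 0 ≤ ((G.adjMatrix ℝ) ^ k).trace := Finset.sum_nonneg fun i _ => h1 k i i
  rw [trace_pow _ (herm G)] at h2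
  rw [chp_real, (herm G).roots_charpoly_eq_eigenvalues, Multiset.map_map]
  exact h2

theorem rs_zero (f : ℚ[X]) (hX : ¬ X ∣ f) (h : rs (f.map (algebraMap ℚ ℝ)) = 0) :
    (f.map (algebraMap ℚ ℝ)).roots = 0 := by
  unfold rs at h
  apply Multiset.eq_zero_of_forall_notMem
  intro x hx
  have h2 : ∀ y ∈ (f.map (algebraMap ℚ ℝ)).roots.map (fun x => |x|), 0 ≤ y := by
    intro y hy
    rw [Multiset.mem_map] at hy
    obtain ⟨z, _, rfl⟩ := hy
    exact abs_nonneg z
  have h3 : |x| ≤ ((f.map (algebraMap ℚ ℝ)).roots.map fun x => |x|).sum :=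
    Multiset.single_le_sum h2 _ (Multiset.mem_map_of_mem (fun x => |x|) hx)
  rw [h] at h3
  rw [abs_eq_zero.mp (le_antisymm h3 (abs_nonneg x))] at hx
  exact zero_notMem f hX hx

theorem eq_of_roots (f g : ℚ[X]) (hf : f.Monic) (hg : g.Monic)
    (sf : (f.map (algebraMap ℚ ℝ)).Splits) (sg : (g.map (algebraMap ℚ ℝ)).Splits)
    (h : (f.map (algebraMap ℚ ℝ)).roots = (g.map (algebraMap ℚ ℝ)).roots) : f = g := by
  apply Polynomial.map_injective (algebraMap ℚ ℝ) (algebraMap ℚ ℝ).injective
  rw [sf.eq_prod_roots_of_monic (hf.map _), sg.eq_prod_roots_of_monic (hg.map _), h]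

open Classical in
/-- If the Galois group of the characteristic polynomial of `G` is the full symmetric group on the
nonzero eigenvalues, then every graph `H` of at most the rank of `G` with the same energy has the
same nonzero eigenvalues. -/
theorem galois_spec {V W : Type} [Fintype V] [Fintype W] (G : SimpleGraph V) (H : SimpleGraph W)
    (hr : (H.adjMatrix ℝ).rank ≤ (G.adjMatrix ℝ).rank)
    (hG : ((G.adjMatrix ℝ).rank).factorial ≤ Nat.card (chp G).Gal) (hE : energy G = energy H) :
    X ^ Fintype.card W * chp G = X ^ Fintype.card V * chp H := by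
  have eG : energy G = rs ((chp G).map (algebraMap ℚ ℝ)) := by rw [energy_eq, chp_real]
  have eH : energy H = rs ((chp H).map (algebraMap ℚ ℝ)) := by rw [energy_eq, chp_real]
  obtain ⟨k, f, hf, hX, hf0, rf, sf⟩ := chp_factor G
  obtain ⟨l, g, hg, hY, hg0, rg, sg⟩ := chp_factor H
  rw [chp_rank G k f hX rf sf] at hr hG
  rw [chp_rank H l g hY rg sg] at hr
  rw [hf] at hG
  have mf : f.Monic := (monic_X_pow k).of_mul_monic_left (hf ▸ chp_monic G)
  have mg : g.Monic := (monic_X_pow l).of_mul_monic_left (hg ▸ chp_monic H)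
  have a1 : rs ((chp G).map (algebraMap ℚ ℝ)) = rs (f.map (algebraMap ℚ ℝ)) := by
    unfold rs
    rw [rf, Multiset.map_add, Multiset.sum_add, Multiset.map_replicate, Multiset.sum_replicate]
    simp
  have a2 : rs ((chp H).map (algebraMap ℚ ℝ)) = rs (g.map (algebraMap ℚ ℝ)) := by
    unfold rs
    rw [rg, Multiset.map_add, Multiset.sum_add, Multiset.map_replicate, Multiset.sum_replicate]
    simp
  suffices hroots : (f.map (algebraMap ℚ ℝ)).roots = (g.map (algebraMap ℚ ℝ)).roots by
    have hfg : f = g := eq_of_roots f g mf mg sf sg hroots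
    have d1 : Fintype.card V = k + f.natDegree := by
      rw [← chp_degree G, hf, (monic_X_pow k).natDegree_mul mf, natDegree_X_pow]
    have d2 : Fintype.card W = l + g.natDegree := by
      rw [← chp_degree H, hg, (monic_X_pow l).natDegree_mul mg, natDegree_X_pow]
    rw [hf, hg, d1, d2, hfg]
    ring
  by_cases hz : energy G = 0
  · rw [rs_zero f hX (by rw [← a1, ← eG]; exact hz),
      rs_zero g hY (by rw [← a2, ← eH, ← hE]; exact hz)]
  have b1 : (f.map (algebraMap ℚ ℝ)).roots.sum = 0 := by
    have h := chp_sum G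
    rw [rf, Multiset.sum_add, Multiset.sum_replicate, smul_zero, zero_add] at h
    exact h
  have b2 : (g.map (algebraMap ℚ ℝ)).roots.sum = 0 := by
    have h := chp_sum H
    rw [rg, Multiset.sum_add, Multiset.sum_replicate, smul_zero, zero_add] at h
    exact h
  have o1 : ∀ j : ℕ, 0 ≤ ((f.map (algebraMap ℚ ℝ)).roots.map fun x => x ^ (2 * j + 1)).sum := by
    intro j
    have h := chp_odd G (2 * j + 1)
    rw [rf, Multiset.map_add, Multiset.sum_add, Multiset.map_replicate, Multiset.sum_replicate,
      zero_pow (by omega), smul_zero, zero_add] at h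
    exact h
  have o2 : ∀ j : ℕ, 0 ≤ ((g.map (algebraMap ℚ ℝ)).roots.map fun x => x ^ (2 * j + 1)).sum := by
    intro j
    have h := chp_odd H (2 * j + 1)
    rw [rg, Multiset.map_add, Multiset.sum_add, Multiset.map_replicate, Multiset.sum_replicate,
      zero_pow (by omega), smul_zero, zero_add] at h
    exact h
  have hcf : (f.map (algebraMap ℚ ℝ)).roots.card = f.natDegree := by
    rw [splits_iff_card_roots.mp sf, natDegree_map]
  have hd2 : 2 ≤ f.natDegree := by
    by_contra hc
    apply hz
    rw [eG, a1]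
    unfold rs
    rcases Nat.lt_or_ge f.natDegree 1 with h1 | h1
    · have h2 : (f.map (algebraMap ℚ ℝ)).roots = 0 := by
        rw [← Multiset.card_eq_zero, hcf]
        omega
      rw [h2]
      simp
    · obtain ⟨x, hx⟩ := Multiset.card_eq_one.mp (by rw [hcf]; omega :
        (f.map (algebraMap ℚ ℝ)).roots.card = 1)
      rw [hx, Multiset.sum_singleton] at b1
      rw [hx, b1]
      simp
  have h0 : f * g ≠ 0 := mul_ne_zero hf0 hg0
  have hs : ((f * g).map (algebraMap ℚ ℝ)).Splits := by
    rw [Polynomial.map_mul]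
    exact sf.mul sg
  have gen : ∀ (L : Type) [Field L] [Algebra ℚ L] [IsSplittingField ℚ L (f * g)],
      (f.map (algebraMap ℚ ℝ)).roots = (g.map (algebraMap ℚ ℝ)).roots := by
    intro L _ _ _
    haveI : Normal ℚ L := Normal.of_isSplittingField (f * g)
    haveI : FiniteDimensional ℚ L := IsSplittingField.finiteDimensional L (f * g)
    exact spec_main (L := L) f g (IsSplittingField.lift L (f * g) hs) h0 hd2 hr
      (fun _ => surj_pow f hf0 k hG) b1 b2 (by rw [← a1, ← a2, ← eG, ← eH]; exact hE) o1 o2
  exact @gen (f * g).SplittingField _ _ (IsSplittingField.splittingField (f * g))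

/-- Graphs with the same nonzero eigenvalues have the same energy. -/
theorem energy_of_spec {V W : Type} [Fintype V] [Fintype W] (G : SimpleGraph V)
    (H : SimpleGraph W) (h : X ^ Fintype.card W * chp G = X ^ Fintype.card V * chp H) :
    energy G = energy H := by
  have e : ∀ {V : Type} [Fintype V] (G : SimpleGraph V) (m : ℕ),
      rs ((X ^ m * chp G).map (algebraMap ℚ ℝ)) = energy G := by
    intro V _ G m
    have h1 : (chp G).map (algebraMap ℚ ℝ) ≠ 0 := ((chp_monic G).map _).ne_zero
    have h2 : energy G = rs ((chp G).map (algebraMap ℚ ℝ)) := by rw [energy_eq, chp_real]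
    rw [h2]
    unfold rs
    rw [Polynomial.map_mul, Polynomial.map_pow, map_X,
      roots_mul (mul_ne_zero (pow_ne_zero _ X_ne_zero) h1), roots_pow, roots_X,
      Multiset.nsmul_singleton, Multiset.map_add, Multiset.sum_add]
    simp
  rw [← e G (Fintype.card W), h, e H]

/-- Graphs with the same nonzero eigenvalues have the same number of edges. -/
theorem edges_of_spec {V W : Type} [Fintype V] [Fintype W] (G : SimpleGraph V)
    (H : SimpleGraph W) (h : X ^ Fintype.card W * chp G = X ^ Fintype.card V * chp H) :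
    G.edgeSet.ncard = H.edgeSet.ncard := by
  have e : ∀ {V : Type} [Fintype V] (G : SimpleGraph V) (m : ℕ),
      (((X ^ m * chp G).map (algebraMap ℚ ℝ)).roots.map fun x => x * x).sum =
        2 * (G.edgeSet.ncard : ℝ) := by
    intro V _ G m
    have h1 : (chp G).map (algebraMap ℚ ℝ) ≠ 0 := ((chp_monic G).map _).ne_zero
    rw [Polynomial.map_mul, Polynomial.map_pow, map_X,
      roots_mul (mul_ne_zero (pow_ne_zero _ X_ne_zero) h1), roots_pow, roots_X,
      Multiset.nsmul_singleton, Multiset.map_add, Multiset.sum_add, chp_squares]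
    simp
  have h1 := e G (Fintype.card W)
  rw [h, e H] at h1
  have h2 : (G.edgeSet.ncard : ℝ) = (H.edgeSet.ncard : ℝ) := by linarith
  exact_mod_cast h2

open Classical in
/-- The rank of the adjacency matrix over the real numbers. -/
noncomputable def rankG {V : Type} [Fintype V] (G : SimpleGraph V) : ℕ :=
  (G.adjMatrix ℝ).rank

/-- The Galois group over the rational numbers of the characteristic polynomial of the adjacency
matrix is the full symmetric group on the nonzero eigenvalues: it has `d!` elements, where `d` is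
the rank. -/
def FullGalois {V : Type} [Fintype V] (G : SimpleGraph V) : Prop :=
  Nat.card (chp G).Gal = (rankG G).factorial

/-- The energy determines the nonzero eigenvalues. -/
theorem rigid {V W : Type} [Fintype V] [Fintype W] (G : SimpleGraph V) (H : SimpleGraph W)
    (hG : FullGalois G) (hr : rankG H ≤ rankG G) :
    energy H = energy G ↔ X ^ Fintype.card V * chp H = X ^ Fintype.card W * chp G := by
  constructor
  · intro h
    exact (galois_spec G H hr hG.ge h.symm).symm
  · intro h
    exact (energy_of_spec G H h.symm).symm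

theorem delete_ne {V : Type} [Fintype V] (G : SimpleGraph V) (e : Sym2 V) (he : e ∈ G.edgeSet) :
    (G.deleteEdges {e}).edgeSet.ncard ≠ G.edgeSet.ncard := by
  rw [SimpleGraph.edgeSet_deleteEdges, Set.ncard_diff_singleton_of_mem he]
  have : 0 < G.edgeSet.ncard := (Set.ncard_pos (Set.toFinite _)).mpr ⟨e, he⟩
  omega

theorem delete_energy {V : Type} [Fintype V] (G : SimpleGraph V) (e : Sym2 V)
    (he : e ∈ G.edgeSet)
    (h : (FullGalois G ∧ rankG (G.deleteEdges {e}) ≤ rankG G) ∨
      (FullGalois (G.deleteEdges {e}) ∧ rankG G ≤ rankG (G.deleteEdges {e}))) :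
    energy (G.deleteEdges {e}) ≠ energy G := by
  intro hE
  rcases h with ⟨h1, h2⟩ | ⟨h1, h2⟩
  · exact delete_ne G e he (edges_of_spec _ _ ((rigid G _ h1 h2).mp hE))
  · exact delete_ne G e he (edges_of_spec _ _ ((rigid _ G h1 h2).mp hE.symm)).symm

end Pool.Agent.W_44c680_h9
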