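import Pool.Agent.W_44c680_h9.Bip4
import Pool.Agent.W_44c680_h9.Gal5
import Mathlib.Combinatorics.SimpleGraph.Bipartite

/-!
The Galois group of the characteristic polynomial of a bipartite graph and the energy.
-/

set_option autoImplicit false

namespace Pool.Agent.W_44c680_h9

open Matrix Polynomial

theorem card_range_pow {L : Type} [Field L] [Algebra ℚ L] [Normal ℚ L] [FiniteDimensional ℚ L]
    (f : ℚ[X]) (hf : f ≠ 0) (k : ℕ) [F : Fact ((f.map (algebraMap ℚ L)).Splits)] :
    Nat.card (act L f).range = Nat.card (X ^ k * f).Gal := by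
  have hs : ((X ^ k * f).map (algebraMap ℚ L)).Splits := by
    rw [Polynomial.map_mul, Polynomial.map_pow, map_X]
    exact (Splits.X_pow k).mul F.1
  haveI : Fact (((X ^ k * f).map (algebraMap ℚ L)).Splits) := ⟨hs⟩
  have hne : X ^ k * f ≠ 0 := mul_ne_zero (pow_ne_zero k X_ne_zero) hf
  have hker : (act L f).ker = (Gal.restrict (X ^ k * f) L).ker := by
    ext γ
    rw [MonoidHom.mem_ker, MonoidHom.mem_ker]
    have h1 : Gal.restrict (X ^ k * f) L γ = 1 ↔ act L (X ^ k * f) γ = 1 := by
      constructor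
      · intro h
        show Gal.galActionHom (X ^ k * f) L (Gal.restrict (X ^ k * f) L γ) = 1
        rw [h, map_one]
      · intro h
        apply Gal.galActionHom_injective (X ^ k * f) L
        rw [map_one]
        exact h
    rw [h1]
    have h2 : ∀ q : ℚ[X], ∀ _ : Fact ((q.map (algebraMap ℚ L)).Splits),
        act L q γ = 1 ↔ ∀ z ∈ q.rootSet L, γ z = z := by
      intro q _
      constructor
      · intro h z hz
        have h3 := act_apply q γ ⟨z, hz⟩
        rw [h] at h3
        exact h3.symm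
      · intro h
        ext z
        rw [act_apply]
        exact h z z.2
    rw [h2 f F, h2 (X ^ k * f) ⟨hs⟩]
    constructor
    · intro h z hz
      rw [mem_rootSet] at hz
      have h3 : (aeval z) (X ^ k : ℚ[X]) * aeval z f = 0 := by
        rw [← map_mul]
        exact hz.2
      rcases mul_eq_zero.mp h3 with h4 | h4
      · rw [map_pow, aeval_X] at h4
        rw [eq_zero_of_pow_eq_zero h4, map_zero]
      · exact h z (mem_rootSet.mpr ⟨hf, h4⟩)
    · intro h z hz
      rw [mem_rootSet] at hz
      apply h z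
      rw [mem_rootSet]
      refine ⟨hne, ?_⟩
      rw [map_mul, hz.2, mul_zero]
  rw [← Subgroup.index_ker, hker, Subgroup.index_ker,
    MonoidHom.range_eq_top.mpr (Gal.restrict_surjective (X ^ k * f) L)]
  exact Subgroup.card_top

open Classical in
theorem chp_map {V : Type} [Fintype V] (G : SimpleGraph V) (K : Type) [Field K] [Algebra ℚ K] :
    (chp G).map (algebraMap ℚ K) = (G.adjMatrix K).charpoly := by
  unfold chp
  rw [← Matrix.charpoly_map]
  congr 1
  ext i j
  by_cases h : G.Adj i j <;> simp [SimpleGraph.adjMatrix_apply, h]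

theorem eval_neg_charpoly {V : Type} [Fintype V] [DecidableEq V] (G : SimpleGraph V)
    [DecidableRel G.Adj] (hB : G.IsBipartite) (K : Type) [Field K] (z : K) :
    (G.adjMatrix K).charpoly.eval (-z) =
      (-1) ^ Fintype.card V * (G.adjMatrix K).charpoly.eval z := by
  obtain ⟨C⟩ := hB
  set D : Matrix V V K := diagonal fun i => if C i = 0 then 1 else -1 with hD
  have hDD : D * D = 1 := by
    rw [hD, diagonal_mul_diagonal, ← diagonal_one]
    congr 1
    funext i
    split_ifs <;> ring
  have hDA : D * G.adjMatrix K * D = - G.adjMatrix K := by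
    ext i j
    rw [hD, mul_diagonal, diagonal_mul, Matrix.neg_apply, SimpleGraph.adjMatrix_apply]
    by_cases h : G.Adj i j
    · have hc := C.valid h
      rw [if_pos h]
      rcases Fin.exists_fin_two.mp ⟨C i, rfl⟩ with h1 | h1 <;>
        rcases Fin.exists_fin_two.mp ⟨C j, rfl⟩ with h2 | h2
      · exact absurd (h1.trans h2.symm) hc
      · rw [h1, h2]
        simp
      · rw [h1, h2]
        simp
      · exact absurd (h1.trans h2.symm) hc
    · rw [if_neg h]
      ring
  have hs : D * Matrix.scalar V z * D = Matrix.scalar V z := by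
    rw [← (Matrix.scalar_commute z (fun r => mul_comm _ _) D).eq, mul_assoc, hDD, mul_one]
  rw [Matrix.eval_charpoly, Matrix.eval_charpoly]
  have h1 : Matrix.scalar V (-z) - G.adjMatrix K =
      - (D * (Matrix.scalar V z - G.adjMatrix K) * D) := by
    rw [mul_sub, sub_mul, hs, hDA, map_neg]
    abel
  rw [h1, Matrix.det_neg, Matrix.det_mul, Matrix.det_mul]
  have h2 : D.det * D.det = 1 := by
    rw [← Matrix.det_mul, hDD, Matrix.det_one]
  linear_combination (-1) ^ Fintype.card V * (Matrix.scalar V z - G.adjMatrix K).det * h2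

theorem chp_neg {V : Type} [Fintype V] (G : SimpleGraph V) (hB : G.IsBipartite) (K : Type)
    [Field K] [Algebra ℚ K] (z : K) :
    aeval (-z) (chp G) = (-1) ^ Fintype.card V * aeval z (chp G) := by
  classical
  rw [aeval_def, aeval_def, eval₂_eq_eval_map, eval₂_eq_eval_map, chp_map]
  exact eval_neg_charpoly G hB K z

theorem zero_ne (f : ℚ[X]) (hX : ¬ X ∣ f) (K : Type) [Field K] [Algebra ℚ K] (z : K)
    (hz : aeval z f = 0) : z ≠ 0 := by
  intro hc
  apply hX
  rw [X_dvd_iff]
  rw [hc, ← coeff_zero_eq_aeval_zero'] at hz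
  exact (map_eq_zero (algebraMap ℚ K)).mp hz

theorem root_neg {V : Type} [Fintype V] (G : SimpleGraph V) (hB : G.IsBipartite) (k : ℕ)
    (f : ℚ[X]) (hf : chp G = X ^ k * f) (hX : ¬ X ∣ f) (K : Type) [Field K] [Algebra ℚ K] :
    ∀ z ∈ f.rootSet K, - z ∈ f.rootSet K := by
  intro z hz
  rw [mem_rootSet] at hz ⊢
  refine ⟨hz.1, ?_⟩
  have h1 := chp_neg G hB K z
  rw [hf, map_mul, map_mul, hz.2, mul_zero, mul_zero, map_pow, aeval_X] at h1
  exact (mul_eq_zero.mp h1).resolve_left
    (pow_ne_zero _ (neg_ne_zero.mpr (zero_ne f hX K z hz.2)))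

theorem even_degree {V : Type} [Fintype V] (G : SimpleGraph V) (hB : G.IsBipartite) (k : ℕ)
    (f : ℚ[X]) (hf : chp G = X ^ k * f) (hX : ¬ X ∣ f) (hm : f.Monic) :
    f.natDegree = 2 * (f.natDegree / 2) := by
  have hn : Fintype.card V = k + f.natDegree := by
    rw [← chp_degree G, hf, (monic_X_pow k).natDegree_mul hm, natDegree_X_pow]
  have h0 : f.eval 0 ≠ 0 := by
    rw [← coeff_zero_eq_eval_zero]
    intro hc
    exact hX (X_dvd_iff.mpr hc)
  have hp : (X ^ k * f).comp (-X) = C ((-1) ^ Fintype.card V) * (X ^ k * f) := by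
    apply Polynomial.funext
    intro x
    rw [← hf, eval_comp, eval_neg, eval_X, eval_mul, eval_C]
    have h := chp_neg G hB ℚ x
    rw [coe_aeval_eq_eval, coe_aeval_eq_eval] at h
    exact h
  rw [mul_comp, X_pow_comp, neg_pow, hn] at hp
  have h1 : X ^ k * ((-1) ^ k * f.comp (-X)) = X ^ k * (C ((-1) ^ (k + f.natDegree)) * f) := by
    linear_combination hp
  have h2 := congrArg (eval 0) (mul_left_cancel₀ (pow_ne_zero k X_ne_zero) h1)
  rw [eval_mul, eval_mul, eval_C, eval_comp, eval_neg, eval_X, neg_zero, eval_pow, eval_neg,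
    eval_one] at h2
  have h3 := mul_right_cancel₀ h0 h2
  rw [pow_add] at h3
  have h4 : ((-1 : ℚ)) ^ f.natDegree = 1 := by
    have h5 : ((-1 : ℚ)) ^ k ≠ 0 := pow_ne_zero _ (by norm_num)
    apply mul_left_cancel₀ h5
    rw [← h3, mul_one]
  have h5 : Even f.natDegree := by
    by_contra hc
    rw [Nat.not_even_iff_odd] at hc
    rw [hc.neg_one_pow] at h4
    norm_num at h4
  obtain ⟨a, ha⟩ := h5
  omega

end Pool.Agent.W_44c680_h9
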