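import Pool.Agent.W_44c680_h9.Bip2

/-!
Two finite symmetric sets in a field on each of which a finite group of automorphisms contains all
changes of two signs and is transitive: equal sums of representatives force the sets to be equal,
unless there are exactly four representatives.
-/

set_option autoImplicit false

namespace Pool.Agent.W_44c680_h9

section Abs

variable {Γ L : Type*} [Group Γ] [Fintype Γ] [Field L] [CharZero L] [MulSemiringAction Γ L]

/-- Any element of the set is sent to any element that differs from it not only by the sign. -/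
def Moves (Γ : Type*) {L : Type*} [Group Γ] [Field L] [MulSemiringAction Γ L]
    (R : Finset L) : Prop :=
  ∀ u ∈ R, ∀ w ∈ R, w ≠ u → w ≠ - u → ∃ γ : Γ, γ • u = w

omit [CharZero L] in
theorem const_tr {R P : Finset L} (h : Moves Γ R) (hP : Half R P) :
    ∃ t : L, ∀ u ∈ P, tr Γ (u * u) = t := by
  rcases P.eq_empty_or_nonempty with hemp | ⟨u0, hu0⟩
  · exact ⟨0, fun u hu => absurd (hemp ▸ hu) (Finset.notMem_empty u)⟩
  · refine ⟨tr Γ (u0 * u0), fun u hu => ?_⟩
    by_cases huu : u0 = u
    · rw [huu]
    · obtain ⟨γ, hγ⟩ := h u (hP.1 hu) u0 (hP.1 hu0) huu (half_neg hP hu hu0)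
      rw [← tr_smul γ (u * u), smul_mul', hγ]

theorem tr_ne (ι : L →+* ℝ) {u : L} (hu : u ≠ 0) : tr Γ (u * u) ≠ 0 := by
  intro hc
  apply hu
  apply tr_pos (Γ := Γ) ι (J := {u})
  · rw [Finset.sum_singleton]
    exact hc
  · exact Finset.mem_singleton_self u

omit [Fintype Γ] [CharZero L] in
open Classical in
/-- The effect of the change of two signs on a combination of the representatives. -/
theorem two_signs {P : Finset L} {u v : L} (hu : u ∈ P) (hv : v ∈ P) (huv : v ≠ u) (γ : Γ)
    (h1 : γ • u = - u) (h2 : γ • v = - v) (h3 : ∀ z ∈ P, z ≠ u → z ≠ v → γ • z = z)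
    (c : L → ℤ) :
    (∑ z ∈ P, (c z : L) * z) - γ • (∑ z ∈ P, (c z : L) * z) =
      2 * (c u * u) + 2 * (c v * v) := by
  have hc : ∀ z : L, γ • ((c z : L) * z) = (c z : L) * γ • z := by
    intro z
    rw [smul_mul']
    congr 1
    exact map_intCast (MulSemiringAction.toRingHom Γ L γ) (c z)
  rw [Finset.smul_sum, ← Finset.sum_sub_distrib, ← Finset.add_sum_erase P _ hu,
    ← Finset.add_sum_erase (P.erase u) _ (Finset.mem_erase.mpr ⟨huv, hv⟩),
    Finset.sum_eq_zero (s := (P.erase u).erase v)]
  · rw [hc, hc, h1, h2]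
    ring
  · intro z hz
    rw [Finset.mem_erase, Finset.mem_erase] at hz
    rw [hc, h3 z hz.2.2 hz.2.1 hz.1, sub_self]

open Classical in
theorem comb_form {R P : Finset L} (h : Pairs Γ R) (hP : Half R P) (h3 : 3 ≤ P.card) {t : L}
    (ht : ∀ u ∈ P, tr Γ (u * u) = t) (c : L → ℤ) :
    tr Γ ((∑ z ∈ P, (c z : L) * z) * ∑ z ∈ P, (c z : L) * z) =
      ((∑ z ∈ P, c z * c z : ℤ) : L) * t := by
  have hz : ∀ (n : ℤ) (y : L), tr Γ ((n : L) * y) = (n : L) * tr Γ y := by
    intro n y
    unfold tr
    rw [Finset.mul_sum]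
    apply Finset.sum_congr rfl
    intro γ _
    rw [smul_mul']
    congr 1
    exact map_intCast (MulSemiringAction.toRingHom Γ L γ) n
  rw [Finset.sum_mul_sum, tr_sum, Int.cast_sum, Finset.sum_mul]
  apply Finset.sum_congr rfl
  intro u hu
  rw [tr_sum, ← Finset.add_sum_erase P _ hu, Finset.sum_eq_zero, add_zero]
  · have e1 : (c u : L) * u * ((c u : L) * u) = ((c u * c u : ℤ) : L) * (u * u) := by
      push_cast
      ring
    rw [e1, hz, ht u hu]
  · intro v hv
    have e1 : (c u : L) * u * ((c v : L) * v) = ((c u * c v : ℤ) : L) * (u * v) := by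
      push_cast
      ring
    rw [e1, hz, ortho h hP h3 hu (Finset.mem_of_mem_erase hv) (Finset.ne_of_mem_erase hv).symm,
      mul_zero]

/-- Integers whose squares add up to four: one of them vanishes unless there are four. -/
theorem squares_four {α : Type*} (P : Finset α) (c : α → ℤ) (h2 : 2 ≤ P.card)
    (h4 : P.card ≠ 4) (h : ∑ z ∈ P, c z * c z = 4) : ∃ e ∈ P, c e = 0 := by
  classical
  by_contra hcon
  push Not at hcon
  have h1 : ∀ z ∈ P, 1 ≤ c z * c z := by
    intro z hz
    have := mul_self_pos.mpr (hcon z hz)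
    omega
  by_cases hall : ∀ z ∈ P, c z * c z = 1
  · rw [Finset.sum_congr rfl hall, Finset.sum_const, nsmul_eq_mul, mul_one] at h
    omega
  · push Not at hall
    obtain ⟨z, hz, hz1⟩ := hall
    have h5 : 4 ≤ c z * c z := by
      have h6 : 2 ≤ |c z| := by
        by_contra hc
        have h7 : 0 < |c z| := abs_pos.mpr (hcon z hz)
        have h8 : |c z| = 1 := by omega
        apply hz1
        rw [← abs_mul_abs_self, h8]
        norm_num
      rw [← abs_mul_abs_self]
      nlinarith
    have h6 : ((P.erase z).card : ℤ) ≤ ∑ y ∈ P.erase z, c y * c y := by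
      have h7 := Finset.sum_le_sum fun y (hy : y ∈ P.erase z) =>
        h1 y (Finset.mem_of_mem_erase hy)
      rw [Finset.sum_const, nsmul_eq_mul, mul_one] at h7
      exact h7
    rw [← Finset.add_sum_erase P _ hz] at h
    rw [Finset.card_erase_of_mem hz] at h6
    omega

open Classical in
/-- Equal sums over the halves force the two sets to be equal if the number of representatives is
not four. -/
theorem eq2 (ι : L →+* ℝ) {R P R' P' : Finset L} (h : Pairs Γ R) (hM : Moves Γ R)
    (hP : Half R P) (h' : Pairs Γ R') (hM' : Moves Γ R') (hP' : Half R' P') (h3 : 3 ≤ P.card)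
    (h4 : P.card ≠ 4) (hc : P'.card = P.card) (hs : ∑ z ∈ P, z = ∑ z ∈ P', z) : R = R' := by
  obtain ⟨t, ht⟩ := const_tr hM hP
  obtain ⟨t', ht'⟩ := const_tr hM' hP'
  have h3' : 3 ≤ P'.card := by omega
  -- the two constants agree
  have one : ∀ Q : Finset L, ∑ z ∈ Q, (((fun _ => 1 : L → ℤ) z : ℤ) : L) * z = ∑ z ∈ Q, z := by
    intro Q
    apply Finset.sum_congr rfl
    intro z _
    rw [Int.cast_one, one_mul]
  have hm : ((P.card : ℤ) : L) ≠ 0 := by
    have : (P.card : ℤ) ≠ 0 := by omega
    exact_mod_cast this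
  have htt : t = t' := by
    have e1 := comb_form h hP h3 ht (fun _ => 1)
    have e2 := comb_form h' hP' h3' ht' (fun _ => 1)
    rw [one, hs] at e1
    rw [one, e1] at e2
    simp only [mul_one, Finset.sum_const, nsmul_eq_mul, hc] at e2
    exact mul_left_cancel₀ hm e2
  subst htt
  have hne : ∀ z ∈ R, z ≠ 0 := by
    intro z hz hc0
    apply half_ne hP hz
    rw [hc0, neg_zero]
  have hne' : ∀ z ∈ R', z ≠ 0 := by
    intro z hz hc0
    apply half_ne hP' hz
    rw [hc0, neg_zero]
  have ht0 : t ≠ 0 := by
    obtain ⟨u, hu⟩ : P.Nonempty := Finset.card_pos.mp (by omega)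
    rw [← ht u hu]
    exact tr_ne ι (hne u (hP.1 hu))
  -- sums of two representatives
  have stepA : ∀ u ∈ P, ∀ v ∈ P, v ≠ u → ∃ J ⊆ P', u + v = ∑ z ∈ J, z := by
    intro u hu v hv huv
    obtain ⟨γ, h1, h2, h5⟩ := h.2 u (hP.1 hu) v (hP.1 hv) huv (half_neg hP hu hv)
    obtain ⟨J, hJ, h6, -⟩ := diffB h'.1 hP' γ
    refine ⟨J, hJ, ?_⟩
    have h7 := two_signs hu hv huv γ h1 h2 (fun z hz hzu hzv => h5 z (hP.1 hz) hzu
      (half_neg hP hu hz) hzv (half_neg hP hv hz)) (fun _ => 1)
    rw [one, hs, h6, Int.cast_one, one_mul, one_mul, ← mul_add] at h7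
    exact (mul_left_cancel₀ two_ne_zero h7).symm
  have hsub : P ⊆ R' := by
    intro u hu
    obtain ⟨v, hv, hvu, -⟩ := third h3 u u
    obtain ⟨w, hw, hwu, hwv⟩ := third h3 u v
    obtain ⟨A, hA, eA⟩ := stepA u hu v hv hvu
    obtain ⟨B, hB, eB⟩ := stepA u hu w hw hwu
    obtain ⟨C, hC, eC⟩ := stepA v hv w hw hwv
    have ind : ∀ D ⊆ P', ∑ z ∈ D, z = ∑ z ∈ P', (((if z ∈ D then 1 else 0 : ℤ)) : L) * z := by
      intro D hD
      rw [← Finset.sum_subset hD]
      · apply Finset.sum_congr rfl
        intro z hz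
        rw [if_pos hz, Int.cast_one, one_mul]
      · intro z _ hz
        rw [if_neg hz, Int.cast_zero, zero_mul]
    obtain ⟨c, hcu⟩ : ∃ c : L → ℤ, 2 * u = ∑ z ∈ P', (c z : L) * z := by
      refine ⟨fun z => (if z ∈ A then 1 else 0) + (if z ∈ B then 1 else 0) -
        (if z ∈ C then 1 else 0), ?_⟩
      have e1 : 2 * u = ∑ z ∈ A, z + ∑ z ∈ B, z - ∑ z ∈ C, z := by
        rw [← eA, ← eB, ← eC]
        ring
      rw [e1, ind A hA, ind B hB, ind C hC, ← Finset.sum_add_distrib,
        ← Finset.sum_sub_distrib]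
      apply Finset.sum_congr rfl
      intro z _
      push_cast
      ring
    have trz : ∀ (n : ℤ) (y : L), tr Γ ((n : L) * y) = (n : L) * tr Γ y := by
      intro n y
      unfold tr
      rw [Finset.mul_sum]
      apply Finset.sum_congr rfl
      intro γ _
      rw [smul_mul']
      congr 1
      exact map_intCast (MulSemiringAction.toRingHom Γ L γ) n
    have hsq : ∑ z ∈ P', c z * c z = 4 := by
      have e1 := comb_form h' hP' h3' ht' c
      rw [← hcu] at e1
      have e2 : 2 * u * (2 * u) = ((4 : ℤ) : L) * (u * u) := by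
        push_cast
        ring
      rw [e2, trz, ht u hu] at e1
      have e3 := mul_right_cancel₀ ht0 e1
      exact_mod_cast e3.symm
    obtain ⟨e, he, hce⟩ := squares_four P' c (by omega) (by omega) hsq
    obtain ⟨a, ha, hca⟩ : ∃ a ∈ P', c a ≠ 0 := by
      by_contra hcon
      push Not at hcon
      rw [Finset.sum_eq_zero fun z hz => by rw [hcon z hz, mul_zero]] at hsq
      norm_num at hsq
    have hea : e ≠ a := by
      intro hc0
      rw [hc0] at hce
      exact hca hce
    obtain ⟨γ, g1, g2, g3⟩ := h'.2 a (hP'.1 ha) e (hP'.1 he) hea (half_neg hP' ha he)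
    have h7 := two_signs ha he hea γ g1 g2 (fun z hz hza hze => g3 z (hP'.1 hz) hza
      (half_neg hP' ha hz) hze (half_neg hP' he hz)) c
    rw [← hcu, hce, Int.cast_zero, zero_mul, mul_zero, add_zero] at h7
    have h8 : u - γ • u = (c a : L) * a := by
      have h9 : γ • (2 * u) = 2 * γ • u := by
        rw [two_mul, smul_add, two_mul]
      rw [h9] at h7
      apply mul_left_cancel₀ (two_ne_zero (α := L))
      linear_combination h7
    have h10 : tr Γ ((u - γ • u) * (u - γ • u)) = ((c a * c a : ℤ) : L) * t := by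
      have e1 : (c a : L) * a * ((c a : L) * a) = ((c a * c a : ℤ) : L) * (a * a) := by
        push_cast
        ring
      rw [h8, e1, trz, ht' a ha]
    have hγR : γ • u ∈ R := h.1 γ u (hP.1 hu)
    by_cases k1 : γ • u = u
    · exfalso
      rw [k1, sub_self] at h8
      have h11 : (c a : L) ≠ 0 := by exact_mod_cast hca
      exact mul_ne_zero h11 (hne' a (hP'.1 ha)) h8.symm
    by_cases k2 : γ • u = - u
    · rw [k2, sub_neg_eq_add, ← two_mul] at h8
      have e2 : (u - γ • u) * (u - γ • u) = ((4 : ℤ) : L) * (u * u) := by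
        rw [k2]
        push_cast
        ring
      rw [e2, trz, ht u hu] at h10
      have e3 := mul_right_cancel₀ ht0 h10
      have e4 : c a * c a = 4 := by exact_mod_cast e3.symm
      have e5 : c a = 2 ∨ c a = -2 := by
        have e6 : (c a - 2) * (c a + 2) = 0 := by linear_combination e4
        rcases mul_eq_zero.mp e6 with e7 | e7
        · left
          omega
        · right
          omega
      rcases e5 with e5 | e5
      · rw [e5] at h8
        push_cast at h8
        rw [mul_left_cancel₀ two_ne_zero h8]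
        exact hP'.1 ha
      · rw [e5] at h8
        push_cast at h8
        have e6 : u = - a := by
          apply mul_left_cancel₀ (two_ne_zero (α := L))
          linear_combination h8
        rw [e6]
        exact hP'.2.1 a (hP'.1 ha)
    · exfalso
      have e0 : tr Γ (u * γ • u) = 0 := by
        by_cases k3 : γ • u ∈ P
        · exact ortho h hP h3 hu k3 (Ne.symm k1)
        · have k4 : - (γ • u) ∈ P := by
            by_contra k5
            exact k3 ((hP.2.2 _ hγR).mpr k5)
          have k6 := ortho h hP h3 hu k4 (fun hc0 => k2 (by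
            conv_rhs => rw [hc0]
            rw [neg_neg]))
          have k7 : u * γ • u = ((-1 : ℤ) : L) * (u * - (γ • u)) := by
            push_cast
            ring
          rw [k7, trz, k6, mul_zero]
      have e1 : tr Γ ((γ • u) * γ • u) = t := by
        rw [← smul_mul', tr_smul, ht u hu]
      have e2 : (u - γ • u) * (u - γ • u) =
          (u * u + (γ • u) * γ • u) + ((-2 : ℤ) : L) * (u * γ • u) := by
        push_cast
        ring
      rw [e2, tr_add, tr_add, trz, e0, mul_zero, add_zero, ht u hu, e1] at h10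
      have e3 : ((2 : ℤ) : L) * t = ((c a * c a : ℤ) : L) * t := by
        rw [← h10]
        push_cast
        ring
      have e4 : c a * c a = 2 := by exact_mod_cast (mul_right_cancel₀ ht0 e3).symm
      have e5 : |c a| * |c a| = 2 := by rw [abs_mul_abs_self, e4]
      have e6 : 0 ≤ |c a| := abs_nonneg _
      have e7 : |c a| < 2 := by nlinarith
      have e8 : |c a| = 0 ∨ |c a| = 1 := by omega
      rcases e8 with e8 | e8 <;> rw [e8] at e5 <;> norm_num at e5
  have hsub2 : R ⊆ R' := by
    intro z hz
    by_cases hzP : z ∈ P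
    · exact hsub hzP
    · have h1 : - z ∈ P := by
        by_contra h5
        exact hzP ((hP.2.2 z hz).mpr h5)
      have h2 := hP'.2.1 _ (hsub h1)
      rw [neg_neg] at h2
      exact h2
  apply Finset.eq_of_subset_of_card_le hsub2
  rw [half_card hP, half_card hP', hc]

end Abs

end Pool.Agent.W_44c680_h9
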