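import Pool.Agent.W_44c680_h9.Bip4
import Pool.Agent.W_44c680_h9.Bip7

/-!
The Galois group and the sum of the absolute values of the roots: polynomials with real roots that
are closed under the change of the sign, with at least half of the possible Galois group.
-/

set_option autoImplicit false

namespace Pool.Agent.W_44c680_h9

open Matrix Polynomial

section Inv

open Equiv

variable {X : Type*} [DecidableEq X]

/-- A subgroup of index at most two of the centralizer is transitive up to the sign. -/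
theorem move_mem [Finite X] (ν : Perm X) (h2 : ∀ x, ν (ν x) = x) (h1 : ∀ x, ν x ≠ x)
    (K : Subgroup (Subgroup.centralizer {ν}))
    (hK : Nat.card (Subgroup.centralizer {ν}) ≤ 2 * Nat.card K) (u w s : X)
    (huw : w ≠ u) (huw' : w ≠ ν u) (hsu : s ≠ u) (hsu' : s ≠ ν u) (hsw : s ≠ w)
    (hsw' : s ≠ ν w) :
    ∃ k : Subgroup.centralizer {ν}, k ∈ K ∧ (k : Perm X) u = w := by
  have n1 : u ≠ ν s := fun hc => hsu' (by rw [hc, h2])
  have n2 : u ≠ ν w := fun hc => huw' (by rw [hc, h2])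
  have n3 : w ≠ ν s := fun hc => hsw' (by rw [hc, h2])
  refine ⟨_, comm_mem K hK ⟨_, tau_cent ν h2 h1 s u hsu.symm n1⟩
    ⟨_, tau_cent ν h2 h1 s w hsw.symm n3⟩, ?_⟩
  show (swap s u * swap (ν s) (ν u)) ((swap s w * swap (ν s) (ν w))
    ((swap s u * swap (ν s) (ν u)) ((swap s w * swap (ν s) (ν w))⁻¹ u))) = w
  have e1 : (swap s w * swap (ν s) (ν w))⁻¹ u = u := by
    rw [Perm.inv_eq_iff_eq, Perm.mul_apply, swap_apply_of_ne_of_ne n1 n2,
      swap_apply_of_ne_of_ne hsu.symm huw.symm]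
  have e2 : (swap s u * swap (ν s) (ν u)) u = s := by
    rw [Perm.mul_apply, swap_apply_of_ne_of_ne n1 (h1 u).symm, swap_apply_right]
  have e3 : (swap s w * swap (ν s) (ν w)) s = w := by
    rw [Perm.mul_apply, swap_apply_of_ne_of_ne (h1 s).symm hsw', swap_apply_left]
  have e4 : (swap s u * swap (ν s) (ν u)) w = w := by
    rw [Perm.mul_apply, swap_apply_of_ne_of_ne n3 huw',
      swap_apply_of_ne_of_ne hsw.symm huw]
  rw [e1, e2, e3, e4]

end Inv

section Field

variable {L : Type} [Field L] [Algebra ℚ L] [Normal ℚ L]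

/-- If the Galois group has at least half of the possible elements, it moves any root to any root
that differs from it not only by the sign. -/
theorem moves_of_card (q : ℚ[X]) [Fact ((q.map (algebraMap ℚ L)).Splits)]
    (h : ∀ z ∈ q.rootSet L, - z ∈ q.rootSet L) (h0 : ∀ z ∈ q.rootSet L, z ≠ 0) (m : ℕ)
    (hm : 3 ≤ m) (hd : q.natDegree ≤ 2 * m)
    (hc : 2 ^ m * m.factorial ≤ 2 * Nat.card (act L q).range) :
    Moves (L ≃ₐ[ℚ] L) (rts L q) := by
  classical
  obtain ⟨-, hcard⟩ := pairs_of_card q h h0 m (by omega) hd hc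
  haveI : Fintype (q.rootSet L) := (rootSet_finite q L).fintype
  obtain ⟨r, h1, h2⟩ := two_cases q h h0
  rw [← card_act' q h] at hc
  have h5 : r = m := by omega
  subst h5
  intro u hu w hw hwu hwu'
  have h6 : ({u, - u, w, - w} : Finset L).card < (rts L q).card :=
    lt_of_le_of_lt Finset.card_le_four (by omega)
  obtain ⟨s, hs, hs'⟩ := Finset.exists_mem_notMem_of_card_lt_card h6
  simp only [Finset.mem_insert, Finset.mem_singleton, not_or] at hs'
  obtain ⟨s1, s2, s3, s4⟩ := hs'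
  rw [mem_rts] at hu hw hs
  obtain ⟨k, hk, hk'⟩ := move_mem (negPerm q h) (negPerm_negPerm q h) (negPerm_ne q h h0)
    (act' q h).range (by rw [h2]; exact hc) ⟨u, hu⟩ ⟨w, hw⟩ ⟨s, hs⟩
    (fun hcon => hwu (congrArg Subtype.val hcon))
    (fun hcon => hwu' (congrArg Subtype.val hcon))
    (fun hcon => s1 (congrArg Subtype.val hcon))
    (fun hcon => s2 (congrArg Subtype.val hcon))
    (fun hcon => s3 (congrArg Subtype.val hcon))
    (fun hcon => s4 (congrArg Subtype.val hcon))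
  obtain ⟨γ, hγ⟩ := hk
  refine ⟨γ, ?_⟩
  have h7 := act_apply q γ ⟨u, hu⟩
  rw [← act'_apply q h, hγ, hk'] at h7
  exact h7.symm

end Field

section Real

variable {L : Type} [Field L] [Algebra ℚ L]

/-- The roots agree if the Galois group of one polynomial has at least half of the possible
elements and there are at least three and not exactly four positive roots. -/
theorem roots_half [Normal ℚ L] [FiniteDimensional ℚ L] (φ ψ : ℚ[X])
    [IsSplittingField ℚ L (φ * ψ)] (ι : L →ₐ[ℚ] ℝ) (h0 : φ * ψ ≠ 0) (m : ℕ) (hm : 3 ≤ m)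
    (hm4 : m ≠ 4) (dφ : φ.natDegree = 2 * m) (dψ : ψ.natDegree ≤ 2 * m)
    (hG : ∀ _ : Fact ((φ.map (algebraMap ℚ L)).Splits),
      2 ^ m * m.factorial ≤ 2 * Nat.card (act L φ).range)
    (sφ : ∀ z ∈ φ.rootSet L, - z ∈ φ.rootSet L) (zφ : ∀ z ∈ φ.rootSet L, z ≠ 0)
    (sψ : ∀ z ∈ ψ.rootSet L, - z ∈ ψ.rootSet L) (zψ : ∀ z ∈ ψ.rootSet L, z ≠ 0)
    (t1 : (φ.map (algebraMap ℚ ℝ)).roots.sum = 0) (t2 : (ψ.map (algebraMap ℚ ℝ)).roots.sum = 0)
    (hE : rs (φ.map (algebraMap ℚ ℝ)) = rs (ψ.map (algebraMap ℚ ℝ))) :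
    (φ.map (algebraMap ℚ ℝ)).roots = (ψ.map (algebraMap ℚ ℝ)).roots := by
  classical
  haveI : CharZero L := algebraRat.charZero L
  have hs := IsSplittingField.splits L (φ * ψ)
  have hne : (φ * ψ).map (algebraMap ℚ L) ≠ 0 := (Polynomial.map_ne_zero_iff
    (algebraMap ℚ L).injective).mpr h0
  have f1 : (φ.map (algebraMap ℚ L)).Splits :=
    hs.of_dvd hne (Polynomial.map_dvd _ (dvd_mul_right φ ψ))
  have f2 : (ψ.map (algebraMap ℚ L)).Splits :=
    hs.of_dvd hne (Polynomial.map_dvd _ (dvd_mul_left ψ φ))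
  haveI : Fact ((φ.map (algebraMap ℚ L)).Splits) := ⟨f1⟩
  haveI : Fact ((ψ.map (algebraMap ℚ L)).Splits) := ⟨f2⟩
  have hx : xs ι φ = xs ι ψ := by
    apply (ι : L →+* ℝ).injective
    show ι (xs ι φ) = ι (xs ι ψ)
    rw [rs_eq_xs ι φ f1 (sum_zero ι φ f1 t1), rs_eq_xs ι ψ f2 (sum_zero ι ψ f2 t2)] at hE
    linarith
  obtain ⟨F1, c1⟩ := pairs_of_card φ sφ zφ m (by omega) dφ.le (hG ⟨f1⟩)
  have M1 := moves_of_card φ sφ zφ m hm dφ.le (hG ⟨f1⟩)
  have n1 := nodup_of_card φ (c1.trans dφ.symm)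
  have P1 := half_roots ι φ sφ zφ
  have p1 := half_card P1
  have x1 := sum_pos ι φ n1
  have inj : Function.Injective (act L ψ) := by
    apply inj_act φ ψ ι h0 hx
    intro S hS hxS
    apply faithful2 (ι : L →+* ℝ) F1 P1 (by omega) S hS
    intro γ hγ
    rw [x1]
    exact hxS γ hγ
  have hG2 := (hG ⟨f1⟩).trans (Nat.mul_le_mul_left 2 (range_le φ ψ inj))
  obtain ⟨F2, c2⟩ := pairs_of_card ψ sψ zψ m (by omega) dψ hG2
  have M2 := moves_of_card ψ sψ zψ m hm dψ hG2
  have n2 : (ψ.aroots L).Nodup := nodup_of_card ψ (by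
    have h1 := card_root_le (L := L) ψ
    rw [← card_rts] at h1
    omega)
  have P2 := half_roots ι ψ sψ zψ
  have p2 := half_card P2
  have hRR : rts L φ = rts L ψ := eq2 (ι : L →+* ℝ) F1 M1 P1 F2 M2 P2 (by omega) (by omega)
    (by omega) (by rw [x1, hx, sum_pos ι ψ n2])
  rw [roots_real φ f1 ι, roots_real ψ f2 ι, ← rts_val φ n1, ← rts_val ψ n2, hRR]

end Real

end Pool.Agent.W_44c680_h9
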