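import Pool.Agent.W_44c680_h9.Bip5
import Pool.Agent.W_44c680_h9.Bip8

/-!
Bipartite graphs whose characteristic polynomial has a large Galois group: the energy.
-/

set_option autoImplicit false

namespace Pool.Agent.W_44c680_h9

open Matrix Polynomial

/-- The data of the nonzero part of the characteristic polynomial of a bipartite graph. -/
theorem bip_data {V : Type} [Fintype V] (G : SimpleGraph V) (hB : G.IsBipartite) :
    ∃ (k : ℕ) (f : ℚ[X]), chp G = X ^ k * f ∧ ¬ X ∣ f ∧ f ≠ 0 ∧ f.Monic ∧
      (f.map (algebraMap ℚ ℝ)).Splits ∧ rankG G = f.natDegree ∧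
      f.natDegree = 2 * (f.natDegree / 2) ∧
      energy G = rs (f.map (algebraMap ℚ ℝ)) ∧ (f.map (algebraMap ℚ ℝ)).roots.sum = 0 ∧
      (((f.map (algebraMap ℚ ℝ)).roots.map fun x => x * x).sum = 2 * (G.edgeSet.ncard : ℝ)) ∧
      Fintype.card V = k + f.natDegree ∧
      ∀ (K : Type) [Field K] [Algebra ℚ K], (∀ z ∈ f.rootSet K, - z ∈ f.rootSet K) ∧
        ∀ z ∈ f.rootSet K, z ≠ 0 := by
  obtain ⟨k, f, hf, hX, hf0, rf, sf⟩ := chp_factor G
  have mf : f.Monic := (monic_X_pow k).of_mul_monic_left (hf ▸ chp_monic G)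
  have eG : energy G = rs ((chp G).map (algebraMap ℚ ℝ)) := by rw [energy_eq, chp_real]
  refine ⟨k, f, hf, hX, hf0, mf, sf, chp_rank G k f hX rf sf, even_degree G hB k f hf hX mf,
    ?_, ?_, ?_, ?_, ?_⟩
  · rw [eG]
    unfold rs
    rw [rf, Multiset.map_add, Multiset.sum_add, Multiset.map_replicate, Multiset.sum_replicate]
    simp
  · have h := chp_sum G
    rw [rf, Multiset.sum_add, Multiset.sum_replicate, smul_zero, zero_add] at h
    exact h
  · have h := chp_squares G
    rw [rf, Multiset.map_add, Multiset.sum_add, Multiset.map_replicate,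
      Multiset.sum_replicate, mul_zero, smul_zero, zero_add] at h
    exact h
  · rw [← chp_degree G, hf, (monic_X_pow k).natDegree_mul mf, natDegree_X_pow]
  · intro K _ _
    refine ⟨root_neg G hB k f hf hX K, fun z hz => ?_⟩
    rw [mem_rootSet] at hz
    exact zero_ne f hX K z hz.2

/-- Equal energies force equal numbers of edges. -/
theorem bip_edges {V W : Type} [Fintype V] [Fintype W] (G : SimpleGraph V) (H : SimpleGraph W)
    (hGB : G.IsBipartite) (hHB : H.IsBipartite) (hr : rankG H ≤ rankG G) (h6 : 6 ≤ rankG G)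
    (hG : 2 ^ (rankG G / 2) * (rankG G / 2).factorial ≤ 2 * Nat.card (chp G).Gal)
    (hE : energy G = energy H) : G.edgeSet.ncard = H.edgeSet.ncard := by
  obtain ⟨k, f, hf, hX, hf0, mf, sf, r1, ev1, eG, b1, q1, d1, c1⟩ := bip_data G hGB
  obtain ⟨l, g, hg, hY, hg0, mg, sg, r2, ev2, eH, b2, q2, d2, c2⟩ := bip_data H hHB
  rw [r1, hf] at hG
  rw [r1] at h6
  rw [r1, r2] at hr
  have h0 : f * g ≠ 0 := mul_ne_zero hf0 hg0
  have hs : ((f * g).map (algebraMap ℚ ℝ)).Splits := by
    rw [Polynomial.map_mul]
    exact sf.mul sg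
  have gen : ∀ (L : Type) [Field L] [Algebra ℚ L] [IsSplittingField ℚ L (f * g)],
      ((f.map (algebraMap ℚ ℝ)).roots.map fun x => x * x).sum =
        ((g.map (algebraMap ℚ ℝ)).roots.map fun x => x * x).sum := by
    intro L _ _ _
    haveI : Normal ℚ L := Normal.of_isSplittingField (f * g)
    haveI : FiniteDimensional ℚ L := IsSplittingField.finiteDimensional L (f * g)
    exact squares_main (L := L) f g (IsSplittingField.lift L (f * g) hs) h0 (f.natDegree / 2)
      (by omega) ev1 (by omega)
      (fun _ => by rw [card_range_pow f hf0 k]; exact hG)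
      (c1 L).1 (c1 L).2 (c2 L).1 (c2 L).2 b1 b2 (by rw [← eG, ← eH]; exact hE)
  have key := @gen (f * g).SplittingField _ _ (IsSplittingField.splittingField (f * g))
  rw [q1, q2] at key
  have h2 : (G.edgeSet.ncard : ℝ) = (H.edgeSet.ncard : ℝ) := by linarith
  exact_mod_cast h2

/-- Equal energies force equal nonzero eigenvalues. -/
theorem bip_spec {V W : Type} [Fintype V] [Fintype W] (G : SimpleGraph V) (H : SimpleGraph W)
    (hGB : G.IsBipartite) (hHB : H.IsBipartite) (hr : rankG H ≤ rankG G)
    (hG : 2 ^ (rankG G / 2) * (rankG G / 2).factorial ≤ Nat.card (chp G).Gal)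
    (hE : energy G = energy H) :
    X ^ Fintype.card W * chp G = X ^ Fintype.card V * chp H := by
  obtain ⟨k, f, hf, hX, hf0, mf, sf, r1, ev1, eG, b1, q1, d1, c1⟩ := bip_data G hGB
  obtain ⟨l, g, hg, hY, hg0, mg, sg, r2, ev2, eH, b2, q2, d2, c2⟩ := bip_data H hHB
  rw [r1, hf] at hG
  rw [r1, r2] at hr
  suffices hroots : (f.map (algebraMap ℚ ℝ)).roots = (g.map (algebraMap ℚ ℝ)).roots by
    have hfg : f = g := eq_of_roots f g mf mg sf sg hroots
    rw [hf, hg, d1, d2, hfg]
    ring
  by_cases hz : energy G = 0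
  · rw [rs_zero f hX (by rw [← eG]; exact hz), rs_zero g hY (by rw [← eH, ← hE]; exact hz)]
  have hd2 : 1 ≤ f.natDegree / 2 := by
    by_contra hc
    apply hz
    rw [eG]
    have h2 : (f.map (algebraMap ℚ ℝ)).roots = 0 := by
      rw [← Multiset.card_eq_zero, splits_iff_card_roots.mp sf, natDegree_map]
      omega
    unfold rs
    rw [h2]
    simp
  have h0 : f * g ≠ 0 := mul_ne_zero hf0 hg0
  have hs : ((f * g).map (algebraMap ℚ ℝ)).Splits := by
    rw [Polynomial.map_mul]
    exact sf.mul sg
  have gen : ∀ (L : Type) [Field L] [Algebra ℚ L] [IsSplittingField ℚ L (f * g)],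
      (f.map (algebraMap ℚ ℝ)).roots = (g.map (algebraMap ℚ ℝ)).roots := by
    intro L _ _ _
    haveI : Normal ℚ L := Normal.of_isSplittingField (f * g)
    haveI : FiniteDimensional ℚ L := IsSplittingField.finiteDimensional L (f * g)
    exact roots_main (L := L) f g (IsSplittingField.lift L (f * g) hs) h0 (f.natDegree / 2)
      hd2 ev1 (by omega)
      (fun _ => by rw [card_range_pow f hf0 k]; exact hG)
      (c1 L).1 (c1 L).2 (c2 L).1 (c2 L).2 b1 b2 (by rw [← eG, ← eH]; exact hE)
  exact @gen (f * g).SplittingField _ _ (IsSplittingField.splittingField (f * g))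

/-- Equal energies force equal nonzero eigenvalues, half of the possible Galois group. -/
theorem bip_half {V W : Type} [Fintype V] [Fintype W] (G : SimpleGraph V) (H : SimpleGraph W)
    (hGB : G.IsBipartite) (hHB : H.IsBipartite) (hr : rankG H ≤ rankG G) (h6 : 6 ≤ rankG G)
    (h8 : rankG G ≠ 8)
    (hG : 2 ^ (rankG G / 2) * (rankG G / 2).factorial ≤ 2 * Nat.card (chp G).Gal)
    (hE : energy G = energy H) :
    X ^ Fintype.card W * chp G = X ^ Fintype.card V * chp H := by
  obtain ⟨k, f, hf, hX, hf0, mf, sf, r1, ev1, eG, b1, q1, d1, c1⟩ := bip_data G hGB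
  obtain ⟨l, g, hg, hY, hg0, mg, sg, r2, ev2, eH, b2, q2, d2, c2⟩ := bip_data H hHB
  rw [r1, hf] at hG
  rw [r1] at h6 h8
  rw [r1, r2] at hr
  have h0 : f * g ≠ 0 := mul_ne_zero hf0 hg0
  have hs : ((f * g).map (algebraMap ℚ ℝ)).Splits := by
    rw [Polynomial.map_mul]
    exact sf.mul sg
  have gen : ∀ (L : Type) [Field L] [Algebra ℚ L] [IsSplittingField ℚ L (f * g)],
      (f.map (algebraMap ℚ ℝ)).roots = (g.map (algebraMap ℚ ℝ)).roots := by
    intro L _ _ _
    haveI : Normal ℚ L := Normal.of_isSplittingField (f * g)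
    haveI : FiniteDimensional ℚ L := IsSplittingField.finiteDimensional L (f * g)
    exact roots_half (L := L) f g (IsSplittingField.lift L (f * g) hs) h0 (f.natDegree / 2)
      (by omega) (by omega) ev1 (by omega)
      (fun _ => by rw [card_range_pow f hf0 k]; exact hG)
      (c1 L).1 (c1 L).2 (c2 L).1 (c2 L).2 b1 b2 (by rw [← eG, ← eH]; exact hE)
  have hroots := @gen (f * g).SplittingField _ _ (IsSplittingField.splittingField (f * g))
  have hfg : f = g := eq_of_roots f g mf mg sf sg hroots
  rw [hf, hg, d1, d2, hfg]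
  ring

/-- The Galois group over the rational numbers of the characteristic polynomial of the adjacency
matrix has the number of elements of the group of all signed permutations of the positive
eigenvalues of a bipartite graph. -/
def FullSigned {V : Type} [Fintype V] (G : SimpleGraph V) : Prop :=
  Nat.card (chp G).Gal = 2 ^ (rankG G / 2) * (rankG G / 2).factorial

/-- The Galois group over the rational numbers of the characteristic polynomial of the adjacency
matrix has at least half of that number of elements. -/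
def HalfSigned {V : Type} [Fintype V] (G : SimpleGraph V) : Prop :=
  2 ^ (rankG G / 2) * (rankG G / 2).factorial ≤ 2 * Nat.card (chp G).Gal

/-- The Galois group is as large as the sign symmetry of the spectrum allows, or has at least half
of that number of elements and the rank is at least six. -/
def SignedGalois {V : Type} [Fintype V] (G : SimpleGraph V) : Prop :=
  FullSigned G ∨ (HalfSigned G ∧ 6 ≤ rankG G)

theorem bip_rigid {V W : Type} [Fintype V] [Fintype W] (G : SimpleGraph V) (H : SimpleGraph W)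
    (hGB : G.IsBipartite) (hHB : H.IsBipartite) (hr : rankG H ≤ rankG G)
    (hG : SignedGalois G) (hG8 : FullSigned G ∨ rankG G ≠ 8) :
    energy H = energy G ↔ X ^ Fintype.card V * chp H = X ^ Fintype.card W * chp G := by
  constructor
  · intro h
    rcases hG8 with hF | h8
    · exact (bip_spec G H hGB hHB hr hF.ge h.symm).symm
    · rcases hG with hG | ⟨hG, h6⟩
      · exact (bip_spec G H hGB hHB hr hG.ge h.symm).symm
      · exact (bip_half G H hGB hHB hr h6 h8 hG h.symm).symm
  · intro h
    exact (energy_of_spec G H h.symm).symm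

theorem bip_count {V W : Type} [Fintype V] [Fintype W] (G : SimpleGraph V) (H : SimpleGraph W)
    (hGB : G.IsBipartite) (hHB : H.IsBipartite) (hr : rankG H ≤ rankG G)
    (hG : SignedGalois G) (hE : energy H = energy G) :
    H.edgeSet.ncard = G.edgeSet.ncard := by
  rcases hG with hG | ⟨hG, h6⟩
  · exact (edges_of_spec G H (bip_spec G H hGB hHB hr hG.ge hE.symm)).symm
  · exact (bip_edges G H hGB hHB hr h6 hG hE.symm).symm

theorem bip_delete {V : Type} [Fintype V] (G : SimpleGraph V) (hGB : G.IsBipartite) (e : Sym2 V)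
    (he : e ∈ G.edgeSet)
    (h : (SignedGalois G ∧ rankG (G.deleteEdges {e}) ≤ rankG G) ∨
      (SignedGalois (G.deleteEdges {e}) ∧ rankG G ≤ rankG (G.deleteEdges {e}))) :
    energy (G.deleteEdges {e}) ≠ energy G := by
  have hDB : (G.deleteEdges {e}).IsBipartite :=
    SimpleGraph.Colorable.mono_left (SimpleGraph.deleteEdges_le _) hGB
  intro hE
  rcases h with ⟨h1, h2⟩ | ⟨h1, h2⟩
  · exact delete_ne G e he (bip_count G _ hGB hDB h2 h1 hE)
  · exact delete_ne G e he (bip_count _ G hDB hGB h2 h1 hE.symm).symm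

end Pool.Agent.W_44c680_h9
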