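import Pool.Agent.W_44c680_h9.Bip8

/-!
The three-cycles in a subgroup of index at most two of the signed permutations.
-/

set_option autoImplicit false

namespace Pool.Agent.W_44c680_h9

open Matrix Polynomial

section Inv

open Equiv

variable {X : Type*} [DecidableEq X]

/-- A subgroup of index at most two of the centralizer contains the three-cycles. -/
theorem cyc_mem [Finite X] (ν : Perm X) (h2 : ∀ x, ν (ν x) = x) (h1 : ∀ x, ν x ≠ x)
    (K : Subgroup (Subgroup.centralizer {ν}))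
    (hK : Nat.card (Subgroup.centralizer {ν}) ≤ 2 * Nat.card K) (a b c : X)
    (hab : a ≠ b) (hab' : a ≠ ν b) (hac : a ≠ c) (hac' : a ≠ ν c) (hbc : b ≠ c)
    (hbc' : b ≠ ν c) :
    ∃ k : Subgroup.centralizer {ν}, k ∈ K ∧ (k : Perm X) a = b ∧ (k : Perm X) b = c ∧
      (k : Perm X) c = a ∧ ∀ z, z ≠ a → z ≠ ν a → z ≠ b → z ≠ ν b → z ≠ c → z ≠ ν c →
        (k : Perm X) z = z := by
  have hba' : b ≠ ν a := fun hc => hab' (by rw [hc, h2])
  have hca' : c ≠ ν a := fun hc => hac' (by rw [hc, h2])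
  have hcb' : c ≠ ν b := fun hc => hbc' (by rw [hc, h2])
  have nn : ∀ x y : X, x ≠ y → ν x ≠ ν y := fun x y hxy hc => hxy (ν.injective hc)
  refine ⟨_, comm_mem K hK ⟨_, tau_cent ν h2 h1 c a hac hac'⟩
    ⟨_, tau_cent ν h2 h1 c b hbc hbc'⟩, ?_⟩
  have hconj : (swap c b * swap (ν c) (ν b)) * (swap c a * swap (ν c) (ν a)) *
      (swap c b * swap (ν c) (ν b))⁻¹ = swap b a * swap (ν b) (ν a) := by
    have e1 : (swap c b * swap (ν c) (ν b)) * swap c a * (swap c b * swap (ν c) (ν b))⁻¹ =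
        swap b a := by
      rw [← swap_apply_apply]
      congr 1
      · rw [Perm.mul_apply, swap_apply_of_ne_of_ne (h1 c).symm hcb', swap_apply_left]
      · rw [Perm.mul_apply, swap_apply_of_ne_of_ne hac' hab',
          swap_apply_of_ne_of_ne hac hab]
    have e2 : (swap c b * swap (ν c) (ν b)) * swap (ν c) (ν a) *
        (swap c b * swap (ν c) (ν b))⁻¹ = swap (ν b) (ν a) := by
      rw [← swap_apply_apply]
      congr 1
      · rw [Perm.mul_apply, swap_apply_left, swap_apply_of_ne_of_ne hcb'.symm (h1 b)]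
      · rw [Perm.mul_apply, swap_apply_of_ne_of_ne (nn a c hac) (nn a b hab),
          swap_apply_of_ne_of_ne hca'.symm hba'.symm]
    rw [← e1, ← e2]
    group
  show (((swap c a * swap (ν c) (ν a)) * ((swap c b * swap (ν c) (ν b)) *
    (swap c a * swap (ν c) (ν a)) * (swap c b * swap (ν c) (ν b))⁻¹)) : Perm X) a = b ∧
    (((swap c a * swap (ν c) (ν a)) * ((swap c b * swap (ν c) (ν b)) *
    (swap c a * swap (ν c) (ν a)) * (swap c b * swap (ν c) (ν b))⁻¹)) : Perm X) b = c ∧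
    (((swap c a * swap (ν c) (ν a)) * ((swap c b * swap (ν c) (ν b)) *
    (swap c a * swap (ν c) (ν a)) * (swap c b * swap (ν c) (ν b))⁻¹)) : Perm X) c = a ∧ _
  rw [hconj]
  refine ⟨?_, ?_, ?_, ?_⟩
  · rw [Perm.mul_apply, Perm.mul_apply, Perm.mul_apply,
      swap_apply_of_ne_of_ne hab' (h1 a).symm, swap_apply_right,
      swap_apply_of_ne_of_ne hbc' hba', swap_apply_of_ne_of_ne hbc hab.symm]
  · rw [Perm.mul_apply, Perm.mul_apply, Perm.mul_apply,
      swap_apply_of_ne_of_ne (h1 b).symm hba', swap_apply_left,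
      swap_apply_of_ne_of_ne hac' (h1 a).symm, swap_apply_right]
  · rw [Perm.mul_apply, Perm.mul_apply, Perm.mul_apply,
      swap_apply_of_ne_of_ne hcb' hca', swap_apply_of_ne_of_ne hbc.symm hac.symm,
      swap_apply_of_ne_of_ne (h1 c).symm hca', swap_apply_left]
  · intro z z1 z2 z3 z4 z5 z6
    show ((swap c a * swap (ν c) (ν a)) * ((swap c b * swap (ν c) (ν b)) *
      (swap c a * swap (ν c) (ν a)) * (swap c b * swap (ν c) (ν b))⁻¹)) z = z
    rw [hconj, Perm.mul_apply, Perm.mul_apply, Perm.mul_apply,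
      swap_apply_of_ne_of_ne z4 z2, swap_apply_of_ne_of_ne z3 z1,
      swap_apply_of_ne_of_ne z6 z2, swap_apply_of_ne_of_ne z5 z1]

end Inv

/-- The group contains the three-cycles. -/
def Cyc (Γ : Type*) {L : Type*} [Group Γ] [Field L] [MulSemiringAction Γ L]
    (R : Finset L) : Prop :=
  ∀ a ∈ R, ∀ b ∈ R, ∀ c ∈ R, a ≠ b → a ≠ - b → a ≠ c → a ≠ - c → b ≠ c → b ≠ - c →
    ∃ γ : Γ, γ • a = b ∧ γ • b = c ∧ γ • c = a ∧
      ∀ z ∈ R, z ≠ a → z ≠ - a → z ≠ b → z ≠ - b → z ≠ c → z ≠ - c → γ • z = z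

section Field

variable {L : Type} [Field L] [Algebra ℚ L] [Normal ℚ L]

/-- If the Galois group has at least half of the possible elements, it contains the
three-cycles. -/
theorem cyc_of_card (q : ℚ[X]) [Fact ((q.map (algebraMap ℚ L)).Splits)]
    (h : ∀ z ∈ q.rootSet L, - z ∈ q.rootSet L) (h0 : ∀ z ∈ q.rootSet L, z ≠ 0) (m : ℕ)
    (hm : 3 ≤ m) (hd : q.natDegree ≤ 2 * m)
    (hc : 2 ^ m * m.factorial ≤ 2 * Nat.card (act L q).range) :
    Cyc (L ≃ₐ[ℚ] L) (rts L q) := by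
  classical
  obtain ⟨-, hcard⟩ := pairs_of_card q h h0 m (by omega) hd hc
  haveI : Fintype (q.rootSet L) := (rootSet_finite q L).fintype
  obtain ⟨r, h1, h2⟩ := two_cases q h h0
  rw [← card_act' q h] at hc
  have h5 : r = m := by omega
  subst h5
  intro a ha b hb c hc' n1 n2 n3 n4 n5 n6
  rw [mem_rts] at ha hb hc'
  obtain ⟨k, hk, k1, k2, k3, k4⟩ := cyc_mem (negPerm q h) (negPerm_negPerm q h)
    (negPerm_ne q h h0) (act' q h).range (by rw [h2]; exact hc) ⟨a, ha⟩ ⟨b, hb⟩ ⟨c, hc'⟩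
    (fun hcon => n1 (congrArg Subtype.val hcon)) (fun hcon => n2 (congrArg Subtype.val hcon))
    (fun hcon => n3 (congrArg Subtype.val hcon)) (fun hcon => n4 (congrArg Subtype.val hcon))
    (fun hcon => n5 (congrArg Subtype.val hcon)) (fun hcon => n6 (congrArg Subtype.val hcon))
  obtain ⟨γ, hγ⟩ := hk
  have key : ∀ z : q.rootSet L, γ • (z : L) = ((k : Equiv.Perm (q.rootSet L)) z : L) := by
    intro z
    rw [← hγ, act'_apply, act_apply, AlgEquiv.smul_def]
  refine ⟨γ, ?_, ?_, ?_, ?_⟩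
  · rw [key ⟨a, ha⟩, k1]
  · rw [key ⟨b, hb⟩, k2]
  · rw [key ⟨c, hc'⟩, k3]
  · intro z hz z1 z2 z3 z4 z5 z6
    rw [mem_rts] at hz
    rw [key ⟨z, hz⟩, k4 ⟨z, hz⟩ (fun hcon => z1 (congrArg Subtype.val hcon))
      (fun hcon => z2 (congrArg Subtype.val hcon)) (fun hcon => z3 (congrArg Subtype.val hcon))
      (fun hcon => z4 (congrArg Subtype.val hcon)) (fun hcon => z5 (congrArg Subtype.val hcon))
      (fun hcon => z6 (congrArg Subtype.val hcon))]

end Field

end Pool.Agent.W_44c680_h9
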