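import Pool.Agent.W_44c680_h9.Graph

/-!
Graph energy under the deletion of an edge: the energy, the transport to `Fin N`, the count.
-/

set_option autoImplicit false

namespace Pool.Agent.W_44c680_h9

open Matrix Polynomial

open Classical in
theorem herm {V : Type} [Fintype V] (G : SimpleGraph V) : (G.adjMatrix ℝ).IsHermitian := by
  rw [Matrix.IsHermitian, conjTranspose_eq_transpose_of_trivial]
  exact G.isSymm_adjMatrix (α := ℝ)

open Classical in
/-- The energy of a finite graph: the sum of the absolute values of the eigenvalues of the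
adjacency matrix, with multiplicity. -/
noncomputable def energy {V : Type} [Fintype V] (G : SimpleGraph V) : ℝ :=
  ∑ i, |(herm G).eigenvalues i|

open Classical in
theorem energy_eq {V : Type} [Fintype V] (G : SimpleGraph V) :
    energy G = rs (G.adjMatrix ℝ).charpoly := by
  rw [energy, sum_abs_eigenvalues]

theorem energy_comap {V W : Type} [Fintype V] [Fintype W] (σ : V ≃ W) (G : SimpleGraph W) :
    energy (G.comap σ) = energy G := by
  classical
  rw [energy_eq, energy_eq]
  congr 1
  rw [← Matrix.charpoly_reindex σ]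
  congr 1
  ext i j
  simp [SimpleGraph.adjMatrix_apply]

theorem energy_big {V : Type} [Fintype V] [Nonempty V] (Γ Γ' : SimpleGraph (V × Bool)) :
    energy (big Γ Γ' False) = energy (big Γ Γ' True) := by
  classical
  rw [energy_eq, energy_eq]
  exact rs_big_eq' Γ Γ' _ _ _

/-- Any two graphs on `m ≤ 2 * n` vertices sit, without edges between them, at fixed places of a
connected graph on `8 * n + 2` vertices with an edge whose deletion does not change the energy. -/
theorem universal (m n : ℕ) (hn1 : 1 ≤ n) (hm : m ≤ 2 * n) :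
    ∃ φ : Fin m ⊕ Fin m ↪ Fin (8 * n + 2), ∀ F F' : SimpleGraph (Fin m),
      ∃ G : SimpleGraph (Fin (8 * n + 2)), G.Connected ∧ G.comap φ = F ⊕g F' ∧
        ∃ e ∈ G.edgeSet, energy (G.deleteEdges {e}) = energy G := by
  classical
  have : Nonempty (Fin n) := ⟨⟨0, hn1⟩⟩
  obtain ⟨j⟩ : Nonempty (Fin m ↪ Fin n × Bool) := by
    apply Function.Embedding.nonempty_of_card_le
    simp only [Fintype.card_fin, Fintype.card_prod, Fintype.card_bool]
    omega
  have hc : Fintype.card (Fin (8 * n + 2)) = Fintype.card (BV (Fin n)) := by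
    simp only [BV, Fintype.card_fin, Fintype.card_sum, Fintype.card_prod, Fintype.card_bool,
      Fintype.card_unit]
    ring
  set σ := Fintype.equivOfCardEq hc with hσ
  refine ⟨((j.sumMap j).trans plc).trans σ.symm.toEmbedding, fun F F' => ?_⟩
  refine ⟨(big (F.map j) (F'.map j) True).comap σ, ?_, ?_,
    s(σ.symm (.inl (.inl ())), σ.symm (.inl (.inr ()))), ?_, ?_⟩
  · exact (SimpleGraph.Iso.connected_iff (SimpleGraph.Iso.comap σ _)).mpr
      (big_connected _ _)
  · have h1 : ((big (F.map j) (F'.map j) True).comap σ).comap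
        (((j.sumMap j).trans plc).trans σ.symm.toEmbedding) =
        ((big (F.map j) (F'.map j) True).comap plc).comap (j.sumMap j) := by
      ext s t
      simp [SimpleGraph.comap_adj]
    have h2 : ∀ (A : SimpleGraph (Fin m)) (s t : Fin m), (A.map j).Adj (j s) (j t) ↔ A.Adj s t := by
      intro A s t
      rw [← SimpleGraph.comap_adj, SimpleGraph.comap_map_eq]
    rw [h1, big_comap]
    ext s t
    rcases s with s | s <;> rcases t with t | t
    · rw [SimpleGraph.comap_adj, SimpleGraph.sum_adj_inl]
      exact h2 F s t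
    · rfl
    · rfl
    · rw [SimpleGraph.comap_adj, SimpleGraph.sum_adj_inr]
      exact h2 F' s t
  · rw [SimpleGraph.mem_edgeSet, SimpleGraph.comap_adj]
    simp only [Equiv.apply_symm_apply]
    trivial
  · rw [energy_comap, ← energy_big, ← big_delete, ← energy_comap σ]
    congr 1
    ext s t
    simp only [SimpleGraph.deleteEdges_adj, SimpleGraph.comap_adj, Set.mem_singleton_iff,
      Sym2.eq_iff, Equiv.eq_symm_apply]

/-- There are at least `2 ^ (m choose 2)` graphs on `m` labelled vertices. -/
theorem card_graph (m : ℕ) : 2 ^ (m.choose 2) ≤ Nat.card (SimpleGraph (Fin m)) := by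
  classical
  let f : Set {e : Sym2 (Fin m) // ¬ e.IsDiag} → SimpleGraph (Fin m) := fun s =>
    SimpleGraph.fromEdgeSet (Subtype.val '' s)
  have hf : Function.Injective f := by
    intro s t h
    have h3 : ∀ (u : Set {e : Sym2 (Fin m) // ¬ e.IsDiag}) (e : {e : Sym2 (Fin m) // ¬ e.IsDiag}),
        e ∈ u ↔ e.1 ∈ (f u).edgeSet := by
      intro u e
      simp only [f, SimpleGraph.edgeSet_fromEdgeSet]
      constructor
      · intro h4
        exact ⟨⟨e, h4, rfl⟩, e.2⟩
      · rintro ⟨⟨e', h4, h5⟩, _⟩
        rwa [← Subtype.ext h5]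
    ext e
    rw [h3 s e, h3 t e, h]
  have h1 := Nat.card_le_card_of_injective f hf
  have h2 : Nat.card (Set {e : Sym2 (Fin m) // ¬ e.IsDiag}) = 2 ^ (m.choose 2) := by
    rw [Nat.card_eq_fintype_card, Fintype.card_set, Sym2.card_subtype_not_diag,
      Fintype.card_fin]
  rwa [h2] at h1

/-- The number of labelled graphs in the class. -/
theorem count (n : ℕ) (hn1 : 1 ≤ n) : 2 ^ (2 * n * (2 * n - 1)) ≤
    Nat.card {G : SimpleGraph (Fin (8 * n + 2)) // G.Connected ∧
      ∃ e ∈ G.edgeSet, energy (G.deleteEdges {e}) = energy G} := by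
  classical
  obtain ⟨φ, hφ⟩ := universal (2 * n) n hn1 le_rfl
  choose G h1 h2 h3 using hφ
  let f : SimpleGraph (Fin (2 * n)) × SimpleGraph (Fin (2 * n)) →
      {G : SimpleGraph (Fin (8 * n + 2)) // G.Connected ∧
        ∃ e ∈ G.edgeSet, energy (G.deleteEdges {e}) = energy G} := fun p =>
    ⟨G p.1 p.2, h1 p.1 p.2, h3 p.1 p.2⟩
  have hf : Function.Injective f := by
    intro p q h
    have h4 : G p.1 p.2 = G q.1 q.2 := congrArg Subtype.val h
    have h5 : p.1 ⊕g p.2 = q.1 ⊕g q.2 := by rw [← h2, ← h2, h4]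
    have h6 : p.1 = q.1 := by
      ext s t
      rw [← SimpleGraph.sum_adj_inl (G := p.1) (H := p.2), h5, SimpleGraph.sum_adj_inl]
    have h7 : p.2 = q.2 := by
      ext s t
      rw [← SimpleGraph.sum_adj_inr (G := p.1) (H := p.2), h5, SimpleGraph.sum_adj_inr]
    exact Prod.ext h6 h7
  have h8 := Nat.card_le_card_of_injective f hf
  rw [Nat.card_prod] at h8
  refine le_trans ?_ h8
  refine le_trans (le_of_eq ?_) (Nat.mul_le_mul (card_graph (2 * n)) (card_graph (2 * n)))
  rw [← pow_add, Nat.choose_two_right]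
  congr 1
  have h9 : 2 ∣ 2 * n * (2 * n - 1) := ⟨n * (2 * n - 1), by ring⟩
  omega

end Pool.Agent.W_44c680_h9
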