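import Mathlib

/-!
Two finite sets in a field on each of which a finite group of automorphisms acts as the full
symmetric group: equal partial sums force equal sums of squares.
-/

set_option autoImplicit false

namespace Pool.Agent.W_44c680_h9

section Abs

variable {Γ L : Type*} [Group Γ] [Fintype Γ] [Field L] [CharZero L] [MulSemiringAction Γ L]

/-- The group preserves the finite set and acts on it as the full symmetric group. -/
def Full (Γ : Type*) {L : Type*} [Group Γ] [Field L] [MulSemiringAction Γ L]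
    (R : Finset L) : Prop :=
  (∀ γ : Γ, ∀ z ∈ R, γ • z ∈ R) ∧
    ∀ f : Equiv.Perm L, (∀ z ∈ R, f z ∈ R) → ∃ γ : Γ, ∀ z ∈ R, γ • z = f z

omit [Fintype Γ] [CharZero L] in
open Classical in
theorem full_swap {R : Finset L} (h : Full Γ R) {i k : L} (hi : i ∈ R) (hk : k ∈ R) :
    ∃ γ : Γ, ∀ z ∈ R, γ • z = Equiv.swap i k z := by
  apply h.2
  intro z hz
  by_cases h1 : z = i
  · rw [h1, Equiv.swap_apply_left]
    exact hk
  · by_cases h2 : z = k
    · rw [h2, Equiv.swap_apply_right]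
      exact hi
    · rw [Equiv.swap_apply_of_ne_of_ne h1 h2]
      exact hz

omit [Fintype Γ] [CharZero L] in
open Classical in
theorem full_pair {R : Finset L} (h : Full Γ R) {i k i' k' : L} (hi : i ∈ R) (hk : k ∈ R)
    (hi' : i' ∈ R) (hk' : k' ∈ R) (hik : i ≠ k) (hik' : i' ≠ k') :
    ∃ γ : Γ, γ • i = i' ∧ γ • k = k' := by
  obtain ⟨γ, hγ⟩ := full_swap h hi hi'
  have h1 : γ • k ∈ R := h.1 γ k hk
  obtain ⟨σ, hσ⟩ := full_swap h h1 hk'
  have h2 : γ • i = i' := by rw [hγ i hi, Equiv.swap_apply_left]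
  refine ⟨σ * γ, ?_, ?_⟩
  · rw [mul_smul, h2, hσ i' hi']
    apply Equiv.swap_apply_of_ne_of_ne _ hik'
    intro hc
    apply hik
    apply smul_left_cancel γ
    rw [h2, ← hc]
  · rw [mul_smul, hσ _ h1, Equiv.swap_apply_left]

omit [Fintype Γ] [CharZero L] in
open Classical in
theorem swap_sum {R Q : Finset L} (hQ : Q ⊆ R) {i k : L} (hi : i ∈ Q) (hk : k ∉ Q) {γ : Γ}
    (hγ : ∀ z ∈ R, γ • z = Equiv.swap i k z) : γ • ∑ z ∈ Q, z = ∑ z ∈ Q, z - i + k := by
  rw [Finset.smul_sum, ← Finset.add_sum_erase Q (fun z => γ • z) hi,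
    ← Finset.add_sum_erase Q (fun z => z) hi, hγ i (hQ hi), Equiv.swap_apply_left]
  have h1 : ∑ z ∈ Q.erase i, γ • z = ∑ z ∈ Q.erase i, z := by
    apply Finset.sum_congr rfl
    intro z hz
    rw [hγ z (hQ (Finset.mem_of_mem_erase hz))]
    apply Equiv.swap_apply_of_ne_of_ne (Finset.ne_of_mem_erase hz)
    intro hc
    apply hk
    rw [← hc]
    exact Finset.mem_of_mem_erase hz
  rw [h1]
  ring

omit [Fintype Γ] in
open Classical in
theorem sum_inj {R : Finset L} (h : Full Γ R) {Q Q' : Finset L} (hQ : Q ⊆ R) (hQ' : Q' ⊆ R)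
    (hc : Q.card = Q'.card) (hs : ∑ z ∈ Q, z = ∑ z ∈ Q', z) : Q = Q' := by
  by_contra hne
  have h1 : ¬ Q ⊆ Q' := fun h1 => hne (Finset.eq_of_subset_of_card_le h1 hc.ge)
  have h2 : ¬ Q' ⊆ Q := fun h1 => hne (Finset.eq_of_subset_of_card_le h1 hc.le).symm
  obtain ⟨i, hi, hi'⟩ := Finset.not_subset.mp h1
  obtain ⟨k, hk, hk'⟩ := Finset.not_subset.mp h2
  obtain ⟨γ, hγ⟩ := full_swap h (hQ hi) (hQ' hk)
  have h3 := swap_sum hQ hi hk' hγ
  have h4 := swap_sum (γ := γ) hQ' hk hi' (fun z hz => by rw [hγ z hz, Equiv.swap_comm])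
  rw [← hs, h3] at h4
  have h5 : (2 : L) * (k - i) = 0 := by linear_combination h4
  have h6 : k - i = 0 := by
    rcases mul_eq_zero.mp h5 with h6 | h6
    · exact absurd h6 two_ne_zero
    · exact h6
  rw [sub_eq_zero] at h6
  rw [h6] at hk
  exact hi' hk

omit [Fintype Γ] in
open Classical in
theorem stab_mem {R : Finset L} (h : Full Γ R) {P : Finset L} (hP : P ⊆ R) (γ : Γ)
    (hγ : γ • ∑ z ∈ P, z = ∑ z ∈ P, z) (z : L) (hz : z ∈ P) : γ • z ∈ P := by
  have h1 : P.image (fun z => γ • z) = P := by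
    apply sum_inj h
    · intro w hw
      rw [Finset.mem_image] at hw
      obtain ⟨v, hv, rfl⟩ := hw
      exact h.1 γ v (hP hv)
    · exact hP
    · exact Finset.card_image_of_injective _ (MulAction.injective γ)
    · rw [Finset.sum_image fun a _ b _ hab => MulAction.injective γ hab, ← Finset.smul_sum, hγ]
  rw [← h1]
  exact Finset.mem_image_of_mem _ hz

omit [Fintype Γ] in
theorem faithful {R : Finset L} (h : Full Γ R) {P : Finset L} (hP : P ⊆ R) {i k : L}
    (hi : i ∈ P) (hk : k ∈ R) (hk' : k ∉ P) (S : Set L) (hS : ∀ γ : Γ, ∀ z ∈ S, γ • z ∈ S)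
    (hx : ∀ γ : Γ, (∀ z ∈ S, γ • z = z) → γ • ∑ z ∈ P, z = ∑ z ∈ P, z) (γ : Γ)
    (hγ : ∀ z ∈ S, γ • z = z) (a : L) (ha : a ∈ R) : γ • a = a := by
  by_contra hne
  obtain ⟨σ, h1, h2⟩ := full_pair h ha (h.1 γ a ha) (hP hi) hk (Ne.symm hne)
    (fun hc => hk' (hc ▸ hi))
  have h3 : ∀ z ∈ S, (σ * γ * σ⁻¹) • z = z := by
    intro z hz
    rw [mul_smul, mul_smul, hγ _ (hS σ⁻¹ z hz), smul_inv_smul]
  have h4 := stab_mem h hP (σ * γ * σ⁻¹) (hx _ h3) i hi
  apply hk'
  have h5 : (σ * γ * σ⁻¹) • i = k := by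
    rw [mul_smul, mul_smul, ← h1, inv_smul_smul, h2]
  rw [← h5]
  exact h4

/-- The sum of the conjugates. -/
def tr (Γ : Type*) {L : Type*} [Group Γ] [Fintype Γ] [Field L] [MulSemiringAction Γ L] (z : L) :
    L := ∑ γ : Γ, γ • z

omit [CharZero L] in
theorem tr_smul (σ : Γ) (z : L) : tr Γ (σ • z) = tr Γ z := by
  unfold tr
  apply Fintype.sum_equiv (Equiv.mulRight σ)
  intro γ
  rw [Equiv.coe_mulRight, mul_smul]

omit [CharZero L] in
theorem tr_sum {α : Type*} (s : Finset α) (f : α → L) :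
    tr Γ (∑ a ∈ s, f a) = ∑ a ∈ s, tr Γ (f a) := by
  unfold tr
  rw [Finset.sum_comm]
  apply Finset.sum_congr rfl
  intro γ _
  rw [Finset.smul_sum]

omit [CharZero L] in
theorem tr_fix {z : L} (h : ∀ γ : Γ, γ • z = z) : tr Γ z = (Fintype.card Γ : L) * z := by
  unfold tr
  rw [Finset.sum_congr rfl fun γ _ => h γ, Finset.sum_const, Finset.card_univ, nsmul_eq_mul]

open Classical in
theorem tr_sq {R : Finset L} (h : Full Γ R) (hR : ∑ z ∈ R, z = 0) (hn : 2 ≤ R.card)
    {P : Finset L} (hP : P ⊆ R) :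
    (R.card : L) * ((R.card : L) - 1) * tr Γ ((∑ z ∈ P, z) * ∑ z ∈ P, z) =
      (P.card : L) * ((R.card : L) - P.card) * ((Fintype.card Γ : L) * ∑ z ∈ R, z * z) := by
  obtain ⟨i0, hi0, k0, hk0, hik0⟩ := Finset.one_lt_card.mp (by omega : 1 < R.card)
  set t1 := tr Γ (i0 * i0) with ht1
  set t2 := tr Γ (i0 * k0) with ht2
  have e1 : ∀ i ∈ R, tr Γ (i * i) = t1 := by
    intro i hi
    obtain ⟨γ, hγ⟩ := full_swap h hi0 hi
    have h1 := hγ i0 hi0
    rw [Equiv.swap_apply_left] at h1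
    rw [ht1, ← tr_smul γ (i0 * i0), smul_mul', h1]
  have e2 : ∀ i ∈ R, ∀ k ∈ R, i ≠ k → tr Γ (i * k) = t2 := by
    intro i hi k hk hik
    obtain ⟨γ, h1, h2⟩ := full_pair h hi0 hk0 hi hk hik0 hik
    rw [ht2, ← tr_smul γ (i0 * k0), smul_mul', h1, h2]
  have e3 : ∀ Q ⊆ R, ∀ i ∈ Q, ∑ k ∈ Q, tr Γ (i * k) = t1 + ((Q.card : L) - 1) * t2 := by
    intro Q hQ i hi
    rw [← Finset.add_sum_erase Q _ hi, e1 i (hQ hi)]
    congr 1
    rw [Finset.sum_congr rfl fun k hk => e2 i (hQ hi) k (hQ (Finset.mem_of_mem_erase hk))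
      (Finset.ne_of_mem_erase hk).symm, Finset.sum_const, Finset.card_erase_of_mem hi,
      nsmul_eq_mul, Nat.cast_sub (Finset.card_pos.mpr ⟨i, hi⟩), Nat.cast_one]
  have e4 : t1 + ((R.card : L) - 1) * t2 = 0 := by
    rw [← e3 R (Finset.Subset.refl R) i0 hi0, ← tr_sum, ← Finset.mul_sum, hR, mul_zero]
    unfold tr
    simp
  have e5 : tr Γ ((∑ z ∈ P, z) * ∑ z ∈ P, z) =
      (P.card : L) * (t1 + ((P.card : L) - 1) * t2) := by
    rw [Finset.sum_mul_sum, tr_sum]
    rw [Finset.sum_congr rfl fun i hi => by rw [tr_sum, e3 P hP i hi], Finset.sum_const,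
      nsmul_eq_mul]
  have e6 : (Fintype.card Γ : L) * ∑ z ∈ R, z * z = (R.card : L) * t1 := by
    rw [← tr_fix, tr_sum, Finset.sum_congr rfl e1, Finset.sum_const, nsmul_eq_mul]
    intro γ
    rw [Finset.smul_sum]
    have h1 : R.image (fun z => γ • z) = R := by
      apply Finset.eq_of_subset_of_card_le
      · intro w hw
        rw [Finset.mem_image] at hw
        obtain ⟨v, hv, rfl⟩ := hw
        exact h.1 γ v hv
      · rw [Finset.card_image_of_injective _ (MulAction.injective γ)]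
    conv_rhs => rw [← h1]
    rw [Finset.sum_image fun a _ b _ hab => MulAction.injective γ hab]
    apply Finset.sum_congr rfl
    intro z _
    rw [smul_mul']
  rw [e5, e6]
  linear_combination (R.card : L) * (P.card : L) * ((P.card : L) - 1) * e4

omit [Fintype Γ] in
open Classical in
theorem reach {R : Finset L} (h : Full Γ R) {P : Finset L} (hP : P ⊆ R) (m : ℕ) :
    ∀ Q ⊆ R, Q.card = P.card → (P \ Q).card = m → ∃ γ : Γ, γ • ∑ z ∈ P, z = ∑ z ∈ Q, z := by
  induction m with
  | zero =>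
    intro Q hQ hc h0
    have h1 : P ⊆ Q := Finset.sdiff_eq_empty_iff_subset.mp (Finset.card_eq_zero.mp h0)
    have h2 : P = Q := Finset.eq_of_subset_of_card_le h1 hc.le
    exact ⟨1, by rw [one_smul, h2]⟩
  | succ m ih =>
    intro Q hQ hc h0
    obtain ⟨i, hi⟩ : (P \ Q).Nonempty := Finset.card_pos.mp (by omega)
    have h1 : (Q \ P).card = (P \ Q).card := Finset.card_sdiff_comm hc
    obtain ⟨k, hk⟩ : (Q \ P).Nonempty := Finset.card_pos.mp (by omega)
    rw [Finset.mem_sdiff] at hi hk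
    have hik : i ≠ k := fun hc' => hi.2 (hc' ▸ hk.1)
    have h2 : i ∉ Q.erase k := fun hc' => hi.2 (Finset.mem_of_mem_erase hc')
    have h3 : insert i (Q.erase k) ⊆ R := by
      intro z hz
      rw [Finset.mem_insert] at hz
      rcases hz with rfl | hz
      · exact hP hi.1
      · exact hQ (Finset.mem_of_mem_erase hz)
    have h4 : (insert i (Q.erase k)).card = P.card := by
      rw [Finset.card_insert_of_notMem h2, Finset.card_erase_of_mem hk.1]
      have := Finset.card_pos.mpr ⟨k, hk.1⟩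
      omega
    have h5 : P \ insert i (Q.erase k) = (P \ Q).erase i := by
      ext z
      simp only [Finset.mem_sdiff, Finset.mem_insert, Finset.mem_erase, not_or, not_and]
      constructor
      · rintro ⟨h6, h7, h8⟩
        refine ⟨h7, h6, fun h9 => ?_⟩
        by_cases h10 : z = k
        · exact hk.2 (h10 ▸ h6)
        · exact h8 h10 h9
      · rintro ⟨h6, h7, h8⟩
        exact ⟨h7, h6, fun _ => h8⟩
    have h6 : (P \ insert i (Q.erase k)).card = m := by
      rw [h5, Finset.card_erase_of_mem (Finset.mem_sdiff.mpr hi)]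
      omega
    obtain ⟨γ, hγ⟩ := ih _ h3 h4 h6
    obtain ⟨σ, hσ⟩ := full_swap h (hP hi.1) (hQ hk.1)
    refine ⟨σ * γ, ?_⟩
    have h7 : k ∉ insert i (Q.erase k) := by
      rw [Finset.mem_insert, not_or]
      exact ⟨hik.symm, Finset.notMem_erase k Q⟩
    rw [mul_smul, hγ, swap_sum h3 (Finset.mem_insert_self _ _) h7 hσ, Finset.sum_insert h2,
      ← Finset.add_sum_erase Q (fun z => z) hk.1]
    ring

omit [Fintype Γ] in
open Classical in
theorem orbit_card {R : Finset L} (h : Full Γ R) {P : Finset L} (hP : P ⊆ R) :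
    (Set.range fun γ : Γ => γ • ∑ z ∈ P, z).ncard = R.card.choose P.card := by
  have h1 : (Set.range fun γ : Γ => γ • ∑ z ∈ P, z) =
      ↑((Finset.powersetCard P.card R).image fun Q => ∑ z ∈ Q, z) := by
    ext w
    rw [Finset.mem_coe, Finset.mem_image, Set.mem_range]
    constructor
    · rintro ⟨γ, rfl⟩
      refine ⟨P.image (fun z => γ • z), ?_, ?_⟩
      · rw [Finset.mem_powersetCard]
        refine ⟨?_, Finset.card_image_of_injective _ (MulAction.injective γ)⟩
        intro w hw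
        rw [Finset.mem_image] at hw
        obtain ⟨v, hv, rfl⟩ := hw
        exact h.1 γ v (hP hv)
      · rw [Finset.sum_image fun a _ b _ hab => MulAction.injective γ hab, ← Finset.smul_sum]
    · rintro ⟨Q, hQ, rfl⟩
      rw [Finset.mem_powersetCard] at hQ
      exact reach h hP _ Q hQ.1 hQ.2 rfl
  rw [h1, Set.ncard_coe_finset, Finset.card_image_of_injOn, Finset.card_powersetCard]
  intro Q hQ Q' hQ' hs
  rw [Finset.mem_coe, Finset.mem_powersetCard] at hQ hQ'
  exact sum_inj h hQ.1 hQ'.1 (hQ.2.trans hQ'.2.symm) hs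

theorem choose_lt {n a b : ℕ} (hab : a < b) (hb : 2 * b ≤ n) : n.choose a < n.choose b := by
  induction b with
  | zero => omega
  | succ b ih =>
    have h1 : n.choose b < n.choose (b + 1) := by
      have h2 := Nat.choose_succ_right_eq n b
      have h3 : 0 < n.choose b := Nat.choose_pos (by omega)
      by_contra hc
      have h4 : n.choose (b + 1) ≤ n.choose b := not_lt.mp hc
      have h5 : n.choose (b + 1) * (b + 1) ≤ n.choose b * (b + 1) :=
        Nat.mul_le_mul_right _ h4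
      rw [h2] at h5
      have h6 : n - b ≤ b + 1 := Nat.le_of_mul_le_mul_left h5 h3
      omega
    rcases Nat.lt_succ_iff_lt_or_eq.mp hab with h2 | h2
    · exact (ih h2 (by omega)).trans h1
    · rw [h2]
      exact h1

theorem choose_eq {n a b : ℕ} (ha : a ≤ n) (hb : b ≤ n) (h : n.choose a = n.choose b) :
    a * (n - a) = b * (n - b) := by
  have key : ∀ c d : ℕ, 2 * c ≤ n → 2 * d ≤ n → n.choose c = n.choose d → c = d := by
    intro c d hc hd hcd
    rcases lt_trichotomy c d with h1 | h1 | h1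
    · have := choose_lt h1 hd
      omega
    · exact h1
    · have := choose_lt h1 hc
      omega
  have e1 : ∀ c : ℕ, c ≤ n → n.choose (n - c) = n.choose c := fun c hc => Nat.choose_symm hc
  rcases le_total (2 * a) n with h1 | h1 <;> rcases le_total (2 * b) n with h2 | h2
  · rw [key a b h1 h2 h]
  · have h3 : a = n - b := key a (n - b) h1 (by omega) (by rw [h, e1 b hb])
    rw [h3, show n - (n - b) = b by omega, mul_comm]
  · have h3 : n - a = b := key (n - a) b (by omega) h2 (by rw [e1 a ha, h])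
    rw [← h3, show n - (n - a) = a by omega, mul_comm]
  · have h3 : n - a = n - b := key (n - a) (n - b) (by omega) (by omega)
      (by rw [e1 a ha, e1 b hb, h])
    have h4 : a = b := by omega
    rw [h4]

/-- Equal partial sums force equal sums of squares. -/
theorem squares_eq {R R' : Finset L} (h : Full Γ R) (h' : Full Γ R') (hR : ∑ z ∈ R, z = 0)
    (hR' : ∑ z ∈ R', z = 0) (hc : R.card = R'.card) (hn : 2 ≤ R.card) {P P' : Finset L}
    (hP : P ⊆ R) (hP' : P' ⊆ R') (h0 : 0 < P.card) (h1 : P.card < R.card)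
    (hs : ∑ z ∈ P, z = ∑ z ∈ P', z) : ∑ z ∈ R, z * z = ∑ z ∈ R', z * z := by
  have e1 := orbit_card (Γ := Γ) h hP
  have e2 := orbit_card (Γ := Γ) h' hP'
  rw [hs, e2, ← hc] at e1
  have e3 := choose_eq (by rw [hc]; exact Finset.card_le_card hP') h1.le e1
  have e4 := tr_sq h hR hn hP
  have e5 := tr_sq h' hR' (by omega) hP'
  rw [hs, hc, e5, ← hc] at e4
  have hl : P'.card ≤ R.card := by
    rw [hc]
    exact Finset.card_le_card hP'
  have e6 : (P'.card : L) * ((R.card : L) - P'.card) =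
      (P.card : L) * ((R.card : L) - P.card) := by
    have e7 : ((P'.card * (R.card - P'.card) : ℕ) : L) = ((P.card * (R.card - P.card) : ℕ) : L) := by
      rw [e3]
    rwa [Nat.cast_mul, Nat.cast_mul, Nat.cast_sub hl, Nat.cast_sub h1.le] at e7
  rw [e6] at e4
  have e8 : (P.card : L) * ((R.card : L) - P.card) ≠ 0 := by
    apply mul_ne_zero
    · exact_mod_cast h0.ne'
    · rw [sub_ne_zero]
      exact_mod_cast h1.ne'
  have e9 : (Fintype.card Γ : L) ≠ 0 := by
    have : 0 < Fintype.card Γ := Fintype.card_pos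
    exact_mod_cast this.ne'
  exact (mul_left_cancel₀ e9 (mul_left_cancel₀ e8 e4)).symm

end Abs

end Pool.Agent.W_44c680_h9
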