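import Pool.Agent.W_44c680_h9.Gal5

set_option autoImplicit false

open Polynomial

namespace Pool.Agent.W_44c680_h9

open Classical in
/-- The characteristic polynomial of the adjacency matrix has integer coefficients. -/
theorem chp_int {V : Type} [Fintype V] (G : SimpleGraph V) :
    (G.adjMatrix ℤ).charpoly.map (algebraMap ℤ ℚ) = chp G := by
  unfold chp
  rw [← Matrix.charpoly_map]
  congr 1
  ext i j
  simp only [Matrix.map_apply, SimpleGraph.adjMatrix_apply]
  split_ifs <;> simp

/-- The eigenvalues of a graph are algebraic integers. -/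
theorem root_integral {V : Type} [Fintype V] (G : SimpleGraph V) (K : Type) [Field K]
    [Algebra ℚ K] (z : K) (hz : Polynomial.aeval z (chp G) = 0) : IsIntegral ℤ z := by
  classical
  refine ⟨(G.adjMatrix ℤ).charpoly, Matrix.charpoly_monic _, ?_⟩
  rw [← chp_int G, Polynomial.aeval_def, Polynomial.eval₂_map] at hz
  rw [← hz]
  congr 1
  exact Subsingleton.elim _ _

end Pool.Agent.W_44c680_h9
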