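import Pool.Agent.W_44c680_h9.Gal5
import Pool.Agent.W_44c680_h9.Gal11
import Pool.Agent.W_44c680_h9.GalInt
import Pool.Agent.W_44c680_h9.GalRank

/-!
The Galois group of the characteristic polynomial and the energy: no rank condition.
-/

set_option autoImplicit false

namespace Pool.Agent.W_44c680_h9

open Matrix Polynomial

theorem aroot_ne (f : ℚ[X]) (hX : ¬ X ∣ f) (K : Type) [Field K] [Algebra ℚ K] (z : K)
    (hz : z ∈ f.aroots K) : z ≠ 0 := by
  intro hc
  apply hX
  rw [X_dvd_iff]
  have h1 := (mem_aroots'.mp hz).2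
  rw [hc, ← coeff_zero_eq_aeval_zero'] at h1
  exact (map_eq_zero (algebraMap ℚ K)).mp h1

theorem aroot_integral {V : Type} [Fintype V] (G : SimpleGraph V) (k : ℕ) (f : ℚ[X])
    (hf : chp G = X ^ k * f) (K : Type) [Field K] [Algebra ℚ K] (z : K)
    (hz : z ∈ f.aroots K) : IsIntegral ℤ z := by
  apply root_integral G K z
  rw [hf, map_mul, (mem_aroots'.mp hz).2, mul_zero]

/-- If the Galois group of the characteristic polynomial of `G` is the full symmetric group on the
at least six nonzero eigenvalues, then every graph `H` with the same energy, with a rank that is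
larger by at most two and with a number of edges that is not much larger has the same nonzero
eigenvalues. -/
theorem galois_wide {V W : Type} [Fintype V] [Fintype W] (G : SimpleGraph V) (H : SimpleGraph W)
    (h6 : 6 ≤ rankG G) (hr : rankG H ≤ rankG G + 2)
    (hG : (rankG G).factorial ≤ Nat.card (chp G).Gal)
    (hq : 2 * H.edgeSet.ncard < 2 * G.edgeSet.ncard + rankG G) (hE : energy G = energy H) :
    X ^ Fintype.card W * chp G = X ^ Fintype.card V * chp H := by
  have eG : energy G = rs ((chp G).map (algebraMap ℚ ℝ)) := by rw [energy_eq, chp_real]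
  have eH : energy H = rs ((chp H).map (algebraMap ℚ ℝ)) := by rw [energy_eq, chp_real]
  obtain ⟨k, f, hf, hX, hf0, rf, sf⟩ := chp_factor G
  obtain ⟨l, g, hg, hY, hg0, rg, sg⟩ := chp_factor H
  have dG : rankG G = f.natDegree := chp_rank G k f hX rf sf
  have dH : rankG H = g.natDegree := chp_rank H l g hY rg sg
  rw [dG] at h6 hr hG hq
  rw [dH] at hr
  rw [hf] at hG
  have mf : f.Monic := (monic_X_pow k).of_mul_monic_left (hf ▸ chp_monic G)
  have mg : g.Monic := (monic_X_pow l).of_mul_monic_left (hg ▸ chp_monic H)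
  have a1 : rs ((chp G).map (algebraMap ℚ ℝ)) = rs (f.map (algebraMap ℚ ℝ)) := by
    unfold rs
    rw [rf, Multiset.map_add, Multiset.sum_add, Multiset.map_replicate, Multiset.sum_replicate]
    simp
  have a2 : rs ((chp H).map (algebraMap ℚ ℝ)) = rs (g.map (algebraMap ℚ ℝ)) := by
    unfold rs
    rw [rg, Multiset.map_add, Multiset.sum_add, Multiset.map_replicate, Multiset.sum_replicate]
    simp
  have b1 : (f.map (algebraMap ℚ ℝ)).roots.sum = 0 := by
    have h := chp_sum G
    rw [rf, Multiset.sum_add, Multiset.sum_replicate, smul_zero, zero_add] at h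
    exact h
  have b2 : (g.map (algebraMap ℚ ℝ)).roots.sum = 0 := by
    have h := chp_sum H
    rw [rg, Multiset.sum_add, Multiset.sum_replicate, smul_zero, zero_add] at h
    exact h
  have o1 : ∀ j : ℕ, 0 ≤ ((f.map (algebraMap ℚ ℝ)).roots.map fun x => x ^ (2 * j + 1)).sum := by
    intro j
    have h := chp_odd G (2 * j + 1)
    rw [rf, Multiset.map_add, Multiset.sum_add, Multiset.map_replicate, Multiset.sum_replicate,
      zero_pow (by omega), smul_zero, zero_add] at h
    exact h
  have o2 : ∀ j : ℕ, 0 ≤ ((g.map (algebraMap ℚ ℝ)).roots.map fun x => x ^ (2 * j + 1)).sum := by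
    intro j
    have h := chp_odd H (2 * j + 1)
    rw [rg, Multiset.map_add, Multiset.sum_add, Multiset.map_replicate, Multiset.sum_replicate,
      zero_pow (by omega), smul_zero, zero_add] at h
    exact h
  have q1 : ((f.map (algebraMap ℚ ℝ)).roots.map fun x => x * x).sum =
      2 * (G.edgeSet.ncard : ℝ) := by
    have h := chp_squares G
    rw [rf, Multiset.map_add, Multiset.sum_add, Multiset.map_replicate,
      Multiset.sum_replicate, mul_zero, smul_zero, zero_add] at h
    exact h
  have q2 : ((g.map (algebraMap ℚ ℝ)).roots.map fun x => x * x).sum =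
      2 * (H.edgeSet.ncard : ℝ) := by
    have h := chp_squares H
    rw [rg, Multiset.map_add, Multiset.sum_add, Multiset.map_replicate,
      Multiset.sum_replicate, mul_zero, smul_zero, zero_add] at h
    exact h
  have hsq : ((g.map (algebraMap ℚ ℝ)).roots.map fun x => x * x).sum <
      ((f.map (algebraMap ℚ ℝ)).roots.map fun x => x * x).sum + f.natDegree := by
    rw [q1, q2]
    exact_mod_cast hq
  have h0 : f * g ≠ 0 := mul_ne_zero hf0 hg0
  have hs : ((f * g).map (algebraMap ℚ ℝ)).Splits := by
    rw [Polynomial.map_mul]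
    exact sf.mul sg
  have gen : ∀ (L : Type) [Field L] [Algebra ℚ L] [IsSplittingField ℚ L (f * g)],
      (f.map (algebraMap ℚ ℝ)).roots = (g.map (algebraMap ℚ ℝ)).roots := by
    intro L _ _ _
    haveI : Normal ℚ L := Normal.of_isSplittingField (f * g)
    haveI : FiniteDimensional ℚ L := IsSplittingField.finiteDimensional L (f * g)
    exact spec_wide (L := L) f g (IsSplittingField.lift L (f * g) hs) h0 h6 hr
      (fun _ => surj_pow f hf0 k hG) b1 b2 (by rw [← a1, ← a2, ← eG, ← eH]; exact hE) o1 o2
      (fun z hz => aroot_ne g hY L z hz) (fun z hz => aroot_integral G k f hf L z hz)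
      (fun z hz => aroot_integral H l g hg L z hz) hsq
  have hroots := @gen (f * g).SplittingField _ _ (IsSplittingField.splittingField (f * g))
  have hfg : f = g := eq_of_roots f g mf mg sf sg hroots
  have d1 : Fintype.card V = k + f.natDegree := by
    rw [← chp_degree G, hf, (monic_X_pow k).natDegree_mul mf, natDegree_X_pow]
  have d2 : Fintype.card W = l + g.natDegree := by
    rw [← chp_degree H, hg, (monic_X_pow l).natDegree_mul mg, natDegree_X_pow]
  rw [hf, hg, d1, d2, hfg]
  ring

/-- The energy determines the nonzero eigenvalues. -/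
theorem rigid_wide {V W : Type} [Fintype V] [Fintype W] (G : SimpleGraph V) (H : SimpleGraph W)
    (hG : FullGalois G) (h6 : 6 ≤ rankG G) (hr : rankG H ≤ rankG G + 2)
    (hq : 2 * H.edgeSet.ncard < 2 * G.edgeSet.ncard + rankG G) :
    energy H = energy G ↔ X ^ Fintype.card V * chp H = X ^ Fintype.card W * chp G := by
  constructor
  · intro h
    exact (galois_wide G H h6 hr hG.ge hq h.symm).symm
  · intro h
    exact (energy_of_spec G H h.symm).symm

theorem ncard_delete {V : Type} [Fintype V] (G : SimpleGraph V) (e : Sym2 V)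
    (he : e ∈ G.edgeSet) : G.edgeSet.ncard = (G.deleteEdges {e}).edgeSet.ncard + 1 := by
  rw [SimpleGraph.edgeSet_deleteEdges, Set.ncard_diff_singleton_of_mem he]
  have : 0 < G.edgeSet.ncard := (Set.ncard_pos (Set.toFinite _)).mpr ⟨e, he⟩
  omega

theorem delete_wide {V : Type} [Fintype V] (G : SimpleGraph V) (e : Sym2 V)
    (he : e ∈ G.edgeSet)
    (h : (FullGalois G ∧ (6 ≤ rankG G ∨ rankG (G.deleteEdges {e}) ≤ rankG G)) ∨
      (FullGalois (G.deleteEdges {e}) ∧
        (6 ≤ rankG (G.deleteEdges {e}) ∨ rankG G ≤ rankG (G.deleteEdges {e})))) :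
    energy (G.deleteEdges {e}) ≠ energy G := by
  have hc := ncard_delete G e he
  obtain ⟨r1, r2⟩ := rank_delete G e
  rcases h with ⟨h1, h2 | h2⟩ | ⟨h1, h2 | h2⟩
  · intro hE
    exact delete_ne G e he (edges_of_spec _ _ ((rigid_wide G _ h1 h2 r1 (by omega)).mp hE))
  · exact delete_energy G e he (Or.inl ⟨h1, h2⟩)
  · intro hE
    exact delete_ne G e he
      (edges_of_spec _ _ ((rigid_wide _ G h1 h2 r2 (by omega)).mp hE.symm)).symm
  · exact delete_energy G e he (Or.inr ⟨h1, h2⟩)

end Pool.Agent.W_44c680_h9
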