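import Pool.Agent.W_44c680_h9.Gal13

/-!
A normal subgroup that acts nontrivially on a set on which the group acts as the full symmetric
group contains the three-cycles.
-/

set_option autoImplicit false

namespace Pool.Agent.W_44c680_h9

section Abs

variable {Γ L : Type*} [Group Γ] [Fintype Γ] [Field L] [CharZero L] [MulSemiringAction Γ L]

omit [Fintype Γ] [CharZero L] in
open Classical in
theorem full_triple {R : Finset L} (h : Full Γ R) {a b c a' b' c' : L} (ha : a ∈ R)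
    (hb : b ∈ R) (hc : c ∈ R) (ha' : a' ∈ R) (hb' : b' ∈ R) (hc' : c' ∈ R) (hab : a ≠ b)
    (hac : a ≠ c) (hbc : b ≠ c) (hab' : a' ≠ b') (hac' : a' ≠ c') (hbc' : b' ≠ c') :
    ∃ γ : Γ, γ • a = a' ∧ γ • b = b' ∧ γ • c = c' := by
  obtain ⟨γ, h1, h2⟩ := full_pair h ha hb ha' hb' hab hab'
  have h3 : γ • c ∈ R := h.1 γ c hc
  obtain ⟨σ, hσ⟩ := full_swap h h3 hc'
  refine ⟨σ * γ, ?_, ?_, ?_⟩
  · rw [mul_smul, h1, hσ a' ha', Equiv.swap_apply_of_ne_of_ne _ hac']
    intro hcon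
    apply hac
    apply smul_left_cancel γ
    rw [h1, hcon]
  · rw [mul_smul, h2, hσ b' hb', Equiv.swap_apply_of_ne_of_ne _ hbc']
    intro hcon
    apply hbc
    apply smul_left_cancel γ
    rw [h2, hcon]
  · rw [mul_smul, hσ _ h3, Equiv.swap_apply_left]

omit [Fintype Γ] [CharZero L] in
open Classical in
theorem comm_swap {R : Finset L} (h : Full Γ R) (N : Subgroup Γ) [hN : N.Normal] {γ : Γ}
    (hγ : γ ∈ N) {s t : L} (hs : s ∈ R) (ht : t ∈ R) :
    ∃ δ ∈ N, ∀ z ∈ R, δ • z = Equiv.swap (γ • s) (γ • t) (Equiv.swap s t z) := by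
  obtain ⟨τ, hτ⟩ := full_swap h hs ht
  refine ⟨γ * (τ * γ⁻¹ * τ⁻¹), N.mul_mem hγ (hN.conj_mem _ (N.inv_mem hγ) τ), ?_⟩
  intro z hz
  have h1 : Equiv.swap s t z ∈ R := by
    rw [← hτ z hz]
    exact h.1 τ z hz
  have h2 : τ⁻¹ • z = Equiv.swap s t z := by
    rw [inv_smul_eq_iff, hτ _ h1, Equiv.swap_apply_self]
  have h3 := Equiv.swap_apply_apply (MulAction.toPerm γ : Equiv.Perm L) s t
  have h4 := congrArg (fun f : Equiv.Perm L => f (Equiv.swap s t z)) h3
  have h5 : Equiv.swap (γ • s) (γ • t) (Equiv.swap s t z) =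
      γ • Equiv.swap s t (γ⁻¹ • Equiv.swap s t z) := h4
  rw [mul_smul, mul_smul, mul_smul, h2, hτ _ (h.1 γ⁻¹ _ h1), h5]

omit [Fintype Γ] [CharZero L] in
open Classical in
theorem some_three {R : Finset L} (h : Full Γ R) (h5 : 5 ≤ R.card) (N : Subgroup Γ)
    [hN : N.Normal] {γ : Γ} (hγ : γ ∈ N) {s : L} (hs : s ∈ R) (hne : γ • s ≠ s) :
    ∃ δ ∈ N, ∃ a ∈ R, ∃ b ∈ R, ∃ c ∈ R, a ≠ b ∧ a ≠ c ∧ b ≠ c ∧ δ • a = b ∧ δ • b = c ∧
      δ • c = a ∧ ∀ z ∈ R, z ≠ a → z ≠ b → z ≠ c → δ • z = z := by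
  set s' := γ • s with hs'
  have hs'R : s' ∈ R := h.1 γ s hs
  set s'' := γ • s' with hs''
  have hs''R : s'' ∈ R := h.1 γ s' hs'R
  have n1 : s'' ≠ s' := fun hc => hne (MulAction.injective γ hc)
  by_cases hA : s'' = s
  · obtain ⟨t, ht, hts, hts'⟩ := other (R := R) (by omega) s s'
    set t' := γ • t with ht'
    have ht'R : t' ∈ R := h.1 γ t ht
    have n2 : t' ≠ s' := fun hc => hts (MulAction.injective γ hc)
    have n3 : t' ≠ s := by
      intro hc
      rw [← hA] at hc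
      exact hts' (MulAction.injective γ hc)
    obtain ⟨δ, hδ, hδR⟩ := comm_swap h N hγ hs ht
    rw [← hs', ← ht'] at hδR
    by_cases hB : t' = t
    · rw [hB] at hδR
      refine ⟨δ, hδ, s, hs, s', hs'R, t, ht, Ne.symm hne, Ne.symm hts, Ne.symm hts', ?_, ?_, ?_,
        ?_⟩
      · rw [hδR s hs, Equiv.swap_apply_left, Equiv.swap_apply_right]
      · rw [hδR s' hs'R, Equiv.swap_apply_of_ne_of_ne hne (Ne.symm hts'),
          Equiv.swap_apply_left]
      · rw [hδR t ht, Equiv.swap_apply_right,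
          Equiv.swap_apply_of_ne_of_ne (Ne.symm hne) (Ne.symm hts)]
      · intro z hz z1 z2 z3
        rw [hδR z hz, Equiv.swap_apply_of_ne_of_ne z1 z3, Equiv.swap_apply_of_ne_of_ne z2 z3]
    · obtain ⟨v, hv, hv'⟩ : ∃ v ∈ R, v ∉ ({s, s', t, t'} : Finset L) := by
        apply Finset.exists_mem_notMem_of_card_lt_card
        exact lt_of_le_of_lt Finset.card_le_four (by omega)
      simp only [Finset.mem_insert, Finset.mem_singleton, not_or] at hv'
      obtain ⟨v1, v2, v3, v4⟩ := hv'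
      have d1 : δ • s = t := by
        rw [hδR s hs, Equiv.swap_apply_left,
          Equiv.swap_apply_of_ne_of_ne hts' (fun hc => hB hc.symm)]
      have d2 : δ • v = v := by
        rw [hδR v hv, Equiv.swap_apply_of_ne_of_ne v1 v3, Equiv.swap_apply_of_ne_of_ne v2 v4]
      obtain ⟨ε, hε, hεR⟩ := comm_swap h N hδ hs hv
      rw [d1, d2] at hεR
      refine ⟨ε, hε, s, hs, t, ht, v, hv, Ne.symm hts, Ne.symm v1, Ne.symm v3, ?_, ?_, ?_, ?_⟩
      · rw [hεR s hs, Equiv.swap_apply_left, Equiv.swap_apply_right]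
      · rw [hεR t ht, Equiv.swap_apply_of_ne_of_ne hts (Ne.symm v3), Equiv.swap_apply_left]
      · rw [hεR v hv, Equiv.swap_apply_right,
          Equiv.swap_apply_of_ne_of_ne (Ne.symm hts) (Ne.symm v1)]
      · intro z hz z1 z2 z3
        rw [hεR z hz, Equiv.swap_apply_of_ne_of_ne z1 z3, Equiv.swap_apply_of_ne_of_ne z2 z3]
  · obtain ⟨δ, hδ, hδR⟩ := comm_swap h N hγ hs hs'R
    rw [← hs', ← hs''] at hδR
    refine ⟨δ, hδ, s, hs, s'', hs''R, s', hs'R, Ne.symm hA, Ne.symm hne, n1, ?_, ?_, ?_, ?_⟩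
    · rw [hδR s hs, Equiv.swap_apply_left, Equiv.swap_apply_left]
    · rw [hδR s'' hs''R, Equiv.swap_apply_of_ne_of_ne hA n1, Equiv.swap_apply_right]
    · rw [hδR s' hs'R, Equiv.swap_apply_right,
        Equiv.swap_apply_of_ne_of_ne (Ne.symm hne) (Ne.symm hA)]
    · intro z hz z1 z2 z3
      rw [hδR z hz, Equiv.swap_apply_of_ne_of_ne z1 z3, Equiv.swap_apply_of_ne_of_ne z3 z2]

omit [Fintype Γ] [CharZero L] in
/-- The normal subgroup contains every three-cycle. -/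
theorem three_in {R : Finset L} (h : Full Γ R) (h5 : 5 ≤ R.card) (N : Subgroup Γ)
    [hN : N.Normal] (hne : ∃ γ ∈ N, ∃ s ∈ R, γ • s ≠ s) {a b c : L} (ha : a ∈ R) (hb : b ∈ R)
    (hc : c ∈ R) (hab : a ≠ b) (hac : a ≠ c) (hbc : b ≠ c) :
    ∃ γ ∈ N, γ • a = b ∧ γ • b = c ∧ γ • c = a ∧
      ∀ z ∈ R, z ≠ a → z ≠ b → z ≠ c → γ • z = z := by
  obtain ⟨γ, hγ, s, hs, hγs⟩ := hne
  obtain ⟨δ, hδ, a0, ha0, b0, hb0, c0, hc0, n1, n2, n3, d1, d2, d3, d4⟩ :=
    some_three h h5 N hγ hs hγs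
  obtain ⟨σ, e1, e2, e3⟩ := full_triple h ha0 hb0 hc0 ha hb hc n1 n2 n3 hab hac hbc
  have i1 : σ⁻¹ • a = a0 := by rw [inv_smul_eq_iff, e1]
  have i2 : σ⁻¹ • b = b0 := by rw [inv_smul_eq_iff, e2]
  have i3 : σ⁻¹ • c = c0 := by rw [inv_smul_eq_iff, e3]
  refine ⟨σ * δ * σ⁻¹, hN.conj_mem _ hδ σ, ?_, ?_, ?_, ?_⟩
  · rw [mul_smul, mul_smul, i1, d1, e2]
  · rw [mul_smul, mul_smul, i2, d2, e3]
  · rw [mul_smul, mul_smul, i3, d3, e1]
  · intro z hz z1 z2 z3
    rw [mul_smul, mul_smul, d4 (σ⁻¹ • z) (h.1 _ z hz), smul_inv_smul]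
    · intro hcon
      exact z1 (by rw [← e1, ← hcon, smul_inv_smul])
    · intro hcon
      exact z2 (by rw [← e2, ← hcon, smul_inv_smul])
    · intro hcon
      exact z3 (by rw [← e3, ← hcon, smul_inv_smul])

omit [Fintype Γ] [CharZero L] in
/-- The elements that fix a smaller invariant set pointwise do not act trivially. -/
theorem exists_moving {R S : Finset L} (h : Full Γ R) (hS : ∀ γ : Γ, ∀ z ∈ S, γ • z ∈ S)
    (h2 : 2 ≤ R.card) (hc : S.card < R.card) :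
    ∃ γ : Γ, (∀ o ∈ S, γ • o = o) ∧ ∃ s ∈ R, γ • s ≠ s := by
  classical
  by_contra hcon
  push Not at hcon
  have h1 : ∀ σ : Equiv.Perm R, ∃ γ : Γ, ∀ z : R, γ • (z : L) = σ z := by
    intro σ
    obtain ⟨γ, hγ⟩ := h.2 (Equiv.Perm.ofSubtype σ) (by
      intro z hz
      rw [Equiv.Perm.ofSubtype_apply_of_mem σ hz]
      exact (σ ⟨z, hz⟩).2)
    refine ⟨γ, fun z => ?_⟩
    rw [hγ z z.2, Equiv.Perm.ofSubtype_apply_coe]
  choose g hg using h1
  have hinj : ∀ γ : Γ, Function.Injective fun z : S => (⟨γ • (z : L), hS γ z z.2⟩ : S) := by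
    intro γ z w hzw
    exact Subtype.ext (MulAction.injective γ (congrArg Subtype.val hzw))
  let F : Equiv.Perm R → Equiv.Perm S := fun σ =>
    Equiv.ofBijective _ (Finite.injective_iff_bijective.mp (hinj (g σ)))
  have hF : Function.Injective F := by
    intro σ σ' hσ
    have h3 : ∀ o ∈ S, (g σ) • o = (g σ') • o := by
      intro o ho
      have h4 := congrArg (fun f : Equiv.Perm S => ((f ⟨o, ho⟩ : S) : L)) hσ
      exact h4
    have h4 : ∀ s ∈ R, ((g σ')⁻¹ * g σ) • s = s := by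
      apply hcon
      intro o ho
      rw [mul_smul, h3 o ho, inv_smul_smul]
    apply Equiv.ext
    intro z
    apply Subtype.ext
    rw [← hg σ z, ← hg σ' z]
    have h5 := h4 z z.2
    rw [mul_smul, inv_smul_eq_iff] at h5
    exact h5
  have h3 := Fintype.card_le_of_injective F hF
  rw [Fintype.card_perm, Fintype.card_perm, Fintype.card_coe, Fintype.card_coe] at h3
  have h4 : S.card.factorial ≤ (R.card - 1).factorial := Nat.factorial_le (by omega)
  have h5 : (R.card - 1).factorial < R.card.factorial :=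
    (Nat.factorial_lt (by omega)).mpr (by omega)
  omega

end Abs

end Pool.Agent.W_44c680_h9
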