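import Pool.Agent.W_44c680_h9.Gal14

/-!
A finite group of automorphisms of a field that acts on a finite set `R` as the full symmetric
group and preserves two small multisets: equal sums of the parts that satisfy a condition force
the second multiset to contain a translate of `R` or of `-R`.
-/

set_option autoImplicit false

namespace Pool.Agent.W_44c680_h9

section Abs

variable {Γ L : Type*} [Group Γ] [Fintype Γ] [Field L] [CharZero L] [MulSemiringAction Γ L]

/-- The elements that fix `S` pointwise. -/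
def fixS (Γ : Type*) {L : Type*} [Group Γ] [Field L] [MulSemiringAction Γ L] (S : Finset L) :
    Subgroup Γ where
  carrier := {γ | ∀ o ∈ S, γ • o = o}
  one_mem' := fun o _ => one_smul Γ o
  mul_mem' := fun {a b} ha hb o ho => by rw [mul_smul, hb o ho, ha o ho]
  inv_mem' := fun {a} ha o ho => by rw [inv_smul_eq_iff, ha o ho]

omit [Fintype Γ] [CharZero L] in
theorem fixS_normal {S : Finset L} (hS : ∀ γ : Γ, ∀ z ∈ S, γ • z ∈ S) :
    (fixS Γ S).Normal := by
  constructor
  intro n hn g o ho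
  rw [mul_smul, mul_smul, hn _ (hS g⁻¹ o ho), smul_inv_smul]

omit [Group Γ] [Fintype Γ] [CharZero L] [MulSemiringAction Γ L] in
theorem two_more {R : Finset L} (h5 : 5 ≤ R.card) (a b c : L) : ∃ x y, x ∈ R ∧ y ∈ R ∧
    x ≠ a ∧ y ≠ a ∧ x ≠ b ∧ y ≠ b ∧ x ≠ c ∧ y ≠ c ∧ x ≠ y := by
  classical
  obtain ⟨x, hx, hx'⟩ : ∃ v ∈ R, v ∉ ({a, b, c} : Finset L) := by
    apply Finset.exists_mem_notMem_of_card_lt_card
    exact lt_of_le_of_lt Finset.card_le_three (by omega)
  obtain ⟨y, hy, hy'⟩ : ∃ v ∈ R, v ∉ ({a, b, c, x} : Finset L) := by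
    apply Finset.exists_mem_notMem_of_card_lt_card
    exact lt_of_le_of_lt Finset.card_le_four (by omega)
  simp only [Finset.mem_insert, Finset.mem_singleton, not_or] at hx' hy'
  exact ⟨x, y, hx, hy, hx'.1, hy'.1, hx'.2.1, hy'.2.1, hx'.2.2, hy'.2.2.1,
    fun hc => hy'.2.2.2 hc.symm⟩

open Classical in
theorem form3q (ι : L →+* ℝ) {R : Finset L} (h : Full Γ R) (hn : 2 ≤ R.card) :
    ∃ t τ : L, τ ≠ 0 ∧ ∀ a ∈ R, ∀ b ∈ R, tr Γ (a * b) = t + if a = b then τ else 0 := by
  obtain ⟨a0, ha0, b0, hb0, hab⟩ := Finset.one_lt_card.mp (by omega : 1 < R.card)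
  have key : ∀ a ∈ R, ∀ b ∈ R, tr Γ (a * b) = tr Γ (a0 * b0) +
      if a = b then tr Γ (a0 * a0) - tr Γ (a0 * b0) else 0 := by
    intro a ha b hb
    by_cases hc : a = b
    · rw [if_pos hc, ← hc]
      obtain ⟨γ, hγ⟩ := full_swap h ha0 ha
      have h1 : γ • a0 = a := by rw [hγ a0 ha0, Equiv.swap_apply_left]
      rw [← h1, ← smul_mul', tr_smul]
      ring
    · rw [if_neg hc, add_zero]
      obtain ⟨γ, h1, h2⟩ := full_pair h ha0 hb0 ha hb hab hc
      rw [← h1, ← h2, ← smul_mul', tr_smul]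
  refine ⟨tr Γ (a0 * b0), tr Γ (a0 * a0) - tr Γ (a0 * b0), ?_, key⟩
  intro hcon
  have h1 := tr_ne (Γ := Γ) ι (sub_ne_zero.mpr hab)
  apply h1
  have e1 : (a0 - b0) * (a0 - b0) = (a0 * a0 - a0 * b0) + (b0 * b0 - a0 * b0) := by ring
  have e2 := key b0 hb0 b0 hb0
  rw [if_pos rfl] at e2
  rw [e1, tr_add, tr_sub, tr_sub, e2]
  linear_combination 2 * hcon

open Classical in
/-- Equal sums of the parts force the multiset to contain a translate of `R` or of `-R`. -/
theorem shift2 (ι : L →+* ℝ) {R : Finset L} (h : Full Γ R) {j : ℕ} (hd : j + 6 ≤ R.card)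
    {P : Finset L} (hP : P ⊆ R) {a c : L} (ha : a ∈ P) (hc : c ∈ R) (hc' : c ∉ P)
    (OG M : Multiset L) (hOG : ∀ γ : Γ, OG.map (fun z => γ • z) = OG)
    (hM : ∀ γ : Γ, M.map (fun z => γ • z) = M) (hj : OG.card ≤ j)
    (hcard : M.card ≤ R.card + j + 2) (p : L → Prop) [DecidablePred p]
    (hx : ∑ z ∈ P, z + (OG.filter p).sum = (M.filter p).sum) :
    ∃ (k : ℤ) (w : L) (O : Multiset L), (k = 1 ∨ k = -1) ∧ (∀ γ : Γ, γ • w = w) ∧
      M = R.val.map (fun s => (k : L) * s + w) + O ∧ ∀ γ : Γ, O.map (fun z => γ • z) = O := by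
  obtain ⟨t, τ, hτ0, hf⟩ := form3q ι h (by omega)
  have haR : a ∈ R := hP ha
  have hac : a ≠ c := fun hcon => hc' (hcon ▸ ha)
  -- the pairing of the common sum
  have hpx : ∀ u ∈ R, pr Γ (∑ z ∈ P, z) u = (P.card : L) * t + if u ∈ P then τ else 0 := by
    intro u hu
    have h1 : pr Γ (∑ z ∈ P, z) u = ∑ z ∈ P, pr Γ z u := by
      unfold pr
      rw [Finset.sum_mul, tr_sum]
    have h2 : ∀ z ∈ P, pr Γ z u = t + if z = u then τ else 0 := fun z hz => hf z (hP hz) u hu
    rw [h1, Finset.sum_congr rfl h2, Finset.sum_add_distrib, Finset.sum_const, nsmul_eq_mul,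
      Finset.sum_ite_eq']
  -- the pairing with the roots of the cofactor is constant
  have hGc : pr Γ (OG.filter p).sum a = pr Γ (OG.filter p).sum c := by
    have h1 : ∀ y ∈ OG.filter p, pr Γ y a = pr Γ y c := by
      intro y hy
      by_contra h2
      have h3 : ∀ γ : Γ, ∀ y ∈ OG.toFinset, γ • y ∈ OG.toFinset := by
        intro γ y hy
        rw [Multiset.mem_toFinset] at hy ⊢
        rw [← hOG γ]
        exact Multiset.mem_map_of_mem _ hy
      have h4 := (Multiset.toFinset_card_le OG).trans hj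
      obtain ⟨φ, φT, -, φi, -⟩ := phi_exists2 h h3 (by omega) (by omega) ⟨y, by
        rw [Multiset.mem_toFinset]
        exact Multiset.mem_of_mem_filter hy, a, haR, c, hc, h2⟩
      have h5 := Finset.card_le_card_of_injOn φ (fun t ht => φT t ht)
        (fun s hs t ht hst => φi s hs t ht hst)
      omega
    rw [pr_msum, pr_msum]
    congr 1
    exact Multiset.map_congr rfl h1
  set T := M.toFinset with hTdef
  have hTc : T.card + 4 ≤ 2 * R.card := by
    have h1 := (Multiset.toFinset_card_le M).trans hcard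
    rw [← hTdef] at h1
    omega
  have hT : ∀ γ : Γ, ∀ y ∈ T, γ • y ∈ T := by
    intro γ y hy
    rw [hTdef, Multiset.mem_toFinset] at hy ⊢
    rw [← hM γ]
    exact Multiset.mem_map_of_mem _ hy
  have hn : ∃ y ∈ T, NC Γ R y := by
    by_contra hcon
    push Not at hcon
    have h1 : ∀ y ∈ M.filter p, pr Γ y a = pr Γ y c := by
      intro y hy
      by_contra h2
      exact hcon y (by
        rw [hTdef, Multiset.mem_toFinset]
        exact Multiset.mem_of_mem_filter hy) ⟨a, haR, c, hc, h2⟩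
    have h2 : pr Γ (M.filter p).sum a = pr Γ (M.filter p).sum c := by
      rw [pr_msum, pr_msum]
      congr 1
      exact Multiset.map_congr rfl h1
    rw [← hx, pr_add, pr_add, hpx a haR, hpx c hc, if_pos ha, if_neg hc', add_zero, hGc] at h2
    exact hτ0 (by linear_combination h2)
  obtain ⟨φ, φT, φe, φi, A, B, hAB, φv⟩ := phi_exists2 h hT (by omega) hTc hn
  -- the multiset splits
  have hle : R.val.map φ ≤ M := by
    rw [Multiset.le_iff_subset]
    · intro z hz
      obtain ⟨s, hs, rfl⟩ := Multiset.mem_map.mp hz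
      have h1 := φT s hs
      rw [hTdef, Multiset.mem_toFinset] at h1
      exact h1
    · exact Multiset.Nodup.map_on (fun s hs s' hs' heq => φi s hs s' hs' heq) R.nodup
  obtain ⟨O, hO⟩ := Multiset.le_iff_exists_add.mp hle
  have hOc : O.card ≤ j + 2 := by
    have h1 := congrArg Multiset.card hO
    rw [Multiset.card_add, Multiset.card_map] at h1
    have h2 : R.val.card = R.card := rfl
    omega
  have hOγ : ∀ γ : Γ, O.map (fun z => γ • z) = O := by
    intro γ
    have h1 := hM γ
    have h2 : (R.val.map φ).map (fun z => γ • z) = R.val.map φ := by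
      have h3 : R.val.map (fun z => γ • z) = R.val := by
        conv_rhs => rw [← image_eq h γ]
        rw [Finset.image_val_of_injOn ((MulAction.injective γ).injOn)]
      rw [Multiset.map_map]
      conv_rhs => rw [← h3]
      rw [Multiset.map_map]
      apply Multiset.map_congr rfl
      intro s hs
      exact φe γ s hs
    rw [hO, Multiset.map_add, h2] at h1
    exact add_left_cancel h1
  -- the three-cycle
  obtain ⟨b, hb, hba, hbc⟩ := other (R := R) (by omega) a c
  obtain ⟨x1, y1, hx1, hy1, e1, e2, -, -, e5, e6, e7⟩ := two_more (R := R) (by omega) a b c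
  have hSOG : ∀ γ : Γ, ∀ z ∈ OG.toFinset, γ • z ∈ OG.toFinset := by
    intro γ z hz
    rw [Multiset.mem_toFinset] at hz ⊢
    rw [← hOG γ]
    exact Multiset.mem_map_of_mem _ hz
  have hSO : ∀ γ : Γ, ∀ z ∈ O.toFinset, γ • z ∈ O.toFinset := by
    intro γ z hz
    rw [Multiset.mem_toFinset] at hz ⊢
    rw [← hOγ γ]
    exact Multiset.mem_map_of_mem _ hz
  have k1 := Multiset.toFinset_card_le OG
  have k2 := Multiset.toFinset_card_le O
  haveI n1 : (fixS Γ OG.toFinset).Normal := fixS_normal hSOG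
  haveI n2 : (fixS Γ O.toFinset).Normal := fixS_normal hSO
  obtain ⟨σ, hσ, s1, s2, s3, s4⟩ := three_in h (by omega) (fixS Γ OG.toFinset)
    (exists_moving h hSOG (by omega) (by omega)) haR hb hc hba.symm hac hbc
  obtain ⟨ρ, hρ, r1, r2, r3, r4⟩ := three_in h (by omega) (fixS Γ O.toFinset)
    (exists_moving h hSO (by omega) (by omega)) haR hx1 hy1 e1.symm e2.symm e7
  obtain ⟨γ, hγN, g1, g2, g3, g4⟩ := three_in h (by omega)
    (fixS Γ OG.toFinset ⊓ fixS Γ O.toFinset) (by
      refine ⟨σ * (ρ * σ⁻¹ * ρ⁻¹), ⟨?_, ?_⟩, x1, hx1, ?_⟩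
      · exact Subgroup.mul_mem _ hσ (n1.conj_mem _ (Subgroup.inv_mem _ hσ) ρ)
      · have q1 : σ * (ρ * σ⁻¹ * ρ⁻¹) = (σ * ρ * σ⁻¹) * ρ⁻¹ := by group
        rw [q1]
        exact Subgroup.mul_mem _ (n2.conj_mem _ hρ σ) (Subgroup.inv_mem _ hρ)
      · have i1 : ρ⁻¹ • x1 = a := by rw [inv_smul_eq_iff, r1]
        have i2 : σ⁻¹ • a = c := by rw [inv_smul_eq_iff, s3]
        rw [mul_smul, mul_smul, mul_smul, i1, i2, r4 c hc hac.symm e5.symm e6.symm, s3]
        exact e1.symm) haR hb hc hba.symm hac hbc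
  have hfix : ∀ o ∈ O, γ • o = o := fun o ho => hγN.2 o (Multiset.mem_toFinset.mpr ho)
  have hfixG : ∀ o ∈ OG, γ • o = o := fun o ho => hγN.1 o (Multiset.mem_toFinset.mpr ho)
  set Q := R.filter (fun s => p (φ s)) with hQ
  have hQR : Q ⊆ R := Finset.filter_subset _ _
  have hx2 : ∑ z ∈ P, z + (OG.filter p).sum = ∑ s ∈ Q, φ s + (O.filter p).sum := by
    rw [hx, hO, Multiset.filter_add, Multiset.sum_add, Multiset.filter_map]
    rfl
  have hω : γ • (O.filter p).sum = (O.filter p).sum := by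
    rw [Multiset.smul_sum]
    conv_rhs => rw [← Multiset.map_id (O.filter p)]
    congr 1
    apply Multiset.map_congr rfl
    intro o ho
    exact hfix o (Multiset.mem_of_mem_filter ho)
  have hωG : γ • (OG.filter p).sum = (OG.filter p).sum := by
    rw [Multiset.smul_sum]
    conv_rhs => rw [← Multiset.map_id (OG.filter p)]
    congr 1
    apply Multiset.map_congr rfl
    intro o ho
    exact hfixG o (Multiset.mem_of_mem_filter ho)
  have D1 := three_sum hP haR hb hc hba.symm hac hbc γ g1 g2 g3 g4 (fun z => z)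
  have D2 := three_sum hQR haR hb hc hba.symm hac hbc γ g1 g2 g3 g4 φ
  have hD : (∑ s ∈ P, s - ∑ s ∈ P, γ • s) = ∑ s ∈ Q, φ s - ∑ s ∈ Q, φ (γ • s) := by
    have h1 : ∑ s ∈ P, γ • s + (OG.filter p).sum = ∑ s ∈ Q, φ (γ • s) + (O.filter p).sum := by
      rw [← Finset.smul_sum]
      conv_lhs => rw [← hωG]
      rw [← smul_add, hx2, smul_add, hω, Finset.smul_sum]
      congr 1
      apply Finset.sum_congr rfl
      intro s hs
      exact φe γ s (hQR hs)
    linear_combination hx2 - h1
  rw [D1, D2] at hD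
  have va : ∀ u ∈ R, ∀ v ∈ R, u ≠ v → pr Γ u v = t := by
    intro u hu v hv huv
    show tr Γ (u * v) = t
    rw [hf u hu v hv, if_neg huv, add_zero]
  have vb : ∀ u ∈ R, pr Γ u u = t + τ := by
    intro u hu
    show tr Γ (u * u) = t + τ
    rw [hf u hu u hu, if_pos rfl]
  have ea := congrArg (fun z => pr Γ z a) hD
  have eb := congrArg (fun z => pr Γ z b) hD
  simp only [pr_comb] at ea eb
  rw [vb a haR, va b hb a haR hba, va c hc a haR hac.symm, (φv a haR).1,
    (φv b hb).2 a haR hba.symm, (φv c hc).2 a haR hac] at ea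
  rw [va a haR b hb hba.symm, vb b hb, va c hc b hb hbc.symm, (φv a haR).2 b hb hba,
    (φv b hb).1, (φv c hc).2 b hb hbc] at eb
  rw [if_pos ha, if_neg hc'] at hD ea eb
  have one0 : (1 : L) ≠ 0 := one_ne_zero
  obtain ⟨k, s, r, hk, hs, hr, hsr, hkr⟩ : ∃ (k : ℤ) (s r : L), (k = 1 ∨ k = -1) ∧ s ∈ R ∧
      r ∈ R ∧ s ≠ r ∧ φ s - φ r = (k : L) * (s - r) := by
    by_cases qa : a ∈ Q <;> by_cases qb : b ∈ Q <;> by_cases qc : c ∈ Q <;>
      by_cases pb : b ∈ P <;>
      simp only [qa, qb, qc, pb, if_true, if_false, Int.cast_one, Int.cast_zero] at hD ea eb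
    -- in each of the sixteen cases
    · exact absurd (show τ = 0 by linear_combination ea) hτ0
    · exact absurd (show τ = 0 by linear_combination ea) hτ0
    · exact ⟨1, a, c, Or.inl rfl, haR, hc, hac, by push_cast; linear_combination -hD⟩
    · exact absurd (show τ = 0 by linear_combination -eb) hτ0
    · exact absurd (show τ = 0 by linear_combination ea) hτ0
    · exact absurd (show τ = 0 by linear_combination ea) hτ0
    · exact absurd (show τ = 0 by linear_combination ea + eb) hτ0
    · exact ⟨1, a, b, Or.inl rfl, haR, hb, hba.symm, by push_cast; linear_combination -hD⟩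
    · exact absurd (show τ = 0 by linear_combination ea + eb) hτ0
    · exact ⟨-1, a, b, Or.inr rfl, haR, hb, hba.symm, by push_cast; linear_combination hD⟩
    · exact absurd (show τ = 0 by linear_combination ea) hτ0
    · exact absurd (show τ = 0 by linear_combination ea) hτ0
    · exact ⟨-1, a, c, Or.inr rfl, haR, hc, hac, by push_cast; linear_combination hD⟩
    · exact absurd (show τ = 0 by linear_combination -eb) hτ0
    · exact absurd (show τ = 0 by linear_combination ea) hτ0
    · exact absurd (show τ = 0 by linear_combination ea) hτ0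
  have hkγ : ∀ (σ : Γ) (z : L), σ • ((k : L) * z) = (k : L) * σ • z := by
    intro σ z
    rw [smul_mul']
    congr 1
    exact map_intCast (MulSemiringAction.toRingHom Γ L σ) k
  have all : ∀ u ∈ R, φ u = (k : L) * u + (φ s - (k : L) * s) := by
    intro u hu
    by_cases hus : u = s
    · rw [hus]
      ring
    · obtain ⟨σ, h1, h2⟩ := full_pair h hs hr hu hs hsr hus
      have h3 := congrArg (fun z => σ • z) hkr
      simp only [smul_sub, hkγ] at h3
      rw [φe σ s hs, φe σ r hr, h1, h2] at h3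
      linear_combination h3
  refine ⟨k, φ s - (k : L) * s, O, hk, ?_, ?_, hOγ⟩
  · intro σ
    rw [smul_sub, hkγ, φe σ s hs]
    have h1 := all (σ • s) (h.1 σ s hs)
    linear_combination h1
  · conv_lhs => rw [hO]
    congr 1
    exact Multiset.map_congr rfl fun u hu => all u hu

end Abs

end Pool.Agent.W_44c680_h9
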