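import Pool.Agent.W_44c680_h9.Gal11
import Pool.Agent.W_44c680_h9.Gal15

/-!
The Galois group and the sum of the absolute values of the roots: a factor with full Galois group
and a cofactor.
-/

set_option autoImplicit false

namespace Pool.Agent.W_44c680_h9

open Matrix Polynomial

/-- The Cauchy inequality for a multiset. -/
theorem msum_sq (s : Multiset ℝ) :
    s.sum * s.sum ≤ (s.card : ℝ) * (s.map fun x => x * x).sum := by
  have key : ∀ t : ℝ, (s.map fun x => (x - t) * (x - t)).sum =
      (s.map fun x => x * x).sum - 2 * t * s.sum + (s.card : ℝ) * (t * t) := by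
    intro t
    induction s using Multiset.induction_on with
    | empty => simp
    | cons a s ih =>
      rw [Multiset.map_cons, Multiset.sum_cons, Multiset.map_cons, Multiset.sum_cons,
        Multiset.sum_cons, Multiset.card_cons, ih]
      push_cast
      ring
  rcases Nat.eq_zero_or_pos s.card with h | h
  · rw [Multiset.card_eq_zero] at h
    subst h
    simp
  · have h3 : (0 : ℝ) < (s.card : ℝ) := by exact_mod_cast h
    have h1 := key (s.sum / s.card)
    have h2 : 0 ≤ (s.map fun x => (x - s.sum / s.card) * (x - s.sum / s.card)).sum := by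
      apply Multiset.sum_nonneg
      intro x hx
      obtain ⟨o, _, rfl⟩ := Multiset.mem_map.mp hx
      exact mul_self_nonneg _
    have h4 : (s.card : ℝ) * (s.sum / s.card) = s.sum := by
      field_simp
    have h5 := mul_nonneg h3.le h2
    rw [h1] at h5
    have h6 : (s.card : ℝ) * ((s.map fun x => x * x).sum - 2 * (s.sum / s.card) * s.sum +
        (s.card : ℝ) * (s.sum / s.card * (s.sum / s.card))) =
        (s.card : ℝ) * (s.map fun x => x * x).sum - 2 * ((s.card : ℝ) * (s.sum / s.card)) * s.sum +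
          ((s.card : ℝ) * (s.sum / s.card)) * ((s.card : ℝ) * (s.sum / s.card)) := by ring
    rw [h6, h4] at h5
    linarith

section Real

variable {L : Type} [Field L] [Algebra ℚ L]

/-- An integral element fixed by all automorphisms is an integer. -/
theorem fixed_int [Normal ℚ L] [FiniteDimensional ℚ L] (w : L)
    (hw : ∀ γ : L ≃ₐ[ℚ] L, γ • w = w) (hi : IsIntegral ℤ w) : ∃ n : ℤ, w = (n : L) := by
  haveI : CharZero L := algebraRat.charZero L
  haveI : IsGalois ℚ L := ⟨⟩
  have h1 : w ∈ Set.range (algebraMap ℚ L) := by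
    rw [IsGalois.mem_range_algebraMap_iff_fixed]
    intro f
    exact hw f
  obtain ⟨q, hq⟩ := h1
  rw [← hq, isIntegral_algebraMap_iff (algebraMap ℚ L).injective] at hi
  obtain ⟨n, hn⟩ := IsIntegrallyClosed.isIntegral_iff.mp hi
  refine ⟨n, ?_⟩
  rw [← hq, ← hn, eq_intCast, map_intCast]

/-- Nonzero algebraic integers of an invariant multiset have a sum of absolute values at least
their number. -/
theorem msum_ge [Normal ℚ L] [FiniteDimensional ℚ L] (ι : L →ₐ[ℚ] ℝ) (O : Multiset L)
    (hO : ∀ γ : L ≃ₐ[ℚ] L, O.map (fun z => γ • z) = O) (h0 : ∀ z ∈ O, z ≠ 0)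
    (hi : ∀ z ∈ O, IsIntegral ℤ z) : (O.card : ℝ) ≤ (O.map fun o => |ι o|).sum := by
  haveI : CharZero L := algebraRat.charZero L
  have hinj : Function.Injective ι := (ι : L →+* ℝ).injective
  obtain ⟨n, hn⟩ := fixed_int O.prod (by
    intro γ
    show γ O.prod = O.prod
    rw [map_multiset_prod]
    exact congrArg Multiset.prod (hO γ)) (IsIntegral.multiset_prod hi)
  have hn0 : n ≠ 0 := by
    intro hc
    rw [hc, Int.cast_zero] at hn
    rw [Multiset.prod_eq_zero_iff] at hn
    exact h0 0 hn rfl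
  have h1 : (1 : ℝ) ≤ |ι O.prod| := by
    rw [hn, map_intCast, ← Int.cast_abs]
    have h2 : 1 ≤ |n| := Int.one_le_abs hn0
    exact_mod_cast h2
  have key : ∀ s : Multiset L, (∀ z ∈ s, z ≠ 0) →
      (s.card : ℝ) + Real.log |ι s.prod| ≤ (s.map fun o => |ι o|).sum := by
    intro s
    induction s using Multiset.induction_on with
    | empty => simp
    | cons a s ih =>
      intro hs
      have ha : ι a ≠ 0 := by
        intro hc
        exact hs a (Multiset.mem_cons_self a s) (hinj (by rw [hc, map_zero]))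
      have hp : ι s.prod ≠ 0 := by
        intro hc
        have h2 : s.prod = 0 := hinj (by rw [hc, map_zero])
        rw [Multiset.prod_eq_zero_iff] at h2
        exact hs 0 (Multiset.mem_cons_of_mem h2) rfl
      have h3 := ih fun z hz => hs z (Multiset.mem_cons_of_mem hz)
      have h4 := Real.log_le_sub_one_of_pos (abs_pos.mpr ha)
      rw [Multiset.card_cons, Multiset.prod_cons, Multiset.map_cons, Multiset.sum_cons, map_mul,
        abs_mul, Real.log_mul (abs_ne_zero.mpr ha) (abs_ne_zero.mpr hp)]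
      push_cast
      linarith
  have h2 := key O h0
  have h3 := Real.log_nonneg h1
  linarith

/-- The sum of the absolute values of the roots in terms of the positive ones. -/
theorem rs_xs (ι : L →ₐ[ℚ] ℝ) (q : ℚ[X]) (h : (q.map (algebraMap ℚ L)).Splits) :
    rs (q.map (algebraMap ℚ ℝ)) = 2 * ι (xs ι q) - (q.map (algebraMap ℚ ℝ)).roots.sum := by
  unfold rs xs
  rw [roots_real q h ι, Multiset.map_map, ← map_multiset_sum]
  exact abs_sum ι (q.aroots L)

/-- Let `φ` have full Galois group and let `κ` be a cofactor with small roots. Then no polynomial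
`ψ` with at most two roots more has the same sum of the absolute values of the roots as the product
`φ * κ` and a sum of squares that is smaller by at least two. -/
theorem no_spec [Normal ℚ L] [FiniteDimensional ℚ L] (φ κ ψ : ℚ[X])
    [IsSplittingField ℚ L (φ * (κ * ψ))] (ι : L →ₐ[ℚ] ℝ) (h0 : φ * (κ * ψ) ≠ 0)
    (hn : κ.natDegree + 6 ≤ φ.natDegree) (hd : ψ.natDegree ≤ φ.natDegree + κ.natDegree + 2)
    (hG : ∀ _ : Fact ((φ.map (algebraMap ℚ L)).Splits), Function.Surjective (act L φ) ∧
      φ.natDegree.factorial ≤ Nat.card (Equiv.Perm (φ.rootSet L)))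
    (t1 : (φ.map (algebraMap ℚ ℝ)).roots.sum + (κ.map (algebraMap ℚ ℝ)).roots.sum = 0)
    (t2 : (ψ.map (algebraMap ℚ ℝ)).roots.sum = 0)
    (hE : rs (φ.map (algebraMap ℚ ℝ)) + rs (κ.map (algebraMap ℚ ℝ)) =
      rs (ψ.map (algebraMap ℚ ℝ)))
    (zψ : ∀ z ∈ ψ.aroots L, z ≠ 0) (iφ : ∀ z ∈ φ.aroots L, IsIntegral ℤ z)
    (iψ : ∀ z ∈ ψ.aroots L, IsIntegral ℤ z)
    (hsq : ((ψ.map (algebraMap ℚ ℝ)).roots.map fun x => x * x).sum + 2 ≤
      ((φ.map (algebraMap ℚ ℝ)).roots.map fun x => x * x).sum +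
        ((κ.map (algebraMap ℚ ℝ)).roots.map fun x => x * x).sum)
    (hA : ((κ.map (algebraMap ℚ ℝ)).roots.map fun x => x * x).sum +
      2 * |(κ.map (algebraMap ℚ ℝ)).roots.sum| < φ.natDegree + 2)
    (hB : ((κ.map (algebraMap ℚ ℝ)).roots.map fun x => x * x).sum <
      rs (κ.map (algebraMap ℚ ℝ)) + 2) : False := by
  classical
  haveI : CharZero L := algebraRat.charZero L
  have hs := IsSplittingField.splits L (φ * (κ * ψ))
  have hne : (φ * (κ * ψ)).map (algebraMap ℚ L) ≠ 0 := (Polynomial.map_ne_zero_iff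
    (algebraMap ℚ L).injective).mpr h0
  have f1 : (φ.map (algebraMap ℚ L)).Splits :=
    hs.of_dvd hne (Polynomial.map_dvd _ (dvd_mul_right φ _))
  have f3 : (κ.map (algebraMap ℚ L)).Splits :=
    hs.of_dvd hne (Polynomial.map_dvd _ (dvd_mul_of_dvd_right (dvd_mul_right κ ψ) φ))
  have f2 : (ψ.map (algebraMap ℚ L)).Splits :=
    hs.of_dvd hne (Polynomial.map_dvd _ (dvd_mul_of_dvd_right (dvd_mul_left ψ κ) φ))
  haveI : Fact ((φ.map (algebraMap ℚ L)).Splits) := ⟨f1⟩
  obtain ⟨s1, s2⟩ := hG ⟨f1⟩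
  have F1 : Full (L ≃ₐ[ℚ] L) (rts L φ) := full_of_surj φ s1
  have c1 : (rts L φ).card = φ.natDegree := card_of_surj φ (by omega) s2
  have n1 := nodup_of_card φ c1
  set S := (κ.map (algebraMap ℚ ℝ)).roots.sum with hS
  set b := ((κ.map (algebraMap ℚ ℝ)).roots.map fun x => x * x).sum with hb
  have hφr : (φ.map (algebraMap ℚ ℝ)).roots = (rts L φ).val.map (fun s => ι s) := by
    rw [roots_real φ f1 ι, rts_val φ n1]
  have hr1 : ∑ z ∈ rts L φ, ι z = - S := by
    have h1 : (φ.map (algebraMap ℚ ℝ)).roots.sum = ∑ z ∈ rts L φ, ι z := by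
      rw [hφr]
      rfl
    rw [← h1]
    linarith
  have hb0 : 0 ≤ b := by
    apply Multiset.sum_nonneg
    intro x hx
    obtain ⟨o, _, rfl⟩ := Multiset.mem_map.mp hx
    exact mul_self_nonneg _
  have hd6 : (6 : ℝ) ≤ φ.natDegree := by
    have : 6 ≤ φ.natDegree := by omega
    exact_mod_cast this
  have hSd : |S| < φ.natDegree := by linarith
  have hmemR : ∀ z ∈ rts L φ, z ∈ φ.aroots L := by
    intro z hz
    rw [← rts_val φ n1]
    exact hz
  have hz0 : ∀ z ∈ rts L φ, z ≠ 0 := by
    intro z hz hc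
    obtain ⟨u, hu, huz, -⟩ := other (R := rts L φ) (by omega) z z
    obtain ⟨γ, hγ⟩ := full_swap F1 hz hu
    have h1 := hγ z hz
    rw [Equiv.swap_apply_left, hc, smul_zero, ← hc] at h1
    exact huz h1.symm
  have hge : (φ.natDegree : ℝ) ≤ ∑ z ∈ rts L φ, |ι z| := by
    have h1 := msum_ge ι (rts L φ).val (by
      intro γ
      rw [rts_val φ n1]
      exact aroots_map φ f1 γ) hz0 (fun z hz => iφ z (hmemR z hz))
    have h2 : ((rts L φ).val.card : ℝ) = φ.natDegree := by
      rw [← c1]
      rfl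
    rw [h2] at h1
    exact h1
  set P := (rts L φ).filter (fun z => 0 < ι z) with hP
  have hPR : P ⊆ rts L φ := Finset.filter_subset _ _
  obtain ⟨i, hi⟩ : P.Nonempty := by
    by_contra hemp
    rw [Finset.not_nonempty_iff_eq_empty] at hemp
    have h1 : ∀ z ∈ rts L φ, |ι z| = - ι z := by
      intro z hz
      apply abs_of_nonpos
      by_contra hc
      have : z ∈ P := Finset.mem_filter.mpr ⟨hz, not_le.mp hc⟩
      rw [hemp] at this
      exact absurd this (Finset.notMem_empty z)
    rw [Finset.sum_congr rfl h1, Finset.sum_neg_distrib, hr1, neg_neg] at hge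
    have := le_abs_self S
    linarith
  obtain ⟨l, hl, hl'⟩ : ∃ l ∈ rts L φ, l ∉ P := by
    by_contra hc
    push Not at hc
    have h1 : ∀ z ∈ rts L φ, |ι z| = ι z := fun z hz =>
      abs_of_pos (Finset.mem_filter.mp (hc z hz)).2
    rw [Finset.sum_congr rfl h1, hr1] at hge
    have := neg_le_abs S
    linarith
  have hxP : ∑ z ∈ P, z = xs ι φ := sum_pos ι φ n1
  have hx : xs ι φ + xs ι κ = xs ι ψ := by
    apply (ι : L →+* ℝ).injective
    show ι (xs ι φ + xs ι κ) = ι (xs ι ψ)
    rw [rs_xs ι φ f1, rs_xs ι κ f3, rs_xs ι ψ f2, t2, ← hS] at hE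
    rw [map_add]
    linarith
  have hKcard : (κ.aroots L).card ≤ κ.natDegree := (card_roots' _).trans natDegree_map_le
  have hMcard : (ψ.aroots L).card ≤ (rts L φ).card + κ.natDegree + 2 := by
    rw [c1]
    refine le_trans ?_ hd
    exact (card_roots' _).trans natDegree_map_le
  obtain ⟨k, w, O, hk, hw, hM, hOγ⟩ := shift2 (Γ := L ≃ₐ[ℚ] L) (ι : L →+* ℝ) F1
    (j := κ.natDegree) (by omega) hPR hi hl hl'
    (κ.aroots L) (ψ.aroots L) (aroots_map κ f3) (aroots_map ψ f2) hKcard hMcard
    (fun z => 0 < ι z) (by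
      rw [hxP]
      exact hx)
  -- the translation is an integer
  have hiR : i ∈ φ.aroots L := hmemR i (hPR hi)
  obtain ⟨n, hn'⟩ : ∃ n : ℤ, w = (n : L) := by
    apply fixed_int w hw
    have h2 : (k : L) * i + w ∈ ψ.aroots L := by
      rw [hM, Multiset.mem_add]
      left
      exact Multiset.mem_map_of_mem (fun s => (k : L) * s + w) (hPR hi)
    have h4 := iψ _ h2
    have h5 : IsIntegral ℤ ((k : L) * i) := by
      apply IsIntegral.mul _ (iφ i hiR)
      have h6 := isIntegral_algebraMap (R := ℤ) (A := L) (x := k)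
      rw [eq_intCast] at h6
      exact h6
    have h6 := h4.sub h5
    rw [add_sub_cancel_left] at h6
    exact h6
  have hk2 : (k : ℝ) * k = 1 := by
    rcases hk with rfl | rfl <;> norm_num
  have hka : |(k : ℝ)| = 1 := by
    rcases hk with rfl | rfl <;> norm_num
  have hroots : (ψ.map (algebraMap ℚ ℝ)).roots =
      (rts L φ).val.map (fun s => (k : ℝ) * ι s + n) + O.map ι := by
    rw [roots_real ψ f2 ι, hM, Multiset.map_add, Multiset.map_map]
    congr 1
    apply Multiset.map_congr rfl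
    intro s _
    show ι ((k : L) * s + w) = _
    rw [hn', map_add, map_mul, map_intCast, map_intCast]
  have q1 : ((φ.map (algebraMap ℚ ℝ)).roots.map fun x => x * x).sum =
      ∑ s ∈ rts L φ, ι s * ι s := by
    rw [hφr, Multiset.map_map]
    rfl
  have q2 : ((ψ.map (algebraMap ℚ ℝ)).roots.map fun x => x * x).sum =
      ∑ s ∈ rts L φ, ((k : ℝ) * ι s + n) * ((k : ℝ) * ι s + n) +
        (O.map fun o => ι o * ι o).sum := by
    rw [hroots, Multiset.map_add, Multiset.sum_add, Multiset.map_map, Multiset.map_map]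
    rfl
  have q3 : ∑ s ∈ rts L φ, ((k : ℝ) * ι s + n) * ((k : ℝ) * ι s + n) =
      ∑ s ∈ rts L φ, ι s * ι s - 2 * k * n * S + (φ.natDegree : ℝ) * (n * n) := by
    have h1 : ∀ s ∈ rts L φ, ((k : ℝ) * ι s + n) * ((k : ℝ) * ι s + n) =
        ι s * ι s + (2 * k * n) * ι s + n * n := by
      intro s _
      linear_combination (ι s * ι s) * hk2
    rw [Finset.sum_congr rfl h1, Finset.sum_add_distrib, Finset.sum_add_distrib,
      ← Finset.mul_sum, hr1, Finset.sum_const, nsmul_eq_mul, c1]
    ring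
  set Q := (O.map fun o => ι o * ι o).sum with hQ
  have q4 : 0 ≤ Q := by
    apply Multiset.sum_nonneg
    intro x hx
    obtain ⟨o, _, rfl⟩ := Multiset.mem_map.mp hx
    exact mul_self_nonneg _
  have q5 : Q + 2 + (φ.natDegree : ℝ) * (n * n) ≤ b + 2 * k * n * S := by
    rw [q1, q2, q3] at hsq
    linarith
  have hn0 : n = 0 := by
    by_contra hc
    have h1 : (1 : ℝ) ≤ |(n : ℝ)| := by
      rw [← Int.cast_abs]
      exact_mod_cast Int.one_le_abs hc
    have h2 : 2 * k * n * S ≤ 2 * |(n : ℝ)| * |S| := by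
      have h3 := le_abs_self (2 * k * n * S)
      rw [abs_mul, abs_mul, abs_mul, hka, abs_two, mul_one] at h3
      exact h3
    have h4 : (n : ℝ) * n = |(n : ℝ)| * |(n : ℝ)| := (abs_mul_abs_self _).symm
    rw [h4] at q5
    set N := |(n : ℝ)|
    have h5 : 0 ≤ (N - 1) * ((φ.natDegree : ℝ) * (N + 1) - 2 * |S|) := by
      apply mul_nonneg (by linarith)
      nlinarith [abs_nonneg S]
    nlinarith
  -- the energy and the inequality of Cauchy
  have e1 : rs (φ.map (algebraMap ℚ ℝ)) = ∑ s ∈ rts L φ, |ι s| := by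
    unfold rs
    rw [hφr, Multiset.map_map]
    rfl
  have e2 : rs (ψ.map (algebraMap ℚ ℝ)) = ∑ s ∈ rts L φ, |(k : ℝ) * ι s + n| +
      (O.map fun o => |ι o|).sum := by
    unfold rs
    rw [hroots, Multiset.map_add, Multiset.sum_add, Multiset.map_map, Multiset.map_map]
    rfl
  have e3 : ∑ s ∈ rts L φ, |(k : ℝ) * ι s + n| = ∑ s ∈ rts L φ, |ι s| := by
    apply Finset.sum_congr rfl
    intro s _
    rw [hn0, Int.cast_zero, add_zero, abs_mul, hka, one_mul]
  have e4 : rs (κ.map (algebraMap ℚ ℝ)) = (O.map fun o => |ι o|).sum := by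
    rw [e1, e2, e3] at hE
    linarith
  have e5 := msum_sq (O.map fun o => |ι o|)
  rw [← e4, Multiset.map_map, Multiset.card_map] at e5
  have e6 : (O.map ((fun x : ℝ => x * x) ∘ fun o => |ι o|)).sum = Q := by
    rw [hQ]
    congr 1
    apply Multiset.map_congr rfl
    intro o _
    exact abs_mul_abs_self (ι o)
  rw [e6] at e5
  have hOM : ∀ o ∈ O, o ∈ ψ.aroots L := by
    intro o ho
    rw [hM, Multiset.mem_add]
    exact Or.inr ho
  have e7 := msum_ge ι O hOγ (fun o ho => zψ o (hOM o ho)) (fun o ho => iψ o (hOM o ho))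
  rw [← e4] at e7
  have e8 : Q ≤ b - 2 := by
    rw [hn0] at q5
    push_cast at q5
    linarith
  have e9 : (O.card : ℝ) * Q ≤ rs (κ.map (algebraMap ℚ ℝ)) * Q :=
    mul_le_mul_of_nonneg_right e7 q4
  set A := rs (κ.map (algebraMap ℚ ℝ)) with hAdef
  have e10 : Q < A := by linarith
  have e11 : 0 < A := by linarith
  have e12 : A * (A - Q) ≤ 0 := by linarith
  have e13 := mul_pos e11 (sub_pos.mpr e10)
  linarith

end Real

end Pool.Agent.W_44c680_h9
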