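import Pool.Agent.W_44c680_h9.Gal12
import Pool.Agent.W_44c680_h9.Gal16

/-!
The Galois group of a large factor of the characteristic polynomial and the energy.
-/

set_option autoImplicit false

namespace Pool.Agent.W_44c680_h9

open Matrix Polynomial

/-- Let the characteristic polynomial of `G` be `X ^ k * q * f`, where `f` has full Galois group
and the roots of the cofactor `q` are few and small. Then a graph `H` with fewer edges and a rank
that is larger by at most two has another energy. -/
theorem factor_ne {V W : Type} [Fintype V] [Fintype W] (G : SimpleGraph V) (H : SimpleGraph W)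
    (k : ℕ) (q f : ℚ[X]) (h : chp G = X ^ k * q * f)
    (hG : Nat.card f.Gal = f.natDegree.factorial) (hd : q.natDegree + 6 ≤ f.natDegree)
    (hB : ((q.aroots ℝ).map fun x => x ^ 2).sum < ((q.aroots ℝ).map fun x => |x|).sum + 2)
    (hA : ((q.aroots ℝ).map fun x => x ^ 2).sum + 2 * |(q.aroots ℝ).sum| <
      (f.natDegree : ℝ) + 2)
    (hm : H.edgeSet.ncard < G.edgeSet.ncard) (hr : rankG H ≤ q.natDegree + f.natDegree + 2) :
    energy H ≠ energy G := by
  intro hE
  have eG : energy G = rs ((chp G).map (algebraMap ℚ ℝ)) := by rw [energy_eq, chp_real]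
  have eH : energy H = rs ((chp H).map (algebraMap ℚ ℝ)) := by rw [energy_eq, chp_real]
  obtain ⟨l, g, hg, hY, hg0, rg, sg⟩ := chp_factor H
  have dH : rankG H = g.natDegree := chp_rank H l g hY rg sg
  rw [dH] at hr
  have hne : X ^ k * q * f ≠ 0 := by
    rw [← h]
    exact (chp_monic G).ne_zero
  have hf0 : f ≠ 0 := right_ne_zero_of_mul hne
  have hq0 : q ≠ 0 := right_ne_zero_of_mul (left_ne_zero_of_mul hne)
  have hmapne : ((chp G).map (algebraMap ℚ ℝ)) ≠ 0 := ((chp_monic G).map _).ne_zero
  have heq : (chp G).map (algebraMap ℚ ℝ) =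
      X ^ k * q.map (algebraMap ℚ ℝ) * f.map (algebraMap ℚ ℝ) := by
    rw [h, Polynomial.map_mul, Polynomial.map_mul, Polynomial.map_pow, map_X]
  have sf : (f.map (algebraMap ℚ ℝ)).Splits :=
    (chp_splits G).of_dvd hmapne (by rw [heq]; exact dvd_mul_left _ _)
  have sq : (q.map (algebraMap ℚ ℝ)).Splits :=
    (chp_splits G).of_dvd hmapne (by
      rw [heq]
      exact dvd_mul_of_dvd_left (dvd_mul_left _ _) _)
  have hqm : q.map (algebraMap ℚ ℝ) ≠ 0 :=
    (Polynomial.map_ne_zero_iff (algebraMap ℚ ℝ).injective).mpr hq0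
  have hfm : f.map (algebraMap ℚ ℝ) ≠ 0 :=
    (Polynomial.map_ne_zero_iff (algebraMap ℚ ℝ).injective).mpr hf0
  have rG : ((chp G).map (algebraMap ℚ ℝ)).roots = Multiset.replicate k 0 +
      (q.map (algebraMap ℚ ℝ)).roots + (f.map (algebraMap ℚ ℝ)).roots := by
    have hXk : (X ^ k : ℝ[X]) ≠ 0 := pow_ne_zero _ X_ne_zero
    rw [heq, roots_mul (mul_ne_zero (mul_ne_zero hXk hqm) hfm), roots_mul (mul_ne_zero hXk hqm),
      roots_pow, roots_X, Multiset.nsmul_singleton]
  have a1 : rs ((chp G).map (algebraMap ℚ ℝ)) = rs (f.map (algebraMap ℚ ℝ)) +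
      rs (q.map (algebraMap ℚ ℝ)) := by
    unfold rs
    rw [rG, Multiset.map_add, Multiset.map_add, Multiset.sum_add, Multiset.sum_add,
      Multiset.map_replicate, Multiset.sum_replicate, abs_zero, smul_zero, zero_add, add_comm]
  have a2 : rs ((chp H).map (algebraMap ℚ ℝ)) = rs (g.map (algebraMap ℚ ℝ)) := by
    unfold rs
    rw [rg, Multiset.map_add, Multiset.sum_add, Multiset.map_replicate, Multiset.sum_replicate]
    simp
  have b1 : (f.map (algebraMap ℚ ℝ)).roots.sum + (q.map (algebraMap ℚ ℝ)).roots.sum = 0 := by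
    have h := chp_sum G
    rw [rG, Multiset.sum_add, Multiset.sum_add, Multiset.sum_replicate, smul_zero, zero_add,
      add_comm] at h
    exact h
  have b2 : (g.map (algebraMap ℚ ℝ)).roots.sum = 0 := by
    have h := chp_sum H
    rw [rg, Multiset.sum_add, Multiset.sum_replicate, smul_zero, zero_add] at h
    exact h
  have q1 : ((f.map (algebraMap ℚ ℝ)).roots.map fun x => x * x).sum +
      ((q.map (algebraMap ℚ ℝ)).roots.map fun x => x * x).sum =
      2 * (G.edgeSet.ncard : ℝ) := by
    have h := chp_squares G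
    rw [rG, Multiset.map_add, Multiset.map_add, Multiset.sum_add, Multiset.sum_add,
      Multiset.map_replicate, Multiset.sum_replicate, mul_zero, smul_zero, zero_add,
      add_comm] at h
    exact h
  have q2 : ((g.map (algebraMap ℚ ℝ)).roots.map fun x => x * x).sum =
      2 * (H.edgeSet.ncard : ℝ) := by
    have h := chp_squares H
    rw [rg, Multiset.map_add, Multiset.sum_add, Multiset.map_replicate,
      Multiset.sum_replicate, mul_zero, smul_zero, zero_add] at h
    exact h
  have hsq : ((g.map (algebraMap ℚ ℝ)).roots.map fun x => x * x).sum + 2 ≤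
      ((f.map (algebraMap ℚ ℝ)).roots.map fun x => x * x).sum +
        ((q.map (algebraMap ℚ ℝ)).roots.map fun x => x * x).sum := by
    rw [q1, q2]
    have h1 : (H.edgeSet.ncard : ℝ) + 1 ≤ (G.edgeSet.ncard : ℝ) := by exact_mod_cast hm
    linarith
  have hpow : ((q.aroots ℝ).map fun x => x ^ 2).sum =
      ((q.map (algebraMap ℚ ℝ)).roots.map fun x => x * x).sum := by
    congr 1
    apply Multiset.map_congr rfl
    intro x _
    exact pow_two x
  rw [hpow] at hA hB
  have h0 : f * (q * g) ≠ 0 := mul_ne_zero hf0 (mul_ne_zero hq0 hg0)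
  have hs : ((f * (q * g)).map (algebraMap ℚ ℝ)).Splits := by
    rw [Polynomial.map_mul, Polynomial.map_mul]
    exact sf.mul (sq.mul sg)
  have gen : ∀ (L : Type) [Field L] [Algebra ℚ L] [IsSplittingField ℚ L (f * (q * g))],
      False := by
    intro L _ _ _
    haveI : Normal ℚ L := Normal.of_isSplittingField (f * (q * g))
    haveI : FiniteDimensional ℚ L := IsSplittingField.finiteDimensional L (f * (q * g))
    exact no_spec (L := L) f q g (IsSplittingField.lift L (f * (q * g)) hs) h0 hd (by omega)
      (fun _ => surj_pow f hf0 0 (by rw [pow_zero, one_mul]; exact hG.ge)) b1 b2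
      (by rw [← a1, ← a2, ← eG, ← eH]; exact hE.symm) (fun z hz => aroot_ne g hY L z hz)
      (fun z hz => by
        apply root_integral G L z
        rw [h, map_mul, (mem_aroots'.mp hz).2, mul_zero])
      (fun z hz => aroot_integral H l g hg L z hz) hsq hA hB
  exact @gen (f * (q * g)).SplittingField _ _ (IsSplittingField.splittingField (f * (q * g)))

/-- The rank is at most the degree of the characteristic polynomial without a power of `X`. -/
theorem rank_le_degree {V : Type} [Fintype V] (G : SimpleGraph V) (k : ℕ) (p : ℚ[X])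
    (h : chp G = X ^ k * p) : rankG G ≤ p.natDegree := by
  obtain ⟨l, g, hg, hY, hg0, rg, sg⟩ := chp_factor G
  have dG : rankG G = g.natDegree := chp_rank G l g hY rg sg
  rw [dG]
  have hp0 : p ≠ 0 := by
    intro hc
    rw [hc, mul_zero] at h
    exact (chp_monic G).ne_zero h
  apply natDegree_le_of_dvd _ hp0
  have h1 : IsCoprime (X ^ k : ℚ[X]) g :=
    ((irreducible_X.coprime_iff_not_dvd).mpr hY).pow_left
  apply h1.symm.dvd_of_dvd_mul_left
  rw [← h, hg]
  exact dvd_mul_left _ _

/-- No deletion of an edge preserves the energy of a graph whose characteristic polynomial has a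
large factor with full Galois group and a cofactor with small roots. -/
theorem factor_delete {V : Type} [Fintype V] (G : SimpleGraph V)
    (k : ℕ) (q f : ℚ[X]) (h : chp G = X ^ k * q * f)
    (hG : Nat.card f.Gal = f.natDegree.factorial) (hd : q.natDegree + 6 ≤ f.natDegree)
    (hB : ((q.aroots ℝ).map fun x => x ^ 2).sum < ((q.aroots ℝ).map fun x => |x|).sum + 2)
    (hA : ((q.aroots ℝ).map fun x => x ^ 2).sum + 2 * |(q.aroots ℝ).sum| <
      (f.natDegree : ℝ) + 2) (e : Sym2 V) (he : e ∈ G.edgeSet) :
    energy (G.deleteEdges {e}) ≠ energy G := by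
  apply factor_ne G (G.deleteEdges {e}) k q f h hG hd hB hA
  · have := ncard_delete G e he
    omega
  · have h1 := (rank_delete G e).1
    have h2 := rank_le_degree G k (q * f) (by rw [h, mul_assoc])
    have h3 : (q * f).natDegree ≤ q.natDegree + f.natDegree := natDegree_mul_le
    omega

end Pool.Agent.W_44c680_h9
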