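import Pool.Agent.W_44c680_h9.Gal16

/-!
The Galois group and the sum of the absolute values of the roots: one integer root and a factor with
full Galois group.
-/

set_option autoImplicit false

namespace Pool.Agent.W_44c680_h9

open Matrix Polynomial

/-- The arithmetic of the case of one integer root. -/
theorem int_case {d k n r δ : ℤ} (hd : 0 < d) (hk : k * k = 1) (hδ : δ ≠ 0)
    (h2 : |2 * δ| < d + 1)
    (h : (d + 1) * (n * (d * n - 2 * k * r)) = -(2 * δ) ∨
      (d * n = k * r ∧ d * (n * n) - 2 * k * n * r + 2 * δ = r * r)) : False := by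
  have key : ¬ (d + 1) ∣ 2 * δ := by
    intro hc
    have h3 := Int.le_of_dvd (abs_pos.mpr (by omega : 2 * δ ≠ 0)) ((dvd_abs _ _).mpr hc)
    omega
  rcases h with h | ⟨h3, h4⟩
  · apply key
    rw [← dvd_neg, ← h]
    exact dvd_mul_right _ _
  · apply key
    have h5 : (d + 1) * (r * r) = 2 * δ * d := by
      have h6 : d * (d * (n * n) - 2 * k * n * r + 2 * δ) = d * (r * r) := by rw [h4]
      have h7 : d * (d * (n * n) - 2 * k * n * r + 2 * δ) =
          (d * n) * (d * n) - 2 * k * r * (d * n) + 2 * δ * d := by ring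
      rw [h7, h3] at h6
      linear_combination -h6 - (r * r) * hk
    have h6 : (d + 1) ∣ 2 * δ * d := ⟨r * r, h5.symm⟩
    have h7 : IsCoprime (d + 1) d := ⟨1, -1, by ring⟩
    exact h7.dvd_of_dvd_mul_right h6

section Real

variable {L : Type} [Field L] [Algebra ℚ L]

/-- Let `φ` have full Galois group and let `κ` have the one integer root `r`. Then a polynomial
`ψ` with at most as many roots as the product `φ * κ` and another, but not very different, sum of
squares has another sum of the absolute values of the roots. -/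
theorem no_spec_one [Normal ℚ L] [FiniteDimensional ℚ L] (φ κ ψ : ℚ[X])
    [IsSplittingField ℚ L (φ * (κ * ψ))] (ι : L →ₐ[ℚ] ℝ) (h0 : φ * (κ * ψ) ≠ 0)
    (hn : 7 ≤ φ.natDegree) (hκ : κ.natDegree = 1) (hd : ψ.natDegree ≤ φ.natDegree + 1)
    (hG : ∀ _ : Fact ((φ.map (algebraMap ℚ L)).Splits), Function.Surjective (act L φ) ∧
      φ.natDegree.factorial ≤ Nat.card (Equiv.Perm (φ.rootSet L)))
    (r δ : ℤ) (hr : (κ.map (algebraMap ℚ ℝ)).roots = {(r : ℝ)})
    (t1 : (φ.map (algebraMap ℚ ℝ)).roots.sum + (κ.map (algebraMap ℚ ℝ)).roots.sum = 0)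
    (t2 : (ψ.map (algebraMap ℚ ℝ)).roots.sum = 0)
    (hE : rs (φ.map (algebraMap ℚ ℝ)) + rs (κ.map (algebraMap ℚ ℝ)) =
      rs (ψ.map (algebraMap ℚ ℝ)))
    (iφ : ∀ z ∈ φ.aroots L, IsIntegral ℤ z)
    (iψ : ∀ z ∈ ψ.aroots L, IsIntegral ℤ z)
    (hsq : ((ψ.map (algebraMap ℚ ℝ)).roots.map fun x => x * x).sum + 2 * δ =
      ((φ.map (algebraMap ℚ ℝ)).roots.map fun x => x * x).sum + r * r)
    (hrd : |(r : ℝ)| < φ.natDegree) (hδ : δ ≠ 0) (h2 : |2 * δ| < (φ.natDegree : ℤ) + 1) :
    False := by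
  classical
  haveI : CharZero L := algebraRat.charZero L
  have hs := IsSplittingField.splits L (φ * (κ * ψ))
  have hne : (φ * (κ * ψ)).map (algebraMap ℚ L) ≠ 0 := (Polynomial.map_ne_zero_iff
    (algebraMap ℚ L).injective).mpr h0
  have f1 : (φ.map (algebraMap ℚ L)).Splits :=
    hs.of_dvd hne (Polynomial.map_dvd _ (dvd_mul_right φ _))
  have f3 : (κ.map (algebraMap ℚ L)).Splits :=
    hs.of_dvd hne (Polynomial.map_dvd _ (dvd_mul_of_dvd_right (dvd_mul_right κ ψ) φ))
  have f2 : (ψ.map (algebraMap ℚ L)).Splits :=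
    hs.of_dvd hne (Polynomial.map_dvd _ (dvd_mul_of_dvd_right (dvd_mul_left ψ κ) φ))
  haveI : Fact ((φ.map (algebraMap ℚ L)).Splits) := ⟨f1⟩
  obtain ⟨s1, s2⟩ := hG ⟨f1⟩
  have F1 : Full (L ≃ₐ[ℚ] L) (rts L φ) := full_of_surj φ s1
  have c1 : (rts L φ).card = φ.natDegree := card_of_surj φ (by omega) s2
  have n1 := nodup_of_card φ c1
  set S := (κ.map (algebraMap ℚ ℝ)).roots.sum with hS
  have hφr : (φ.map (algebraMap ℚ ℝ)).roots = (rts L φ).val.map (fun s => ι s) := by
    rw [roots_real φ f1 ι, rts_val φ n1]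
  have hr1 : ∑ z ∈ rts L φ, ι z = - S := by
    have h1 : (φ.map (algebraMap ℚ ℝ)).roots.sum = ∑ z ∈ rts L φ, ι z := by
      rw [hφr]
      rfl
    rw [← h1]
    linarith
  have hSr : S = r := by
    rw [hS, hr, Multiset.sum_singleton]
  have hSd : |S| < φ.natDegree := by
    rw [hSr]
    exact hrd
  have hmemR : ∀ z ∈ rts L φ, z ∈ φ.aroots L := by
    intro z hz
    rw [← rts_val φ n1]
    exact hz
  have hz0 : ∀ z ∈ rts L φ, z ≠ 0 := by
    intro z hz hc
    obtain ⟨u, hu, huz, -⟩ := other (R := rts L φ) (by omega) z z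
    obtain ⟨γ, hγ⟩ := full_swap F1 hz hu
    have h1 := hγ z hz
    rw [Equiv.swap_apply_left, hc, smul_zero, ← hc] at h1
    exact huz h1.symm
  have hge : (φ.natDegree : ℝ) ≤ ∑ z ∈ rts L φ, |ι z| := by
    have h1 := msum_ge ι (rts L φ).val (by
      intro γ
      rw [rts_val φ n1]
      exact aroots_map φ f1 γ) hz0 (fun z hz => iφ z (hmemR z hz))
    have h2 : ((rts L φ).val.card : ℝ) = φ.natDegree := by
      rw [← c1]
      rfl
    rw [h2] at h1
    exact h1
  set P := (rts L φ).filter (fun z => 0 < ι z) with hP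
  have hPR : P ⊆ rts L φ := Finset.filter_subset _ _
  obtain ⟨i, hi⟩ : P.Nonempty := by
    by_contra hemp
    rw [Finset.not_nonempty_iff_eq_empty] at hemp
    have h1 : ∀ z ∈ rts L φ, |ι z| = - ι z := by
      intro z hz
      apply abs_of_nonpos
      by_contra hc
      have : z ∈ P := Finset.mem_filter.mpr ⟨hz, not_le.mp hc⟩
      rw [hemp] at this
      exact absurd this (Finset.notMem_empty z)
    rw [Finset.sum_congr rfl h1, Finset.sum_neg_distrib, hr1, neg_neg] at hge
    have := le_abs_self S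
    linarith
  obtain ⟨l, hl, hl'⟩ : ∃ l ∈ rts L φ, l ∉ P := by
    by_contra hc
    push Not at hc
    have h1 : ∀ z ∈ rts L φ, |ι z| = ι z := fun z hz =>
      abs_of_pos (Finset.mem_filter.mp (hc z hz)).2
    rw [Finset.sum_congr rfl h1, hr1] at hge
    have := neg_le_abs S
    linarith
  have hxP : ∑ z ∈ P, z = xs ι φ := sum_pos ι φ n1
  have hx : xs ι φ + xs ι κ = xs ι ψ := by
    apply (ι : L →+* ℝ).injective
    show ι (xs ι φ + xs ι κ) = ι (xs ι ψ)
    rw [rs_xs ι φ f1, rs_xs ι κ f3, rs_xs ι ψ f2, t2, ← hS] at hE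
    rw [map_add]
    linarith
  have hKcard : (κ.aroots L).card ≤ κ.natDegree := (card_roots' _).trans natDegree_map_le
  have hMcard : (ψ.aroots L).card ≤ (rts L φ).card + κ.natDegree + 2 := by
    rw [c1]
    refine le_trans ?_ (hd.trans (by omega))
    exact (card_roots' _).trans natDegree_map_le
  obtain ⟨k, w, O, hk, hw, hM, hOγ⟩ := shift2 (Γ := L ≃ₐ[ℚ] L) (ι : L →+* ℝ) F1
    (j := κ.natDegree) (by omega) hPR hi hl hl'
    (κ.aroots L) (ψ.aroots L) (aroots_map κ f3) (aroots_map ψ f2) hKcard hMcard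
    (fun z => 0 < ι z) (by
      rw [hxP]
      exact hx)
  -- the translation is an integer
  have hiR : i ∈ φ.aroots L := hmemR i (hPR hi)
  obtain ⟨n, hn'⟩ : ∃ n : ℤ, w = (n : L) := by
    apply fixed_int w hw
    have h2 : (k : L) * i + w ∈ ψ.aroots L := by
      rw [hM, Multiset.mem_add]
      left
      exact Multiset.mem_map_of_mem (fun s => (k : L) * s + w) (hPR hi)
    have h4 := iψ _ h2
    have h5 : IsIntegral ℤ ((k : L) * i) := by
      apply IsIntegral.mul _ (iφ i hiR)
      have h6 := isIntegral_algebraMap (R := ℤ) (A := L) (x := k)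
      rw [eq_intCast] at h6
      exact h6
    have h6 := h4.sub h5
    rw [add_sub_cancel_left] at h6
    exact h6
  have hk2 : (k : ℝ) * k = 1 := by
    rcases hk with rfl | rfl <;> norm_num
  have hroots : (ψ.map (algebraMap ℚ ℝ)).roots =
      (rts L φ).val.map (fun s => (k : ℝ) * ι s + n) + O.map ι := by
    rw [roots_real ψ f2 ι, hM, Multiset.map_add, Multiset.map_map]
    congr 1
    apply Multiset.map_congr rfl
    intro s _
    show ι ((k : L) * s + w) = _
    rw [hn', map_add, map_mul, map_intCast, map_intCast]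
  have q1 : ((φ.map (algebraMap ℚ ℝ)).roots.map fun x => x * x).sum =
      ∑ s ∈ rts L φ, ι s * ι s := by
    rw [hφr, Multiset.map_map]
    rfl
  have q2 : ((ψ.map (algebraMap ℚ ℝ)).roots.map fun x => x * x).sum =
      ∑ s ∈ rts L φ, ((k : ℝ) * ι s + n) * ((k : ℝ) * ι s + n) +
        (O.map fun o => ι o * ι o).sum := by
    rw [hroots, Multiset.map_add, Multiset.sum_add, Multiset.map_map, Multiset.map_map]
    rfl
  have q3 : ∑ s ∈ rts L φ, ((k : ℝ) * ι s + n) * ((k : ℝ) * ι s + n) =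
      ∑ s ∈ rts L φ, ι s * ι s - 2 * k * n * S + (φ.natDegree : ℝ) * (n * n) := by
    have h1 : ∀ s ∈ rts L φ, ((k : ℝ) * ι s + n) * ((k : ℝ) * ι s + n) =
        ι s * ι s + (2 * k * n) * ι s + n * n := by
      intro s _
      linear_combination (ι s * ι s) * hk2
    rw [Finset.sum_congr rfl h1, Finset.sum_add_distrib, Finset.sum_add_distrib,
      ← Finset.mul_sum, hr1, Finset.sum_const, nsmul_eq_mul, c1]
    ring
  have hOc : O.card ≤ 1 := by
    have h1 : (ψ.aroots L).card ≤ φ.natDegree + 1 :=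
      ((card_roots' _).trans natDegree_map_le).trans hd
    have h2 := congrArg Multiset.card hM
    rw [Multiset.card_add, Multiset.card_map] at h2
    have h3 : (rts L φ).val.card = φ.natDegree := c1
    omega
  have q5 : (φ.natDegree : ℝ) * (n * n) - 2 * k * n * r + (O.map fun o => ι o * ι o).sum +
      2 * δ = r * r := by
    rw [q1, q2, q3, hSr] at hsq
    linarith
  have q6 : - ((k : ℝ) * r) + (φ.natDegree : ℝ) * n + (O.map ι).sum = 0 := by
    rw [hroots, Multiset.sum_add] at t2
    have h1 : ((rts L φ).val.map (fun s => (k : ℝ) * ι s + n)).sum =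
        ∑ s ∈ rts L φ, ((k : ℝ) * ι s + n) := rfl
    rw [h1, Finset.sum_add_distrib, ← Finset.mul_sum, hr1, Finset.sum_const, nsmul_eq_mul, c1,
      hSr] at t2
    linarith
  have hk3 : k * k = 1 := by
    rcases hk with rfl | rfl <;> norm_num
  apply int_case (d := (φ.natDegree : ℤ)) (k := k) (n := n) (r := r) (δ := δ) (by omega) hk3 hδ h2
  rcases (by omega : O.card = 0 ∨ O.card = 1) with h1 | h1
  · right
    rw [Multiset.card_eq_zero] at h1
    rw [h1, Multiset.map_zero, Multiset.sum_zero, add_zero] at q5 q6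
    constructor
    · have h3 : (φ.natDegree : ℝ) * n = k * r := by linarith
      exact_mod_cast h3
    · exact_mod_cast q5
  · left
    obtain ⟨o, rfl⟩ := Multiset.card_eq_one.mp h1
    rw [Multiset.map_singleton, Multiset.sum_singleton] at q5 q6
    have h3 : ι o = k * r - (φ.natDegree : ℝ) * n := by linarith
    rw [h3] at q5
    have h4 : ((φ.natDegree : ℝ) + 1) * (n * ((φ.natDegree : ℝ) * n - 2 * k * r)) =
        -(2 * δ) := by
      linear_combination q5 - (r * r : ℝ) * hk2
    exact_mod_cast h4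

end Real

end Pool.Agent.W_44c680_h9
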