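import Pool.Agent.W_44c680_h9.Gal17
import Pool.Agent.W_44c680_h9.Gal18

/-!
Graphs whose characteristic polynomial has one integer root and a factor with full Galois group, for
instance regular graphs: the energy.
-/

set_option autoImplicit false

namespace Pool.Agent.W_44c680_h9

open Matrix Polynomial

/-- Let the characteristic polynomial of `G` be `(X - r) * f`, where `f` has full Galois group. Then a
graph `H` with the same vertices and another, but not very different, number of edges has another
energy. -/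
theorem regular_ne {V : Type} [Fintype V] (G H : SimpleGraph V) (r : ℤ) (f : ℚ[X])
    (h : chp G = (X - C (r : ℚ)) * f) (hG : Nat.card f.Gal = f.natDegree.factorial)
    (h8 : 8 ≤ Fintype.card V) (hr1 : |r| + 1 < Fintype.card V)
    (hm : H.edgeSet.ncard ≠ G.edgeSet.ncard)
    (hm2 : 2 * |(H.edgeSet.ncard : ℤ) - G.edgeSet.ncard| < Fintype.card V) :
    energy H ≠ energy G := by
  intro hE
  have eG : energy G = rs ((chp G).map (algebraMap ℚ ℝ)) := by rw [energy_eq, chp_real]
  have eH : energy H = rs ((chp H).map (algebraMap ℚ ℝ)) := by rw [energy_eq, chp_real]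
  obtain ⟨l, g, hg, hY, hg0, rg, sg⟩ := chp_factor H
  have dH : rankG H = g.natDegree := chp_rank H l g hY rg sg
  have hr : g.natDegree ≤ Fintype.card V := by
    rw [← dH]
    unfold rankG
    exact Matrix.rank_le_card_width _
  set q : ℚ[X] := X - C (r : ℚ) with hq
  have hne : q * f ≠ 0 := by
    rw [← h]
    exact (chp_monic G).ne_zero
  have hf0 : f ≠ 0 := right_ne_zero_of_mul hne
  have hq0 : q ≠ 0 := left_ne_zero_of_mul hne
  have dq : q.natDegree = 1 := natDegree_X_sub_C _
  have dV : Fintype.card V = f.natDegree + 1 := by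
    rw [← chp_degree G, h, natDegree_mul hq0 hf0, dq, add_comm]
  have hmapne : ((chp G).map (algebraMap ℚ ℝ)) ≠ 0 := ((chp_monic G).map _).ne_zero
  have heq : (chp G).map (algebraMap ℚ ℝ) =
      q.map (algebraMap ℚ ℝ) * f.map (algebraMap ℚ ℝ) := by
    rw [h, Polynomial.map_mul]
  have sf : (f.map (algebraMap ℚ ℝ)).Splits :=
    (chp_splits G).of_dvd hmapne (by rw [heq]; exact dvd_mul_left _ _)
  have sq : (q.map (algebraMap ℚ ℝ)).Splits :=
    (chp_splits G).of_dvd hmapne (by
      rw [heq]
      exact dvd_mul_right _ _)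
  have hqm : q.map (algebraMap ℚ ℝ) ≠ 0 :=
    (Polynomial.map_ne_zero_iff (algebraMap ℚ ℝ).injective).mpr hq0
  have hfm : f.map (algebraMap ℚ ℝ) ≠ 0 :=
    (Polynomial.map_ne_zero_iff (algebraMap ℚ ℝ).injective).mpr hf0
  have rG : ((chp G).map (algebraMap ℚ ℝ)).roots =
      (q.map (algebraMap ℚ ℝ)).roots + (f.map (algebraMap ℚ ℝ)).roots := by
    rw [heq, roots_mul (mul_ne_zero hqm hfm)]
  have rq : (q.map (algebraMap ℚ ℝ)).roots = {(r : ℝ)} := by
    have h1 : q.map (algebraMap ℚ ℝ) = X - C (r : ℝ) := by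
      rw [hq, Polynomial.map_sub, map_X, map_C]
      simp
    rw [h1, roots_X_sub_C]
  have a1 : rs ((chp G).map (algebraMap ℚ ℝ)) = rs (f.map (algebraMap ℚ ℝ)) +
      rs (q.map (algebraMap ℚ ℝ)) := by
    unfold rs
    rw [rG, Multiset.map_add, Multiset.sum_add, add_comm]
  have a2 : rs ((chp H).map (algebraMap ℚ ℝ)) = rs (g.map (algebraMap ℚ ℝ)) := by
    unfold rs
    rw [rg, Multiset.map_add, Multiset.sum_add, Multiset.map_replicate, Multiset.sum_replicate]
    simp
  have b1 : (f.map (algebraMap ℚ ℝ)).roots.sum + (q.map (algebraMap ℚ ℝ)).roots.sum = 0 := by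
    have h := chp_sum G
    rw [rG, Multiset.sum_add, add_comm] at h
    exact h
  have b2 : (g.map (algebraMap ℚ ℝ)).roots.sum = 0 := by
    have h := chp_sum H
    rw [rg, Multiset.sum_add, Multiset.sum_replicate, smul_zero, zero_add] at h
    exact h
  have q1 : ((f.map (algebraMap ℚ ℝ)).roots.map fun x => x * x).sum + (r : ℝ) * r =
      2 * (G.edgeSet.ncard : ℝ) := by
    have h := chp_squares G
    rw [rG, rq, Multiset.map_add, Multiset.sum_add, Multiset.map_singleton,
      Multiset.sum_singleton, add_comm] at h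
    exact h
  have q2 : ((g.map (algebraMap ℚ ℝ)).roots.map fun x => x * x).sum =
      2 * (H.edgeSet.ncard : ℝ) := by
    have h := chp_squares H
    rw [rg, Multiset.map_add, Multiset.sum_add, Multiset.map_replicate,
      Multiset.sum_replicate, mul_zero, smul_zero, zero_add] at h
    exact h
  have hsq : ((g.map (algebraMap ℚ ℝ)).roots.map fun x => x * x).sum +
      2 * (((G.edgeSet.ncard : ℤ) - H.edgeSet.ncard : ℤ) : ℝ) =
      ((f.map (algebraMap ℚ ℝ)).roots.map fun x => x * x).sum + r * r := by
    rw [q1, q2]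
    push_cast
    ring
  have hrd : |(r : ℝ)| < f.natDegree := by
    have h1 : |r| < (f.natDegree : ℤ) := by omega
    exact_mod_cast h1
  have hδ : (G.edgeSet.ncard : ℤ) - H.edgeSet.ncard ≠ 0 := by omega
  have h2 : |2 * ((G.edgeSet.ncard : ℤ) - H.edgeSet.ncard)| < (f.natDegree : ℤ) + 1 := by
    rw [abs_mul, abs_two, abs_sub_comm]
    omega
  have h0 : f * (q * g) ≠ 0 := mul_ne_zero hf0 (mul_ne_zero hq0 hg0)
  have hs : ((f * (q * g)).map (algebraMap ℚ ℝ)).Splits := by
    rw [Polynomial.map_mul, Polynomial.map_mul]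
    exact sf.mul (sq.mul sg)
  have gen : ∀ (L : Type) [Field L] [Algebra ℚ L] [IsSplittingField ℚ L (f * (q * g))],
      False := by
    intro L _ _ _
    haveI : Normal ℚ L := Normal.of_isSplittingField (f * (q * g))
    haveI : FiniteDimensional ℚ L := IsSplittingField.finiteDimensional L (f * (q * g))
    exact no_spec_one (L := L) f q g (IsSplittingField.lift L (f * (q * g)) hs) h0 (by omega) dq
      (by omega) (fun _ => surj_pow f hf0 0 (by rw [pow_zero, one_mul]; exact hG.ge)) r
      ((G.edgeSet.ncard : ℤ) - H.edgeSet.ncard) rq b1 b2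
      (by rw [← a1, ← a2, ← eG, ← eH]; exact hE.symm)
      (fun z hz => by
        apply root_integral G L z
        rw [h, map_mul, (mem_aroots'.mp hz).2, mul_zero])
      (fun z hz => aroot_integral H l g hg L z hz) hsq hrd hδ h2
  exact @gen (f * (q * g)).SplittingField _ _ (IsSplittingField.splittingField (f * (q * g)))

end Pool.Agent.W_44c680_h9
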