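import Pool.Agent.W_44c680_h9.Gal1
import Pool.Agent.W_44c680_h9.Fin

/-!
The Galois group of the characteristic polynomial and the energy.
-/

set_option autoImplicit false

namespace Pool.Agent.W_44c680_h9

open Matrix Polynomial

section Field

variable {L : Type} [Field L] [Algebra ℚ L] [Normal ℚ L]

/-- The action on the roots. -/
noncomputable def act (L : Type) [Field L] [Algebra ℚ L] (q : ℚ[X])
    [Fact ((q.map (algebraMap ℚ L)).Splits)] : (L ≃ₐ[ℚ] L) →* Equiv.Perm (q.rootSet L) :=
  (Gal.galActionHom q L).comp (Gal.restrict q L)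

omit [Normal ℚ L] in
theorem act_apply (q : ℚ[X]) [Fact ((q.map (algebraMap ℚ L)).Splits)] (γ : L ≃ₐ[ℚ] L)
    (z : q.rootSet L) : (act L q γ z : L) = γ z :=
  Gal.galActionHom_restrict q L γ z

/-- The roots as a finite set. -/
noncomputable def rts (L : Type) [Field L] [Algebra ℚ L] (q : ℚ[X]) : Finset L :=
  haveI := Classical.decEq L
  (q.aroots L).toFinset

omit [Normal ℚ L] in
theorem mem_rts (q : ℚ[X]) (z : L) : z ∈ rts L q ↔ z ∈ q.rootSet L := by
  classical
  unfold rts rootSet
  simp

omit [Normal ℚ L] in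
theorem card_rts (q : ℚ[X]) : (rts L q).card = Nat.card (q.rootSet L) := by
  have h : (q.rootSet L) = ↑(rts L q) := by
    ext z
    rw [Finset.mem_coe, mem_rts]
  rw [h, Nat.card_coe_set_eq, Set.ncard_coe_finset]

theorem full_of_surj (q : ℚ[X]) [Fact ((q.map (algebraMap ℚ L)).Splits)]
    (h : Function.Surjective (act L q)) : Full (L ≃ₐ[ℚ] L) (rts L q) := by
  constructor
  · intro γ z hz
    rw [mem_rts] at hz ⊢
    have h1 := act_apply q γ ⟨z, hz⟩
    rw [AlgEquiv.smul_def, ← h1]
    exact (act L q γ ⟨z, hz⟩).2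
  · intro f hf
    have hf' : ∀ z : q.rootSet L, f z ∈ q.rootSet L := fun z =>
      (mem_rts q _).mp (hf z ((mem_rts q _).mpr z.2))
    have hinj : Function.Injective fun z : q.rootSet L => (⟨f z, hf' z⟩ : q.rootSet L) := by
      intro z w hzw
      exact Subtype.ext (f.injective (congrArg Subtype.val hzw))
    have : Finite (q.rootSet L) := (rootSet_finite q L).to_subtype
    obtain ⟨γ, hγ⟩ := h (Equiv.ofBijective _ (Finite.injective_iff_bijective.mp hinj))
    refine ⟨γ, fun z hz => ?_⟩
    have h1 := act_apply q γ ⟨z, (mem_rts q z).mp hz⟩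
    rw [hγ] at h1
    rw [AlgEquiv.smul_def, ← h1]
    rfl

omit [Normal ℚ L] in
theorem card_root_le (q : ℚ[X]) : Nat.card (q.rootSet L) ≤ q.natDegree := by
  rw [Nat.card_coe_set_eq]
  exact ncard_rootSet_le q L

omit [Normal ℚ L] in
theorem card_perm_le (q : ℚ[X]) : Nat.card (Equiv.Perm (q.rootSet L)) ≤ q.natDegree.factorial := by
  rw [Nat.card_perm]
  exact Nat.factorial_le (card_root_le q)

theorem surj_of_card (q : ℚ[X]) [Fact ((q.map (algebraMap ℚ L)).Splits)]
    (h : q.natDegree.factorial ≤ Nat.card q.Gal) : Function.Surjective (act L q) := by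
  have : Finite (q.rootSet L) := (rootSet_finite q L).to_subtype
  have h1 : Function.Bijective (Gal.galActionHom q L) :=
    (Gal.galActionHom_injective q L).bijective_of_nat_card_le ((card_perm_le q).trans h)
  exact h1.2.comp (Gal.restrict_surjective q L)

theorem card_of_surj [FiniteDimensional ℚ L] (q : ℚ[X])
    [Fact ((q.map (algebraMap ℚ L)).Splits)] (hq : 2 ≤ q.natDegree)
    (h : q.natDegree.factorial ≤ Nat.card (Equiv.Perm (q.rootSet L))) :
    (rts L q).card = q.natDegree := by
  rw [card_rts]
  rw [Nat.card_perm] at h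
  have h1 := card_root_le (L := L) q
  rcases Nat.lt_or_ge (Nat.card (q.rootSet L)) q.natDegree with h2 | h2
  · exfalso
    have h3 : (Nat.card (q.rootSet L)).factorial ≤ (q.natDegree - 1).factorial :=
      Nat.factorial_le (by omega)
    have h4 : (q.natDegree - 1).factorial < q.natDegree.factorial :=
      (Nat.factorial_lt (by omega)).mpr (by omega)
    omega
  · omega

end Field

end Pool.Agent.W_44c680_h9
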