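import Pool.Agent.W_44c680_h9.Gal3

/-!
The Galois group of the characteristic polynomial and the energy: graphs.
-/

set_option autoImplicit false

namespace Pool.Agent.W_44c680_h9

open Matrix Polynomial

open Unitary in
theorem trace_sq {m : Type} [Fintype m] [DecidableEq m] (A : Matrix m m ℝ)
    (hA : A.IsHermitian) :
    (A * A).trace = ∑ i, hA.eigenvalues i * hA.eigenvalues i := by
  have h : (A * A).trace = (conjStarAlgAut ℝ _ hA.eigenvectorUnitary
      (diagonal (RCLike.ofReal ∘ hA.eigenvalues) * diagonal (RCLike.ofReal ∘ hA.eigenvalues) :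
        Matrix m m ℝ)).trace := by
    rw [map_mul, ← hA.spectral_theorem]
  rw [h, conjStarAlgAut_apply, Matrix.trace_mul_comm, ← mul_assoc]
  have h1 : (star (hA.eigenvectorUnitary : Matrix m m ℝ)) *
      (hA.eigenvectorUnitary : Matrix m m ℝ) = 1 := by simp
  rw [h1, one_mul, diagonal_mul_diagonal, trace_diagonal]
  simp

open Classical in
/-- The characteristic polynomial of the adjacency matrix over the rational numbers. -/
noncomputable def chp {V : Type} [Fintype V] (G : SimpleGraph V) : ℚ[X] :=
  (G.adjMatrix ℚ).charpoly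

open Classical in
theorem chp_real {V : Type} [Fintype V] (G : SimpleGraph V) :
    (chp G).map (algebraMap ℚ ℝ) = (G.adjMatrix ℝ).charpoly := by
  unfold chp
  rw [← Matrix.charpoly_map]
  congr 1
  ext i j
  by_cases h : G.Adj i j <;> simp [SimpleGraph.adjMatrix_apply, h]

theorem chp_degree {V : Type} [Fintype V] (G : SimpleGraph V) :
    (chp G).natDegree = Fintype.card V := by
  classical
  unfold chp
  exact Matrix.charpoly_natDegree_eq_dim _

theorem chp_monic {V : Type} [Fintype V] (G : SimpleGraph V) : (chp G).Monic := by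
  classical
  unfold chp
  exact Matrix.charpoly_monic _

theorem chp_splits {V : Type} [Fintype V] (G : SimpleGraph V) :
    ((chp G).map (algebraMap ℚ ℝ)).Splits := by
  classical
  rw [chp_real]
  exact (herm G).splits_charpoly

theorem chp_sum {V : Type} [Fintype V] (G : SimpleGraph V) :
    ((chp G).map (algebraMap ℚ ℝ)).roots.sum = 0 := by
  classical
  rw [chp_real, (herm G).roots_charpoly_eq_eigenvalues]
  have h := (herm G).trace_eq_sum_eigenvalues
  rw [SimpleGraph.trace_adjMatrix] at h
  exact h.symm

theorem chp_squares {V : Type} [Fintype V] (G : SimpleGraph V) :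
    (((chp G).map (algebraMap ℚ ℝ)).roots.map fun x => x * x).sum =
      2 * (G.edgeSet.ncard : ℝ) := by
  classical
  rw [chp_real, (herm G).roots_charpoly_eq_eigenvalues, Multiset.map_map]
  have h := trace_sq _ (herm G)
  have h1 : (G.adjMatrix ℝ * G.adjMatrix ℝ).trace = 2 * (G.edgeSet.ncard : ℝ) := by
    rw [Matrix.trace]
    simp only [Matrix.diag_apply, SimpleGraph.adjMatrix_mul_self_apply_self]
    have h2 := G.sum_degrees_eq_twice_card_edges
    rw [← Nat.cast_sum, h2, ← SimpleGraph.coe_edgeFinset, Set.ncard_coe_finset]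
    push_cast
    ring
  rw [← h1, h]
  rfl

end Pool.Agent.W_44c680_h9
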