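import Pool.Agent.W_44c680_h9.Gal1

/-!
Two finite sets in a field on each of which a finite group of automorphisms acts as the full
symmetric group: equal partial sums force the sets to be equal up to sign.
-/

set_option autoImplicit false

namespace Pool.Agent.W_44c680_h9

section Abs

variable {Γ L : Type*} [Group Γ] [Fintype Γ] [Field L] [CharZero L] [MulSemiringAction Γ L]

omit [Fintype Γ] [CharZero L] in
open Classical in
theorem image_eq {R : Finset L} (h : Full Γ R) (γ : Γ) : R.image (fun z => γ • z) = R := by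
  apply Finset.eq_of_subset_of_card_le
  · intro w hw
    rw [Finset.mem_image] at hw
    obtain ⟨v, hv, rfl⟩ := hw
    exact h.1 γ v hv
  · rw [Finset.card_image_of_injective _ (MulAction.injective γ)]

open Classical in
/-- The trace form on the set. -/
theorem form {R : Finset L} (h : Full Γ R) (hR : ∑ z ∈ R, z = 0) (hn : 2 ≤ R.card) :
    ∃ t τ : L, (∀ u ∈ R, ∀ v ∈ R, tr Γ (u * v) = t + if u = v then τ else 0) ∧
      ((R.card : L) - 1) * τ = (Fintype.card Γ : L) * ∑ z ∈ R, z * z := by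
  obtain ⟨i0, hi0, k0, hk0, hik0⟩ := Finset.one_lt_card.mp (by omega : 1 < R.card)
  set t1 := tr Γ (i0 * i0) with ht1
  set t2 := tr Γ (i0 * k0) with ht2
  have e1 : ∀ i ∈ R, tr Γ (i * i) = t1 := by
    intro i hi
    obtain ⟨γ, hγ⟩ := full_swap h hi0 hi
    have h1 := hγ i0 hi0
    rw [Equiv.swap_apply_left] at h1
    rw [ht1, ← tr_smul γ (i0 * i0), smul_mul', h1]
  have e2 : ∀ i ∈ R, ∀ k ∈ R, i ≠ k → tr Γ (i * k) = t2 := by
    intro i hi k hk hik
    obtain ⟨γ, h1, h2⟩ := full_pair h hi0 hk0 hi hk hik0 hik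
    rw [ht2, ← tr_smul γ (i0 * k0), smul_mul', h1, h2]
  refine ⟨t2, t1 - t2, ?_, ?_⟩
  · intro u hu v hv
    by_cases huv : u = v
    · rw [if_pos huv, ← huv, e1 u hu]
      ring
    · rw [if_neg huv, e2 u hu v hv huv, add_zero]
  · have e3 : ∑ k ∈ R, tr Γ (i0 * k) = t1 + ((R.card : L) - 1) * t2 := by
      rw [← Finset.add_sum_erase R _ hi0]
      congr 1
      rw [Finset.sum_congr rfl fun k hk => e2 i0 hi0 k (Finset.mem_of_mem_erase hk)
        (Finset.ne_of_mem_erase hk).symm, Finset.sum_const, Finset.card_erase_of_mem hi0,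
        nsmul_eq_mul, Nat.cast_sub (Finset.card_pos.mpr ⟨i0, hi0⟩), Nat.cast_one]
    have e4 : t1 + ((R.card : L) - 1) * t2 = 0 := by
      rw [← e3, ← tr_sum, ← Finset.mul_sum, hR, mul_zero]
      unfold tr
      simp
    have e6 : (Fintype.card Γ : L) * ∑ z ∈ R, z * z = (R.card : L) * t1 := by
      rw [← tr_fix, tr_sum, Finset.sum_congr rfl e1, Finset.sum_const, nsmul_eq_mul]
      intro γ
      rw [Finset.smul_sum]
      conv_rhs => rw [← image_eq h γ]
      rw [Finset.sum_image fun a _ b _ hab => MulAction.injective γ hab]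
      apply Finset.sum_congr rfl
      intro z _
      rw [smul_mul']
    rw [e6]
    linear_combination -e4

omit [CharZero L] in
theorem tr_add (z w : L) : tr Γ (z + w) = tr Γ z + tr Γ w := by
  unfold tr
  rw [← Finset.sum_add_distrib]
  exact Finset.sum_congr rfl fun γ _ => smul_add γ z w

omit [CharZero L] in
theorem tr_sub (z w : L) : tr Γ (z - w) = tr Γ z - tr Γ w := by
  unfold tr
  rw [← Finset.sum_sub_distrib]
  exact Finset.sum_congr rfl fun γ _ => smul_sub γ z w

omit [CharZero L] in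
open Classical in
theorem tr_blocks {R : Finset L} {t τ : L}
    (hf : ∀ u ∈ R, ∀ v ∈ R, tr Γ (u * v) = t + if u = v then τ else 0) {A B : Finset L}
    (hA : A ⊆ R) (hB : B ⊆ R) :
    tr Γ ((∑ z ∈ A, z) * ∑ z ∈ B, z) =
      (A.card : L) * (B.card : L) * t + ((A ∩ B).card : L) * τ := by
  rw [Finset.sum_mul_sum, tr_sum]
  have h1 : ∀ u ∈ A, tr Γ (∑ v ∈ B, u * v) = (B.card : L) * t + if u ∈ B then τ else 0 := by
    intro u hu
    rw [tr_sum, Finset.sum_congr rfl fun v hv => hf u (hA hu) v (hB hv), Finset.sum_add_distrib,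
      Finset.sum_const, nsmul_eq_mul, Finset.sum_ite_eq]
  rw [Finset.sum_congr rfl h1, Finset.sum_add_distrib, Finset.sum_const, nsmul_eq_mul,
    ← Finset.sum_filter, Finset.sum_const, nsmul_eq_mul, Finset.filter_mem_eq_inter]
  ring

open Classical in
/-- A difference of two elements of `R` is a difference of two elements of `R'`. -/
theorem diff_eq {R R' : Finset L} (h : Full Γ R) (h' : Full Γ R') {t τ t' : L}
    (hf : ∀ u ∈ R, ∀ v ∈ R, tr Γ (u * v) = t + if u = v then τ else 0)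
    (hf' : ∀ u ∈ R', ∀ v ∈ R', tr Γ (u * v) = t' + if u = v then τ else 0) (hτ : τ ≠ 0)
    {P P' : Finset L} (hP : P ⊆ R) (hP' : P' ⊆ R') (hs : ∑ z ∈ P, z = ∑ z ∈ P', z)
    {i k : L} (hi : i ∈ P) (hk : k ∈ R) (hk' : k ∉ P) :
    ∃ a ∈ R', ∃ b ∈ R', i - k = a - b := by
  obtain ⟨γ, hγ⟩ := full_swap h (hP hi) hk
  have e1 := swap_sum hP hi hk' hγ
  set Q := P'.image (fun z => γ • z) with hQ
  have hQR : Q ⊆ R' := by
    intro w hw
    rw [hQ, Finset.mem_image] at hw
    obtain ⟨v, hv, rfl⟩ := hw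
    exact h'.1 γ v (hP' hv)
  have hQc : Q.card = P'.card := Finset.card_image_of_injective _ (MulAction.injective γ)
  have e2 : γ • ∑ z ∈ P', z = ∑ z ∈ Q, z := by
    rw [hQ, Finset.sum_image fun a _ b _ hab => MulAction.injective γ hab, ← Finset.smul_sum]
  have e3 : i - k = ∑ z ∈ P' \ Q, z - ∑ z ∈ Q \ P', z := by
    have h1 := Finset.sum_sdiff_sub_sum_sdiff (s₁ := Q) (s₂ := P') (f := fun z : L => z)
    rw [hs, e2] at e1
    rw [h1, e1]
    ring
  have hc : (P' \ Q).card = (Q \ P').card := Finset.card_sdiff_comm hQc.symm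
  have hA : P' \ Q ⊆ R' := Finset.sdiff_subset.trans hP'
  have hB : Q \ P' ⊆ R' := Finset.sdiff_subset.trans hQR
  have hik : i ≠ k := fun hc' => hk' (hc' ▸ hi)
  have e4 : tr Γ ((i - k) * (i - k)) = 2 * τ := by
    have h1 : (i - k) * (i - k) = i * i - i * k - (k * i - k * k) := by ring
    rw [h1, tr_sub, tr_sub, tr_sub, hf i (hP hi) i (hP hi), hf i (hP hi) k hk,
      hf k hk i (hP hi), hf k hk k hk, if_pos rfl, if_neg hik, if_neg hik.symm, if_pos rfl]
    ring
  have hd1 : (P' \ Q) ∩ (Q \ P') = ∅ := by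
    ext z
    simp only [Finset.mem_inter, Finset.mem_sdiff, Finset.notMem_empty, iff_false]
    tauto
  have hd2 : (Q \ P') ∩ (P' \ Q) = ∅ := by rw [Finset.inter_comm, hd1]
  have e5 : tr Γ ((i - k) * (i - k)) = 2 * ((P' \ Q).card : L) * τ := by
    rw [e3]
    have h1 : (∑ z ∈ P' \ Q, z - ∑ z ∈ Q \ P', z) * (∑ z ∈ P' \ Q, z - ∑ z ∈ Q \ P', z) =
        (∑ z ∈ P' \ Q, z) * (∑ z ∈ P' \ Q, z) - (∑ z ∈ P' \ Q, z) * (∑ z ∈ Q \ P', z) -
          ((∑ z ∈ Q \ P', z) * (∑ z ∈ P' \ Q, z) -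
            (∑ z ∈ Q \ P', z) * (∑ z ∈ Q \ P', z)) := by ring
    rw [h1, tr_sub, tr_sub, tr_sub, tr_blocks hf' hA hA, tr_blocks hf' hA hB,
      tr_blocks hf' hB hA, tr_blocks hf' hB hB, hd1, hd2, Finset.inter_self, Finset.inter_self,
      ← hc, Finset.card_empty]
    push_cast
    ring
  have e6 : (P' \ Q).card = 1 := by
    rw [e4] at e5
    have h1 : (2 : L) * (1 - ((P' \ Q).card : L)) * τ = 0 := by linear_combination e5
    have h2 : (1 : L) - ((P' \ Q).card : L) = 0 := by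
      rcases mul_eq_zero.mp h1 with h3 | h3
      · rcases mul_eq_zero.mp h3 with h4 | h4
        · exact absurd h4 two_ne_zero
        · exact h4
      · exact absurd h3 hτ
    have h3 : ((P' \ Q).card : L) = ((1 : ℕ) : L) := by
      rw [Nat.cast_one]
      exact (sub_eq_zero.mp h2).symm
    exact_mod_cast h3
  obtain ⟨a, ha⟩ := Finset.card_eq_one.mp e6
  obtain ⟨b, hb⟩ := Finset.card_eq_one.mp (hc ▸ e6)
  refine ⟨a, hA (by rw [ha]; exact Finset.mem_singleton_self a), b,
    hB (by rw [hb]; exact Finset.mem_singleton_self b), ?_⟩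
  rw [e3, ha, hb, Finset.sum_singleton, Finset.sum_singleton]

end Abs

end Pool.Agent.W_44c680_h9
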