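import Pool.Agent.W_44c680_h9.Gal6

/-!
A finite group of automorphisms of a field that acts on a finite set `R` as the full symmetric
group and preserves a second set with at most two elements more.
-/

set_option autoImplicit false

namespace Pool.Agent.W_44c680_h9

section Abs

variable {Γ L : Type*} [Group Γ] [Fintype Γ] [Field L] [CharZero L] [MulSemiringAction Γ L]

/-- The trace pairing. -/
def pr (Γ : Type*) {L : Type*} [Group Γ] [Fintype Γ] [Field L] [MulSemiringAction Γ L]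
    (y u : L) : L := tr Γ (y * u)

omit [CharZero L] in
theorem pr_smul (γ : Γ) (y u : L) : pr Γ (γ • y) (γ • u) = pr Γ y u := by
  unfold pr
  rw [← smul_mul', tr_smul]

omit [CharZero L] in
theorem pr_inv (γ : Γ) (y u : L) : pr Γ (γ • y) u = pr Γ y (γ⁻¹ • u) := by
  conv_lhs => rw [← smul_inv_smul γ u]
  rw [pr_smul]

/-- The pairing with `y` is not constant on `R`. -/
def NC (Γ : Type*) {L : Type*} [Group Γ] [Fintype Γ] [Field L] [MulSemiringAction Γ L]
    (R : Finset L) (y : L) : Prop := ∃ a ∈ R, ∃ b ∈ R, pr Γ y a ≠ pr Γ y b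

/-- The pairing with `y` is constant on `R` without `s`. -/
def Exc (Γ : Type*) {L : Type*} [Group Γ] [Fintype Γ] [Field L] [MulSemiringAction Γ L]
    (R : Finset L) (y s : L) : Prop :=
  s ∈ R ∧ ∀ a ∈ R, ∀ b ∈ R, a ≠ s → b ≠ s → pr Γ y a = pr Γ y b

omit [CharZero L] in
open Classical in
theorem count_sets {R T : Finset L} (h : Full Γ R) (hT : ∀ γ : Γ, ∀ y ∈ T, γ • y ∈ T) {y : L}
    (hy : y ∈ T) {S : Finset L} (hS : S ⊆ R)
    (hf : ∀ a ∈ S, ∀ b ∈ R \ S, pr Γ y a ≠ pr Γ y b) :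
    S.card * (R \ S).card + 1 ≤ T.card := by
  have h1 : ∀ a ∈ R, ∀ b ∈ R, ∃ γ : Γ, ∀ z ∈ R, γ • z = Equiv.swap a b z := fun a ha b hb =>
    full_swap h ha hb
  choose! g hg using h1
  have hmem : ∀ a ∈ R, ∀ b ∈ R, ∀ u ∈ R, Equiv.swap a b u ∈ R := by
    intro a ha b hb u hu
    rw [← hg a ha b hb u hu]
    exact h.1 _ u hu
  have key : ∀ a ∈ R, ∀ b ∈ R, ∀ u ∈ R,
      pr Γ (g a b • y) u = pr Γ y (Equiv.swap a b u) := by
    intro a ha b hb u hu
    rw [pr_inv]
    congr 1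
    rw [inv_smul_eq_iff, hg a ha b hb _ (hmem a ha b hb u hu), Equiv.swap_apply_self]
  have hSR : ∀ p ∈ S ×ˢ (R \ S), p.1 ∈ S ∧ p.1 ∈ R ∧ p.2 ∈ R ∧ p.2 ∉ S := by
    intro p hp
    rw [Finset.mem_product] at hp
    have h2 := Finset.mem_sdiff.mp hp.2
    exact ⟨hp.1, hS hp.1, h2.1, h2.2⟩
  have hne : ∀ p ∈ S ×ˢ (R \ S), pr Γ y p.1 ≠ pr Γ y p.2 := by
    intro p hp
    rw [Finset.mem_product] at hp
    exact hf p.1 hp.1 p.2 hp.2
  have hsub : insert y ((S ×ˢ (R \ S)).image fun p => g p.1 p.2 • y) ⊆ T := by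
    intro z hz
    rw [Finset.mem_insert, Finset.mem_image] at hz
    rcases hz with rfl | ⟨p, -, rfl⟩
    · exact hy
    · exact hT _ y hy
  refine le_trans (le_of_eq ?_) (Finset.card_le_card hsub)
  rw [Finset.card_insert_of_notMem, Finset.card_image_of_injOn, Finset.card_product]
  · intro p hp p' hp' heq
    obtain ⟨a1, a2, a3, a4⟩ := hSR p hp
    obtain ⟨b1, b2, b3, b4⟩ := hSR p' hp'
    have heq' : g p.1 p.2 • y = g p'.1 p'.2 • y := heq
    have e1 : p.1 = p'.1 := by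
      by_contra hcon
      have h3 := key p.1 a2 p.2 a3 p.1 a2
      rw [heq', key p'.1 b2 p'.2 b3 p.1 a2, Equiv.swap_apply_left,
        Equiv.swap_apply_of_ne_of_ne hcon (fun (hcc : p.1 = p'.2) => b4 (by
          rw [← hcc]
          exact a1))] at h3
      exact hne p hp h3
    have e2 : p.2 = p'.2 := by
      by_contra hcon
      have h3 := key p.1 a2 p.2 a3 p.2 a3
      rw [heq', key p'.1 b2 p'.2 b3 p.2 a3, Equiv.swap_apply_right,
        Equiv.swap_apply_of_ne_of_ne (fun (hcc : p.2 = p'.1) => a4 (by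
          rw [hcc]
          exact b1)) hcon] at h3
      exact hne p hp h3.symm
    exact Prod.ext e1 e2
  · intro hcon
    rw [Finset.mem_image] at hcon
    obtain ⟨p, hp, hpy⟩ := hcon
    obtain ⟨a1, a2, a3, a4⟩ := hSR p hp
    have h3 := key p.1 a2 p.2 a3 p.1 a2
    rw [hpy, Equiv.swap_apply_left] at h3
    exact hne p hp h3

omit [CharZero L] in
open Classical in
/-- A point `y` of a small invariant set whose pairing is not constant has an exceptional point. -/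
theorem exceptional {R T : Finset L} (h : Full Γ R) (hT : ∀ γ : Γ, ∀ y ∈ T, γ • y ∈ T) {y : L}
    (hy : y ∈ T) (hd : 6 ≤ R.card) (hc : T.card ≤ R.card + 2) (hn : NC Γ R y) :
    ∃ s, Exc Γ R y s := by
  have key : ∀ S ⊆ R, (∀ a ∈ S, ∀ b ∈ R \ S, pr Γ y a ≠ pr Γ y b) →
      S.card ≤ 1 ∨ (R \ S).card ≤ 1 := by
    intro S hS hf
    have h1 := count_sets h hT hy hS hf
    have h2 := Finset.card_sdiff_add_card_eq_card hS
    by_contra hcon
    push Not at hcon
    obtain ⟨h3, h4⟩ := hcon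
    have h5 : 2 * (R \ S).card + 2 * S.card ≤ S.card * (R \ S).card + 4 := by
      obtain ⟨x, hx⟩ := Nat.exists_eq_add_of_le (by omega : 2 ≤ S.card)
      obtain ⟨z, hz⟩ := Nat.exists_eq_add_of_le (by omega : 2 ≤ (R \ S).card)
      rw [hx, hz]
      nlinarith [Nat.zero_le (x * z)]
    omega
  obtain ⟨a0, ha0, b0, hb0, hab⟩ := hn
  set Sa := R.filter (fun z => pr Γ y z = pr Γ y a0) with hSa
  set Sb := R.filter (fun z => pr Γ y z = pr Γ y b0) with hSb
  have lev : ∀ c : L, ∀ a ∈ R.filter (fun z => pr Γ y z = c),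
      ∀ b ∈ R \ (R.filter fun z => pr Γ y z = c), pr Γ y a ≠ pr Γ y b := by
    intro c a ha b hb hcon
    rw [Finset.mem_filter] at ha
    rw [Finset.mem_sdiff, Finset.mem_filter] at hb
    exact hb.2 ⟨hb.1, by rw [← hcon, ha.2]⟩
  have one : ∀ Q : Finset L, (R \ Q).card ≤ 1 → ∀ s ∈ R, s ∉ Q → ∀ a ∈ R, a ≠ s → a ∈ Q := by
    intro Q hQ s hs hsQ a ha has
    by_contra hcon
    exact has (Finset.card_le_one.mp hQ a (Finset.mem_sdiff.mpr ⟨ha, hcon⟩) s
      (Finset.mem_sdiff.mpr ⟨hs, hsQ⟩))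
  have ha0S : a0 ∈ Sa := Finset.mem_filter.mpr ⟨ha0, rfl⟩
  have hb0S : b0 ∈ Sb := Finset.mem_filter.mpr ⟨hb0, rfl⟩
  have hb0a : b0 ∉ Sa := fun hcon => hab (Finset.mem_filter.mp hcon).2.symm
  have ha0b : a0 ∉ Sb := fun hcon => hab (Finset.mem_filter.mp hcon).2
  by_cases ka : (R \ Sa).card ≤ 1
  · refine ⟨b0, hb0, fun a ha b hb hab1 hab2 => ?_⟩
    rw [(Finset.mem_filter.mp (one Sa ka b0 hb0 hb0a a ha hab1)).2,
      (Finset.mem_filter.mp (one Sa ka b0 hb0 hb0a b hb hab2)).2]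
  by_cases kb : (R \ Sb).card ≤ 1
  · refine ⟨a0, ha0, fun a ha b hb hab1 hab2 => ?_⟩
    rw [(Finset.mem_filter.mp (one Sb kb a0 ha0 ha0b a ha hab1)).2,
      (Finset.mem_filter.mp (one Sb kb a0 ha0 ha0b b hb hab2)).2]
  exfalso
  have ca := (key Sa (Finset.filter_subset _ _) (lev _)).resolve_right ka
  have cb := (key Sb (Finset.filter_subset _ _) (lev _)).resolve_right kb
  have hdis : Disjoint Sa Sb := by
    rw [Finset.disjoint_left]
    intro z hz hz'
    rw [Finset.mem_filter] at hz hz'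
    exact hab (hz.2.symm.trans hz'.2)
  have hcu : (Sa ∪ Sb).card = Sa.card + Sb.card := Finset.card_union_of_disjoint hdis
  have h1a : 0 < Sa.card := Finset.card_pos.mpr ⟨a0, ha0S⟩
  have h1b : 0 < Sb.card := Finset.card_pos.mpr ⟨b0, hb0S⟩
  have hUR : Sa ∪ Sb ⊆ R := Finset.union_subset (Finset.filter_subset _ _)
    (Finset.filter_subset _ _)
  have hU := key (Sa ∪ Sb) hUR (by
    intro a ha b hb hcon
    rw [Finset.mem_sdiff, Finset.mem_union, not_or] at hb
    rcases Finset.mem_union.mp ha with h2 | h2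
    · exact lev _ a h2 b (Finset.mem_sdiff.mpr ⟨hb.1, hb.2.1⟩) hcon
    · exact lev _ a h2 b (Finset.mem_sdiff.mpr ⟨hb.1, hb.2.2⟩) hcon)
  have h2 := Finset.card_sdiff_add_card_eq_card hUR
  rcases hU with h3 | h3 <;> omega

omit [CharZero L] [Group Γ] [Fintype Γ] [MulSemiringAction Γ L] in
open Classical in
theorem other {R : Finset L} (h3 : 3 ≤ R.card) (u v : L) : ∃ w ∈ R, w ≠ u ∧ w ≠ v := by
  have h1 : ({u, v} : Finset L).card < R.card := lt_of_le_of_lt Finset.card_le_two (by omega)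
  obtain ⟨w, hw, hw'⟩ := Finset.exists_mem_notMem_of_card_lt_card h1
  rw [Finset.mem_insert, Finset.mem_singleton, not_or] at hw'
  exact ⟨w, hw, hw'.1, hw'.2⟩

omit [CharZero L] in
theorem exc_unique {R : Finset L} (h3 : 3 ≤ R.card) {y s s' : L} (hn : NC Γ R y)
    (h1 : Exc Γ R y s) (h2 : Exc Γ R y s') : s = s' := by
  by_contra hne
  obtain ⟨c, hc, hcs, hcs'⟩ := other h3 s s'
  have key : ∀ a ∈ R, pr Γ y a = pr Γ y c := by
    intro a ha
    by_cases has : a = s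
    · exact h2.2 a ha c hc (by rw [has]; exact hne) hcs'
    · exact h1.2 a ha c hc has hcs
  obtain ⟨a, ha, b, hb, hab⟩ := hn
  exact hab ((key a ha).trans (key b hb).symm)

omit [CharZero L] in
theorem exc_smul {R : Finset L} (h : Full Γ R) {y s : L} (h1 : Exc Γ R y s) (γ : Γ) :
    Exc Γ R (γ • y) (γ • s) := by
  refine ⟨h.1 γ s h1.1, fun a ha b hb has hbs => ?_⟩
  rw [pr_inv, pr_inv]
  apply h1.2 _ (h.1 _ a ha) _ (h.1 _ b hb)
  · intro hc
    exact has (by rw [← hc, smul_inv_smul])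
  · intro hc
    exact hbs (by rw [← hc, smul_inv_smul])

omit [CharZero L] in
theorem nc_smul {R : Finset L} (h : Full Γ R) {y : L} (h1 : NC Γ R y) (γ : Γ) :
    NC Γ R (γ • y) := by
  obtain ⟨a, ha, b, hb, hab⟩ := h1
  refine ⟨γ • a, h.1 γ a ha, γ • b, h.1 γ b hb, ?_⟩
  rw [pr_smul, pr_smul]
  exact hab

omit [CharZero L] in
open Classical in
/-- The exceptional point determines the point. -/
theorem exc_inj {R T : Finset L} (h : Full Γ R) (hT : ∀ γ : Γ, ∀ y ∈ T, γ • y ∈ T)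
    (hd : 6 ≤ R.card) (hc : T.card ≤ R.card + 2) {y y1 s : L} (hy : y ∈ T) (hy1 : y1 ∈ T)
    (hn : NC Γ R y) (hn1 : NC Γ R y1) (he : Exc Γ R y s) (he1 : Exc Γ R y1 s) : y = y1 := by
  by_contra hne
  have h1 : ∀ t ∈ R, ∃ γ : Γ, γ • s = t := by
    intro t ht
    obtain ⟨γ, hγ⟩ := full_swap h he.1 ht
    exact ⟨γ, by rw [hγ s he.1, Equiv.swap_apply_left]⟩
  choose! g hg using h1
  have inj : ∀ z z' : L, NC Γ R z → NC Γ R z' → Exc Γ R z s → Exc Γ R z' s →
      ∀ t ∈ R, ∀ t' ∈ R, g t • z = g t' • z' → t = t' := by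
    intro z z' n1 n2 e1 e2 t ht t' ht' heq
    have e3 := exc_smul h e1 (g t)
    have e4 := exc_smul h e2 (g t')
    rw [hg t ht] at e3
    rw [hg t' ht', ← heq] at e4
    exact exc_unique (by omega) (nc_smul h n1 _) e3 e4
  have c1 : (R.image fun t => g t • y).card = R.card :=
    Finset.card_image_of_injOn fun t ht t' ht' heq => inj y y hn hn he he t ht t' ht' heq
  have c2 : (R.image fun t => g t • y1).card = R.card :=
    Finset.card_image_of_injOn fun t ht t' ht' heq => inj y1 y1 hn1 hn1 he1 he1 t ht t' ht' heq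
  have hdis : Disjoint (R.image fun t => g t • y) (R.image fun t => g t • y1) := by
    rw [Finset.disjoint_left]
    intro z hz hz'
    rw [Finset.mem_image] at hz hz'
    obtain ⟨t, ht, h2⟩ := hz
    obtain ⟨t', ht', h3⟩ := hz'
    have h4 : g t • y = g t' • y1 := h2.trans h3.symm
    have h5 := inj y y1 hn hn1 he he1 t ht t' ht' h4
    rw [h5] at h4
    exact hne (MulAction.injective _ h4)
  have hsub : (R.image fun t => g t • y) ∪ (R.image fun t => g t • y1) ⊆ T := by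
    intro z hz
    rcases Finset.mem_union.mp hz with h2 | h2
    · obtain ⟨t, -, rfl⟩ := Finset.mem_image.mp h2
      exact hT _ y hy
    · obtain ⟨t, -, rfl⟩ := Finset.mem_image.mp h2
      exact hT _ y1 hy1
  have h6 := Finset.card_le_card hsub
  rw [Finset.card_union_of_disjoint hdis, c1, c2] at h6
  omega

omit [CharZero L] in
/-- The equivariant injection of `R` into the small invariant set. -/
theorem phi_exists {R T : Finset L} (h : Full Γ R) (hT : ∀ γ : Γ, ∀ y ∈ T, γ • y ∈ T)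
    (hd : 6 ≤ R.card) (hc : T.card ≤ R.card + 2) (hn : ∃ y ∈ T, NC Γ R y) :
    ∃ φ : L → L, (∀ t ∈ R, φ t ∈ T) ∧ (∀ γ : Γ, ∀ t ∈ R, γ • φ t = φ (γ • t)) ∧
      (∀ s ∈ R, ∀ t ∈ R, φ s = φ t → s = t) ∧
      ∃ A B : L, A ≠ B ∧ ∀ s ∈ R, pr Γ (φ s) s = A ∧ ∀ u ∈ R, u ≠ s → pr Γ (φ s) u = B := by
  obtain ⟨y, hy, hny⟩ := hn
  obtain ⟨s0, hs0⟩ := exceptional h hT hy hd hc hny
  have h1 : ∀ t ∈ R, ∃ γ : Γ, γ • s0 = t := by
    intro t ht
    classical
    obtain ⟨γ, hγ⟩ := full_swap h hs0.1 ht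
    exact ⟨γ, by rw [hγ s0 hs0.1, Equiv.swap_apply_left]⟩
  choose! g hg using h1
  have e1 : ∀ t ∈ R, Exc Γ R (g t • y) t := by
    intro t ht
    have h2 := exc_smul h hs0 (g t)
    rw [hg t ht] at h2
    exact h2
  have n1 : ∀ t, NC Γ R (g t • y) := fun t => nc_smul h hny _
  have m1 : ∀ t, g t • y ∈ T := fun t => hT _ y hy
  have eqv : ∀ γ : Γ, ∀ t ∈ R, γ • (g t • y) = g (γ • t) • y := by
    intro γ t ht
    exact exc_inj h hT hd hc (hT γ _ (m1 t)) (m1 _) (nc_smul h (n1 t) γ) (n1 _)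
      (exc_smul h (e1 t ht) γ) (e1 _ (h.1 γ t ht))
  refine ⟨fun t => g t • y, fun t _ => m1 t, eqv, ?_, ?_⟩
  · intro s hs t ht hst
    have h2 := e1 t ht
    have hst' : g s • y = g t • y := hst
    rw [← hst'] at h2
    exact exc_unique (by omega) (n1 s) (e1 s hs) h2
  · obtain ⟨u0, hu0, hus, -⟩ := other (R := R) (by omega) s0 s0
    have h2 : ∀ s ∈ R, ∀ u ∈ R, u ≠ s →
        pr Γ (g s • y) s = pr Γ (g s0 • y) s0 ∧ pr Γ (g s • y) u = pr Γ (g s0 • y) u0 := by
      intro s hs u hu hne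
      obtain ⟨γ, h3, h4⟩ := full_pair h hs0.1 hu0 hs hu hus.symm hne.symm
      have h5 := eqv γ s0 hs0.1
      rw [h3] at h5
      rw [← h5]
      constructor
      · conv_lhs => rw [← h3]
        rw [pr_smul]
      · conv_lhs => rw [← h4]
        rw [pr_smul]
    refine ⟨pr Γ (g s0 • y) s0, pr Γ (g s0 • y) u0, ?_, ?_⟩
    · intro hcon
      have h3 : ∀ a ∈ R, pr Γ (g s0 • y) a = pr Γ (g s0 • y) s0 := by
        intro a ha
        by_cases has : a = s0
        · rw [has]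
        · rw [(h2 s0 hs0.1 a ha has).2, ← hcon]
      obtain ⟨a, ha, b, hb, hab⟩ := n1 s0
      exact hab ((h3 a ha).trans (h3 b hb).symm)
    · intro s hs
      obtain ⟨v, hv, hvs, -⟩ := other (R := R) (by omega) s s
      exact ⟨(h2 s hs v hv hvs).1, fun u hu hus => (h2 s hs u hu hus).2⟩

end Abs

end Pool.Agent.W_44c680_h9
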