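import Pool.Agent.W_44c680_h9.Arrow2

/-!
Graph energy under the deletion of an edge: the graphs.
-/

set_option autoImplicit false

namespace Pool.Agent.W_44c680_h9

open Matrix Polynomial

section Defs

variable {V : Type}

/-- The doubling of a graph: a regular graph that contains it. -/
def dbl (Γ : SimpleGraph (V × Bool)) : SimpleGraph ((V × Bool) × Bool) where
  Adj p q := p.1 ≠ q.1 ∧ (p.2 = q.2 ↔ Γ.Adj p.1 q.1)
  symm := ⟨fun _ _ h => ⟨h.1.symm, ⟨fun e => (h.2.1 e.symm).symm, fun e => (h.2.2 e.symm).symm⟩⟩⟩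
  loopless := ⟨fun _ h => h.1 rfl⟩

/-- The vertices of the big graph: two centres and two doublings. -/
abbrev BV (V : Type) : Type :=
  (Unit ⊕ Unit) ⊕ (((V × Bool) × Bool) ⊕ ((V × Bool) × Bool))

/-- The adjacency of the big graph. -/
def badj (Γ Γ' : SimpleGraph (V × Bool)) (b : Prop) : BV V → BV V → Prop
  | .inl (.inl _), .inl (.inl _) => False
  | .inl (.inl _), .inl (.inr _) => b
  | .inl (.inr _), .inl (.inl _) => b
  | .inl (.inr _), .inl (.inr _) => False
  | .inl (.inl _), .inr (.inl _) => True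
  | .inl (.inl _), .inr (.inr _) => False
  | .inl (.inr _), .inr (.inl _) => False
  | .inl (.inr _), .inr (.inr _) => True
  | .inr (.inl _), .inl (.inl _) => True
  | .inr (.inl _), .inl (.inr _) => False
  | .inr (.inr _), .inl (.inl _) => False
  | .inr (.inr _), .inl (.inr _) => True
  | .inr (.inl p), .inr (.inl q) => (dbl Γ).Adj p q
  | .inr (.inl p), .inr (.inr q) => p = q ∧ p.1.2 = true
  | .inr (.inr p), .inr (.inl q) => p = q ∧ p.1.2 = true
  | .inr (.inr p), .inr (.inr q) => (dbl Γ').Adj p q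

/-- The big graph (`b` true) and the big graph without one edge (`b` false). -/
def big (Γ Γ' : SimpleGraph (V × Bool)) (b : Prop) : SimpleGraph (BV V) where
  Adj := badj Γ Γ' b
  symm := ⟨by
    rintro ((p | p) | (p | p)) ((q | q) | (q | q)) h
    · exact h
    · exact h
    · exact h
    · exact h
    · exact h
    · exact h
    · exact h
    · exact h
    · exact h
    · exact h
    · exact (dbl Γ).symm.symm _ _ h
    · exact ⟨h.1.symm, h.1 ▸ h.2⟩
    · exact h
    · exact h
    · exact ⟨h.1.symm, h.1 ▸ h.2⟩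
    · exact (dbl Γ').symm.symm _ _ h⟩
  loopless := ⟨by
    rintro ((p | p) | (p | p)) h
    · exact h
    · exact h
    · exact (dbl Γ).loopless.irrefl _ h
    · exact (dbl Γ').loopless.irrefl _ h⟩

theorem big_connected (Γ Γ' : SimpleGraph (V × Bool)) : (big Γ Γ' True).Connected := by
  rw [SimpleGraph.connected_iff_exists_forall_reachable]
  refine ⟨.inl (.inl ()), ?_⟩
  have h0 : (big Γ Γ' True).Adj (.inl (.inl ())) (.inl (.inr ())) := trivial
  rintro ((_ | _) | (p | p))
  · exact SimpleGraph.Reachable.refl _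
  · exact h0.reachable
  · exact SimpleGraph.Adj.reachable (show (big Γ Γ' True).Adj (.inl (.inl ())) (.inr (.inl p))
      from trivial)
  · exact h0.reachable.trans (SimpleGraph.Adj.reachable
      (show (big Γ Γ' True).Adj (.inl (.inr ())) (.inr (.inr p)) from trivial))

theorem big_delete (Γ Γ' : SimpleGraph (V × Bool)) :
    (big Γ Γ' True).deleteEdges {s(.inl (.inl ()), .inl (.inr ()))} = big Γ Γ' False := by
  ext p q
  rw [SimpleGraph.deleteEdges_adj]
  rcases p with (p | p) | (p | p) <;> rcases q with (q | q) | (q | q) <;>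
    simp [big, badj]

/-- The places of the given graphs. -/
def plc : (V × Bool) ⊕ (V × Bool) ↪ BV V :=
  ⟨Sum.elim (fun s => .inr (.inl (s, false))) (fun s => .inr (.inr (s, true))), by
    rintro (s | s) (t | t) h <;> simp_all⟩

theorem big_comap (Γ Γ' : SimpleGraph (V × Bool)) (b : Prop) :
    (big Γ Γ' b).comap plc = Γ ⊕g Γ' := by
  ext s t
  rw [SimpleGraph.comap_adj]
  rcases s with s | s <;> rcases t with t | t
  · show (dbl Γ).Adj (s, false) (t, false) ↔ Γ.Adj s t
    simp only [dbl, ne_eq, true_iff]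
    exact ⟨fun h => h.2, fun h => ⟨h.ne, h⟩⟩
  · refine ⟨fun h => ?_, fun h => absurd h Bool.false_ne_true⟩
    have h1 : (s, false) = (t, true) := h.1
    simp at h1
  · refine ⟨fun h => ?_, fun h => absurd h Bool.false_ne_true⟩
    have h1 : (s, true) = (t, false) := h.1
    simp at h1
  · show (dbl Γ').Adj (s, true) (t, true) ↔ Γ'.Adj s t
    simp only [dbl, ne_eq, true_iff]
    exact ⟨fun h => h.2, fun h => ⟨h.ne, h⟩⟩

end Defs

section Mat

variable {V : Type} [Fintype V] [DecidableEq V]

open Classical in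
/-- The matrix of the doubling with a diagonal term on the first half. -/
noncomputable def dm (Γ : SimpleGraph (V × Bool)) (e : ℝ) :
    Matrix ((V × Bool) × Bool) ((V × Bool) × Bool) ℝ :=
  (dbl Γ).adjMatrix ℝ + diagonal fun p => if p.1.2 = true then e else 0

/-- The weights. -/
noncomputable def wt (e : ℝ) (c : Bool) : ℝ[X] := if c = true then X + 1 else X + 1 - C e

open Classical in
theorem sum_dbl (Γ : SimpleGraph (V × Bool)) (e : ℝ) (p : (V × Bool) × Bool) :
    ∑ q, (if (dbl Γ).Adj p q then wt e q.1.2 else 0) =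
      C (Fintype.card V : ℝ) * (2 * X + 2 - C e) - wt e p.1.2 := by
  have h1 : ∀ s : V × Bool, ∑ a : Bool, (if (dbl Γ).Adj p (s, a) then wt e s.2 else 0) =
      wt e s.2 - if p.1 = s then wt e s.2 else 0 := by
    intro s
    rw [Fintype.sum_bool]
    by_cases h : p.1 = s
    · simp [dbl, h]
    · by_cases h2 : Γ.Adj p.1 s
      · rcases hp : p.2 with _ | _ <;> simp [dbl, h, h2, hp]
      · rcases hp : p.2 with _ | _ <;> simp [dbl, h, h2, hp]
  rw [Fintype.sum_prod_type]
  simp only
  rw [Finset.sum_congr rfl fun s _ => h1 s, Finset.sum_sub_distrib, Finset.sum_ite_eq]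
  simp only [Finset.mem_univ, if_true]
  congr 1
  rw [Fintype.sum_prod_type]
  simp only [Fintype.sum_bool, wt, if_true]
  simp
  ring

theorem charmatrix_mulVec (Γ : SimpleGraph (V × Bool)) (e : ℝ) :
    charmatrix (dm Γ e) *ᵥ (fun p => wt e p.1.2) = fun _ => del (Fintype.card V) e := by
  classical
  funext p
  rw [Matrix.mulVec, dotProduct]
  have h1 : ∀ q, charmatrix (dm Γ e) p q * wt e q.1.2 =
      (if p = q then X * wt e q.1.2 else 0) - (if (dbl Γ).Adj p q then wt e q.1.2 else 0) -
        (if p = q then C (if q.1.2 = true then e else 0) * wt e q.1.2 else 0) := by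
    intro q
    rw [charmatrix_apply, dm, Matrix.add_apply, C_add, SimpleGraph.adjMatrix_apply,
      diagonal_apply, diagonal_apply]
    by_cases h : p = q
    · subst h
      simp
      ring
    · simp only [h, if_false]
      split_ifs <;> simp
  rw [Finset.sum_congr rfl fun q _ => h1 q, Finset.sum_sub_distrib, Finset.sum_sub_distrib,
    Finset.sum_ite_eq, Finset.sum_ite_eq]
  simp only [Finset.mem_univ, if_true]
  have h2 := sum_dbl Γ e p
  rw [show (∑ q, if (dbl Γ).Adj p q then wt e q.1.2 else 0) =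
    C (Fintype.card V : ℝ) * (2 * X + 2 - C e) - wt e p.1.2 by convert h2]
  unfold del wt
  rcases p.1.2 with _ | _
  · simp
    ring
  · simp
    ring

theorem sum_wt (e : ℝ) : ∑ p : (V × Bool) × Bool, wt e p.1.2 =
    2 * C (Fintype.card V : ℝ) * (2 * X + 2 - C e) := by
  simp only [Fintype.sum_prod_type, Fintype.sum_bool, wt, if_true]
  simp
  ring

open Classical in
/-- The matrix of the two halves. -/
noncomputable def mid (Γ Γ' : SimpleGraph (V × Bool)) :
    Matrix (((V × Bool) × Bool) ⊕ ((V × Bool) × Bool))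
      (((V × Bool) × Bool) ⊕ ((V × Bool) × Bool)) ℝ :=
  fromBlocks ((dbl Γ).adjMatrix ℝ) (diagonal fun p => if p.1.2 = true then 1 else 0)
    (diagonal fun p => if p.1.2 = true then 1 else 0) ((dbl Γ').adjMatrix ℝ)

open Classical in
theorem half_plus (Γ : SimpleGraph (V × Bool)) :
    charmatrix ((dbl Γ).adjMatrix ℝ) *ᵥ (fun p => wt 1 p.1.2) +
      (-(diagonal fun p : (V × Bool) × Bool => if p.1.2 = true then (1 : ℝ) else 0).map C) *ᵥ
        (fun p => wt 1 p.1.2) = fun _ => del (Fintype.card V) 1 := by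
  rw [← charmatrix_mulVec Γ 1, ← Matrix.add_mulVec]
  congr 1
  ext i j : 1
  simp [charmatrix_apply, dm, diagonal_apply]
  split_ifs <;> simp <;> ring

open Classical in
theorem half_minus (Γ : SimpleGraph (V × Bool)) :
    charmatrix ((dbl Γ).adjMatrix ℝ) *ᵥ (fun p => wt (-1) p.1.2) -
      (-(diagonal fun p : (V × Bool) × Bool => if p.1.2 = true then (1 : ℝ) else 0).map C) *ᵥ
        (fun p => wt (-1) p.1.2) = fun _ => del (Fintype.card V) (-1) := by
  rw [← charmatrix_mulVec Γ (-1), ← Matrix.sub_mulVec]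
  congr 1
  ext i j : 1
  simp [charmatrix_apply, dm, diagonal_apply]
  split_ifs <;> simp

theorem mid_plus (Γ Γ' : SimpleGraph (V × Bool)) :
    charmatrix (mid Γ Γ') *ᵥ (Sum.elim (fun p => wt 1 p.1.2) (fun p => wt 1 p.1.2)) =
      Sum.elim (fun _ => del (Fintype.card V) 1) (fun _ => del (Fintype.card V) 1) := by
  classical
  rw [mid, charmatrix_fromBlocks, fromBlocks_mulVec]
  rw [Sum.elim_comp_inl, Sum.elim_comp_inr]
  congr 1
  · have h := half_plus Γ
    convert h
  · have h := half_plus Γ'
    rw [add_comm] at h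
    convert h

theorem mid_minus (Γ Γ' : SimpleGraph (V × Bool)) :
    charmatrix (mid Γ Γ') *ᵥ (Sum.elim (fun p => wt (-1) p.1.2) fun p => - wt (-1) p.1.2) =
      Sum.elim (fun _ => del (Fintype.card V) (-1)) (fun _ => - del (Fintype.card V) (-1)) := by
  classical
  have e1 : (fun p : (V × Bool) × Bool => - wt (-1) p.1.2) = - (fun p => wt (-1) p.1.2) := rfl
  rw [mid, charmatrix_fromBlocks, fromBlocks_mulVec]
  congr 1
  · have h := half_minus Γ
    rw [Sum.elim_comp_inl, Sum.elim_comp_inr, e1, Matrix.mulVec_neg, ← sub_eq_add_neg]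
    convert h
  · have h := congrArg (fun f => - f) (half_minus Γ')
    simp only [neg_sub] at h
    rw [Sum.elim_comp_inl, Sum.elim_comp_inr, e1, Matrix.mulVec_neg, ← sub_eq_add_neg]
    have e2 : (fun _ : (V × Bool) × Bool => - del (Fintype.card V) (-1)) =
      - (fun _ => del (Fintype.card V) (-1)) := rfl
    rw [e2]
    convert h

open Classical in
theorem big_adjMatrix (Γ Γ' : SimpleGraph (V × Bool)) (b : Prop) : (big Γ Γ' b).adjMatrix ℝ =
    fromBlocks (fromBlocks 0 (of fun _ _ : Unit => if b then (1 : ℝ) else 0)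
        (of fun _ _ : Unit => if b then (1 : ℝ) else 0) 0)
      (fromBlocks (of fun _ _ => 1) 0 0 (of fun _ _ => 1))
      (fromBlocks (of fun _ _ => 1) 0 0 (of fun _ _ => 1)) (mid Γ Γ') := by
  ext p q
  rcases p with (p | p) | (p | p) <;> rcases q with (q | q) | (q | q) <;>
    simp [big, badj, mid, SimpleGraph.adjMatrix_apply, diagonal_apply] <;>
    split_ifs <;> simp_all

open Classical in
theorem charpoly_big (Γ Γ' : SimpleGraph (V × Bool)) (b : Prop) :
    ((big Γ Γ' b).adjMatrix ℝ).charpoly *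
        (del (Fintype.card V) 1 * del (Fintype.card V) (-1)) =
      cub (Fintype.card V) (if b then 1 else 0) 1 *
        cub (Fintype.card V) (-(if b then 1 else 0)) (-1) * (mid Γ Γ').charpoly := by
  set β : ℝ := if b then 1 else 0 with hβ
  have h0 : charmatrix ((big Γ Γ' b).adjMatrix ℝ) =
      fromBlocks (fromBlocks (of fun _ _ : Unit => X) (of fun _ _ : Unit => -C β)
        (of fun _ _ : Unit => -C β) (of fun _ _ : Unit => X))
      (fromBlocks (of fun _ _ => -1) 0 0 (of fun _ _ => -1))
      (fromBlocks (of fun _ _ => -1) 0 0 (of fun _ _ => -1)) (charmatrix (mid Γ Γ')) := by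
    rw [big_adjMatrix, charmatrix_fromBlocks, charmatrix_fromBlocks]
    congr 1
    · ext i j : 1
      rcases i with i | i <;> rcases j with j | j <;> simp [charmatrix_apply, hβ]
    · ext i j : 1
      rcases i with i | i <;> rcases j with j | j <;> simp
    · ext i j : 1
      rcases i with i | i <;> rcases j with j | j <;> simp
  have h1 := det_two X (C β) (charmatrix (mid Γ Γ')) _ _ _ _ (mid_plus Γ Γ') (mid_minus Γ Γ')
  rw [← h0, sum_wt, sum_wt] at h1
  have h2 : (2 : ℝ[X]) ≠ 0 := two_ne_zero
  apply mul_left_cancel₀ h2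
  rw [Matrix.charpoly, Matrix.charpoly, cub, cub, C_neg, sub_neg_eq_add]
  linear_combination h1

open Classical in
theorem rs_big (Γ Γ' : SimpleGraph (V × Bool)) (b : Prop) :
    rs ((big Γ Γ' b).adjMatrix ℝ).charpoly =
      rs (cub (Fintype.card V) (if b then 1 else 0) 1) +
      rs (cub (Fintype.card V) (-(if b then 1 else 0)) (-1)) +
      (rs (mid Γ Γ').charpoly -
        rs (del (Fintype.card V) 1 * del (Fintype.card V) (-1))) := by
  have h1 := charpoly_big Γ Γ' b
  have h2 : ((big Γ Γ' b).adjMatrix ℝ).charpoly *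
      (del (Fintype.card V) 1 * del (Fintype.card V) (-1)) ≠ 0 :=
    mul_ne_zero (Matrix.charpoly_monic _).ne_zero (mul_ne_zero (del_ne _ _) (del_ne _ _))
  have h3 := rs_mul h2
  have h4 : cub (Fintype.card V) (if b then 1 else 0) 1 *
      cub (Fintype.card V) (-(if b then 1 else 0)) (-1) ≠ 0 :=
    mul_ne_zero (cub_monic _ _ _).1.ne_zero (cub_monic _ _ _).1.ne_zero
  rw [h1, rs_mul (mul_ne_zero h4 (Matrix.charpoly_monic _).ne_zero), rs_mul h4] at h3
  linarith

open Classical in
/-- The deletion of the edge does not change the sum of the absolute values. -/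
theorem rs_big_eq [Nonempty V] (Γ Γ' : SimpleGraph (V × Bool)) :
    rs ((big Γ Γ' False).adjMatrix ℝ).charpoly = rs ((big Γ Γ' True).adjMatrix ℝ).charpoly := by
  rw [rs_big, rs_big]
  have hn : (1 : ℝ) ≤ Fintype.card V := by exact_mod_cast Fintype.card_pos
  have := rs_identity (Fintype.card V) hn
  simp only [if_true, if_false, neg_zero]
  linarith

/-- The same for arbitrary decidability instances. -/
theorem rs_big_eq' [Nonempty V] (Γ Γ' : SimpleGraph (V × Bool)) (i : DecidableEq (BV V))
    (d₁ : DecidableRel (big Γ Γ' False).Adj) (d₂ : DecidableRel (big Γ Γ' True).Adj) :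
    rs (@Matrix.charpoly ℝ _ (BV V) i _ (@SimpleGraph.adjMatrix ℝ (BV V) (big Γ Γ' False) d₁ _ _)) =
      rs (@Matrix.charpoly ℝ _ (BV V) i _
        (@SimpleGraph.adjMatrix ℝ (BV V) (big Γ Γ' True) d₂ _ _)) := by
  have hi : i = instDecidableEqSum := Subsingleton.elim _ _
  have h₁ : d₁ = fun a b => Classical.propDecidable _ := Subsingleton.elim _ _
  have h₂ : d₂ = fun a b => Classical.propDecidable _ := Subsingleton.elim _ _
  subst hi h₁ h₂
  exact rs_big_eq Γ Γ'

end Mat

end Pool.Agent.W_44c680_h9
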