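import Mathlib

/-!
Graph energy under the deletion of an edge: polynomials and arrow matrices.
-/

set_option autoImplicit false

namespace Pool.Agent.W_44c680_h9

open Matrix Polynomial

/-- The sum of the absolute values of the real roots. -/
noncomputable def rs (p : ℝ[X]) : ℝ := (p.roots.map fun x => |x|).sum

theorem rs_mul {p q : ℝ[X]} (h : p * q ≠ 0) : rs (p * q) = rs p + rs q := by
  unfold rs
  rw [roots_mul h, Multiset.map_add, Multiset.sum_add]

theorem sum_abs_eigenvalues {V : Type*} [Fintype V] [DecidableEq V] (A : Matrix V V ℝ)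
    (hA : A.IsHermitian) : ∑ i, |hA.eigenvalues i| = rs A.charpoly := by
  unfold rs
  rw [hA.roots_charpoly_eq_eigenvalues, Multiset.map_map]
  rfl

/-- Two copies joined by a symmetric pattern. -/
theorem charpoly_pair {V : Type*} [Fintype V] [DecidableEq V] (A D : Matrix V V ℝ) :
    (fromBlocks A D D A).charpoly = (A + D).charpoly * (A - D).charpoly := by
  have h2 : (fromBlocks 1 (-1) 0 1 : Matrix (V ⊕ V) (V ⊕ V) ℝ) *
      (fromBlocks 1 1 0 1 : Matrix (V ⊕ V) (V ⊕ V) ℝ) = 1 := by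
    rw [fromBlocks_multiply]; simp [fromBlocks_one]
  have h3 : (fromBlocks 1 1 0 1 : Matrix (V ⊕ V) (V ⊕ V) ℝ) * (fromBlocks A D D A *
      (fromBlocks 1 (-1) 0 1 : Matrix (V ⊕ V) (V ⊕ V) ℝ)) =
      fromBlocks (A + D) 0 D (A - D) := by
    rw [fromBlocks_multiply, fromBlocks_multiply]
    congr 1 <;> simp <;> abel
  calc (fromBlocks A D D A).charpoly
      = ((fromBlocks A D D A * (fromBlocks 1 (-1) 0 1 : Matrix (V ⊕ V) (V ⊕ V) ℝ)) *
          (fromBlocks 1 1 0 1 : Matrix (V ⊕ V) (V ⊕ V) ℝ)).charpoly := by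
        rw [Matrix.mul_assoc, h2, Matrix.mul_one]
    _ = ((fromBlocks 1 1 0 1 : Matrix (V ⊕ V) (V ⊕ V) ℝ) * (fromBlocks A D D A *
          (fromBlocks 1 (-1) 0 1 : Matrix (V ⊕ V) (V ⊕ V) ℝ))).charpoly := by
        rw [charpoly_mul_comm]
    _ = (fromBlocks (A + D) 0 D (A - D)).charpoly := by rw [h3]
    _ = _ := charpoly_fromBlocks_zero₁₂ _ _ _

/-- The determinant of an arrow matrix. -/
theorem det_arrow {L R : Type*} [Fintype L] [DecidableEq L] [CommRing R] (a δ : R)
    (N : Matrix L L R) (w : L → R) (h : N *ᵥ w = fun _ => δ) :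
    (fromBlocks (of fun _ _ : Unit => a) (of fun _ _ => -1) (of fun _ _ => -1) N).det * δ =
      (a * δ - ∑ i, w i) * N.det := by
  have h1 : fromBlocks (of fun _ _ : Unit => a) (of fun _ _ => -1) (of fun _ _ => -1) N *
      fromBlocks (of fun _ _ : Unit => δ) 0 (of fun i _ => w i) 1 =
      fromBlocks (of fun _ _ : Unit => a * δ - ∑ i, w i) (of fun _ _ => -1) 0 N := by
    rw [fromBlocks_multiply]
    congr 1
    · ext i j
      simp [Matrix.mul_apply, sub_eq_add_neg]
    · ext i j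
      simp [Matrix.mul_apply, Matrix.one_apply]
    · ext i j
      have := congrFun h i
      simp only [Matrix.mulVec, dotProduct] at this
      simp [Matrix.mul_apply, this]
    · simp
  have h2 := congrArg Matrix.det h1
  rw [det_mul, det_fromBlocks_zero₁₂, det_fromBlocks_zero₂₁] at h2
  simpa using h2

/-- The arrow matrix. -/
noncomputable def arr {L : Type*} (b : ℝ) (N : Matrix L L ℝ) : Matrix (Unit ⊕ L) (Unit ⊕ L) ℝ :=
  fromBlocks (of fun _ _ => b) (of fun _ _ => 1) (of fun _ _ => 1) N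

theorem charpoly_arr {L : Type*} [Fintype L] [DecidableEq L] (b : ℝ) (N : Matrix L L ℝ)
    (w : L → ℝ[X]) (δ : ℝ[X]) (h : charmatrix N *ᵥ w = fun _ => δ) :
    (arr b N).charpoly * δ = ((X - C b) * δ - ∑ i, w i) * N.charpoly := by
  have h0 : charmatrix (arr b N) = fromBlocks (of fun _ _ : Unit => X - C b)
      (of fun _ _ => -1) (of fun _ _ => -1) (charmatrix N) := by
    rw [arr, charmatrix_fromBlocks]
    congr 1
  rw [Matrix.charpoly, h0, det_arrow _ _ _ _ h, Matrix.charpoly]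

/-! ### The cubic -/

/-- The quotient polynomial. -/
noncomputable def del (n e : ℝ) : ℝ[X] := (X + 1) * (X + 1 - C e) - C n * (2 * X + 2 - C e)

/-- The cubic. -/
noncomputable def cub (n b e : ℝ) : ℝ[X] := (X - C b) * del n e - 2 * C n * (2 * X + 2 - C e)

theorem del_ne (n e : ℝ) : del n e ≠ 0 := by
  intro h
  have h1 : (del n e).coeff 2 = 1 := by
    have : del n e = X ^ 2 + C (2 - e - 2 * n) * X + C (1 - e - 2 * n + n * e) := by
      unfold del
      simp only [C_sub, C_add, C_mul, map_ofNat, map_one]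
      ring
    rw [this]
    simp [coeff_one]
  rw [h] at h1
  simp at h1

theorem cub_eq (n b e : ℝ) : cub n b e = X ^ 3 + C (2 - e - 2 * n - b) * X ^ 2 +
    C (1 - e - 2 * n + n * e - b * (2 - e - 2 * n) - 4 * n) * X +
    C (-b * (1 - e - 2 * n + n * e) - 4 * n + 2 * n * e) := by
  unfold cub del
  simp only [C_sub, C_add, C_mul, C_neg, map_ofNat, map_one]
  ring

theorem cub_monic (n b e : ℝ) : (cub n b e).Monic ∧ (cub n b e).natDegree = 3 := by
  rw [cub_eq]
  constructor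
  · monicity!
  · compute_degree!

theorem eval_cub (n b x : ℝ) : (cub n b 1).eval x =
    (x - b) * ((x + 1) * x - n * (2 * x + 1)) - 2 * n * (2 * x + 1) := by
  unfold cub del
  simp
  ring

/-- The cubic has two negative roots and one root beyond `1`. -/
theorem cub_roots (n b : ℝ) (hn : 1 ≤ n) (hb0 : 0 ≤ b) (hb1 : b ≤ 1) :
    ∃ x y z : ℝ, x < 0 ∧ y < 0 ∧ 1 < z ∧ (cub n b 1).roots = {x, y, z} := by
  set f : ℝ → ℝ := fun x => (cub n b 1).eval x with hf
  have hc : Continuous f := (cub n b 1).continuous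
  have e0 : f (-(10 * n)) < 0 := by
    rw [hf]; simp only; rw [eval_cub]
    nlinarith [mul_nonneg (by linarith : (0 : ℝ) ≤ n - 1) (by linarith : (0 : ℝ) ≤ n - 1),
      mul_nonneg (by linarith : (0 : ℝ) ≤ n) (by linarith : (0 : ℝ) ≤ n - 1),
      mul_nonneg hb0 (by positivity : (0:ℝ) ≤ n ^ 2), mul_nonneg hb0 (by linarith : (0:ℝ) ≤ n),
      mul_nonneg (by positivity : (0 : ℝ) ≤ n ^ 2) (by linarith : (0 : ℝ) ≤ n - 1)]
  have e1 : 0 < f (-1 / 2) := by
    rw [hf]; simp only; rw [eval_cub]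
    nlinarith
  have e2 : f 0 < 0 := by
    rw [hf]; simp only; rw [eval_cub]
    nlinarith
  have e3 : f 1 < 0 := by
    rw [hf]; simp only; rw [eval_cub]
    nlinarith
  have e4 : 0 < f (10 * n) := by
    rw [hf]; simp only; rw [eval_cub]
    nlinarith [mul_nonneg (by linarith : (0 : ℝ) ≤ n - 1) (by linarith : (0 : ℝ) ≤ n - 1),
      mul_nonneg (by linarith : (0 : ℝ) ≤ n) (by linarith : (0 : ℝ) ≤ n - 1),
      mul_nonneg (by linarith : (0:ℝ) ≤ 1 - b) (by positivity : (0:ℝ) ≤ n ^ 2),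
      mul_nonneg (by linarith : (0:ℝ) ≤ 1 - b) (by linarith : (0:ℝ) ≤ n),
      mul_nonneg (by positivity : (0 : ℝ) ≤ n ^ 2) (by linarith : (0 : ℝ) ≤ n - 1)]
  obtain ⟨x, hx, hx0⟩ := intermediate_value_Icc (by linarith : -(10 * n) ≤ -1 / 2)
    hc.continuousOn (show (0 : ℝ) ∈ Set.Icc _ _ from ⟨e0.le, e1.le⟩)
  obtain ⟨y, hy, hy0⟩ := intermediate_value_Icc' (by norm_num : (-1 / 2 : ℝ) ≤ 0)
    hc.continuousOn (show (0 : ℝ) ∈ Set.Icc _ _ from ⟨e2.le, e1.le⟩)
  obtain ⟨z, hz, hz0⟩ := intermediate_value_Icc (by linarith : 1 ≤ 10 * n)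
    hc.continuousOn (show (0 : ℝ) ∈ Set.Icc _ _ from ⟨e3.le, e4.le⟩)
  have hx1 : x ≠ -1 / 2 := fun h => by rw [h] at hx0; linarith
  have hy1 : y ≠ -1 / 2 := fun h => by rw [h] at hy0; linarith
  have hy2 : y ≠ 0 := fun h => by rw [h] at hy0; linarith
  have hz1 : z ≠ 1 := fun h => by rw [h] at hz0; linarith
  have x1 : x < -1 / 2 := lt_of_le_of_ne hx.2 hx1
  have y1 : -1 / 2 < y := lt_of_le_of_ne hy.1 (Ne.symm hy1)
  have y2 : y < 0 := lt_of_le_of_ne hy.2 hy2
  have z1 : 1 < z := lt_of_le_of_ne hz.1 (Ne.symm hz1)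
  refine ⟨x, y, z, by linarith, y2, z1, ?_⟩
  have hne : cub n b 1 ≠ 0 := (cub_monic n b 1).1.ne_zero
  symm
  apply Multiset.eq_of_le_of_card_le
  · rw [Multiset.le_iff_subset]
    · intro t ht
      rw [mem_roots hne]
      simp only [Multiset.insert_eq_cons, Multiset.mem_cons, Multiset.mem_singleton] at ht
      rcases ht with rfl | rfl | rfl
      · exact hx0
      · exact hy0
      · exact hz0
    · have h1 : x ≠ y := by linarith [x1, y1] |> fun h : x < y => h.ne
      have h2 : x ≠ z := ne_of_lt (by linarith)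
      have h3 : y ≠ z := ne_of_lt (by linarith)
      simp [h1, h2, h3]
  · refine (card_roots' _).trans ?_
    rw [(cub_monic n b 1).2]
    simp

theorem cub_shift (n b : ℝ) : cub n (b - 1) (-1) = (cub n b 1).comp (X + C 1) := by
  unfold cub del
  simp only [sub_comp, mul_comp, add_comp, X_comp, C_comp, one_comp, ofNat_comp, C_sub, C_neg,
    map_one]
  ring

theorem rs_shift (n b : ℝ) (hn : 1 ≤ n) (hb0 : 0 ≤ b) (hb1 : b ≤ 1) :
    rs (cub n (b - 1) (-1)) = rs (cub n b 1) + 1 := by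
  obtain ⟨x, y, z, hx, hy, hz, h⟩ := cub_roots n b hn hb0 hb1
  have h2 : (cub n (b - 1) (-1)).roots = {x - 1, y - 1, z - 1} := by
    have h3 := Polynomial.roots_comp_C_mul_X_add_C (cub n b 1) 1 1 isUnit_one
    rw [h] at h3
    rw [cub_shift, show (X : ℝ[X]) + C 1 = C 1 * X + C 1 by simp, h3]
    simp
  unfold rs
  rw [h, h2]
  simp only [Multiset.insert_eq_cons, Multiset.map_cons, Multiset.map_singleton,
    Multiset.sum_cons, Multiset.sum_singleton]
  rw [abs_of_neg hx, abs_of_neg hy, abs_of_pos (by linarith : 0 < z),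
    abs_of_neg (by linarith : x - 1 < 0), abs_of_neg (by linarith : y - 1 < 0),
    abs_of_pos (by linarith : 0 < z - 1)]
  ring

/-- The identity of the energies. -/
theorem rs_identity (n : ℝ) (hn : 1 ≤ n) :
    rs (cub n 1 1) + rs (cub n (-1) (-1)) = rs (cub n 0 1) + rs (cub n 0 (-1)) := by
  have h1 := rs_shift n 1 hn zero_le_one le_rfl
  have h0 := rs_shift n 0 hn le_rfl zero_le_one
  rw [show (1 : ℝ) - 1 = 0 by norm_num] at h1
  rw [show (0 : ℝ) - 1 = -1 by norm_num] at h0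
  rw [h1, h0]
  ring

end Pool.Agent.W_44c680_h9
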