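import Pool.Agent.W_44c680_h9.Fin

/-!
Graph energy under the deletion of an edge: one vertex joined to parts of disjoint complete
graphs. The polynomials.
-/

set_option autoImplicit false

namespace Pool.Agent.W_44c680_h9

open Matrix Polynomial

/-- The sum of the real roots. -/
noncomputable def ss (p : ℝ[X]) : ℝ := p.roots.sum

/-- The sum of the negative parts of the real roots. -/
noncomputable def ng (p : ℝ[X]) : ℝ := (p.roots.map fun x => max (-x) 0).sum

theorem ss_mul {p q : ℝ[X]} (h : p * q ≠ 0) : ss (p * q) = ss p + ss q := by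
  unfold ss
  rw [roots_mul h, Multiset.sum_add]

theorem ng_mul {p q : ℝ[X]} (h : p * q ≠ 0) : ng (p * q) = ng p + ng q := by
  unfold ng
  rw [roots_mul h, Multiset.map_add, Multiset.sum_add]

theorem rs_eq (p : ℝ[X]) : rs p = ss p + 2 * ng p := by
  unfold rs ss ng
  induction p.roots using Multiset.induction_on with
  | empty => simp
  | cons a s ih =>
    simp only [Multiset.map_cons, Multiset.sum_cons]
    rw [ih]
    rcases le_total 0 a with h | h
    · rw [abs_of_nonneg h, max_eq_right (by linarith)]
      ring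
    · rw [abs_of_nonpos h, max_eq_left (by linarith)]
      ring

theorem ng_eq_zero (p : ℝ[X]) (h : ∀ x < 0, p.eval x ≠ 0) : ng p = 0 := by
  unfold ng
  apply Multiset.sum_eq_zero
  intro y hy
  rw [Multiset.mem_map] at hy
  obtain ⟨x, hx, rfl⟩ := hy
  have h1 : p.eval x = 0 := (mem_roots'.mp hx).2
  have h2 : 0 ≤ x := by
    by_contra hc
    exact h x (not_le.mp hc) h1
  exact max_eq_right (by linarith)

theorem ng_X_sub_C (c : ℝ) (hc : c ≤ 0) : ng (X - C c) = - c := by
  unfold ng
  rw [roots_X_sub_C]
  simp [hc]

theorem ss_herm {V : Type*} [Fintype V] [DecidableEq V] (A : Matrix V V ℝ)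
    (hA : A.IsHermitian) : ss A.charpoly = A.trace := by
  unfold ss
  rw [hA.roots_charpoly_eq_eigenvalues, hA.trace_eq_sum_eigenvalues]
  rfl

/-- The determinant of an arrow matrix with a general vector. -/
theorem det_arrow' {L R : Type*} [Fintype L] [DecidableEq L] [CommRing R] (a δ : R)
    (N : Matrix L L R) (s w : L → R) (h : N *ᵥ w = fun i => δ * s i) :
    (fromBlocks (of fun _ _ : Unit => a) (of fun _ j => - s j) (of fun i _ => - s i) N).det * δ =
      (a * δ - ∑ i, s i * w i) * N.det := by
  have h1 : fromBlocks (of fun _ _ : Unit => a) (of fun _ j => - s j) (of fun i _ => - s i) N *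
      fromBlocks (of fun _ _ : Unit => δ) 0 (of fun i _ => w i) 1 =
      fromBlocks (of fun _ _ : Unit => a * δ - ∑ i, s i * w i) (of fun _ j => - s j) 0 N := by
    rw [fromBlocks_multiply]
    congr 1
    · ext i j
      simp [Matrix.mul_apply, sub_eq_add_neg]
    · simp
    · ext i j
      have := congrFun h i
      simp only [Matrix.mulVec, dotProduct] at this
      simp [Matrix.mul_apply, this]
      ring
    · simp
  have h2 := congrArg Matrix.det h1
  rw [det_mul, det_fromBlocks_zero₁₂, det_fromBlocks_zero₂₁] at h2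
  simpa using h2

section Poly

variable {ι : Type} [Fintype ι] [DecidableEq ι] (a i : ι → ℝ)

/-- The product of all factors. -/
noncomputable def pa : ℝ[X] := ∏ l, (X + 1 - C (a l))

/-- The product of the other factors. -/
noncomputable def pl (l : ι) : ℝ[X] := ∏ m ∈ Finset.univ.erase l, (X + 1 - C (a m))

theorem pl_mul (l : ι) : (X + 1 - C (a l)) * pl a l = pa a :=
  Finset.mul_prod_erase _ _ (Finset.mem_univ l)

/-- The polynomial of the nontrivial eigenvalues. -/
noncomputable def qt : ℝ[X] :=
  X * ((X + 1) * pa a) - ∑ l, C (i l) * (pa a + C (i l) * pl a l)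

/-- The secular function. -/
noncomputable def sec (y : ℝ) : ℝ := y - 1 - ∑ l, i l * (y - a l + i l) / (y * (y - a l))

/-- The cofactor. -/
noncomputable def tt (y : ℝ) : ℝ[X] :=
  (X + 1) * pa a + ∑ l, (C (i l * (a l - i l) / a l / y) * pa a +
    C (i l ^ 2 / a l / (y - a l)) * ((X + 1) * pl a l))

theorem eval_pa (x : ℝ) : (pa a).eval x = ∏ l, (x + 1 - a l) := by
  unfold pa
  rw [eval_prod]
  simp

theorem eval_pl (x : ℝ) (l : ι) : (x + 1 - a l) * (pl a l).eval x = (pa a).eval x := by
  rw [← pl_mul a l]
  simp

theorem pa_ne (h : ∀ l, 2 ≤ a l) (x : ℝ) (hx : x < 0) : (pa a).eval x ≠ 0 := by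
  rw [eval_pa]
  apply Finset.prod_ne_zero_iff.mpr
  intro l _
  have := h l
  intro hc
  linarith

/-- The value of the polynomial at a point where nothing vanishes. -/
theorem eval_qt (h : ∀ l, 2 ≤ a l) (x : ℝ) (hx : x < 0) (hx1 : x + 1 ≠ 0) :
    (qt a i).eval x = (x + 1) * (pa a).eval x * sec a i (x + 1) := by
  unfold qt sec
  simp only [eval_sub, eval_mul, eval_X, eval_add, eval_one, eval_finset_sum, eval_C]
  have h1 : ∀ l, i l * ((pa a).eval x + i l * (pl a l).eval x) =
      (x + 1) * (pa a).eval x * (i l * (x + 1 - a l + i l) / ((x + 1) * (x + 1 - a l))) := by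
    intro l
    have h2 : x + 1 - a l ≠ 0 := by
      have := h l
      intro hc
      linarith
    rw [← eval_pl a x l]
    field_simp
  rw [Finset.sum_congr rfl fun l _ => h1 l, ← Finset.mul_sum]
  ring

theorem qt_eq (h : ∀ l, 2 ≤ a l) (y : ℝ) (hy : y < 0) (h0 : sec a i y = 0) :
    qt a i = (X - C (y - 1)) * tt a i y := by
  have h1 : ∑ l, (i l * (a l - i l) / a l / y + i l ^ 2 / a l / (y - a l)) = y - 1 := by
    have h2 : ∀ l, i l * (a l - i l) / a l / y + i l ^ 2 / a l / (y - a l) =
        i l * (y - a l + i l) / (y * (y - a l)) := by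
      intro l
      have h3 : a l ≠ 0 := by
        have := h l
        intro hc
        linarith
      have h4 : y - a l ≠ 0 := by
        have := h l
        intro hc
        linarith
      have h5 : y ≠ 0 := hy.ne
      field_simp
      ring
    rw [Finset.sum_congr rfl fun l _ => h2 l]
    unfold sec at h0
    linarith
  have h6 : (X - C (y - 1)) * tt a i y = (X - C (y - 1)) * ((X + 1) * pa a) +
      ∑ l, (C (i l * (a l - i l) / a l / y + i l ^ 2 / a l / (y - a l)) * ((X + 1) * pa a) -
        C (i l) * (pa a + C (i l) * pl a l)) := by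
    unfold tt
    rw [mul_add, Finset.mul_sum]
    congr 1
    apply Finset.sum_congr rfl
    intro l _
    have h3 : a l ≠ 0 := by
      have := h l
      intro hc
      linarith
    have h4 : y - a l ≠ 0 := by
      have := h l
      intro hc
      linarith
    have h5 : y ≠ 0 := hy.ne
    set p := i l * (a l - i l) / a l / y with hp
    set q := i l ^ 2 / a l / (y - a l) with hq
    have hp1 : p * y = i l - i l ^ 2 / a l := by
      rw [hp]
      field_simp
    have hq1 : q * y = i l ^ 2 / a l + q * a l := by
      rw [hq]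
      field_simp
      ring
    have hp2 : C p * C y = C (i l) - C (i l ^ 2 / a l) := by rw [← C_mul, hp1, C_sub]
    have hq2 : C q * C y = C (i l ^ 2 / a l) + C q * C (a l) := by
      rw [← C_mul, hq1, C_add, C_mul]
    have hi : C (i l ^ 2 / a l) * C (a l) = C (i l) * C (i l) := by
      rw [← C_mul, ← C_mul]
      congr 1
      field_simp
    rw [← pl_mul a l]
    simp only [C_sub, C_add, map_one]
    linear_combination (-(X + 1 - C (a l)) * pl a l) * hp2 - (X + 1) * pl a l * hq2 -
      pl a l * hi
  rw [h6, Finset.sum_sub_distrib, ← Finset.sum_mul, ← map_sum, h1]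
  unfold qt
  simp only [C_sub, map_one]
  ring

end Poly

end Pool.Agent.W_44c680_h9
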