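import Pool.Agent.W_44c680_h9.Star

/-!
Graph energy under the deletion of an edge: one vertex joined to parts of disjoint complete
graphs. The roots.
-/

set_option autoImplicit false

namespace Pool.Agent.W_44c680_h9

open Matrix Polynomial

section Roots

variable {ι : Type} [Fintype ι] [DecidableEq ι] (a i : ι → ℝ)

/-- The secular function is negative on `(0, 1)`. -/
theorem sec_neg (h : ∀ l, 2 ≤ a l) (hi0 : ∀ l, 0 ≤ i l) (hi1 : ∀ l, i l + 1 ≤ a l) (y : ℝ)
    (hy0 : 0 < y) (hy1 : y < 1) : sec a i y < 0 := by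
  unfold sec
  have h1 : 0 ≤ ∑ l, i l * (y - a l + i l) / (y * (y - a l)) := by
    apply Finset.sum_nonneg
    intro l _
    have h2 := h l
    have h3 := hi0 l
    have h4 := hi1 l
    apply div_nonneg_of_nonpos
    · apply mul_nonpos_of_nonneg_of_nonpos h3
      linarith
    · apply mul_nonpos_of_nonneg_of_nonpos hy0.le
      linarith
  linarith

/-- At `y = 0` the polynomial does not vanish if some part is not empty. -/
theorem qt_zero (h : ∀ l, 2 ≤ a l) (hi0 : ∀ l, 0 ≤ i l) (hi1 : ∀ l, i l + 1 ≤ a l) (k : ι)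
    (hk : 0 < i k) : (qt a i).eval (-1) ≠ 0 := by
  unfold qt
  simp only [eval_sub, eval_mul, eval_X, eval_add, eval_one, eval_finsetSum, eval_C]
  have hpa : (pa a).eval (-1) ≠ 0 := pa_ne a h (-1) (by norm_num)
  have h1 : ∀ l, i l * ((pa a).eval (-1) + i l * (pl a l).eval (-1)) =
      (pa a).eval (-1) * (i l * (1 - i l / a l)) := by
    intro l
    have h2 := eval_pl a (-1) l
    have h3 : a l ≠ 0 := by
      have := h l
      intro hc
      linarith
    have h4 : (pl a l).eval (-1) = - (pa a).eval (-1) / a l := by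
      rw [eq_div_iff h3, ← h2]
      ring
    rw [h4]
    field_simp
    ring
  rw [Finset.sum_congr rfl fun l _ => h1 l, ← Finset.mul_sum]
  have h5 : 0 < ∑ l, i l * (1 - i l / a l) := by
    apply Finset.sum_pos'
    · intro l _
      have h2 := h l
      have h4 := hi1 l
      apply mul_nonneg (hi0 l)
      rw [sub_nonneg, div_le_one (by linarith)]
      linarith
    · refine ⟨k, Finset.mem_univ k, ?_⟩
      have h2 := h k
      have h4 := hi1 k
      apply mul_pos hk
      rw [sub_pos, div_lt_one (by linarith)]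
      linarith
  have h6 : (pa a).eval (-1) * ∑ l, i l * (1 - i l / a l) ≠ 0 := mul_ne_zero hpa h5.ne'
  intro hc
  apply h6
  linarith

/-- The negative root carries the whole negative part. -/
theorem ng_qt (h : ∀ l, 2 ≤ a l) (hi0 : ∀ l, 0 ≤ i l) (hi1 : ∀ l, i l + 1 ≤ a l) (k : ι)
    (hk : 0 < i k) (y : ℝ) (hy : y < 0) (h0 : sec a i y = 0) (hne : qt a i ≠ 0) :
    ng (qt a i) = 1 - y := by
  have h1 := qt_eq a i h y hy h0
  have h2 : (X - C (y - 1)) * tt a i y ≠ 0 := by rw [← h1]; exact hne
  rw [h1, ng_mul h2, ng_X_sub_C _ (by linarith), ng_eq_zero]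
  · ring
  · intro x hx hc
    have h3 : (qt a i).eval x = 0 := by
      rw [h1, eval_mul, hc, mul_zero]
    rcases lt_trichotomy (x + 1) 0 with h4 | h4 | h4
    · -- the cofactor is not zero
      have h5 : (tt a i y).eval x = (x + 1) * (pa a).eval x *
          (1 + ∑ l, (i l * (a l - i l) / a l / (y * (x + 1)) +
            i l ^ 2 / a l / ((y - a l) * (x + 1 - a l)))) := by
        unfold tt
        simp only [eval_add, eval_mul, eval_X, eval_one, eval_finsetSum, eval_C]
        rw [mul_add, mul_one, Finset.mul_sum]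
        congr 1
        apply Finset.sum_congr rfl
        intro l _
        have e1 : a l ≠ 0 := by
          have := h l
          intro hc
          linarith
        have e2 : y - a l ≠ 0 := by
          have := h l
          intro hc
          linarith
        have e3 : x + 1 - a l ≠ 0 := by
          have := h l
          intro hc
          linarith
        have e4 : x + 1 ≠ 0 := h4.ne
        have e5 : y ≠ 0 := hy.ne
        rw [← eval_pl a x l]
        field_simp
      have h6 : 0 ≤ ∑ l, (i l * (a l - i l) / a l / (y * (x + 1)) +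
          i l ^ 2 / a l / ((y - a l) * (x + 1 - a l))) := by
        apply Finset.sum_nonneg
        intro l _
        have e1 := h l
        have e2 := hi0 l
        have e3 := hi1 l
        have e4 : 0 < a l := by linarith
        have e5 : 0 < y * (x + 1) := mul_pos_of_neg_of_neg hy h4
        have e6 : 0 < (y - a l) * (x + 1 - a l) :=
          mul_pos_of_neg_of_neg (by linarith) (by linarith)
        have e7 : 0 ≤ a l - i l := by linarith
        positivity
      have h7 : (tt a i y).eval x ≠ 0 := by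
        rw [h5]
        exact mul_ne_zero (mul_ne_zero h4.ne (pa_ne a h x hx)) (by linarith : _ ≠ (0 : ℝ)) 
      exact h7 hc
    · have h5 : x = -1 := by linarith
      rw [h5] at h3
      exact qt_zero a i h hi0 hi1 k hk h3
    · rw [eval_qt a i h x hx h4.ne'] at h3
      have h5 := sec_neg a i h hi0 hi1 (x + 1) h4 (by linarith)
      exact mul_ne_zero (mul_ne_zero h4.ne' (pa_ne a h x hx)) h5.ne h3

/-- If all parts are empty. -/
theorem ng_qt_zero (h : ∀ l, 2 ≤ a l) : ng (qt a fun _ => 0) = 1 := by
  have h1 : qt a (fun _ => 0) = (X - C (-1)) * (X * pa a) := by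
    unfold qt
    simp
    ring
  have h2 : X * pa a ≠ 0 := by
    apply mul_ne_zero X_ne_zero
    intro hc
    exact pa_ne a h (-1) (by norm_num) (by rw [hc]; simp)
  rw [h1, ng_mul (mul_ne_zero (X_sub_C_ne_zero _) h2), ng_X_sub_C _ (by norm_num), ng_eq_zero]
  · ring
  · intro x hx
    rw [eval_mul, eval_X]
    exact mul_ne_zero hx.ne (pa_ne a h x hx)

/-- There is a negative root if some part is not empty. -/
theorem exists_root (h : ∀ l, 2 ≤ a l) (hi0 : ∀ l, 0 ≤ i l) (hi1 : ∀ l, i l + 1 ≤ a l) (k : ι)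
    (hk : 0 < i k) : ∃ y < 0, sec a i y = 0 := by
  have hW : ∀ l, ∀ y < 0, y - a l ≠ 0 ∧
      i l * (a l - i l) / a l / y - i l ^ 2 / a l ^ 2 ≤ i l * (y - a l + i l) / (y * (y - a l)) ∧
      i l * (y - a l + i l) / (y * (y - a l)) ≤ i l * (a l - i l) / a l / y := by
    intro l y hy
    have e1 := h l
    have e2 := hi0 l
    have e3 := hi1 l
    have e4 : 0 < a l := by linarith
    have e5 : y - a l < 0 := by linarith
    have e6 : i l * (y - a l + i l) / (y * (y - a l)) =
        i l * (a l - i l) / a l / y + i l ^ 2 / a l / (y - a l) := by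
      have e7 : y ≠ 0 := hy.ne
      have e8 : y - a l ≠ 0 := e5.ne
      field_simp
      ring
    have e9 : i l ^ 2 / a l / (y - a l) ≤ 0 :=
      div_nonpos_of_nonneg_of_nonpos (by positivity) e5.le
    have e10 : - (i l ^ 2 / a l ^ 2) ≤ i l ^ 2 / a l / (y - a l) := by
      rw [neg_le_iff_add_nonneg]
      have e11 : i l ^ 2 / a l / (y - a l) + i l ^ 2 / a l ^ 2 =
          i l ^ 2 / a l ^ 2 * (y / (y - a l)) := by
        have e8 : y - a l ≠ 0 := e5.ne
        field_simp
        ring
      rw [e11]
      exact mul_nonneg (by positivity) (div_nonneg_of_nonpos hy.le e5.le)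
    refine ⟨?_, ?_, ?_⟩
    · exact e5.ne
    · rw [e6]; linarith
    · rw [e6]; linarith
  set P : ℝ := ∑ l, i l * (a l - i l) / a l with hP
  set R : ℝ := ∑ l, i l ^ 2 / a l ^ 2 with hR
  have hP0 : 0 < P := by
    apply Finset.sum_pos'
    · intro l _
      have e1 := h l
      have e2 := hi0 l
      have e3 := hi1 l
      have e4 : 0 ≤ a l - i l := by linarith
      have e5 : 0 < a l := by linarith
      positivity
    · refine ⟨k, Finset.mem_univ k, ?_⟩
      have e1 := h k
      have e3 := hi1 k
      have e4 : 0 < a k - i k := by linarith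
      have e5 : 0 < a k := by linarith
      positivity
  have hR0 : 0 ≤ R := Finset.sum_nonneg fun l _ => by positivity
  set y₀ : ℝ := -(P + R + 1) with hy₀
  set y₁ : ℝ := -(min 1 P / 2) with hy₁
  have hm0 : 0 < min 1 P := lt_min one_pos hP0
  have hm1 : min 1 P ≤ 1 := min_le_left _ _
  have hm2 : min 1 P ≤ P := min_le_right _ _
  have hy₀1 : y₀ ≤ -1 := by rw [hy₀]; linarith
  have hy₁0 : y₁ < 0 := by rw [hy₁]; linarith
  have hy01 : y₀ ≤ y₁ := by rw [hy₀, hy₁]; linarith
  have f0 : sec a i y₀ ≤ 0 := by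
    unfold sec
    have e1 : ∑ l, (i l * (a l - i l) / a l / y₀ - i l ^ 2 / a l ^ 2) ≤
        ∑ l, i l * (y₀ - a l + i l) / (y₀ * (y₀ - a l)) :=
      Finset.sum_le_sum fun l _ => (hW l y₀ (by linarith)).2.1
    rw [Finset.sum_sub_distrib, ← Finset.sum_div, ← hP, ← hR] at e1
    have e2 : -P ≤ P / y₀ := by
      rw [le_div_iff_of_neg (by linarith)]
      nlinarith
    linarith
  have f1 : 0 ≤ sec a i y₁ := by
    unfold sec
    have e1 : ∑ l, i l * (y₁ - a l + i l) / (y₁ * (y₁ - a l)) ≤
        ∑ l, i l * (a l - i l) / a l / y₁ :=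
      Finset.sum_le_sum fun l _ => (hW l y₁ hy₁0).2.2
    rw [← Finset.sum_div, ← hP] at e1
    have e2 : P / y₁ ≤ -2 := by
      rw [div_le_iff_of_neg hy₁0, hy₁]
      linarith
    have e3 : -1 / 2 ≤ y₁ := by rw [hy₁]; linarith
    linarith
  have hc : ContinuousOn (sec a i) (Set.Icc y₀ y₁) := by
    unfold sec
    apply ContinuousOn.sub
    · fun_prop
    · apply continuousOn_finset_sum
      intro l _
      apply ContinuousOn.div
      · fun_prop
      · fun_prop
      · intro y hy
        have hy2 : y < 0 := lt_of_le_of_lt hy.2 hy₁0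
        exact mul_ne_zero hy2.ne (hW l y hy2).1
  obtain ⟨y, hy, hy0⟩ := intermediate_value_Icc hy01 hc
    (show (0 : ℝ) ∈ Set.Icc _ _ from ⟨f0, f1⟩)
  exact ⟨y, lt_of_le_of_lt hy.2 hy₁0, hy0⟩

end Roots

end Pool.Agent.W_44c680_h9
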