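import Pool.Agent.W_44c680_h9.Star2

/-!
Graph energy under the deletion of an edge: one vertex joined to parts of disjoint complete
graphs. The graph and the criterion.
-/

set_option autoImplicit false

namespace Pool.Agent.W_44c680_h9

open Matrix Polynomial

section Graph

variable {ι : Type} [Fintype ι] [DecidableEq ι] {a : ι → ℕ}

/-- The adjacency: disjoint complete graphs on `Fin (a l)` and a further vertex joined to the
vertices of `S l`. -/
def cadj (S : ∀ l, Finset (Fin (a l))) : Unit ⊕ (Σ l, Fin (a l)) → Unit ⊕ (Σ l, Fin (a l)) → Prop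
  | .inl _, .inl _ => False
  | .inl _, .inr q => q.2 ∈ S q.1
  | .inr p, .inl _ => p.2 ∈ S p.1
  | .inr p, .inr q => p ≠ q ∧ p.1 = q.1

/-- Disjoint complete graphs on `Fin (a l)` and a further vertex joined to the vertices of
`S l`. -/
def cliq (S : ∀ l, Finset (Fin (a l))) : SimpleGraph (Unit ⊕ (Σ l, Fin (a l))) where
  Adj := cadj S
  symm := ⟨by
    rintro (p | p) (q | q) h
    · exact h
    · exact h
    · exact h
    · exact ⟨h.1.symm, h.2.symm⟩⟩
  loopless := ⟨by
    rintro (p | p) h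
    · exact h
    · exact h.1 rfl⟩

theorem cliq_connected (S : ∀ l, Finset (Fin (a l))) (hS : ∀ l, (S l).Nonempty) :
    (cliq S).Connected := by
  rw [SimpleGraph.connected_iff_exists_forall_reachable]
  refine ⟨.inl (), ?_⟩
  rintro (p | p)
  · exact SimpleGraph.Reachable.refl _
  · obtain ⟨x, hx⟩ := hS p.1
    have h1 : (cliq S).Adj (.inl ()) (.inr ⟨p.1, x⟩) := hx
    by_cases h : (⟨p.1, x⟩ : Σ l, Fin (a l)) = p
    · rw [← h]
      exact h1.reachable
    · have h2 : (cliq S).Adj (.inr ⟨p.1, x⟩) (.inr p) := ⟨h, rfl⟩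
      exact h1.reachable.trans h2.reachable

theorem cliq_delete (S : ∀ l, Finset (Fin (a l))) (k : ι) (x : Fin (a k)) :
    (cliq S).deleteEdges {s(.inl (), .inr ⟨k, x⟩)} =
      cliq (Function.update S k ((S k).erase x)) := by
  have h : ∀ q : Σ l, Fin (a l), q.2 ∈ Function.update S k ((S k).erase x) q.1 ↔
      (q.2 ∈ S q.1 ∧ ¬ q = ⟨k, x⟩) := by
    rintro ⟨l, z⟩
    by_cases hl : l = k
    · subst hl
      simp [and_comm]
    · simp [hl]
  ext p q
  rw [SimpleGraph.deleteEdges_adj]
  rcases p with p | p <;> rcases q with q | q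
  · simp [cliq, cadj]
  · show (q.2 ∈ S q.1 ∧ _) ↔ q.2 ∈ Function.update S k ((S k).erase x) q.1
    rw [h q]
    simp
  · show (p.2 ∈ S p.1 ∧ _) ↔ p.2 ∈ Function.update S k ((S k).erase x) p.1
    rw [h p]
    simp
  · simp [cliq, cadj]

/-- The numbers of neighbours. -/
noncomputable def nb (S : ∀ l, Finset (Fin (a l))) (l : ι) : ℝ := ((S l).card : ℝ)

/-- The adjacency matrix of the disjoint complete graphs. -/
noncomputable def km (a : ι → ℕ) : Matrix (Σ l, Fin (a l)) (Σ l, Fin (a l)) ℝ :=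
  of fun p q => if p = q then 0 else if p.1 = q.1 then 1 else 0

/-- The indicator of the neighbours. -/
noncomputable def ind (S : ∀ l, Finset (Fin (a l))) (p : Σ l, Fin (a l)) : ℝ[X] :=
  if p.2 ∈ S p.1 then 1 else 0

open Classical in
theorem charmatrix_cliq (S : ∀ l, Finset (Fin (a l))) :
    charmatrix ((cliq S).adjMatrix ℝ) = fromBlocks (of fun _ _ : Unit => X)
      (of fun _ q => - ind S q) (of fun p _ => - ind S p) (charmatrix (km a)) := by
  have h : (cliq S).adjMatrix ℝ = fromBlocks 0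
      (of fun _ q => if q.2 ∈ S q.1 then (1 : ℝ) else 0)
      (of fun p _ => if p.2 ∈ S p.1 then (1 : ℝ) else 0) (km a) := by
    ext p q
    rcases p with p | p <;> rcases q with q | q
    · simp [cliq, cadj]
    · simp [cliq, cadj]
    · simp [cliq, cadj]
    · by_cases h1 : p = q
      · simp [cliq, cadj, km, h1]
      · simp [cliq, cadj, km, h1]
  rw [h, charmatrix_fromBlocks]
  congr 1
  · ext i j : 1
    simp [charmatrix_apply]
  · ext i j : 1
    simp [ind, apply_ite C]
  · ext i j : 1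
    simp [ind, apply_ite C]

theorem charmatrix_km (p q : Σ l, Fin (a l)) : charmatrix (km a) p q =
    (if p = q then X + 1 else 0) - (if p.1 = q.1 then 1 else 0) := by
  rw [charmatrix_apply, km, diagonal_apply]
  by_cases h : p = q
  · simp [h]
  · by_cases h1 : p.1 = q.1
    · simp [h, h1]
    · simp [h, h1]

theorem sum_ind (S : ∀ l, Finset (Fin (a l))) (l : ι) :
    ∑ x : Fin (a l), ind S ⟨l, x⟩ = C (nb S l) := by
  unfold ind nb
  have h : (Finset.univ.filter fun x => x ∈ S l) = S l := by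
    ext x
    simp
  rw [map_natCast]
  show (∑ x : Fin (a l), if x ∈ S l then (1 : ℝ[X]) else 0) = _
  rw [Finset.sum_boole, h]

theorem km_mulVec (S : ∀ l, Finset (Fin (a l))) :
    charmatrix (km a) *ᵥ (fun p => ind S p * pa (fun l => (a l : ℝ)) +
      C (nb S p.1) * pl (fun l => (a l : ℝ)) p.1) =
      fun p => ((X + 1) * pa (fun l => (a l : ℝ))) * ind S p := by
  funext p
  rw [Matrix.mulVec, dotProduct]
  set u : (Σ l, Fin (a l)) → ℝ[X] := fun p => ind S p * pa (fun l => (a l : ℝ)) +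
      C (nb S p.1) * pl (fun l => (a l : ℝ)) p.1 with hu
  have h1 : ∀ q, charmatrix (km a) p q * u q =
      (if p = q then (X + 1) * u q else 0) - (if p.1 = q.1 then u q else 0) := by
    intro q
    rw [charmatrix_km, sub_mul, ite_mul, ite_mul, zero_mul, one_mul]
  rw [Finset.sum_congr rfl fun q _ => h1 q, Finset.sum_sub_distrib, Finset.sum_ite_eq]
  simp only [Finset.mem_univ, if_true]
  have h2 : ∑ q : Σ l, Fin (a l), (if p.1 = q.1 then u q else 0) =
      C (nb S p.1) * pa (fun l => (a l : ℝ)) +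
        C (a p.1 : ℝ) * (C (nb S p.1) * pl (fun l => (a l : ℝ)) p.1) := by
    rw [Fintype.sum_sigma]
    have h3 : ∀ l, ∑ x : Fin (a l), (if p.1 = l then u ⟨l, x⟩ else 0) =
        if p.1 = l then ∑ x : Fin (a l), u ⟨l, x⟩ else 0 := by
      intro l
      by_cases h : p.1 = l <;> simp [h]
    simp only
    rw [Finset.sum_congr rfl fun l _ => h3 l, Finset.sum_ite_eq]
    simp only [Finset.mem_univ, if_true, hu]
    rw [Finset.sum_add_distrib, ← Finset.sum_mul, sum_ind, Finset.sum_const, Finset.card_univ,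
      Fintype.card_fin, nsmul_eq_mul]
    simp
  rw [h2, hu]
  simp only
  have h4 := pl_mul (fun l => (a l : ℝ)) p.1
  rw [← h4]
  ring

theorem sum_ind_mul (S : ∀ l, Finset (Fin (a l))) :
    ∑ p, ind S p * (ind S p * pa (fun l => (a l : ℝ)) +
      C (nb S p.1) * pl (fun l => (a l : ℝ)) p.1) =
      ∑ l, C (nb S l) * (pa (fun l => (a l : ℝ)) + C (nb S l) * pl (fun l => (a l : ℝ)) l) := by
  rw [Fintype.sum_sigma]
  apply Finset.sum_congr rfl
  intro l _
  have h1 : ∀ x : Fin (a l), ind S ⟨l, x⟩ * (ind S ⟨l, x⟩ * pa (fun l => (a l : ℝ)) +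
      C (nb S l) * pl (fun l => (a l : ℝ)) l) =
      ind S ⟨l, x⟩ * (pa (fun l => (a l : ℝ)) + C (nb S l) * pl (fun l => (a l : ℝ)) l) := by
    intro x
    unfold ind
    split_ifs <;> simp
  simp only
  rw [Finset.sum_congr rfl fun x _ => h1 x, ← Finset.sum_mul, sum_ind]

open Classical in
theorem charpoly_cliq (S : ∀ l, Finset (Fin (a l))) :
    ((cliq S).adjMatrix ℝ).charpoly * ((X + 1) * pa (fun l => (a l : ℝ))) =
      qt (fun l => (a l : ℝ)) (nb S) * (km a).charpoly := by
  rw [Matrix.charpoly, charmatrix_cliq, det_arrow' X _ _ (ind S) _ (km_mulVec S), sum_ind_mul,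
    Matrix.charpoly, qt]

end Graph

end Pool.Agent.W_44c680_h9
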