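import Pool.Agent.W_44c680_h9.Star3

/-!
Graph energy under the deletion of an edge: one vertex joined to parts of disjoint complete
graphs. The criterion.
-/

set_option autoImplicit false

namespace Pool.Agent.W_44c680_h9

open Matrix Polynomial

section Crit

variable {ι : Type} [Fintype ι] [DecidableEq ι] {a : ι → ℕ}

theorem energy_cliq (S : ∀ l, Finset (Fin (a l))) : energy (cliq S) =
    2 * ng (qt (fun l => (a l : ℝ)) (nb S)) +
      2 * (ng (km a).charpoly - ng ((X + 1) * pa (fun l => (a l : ℝ)))) := by
  classical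
  have hpa : (X + 1) * pa (fun l => (a l : ℝ)) ≠ 0 := by
    apply mul_ne_zero
    · exact (monic_X_add_C (1 : ℝ)).ne_zero
    · unfold pa
      apply Finset.prod_ne_zero_iff.mpr
      intro l _
      rw [show (X : ℝ[X]) + 1 - C (a l : ℝ) = X + C (1 - (a l : ℝ)) by
        rw [C_sub, map_one]; ring]
      exact (monic_X_add_C _).ne_zero
  have h1 := charpoly_cliq S
  have h2 : ((cliq S).adjMatrix ℝ).charpoly * ((X + 1) * pa (fun l => (a l : ℝ))) ≠ 0 :=
    mul_ne_zero (Matrix.charpoly_monic _).ne_zero hpa
  have h3 : qt (fun l => (a l : ℝ)) (nb S) * (km a).charpoly ≠ 0 := by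
    rw [← h1]
    exact h2
  have h4 := ng_mul h2
  rw [h1, ng_mul h3] at h4
  have h5 : ss ((cliq S).adjMatrix ℝ).charpoly = 0 := by
    rw [ss_herm _ (herm (cliq S))]
    exact SimpleGraph.trace_adjMatrix _ _
  have h6 : energy (cliq S) = rs ((cliq S).adjMatrix ℝ).charpoly := by
    rw [energy_eq]
    congr
  rw [h6, rs_eq, h5]
  linarith

theorem qt_ne (S : ∀ l, Finset (Fin (a l))) : qt (fun l => (a l : ℝ)) (nb S) ≠ 0 := by
  classical
  intro h
  have h1 := charpoly_cliq S
  rw [h, zero_mul] at h1
  have hpa : (X + 1) * pa (fun l => (a l : ℝ)) ≠ 0 := by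
    apply mul_ne_zero
    · exact (monic_X_add_C (1 : ℝ)).ne_zero
    · unfold pa
      apply Finset.prod_ne_zero_iff.mpr
      intro l _
      rw [show (X : ℝ[X]) + 1 - C (a l : ℝ) = X + C (1 - (a l : ℝ)) by
        rw [C_sub, map_one]; ring]
      exact (monic_X_add_C _).ne_zero
  exact mul_ne_zero (Matrix.charpoly_monic _).ne_zero hpa h1

/-- The criterion. -/
theorem criterion (S : ∀ l, Finset (Fin (a l))) (hS : ∀ l, (S l).Nonempty)
    (hS1 : ∀ l, (S l).card < a l) (k : ι) (x : Fin (a k)) (hx : x ∈ S k) :
    energy ((cliq S).deleteEdges {s(.inl (), .inr ⟨k, x⟩)}) = energy (cliq S) ↔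
      0 < 2 * nb S k - a k - 1 ∧
      ∑ l, nb S l * (2 * nb S k - a k - 1 + a l - nb S l) / (2 * nb S k - a k - 1 + a l) =
        (2 * nb S k - a k - 1) * (2 * nb S k - a k - 1 + 1) := by
  classical
  set A : ι → ℝ := fun l => (a l : ℝ) with hA
  set S' := Function.update S k ((S k).erase x) with hS'
  have hpos : ∀ l, 1 ≤ (S l).card := fun l => (hS l).card_pos
  have hA2 : ∀ l, 2 ≤ A l := by
    intro l
    have h1 := hpos l
    have h2 := hS1 l
    show (2 : ℝ) ≤ (a l : ℝ)
    exact_mod_cast (by omega : 2 ≤ a l)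
  have hi0 : ∀ l, 0 ≤ nb S l := fun l => by unfold nb; positivity
  have hi1 : ∀ l, nb S l + 1 ≤ A l := by
    intro l
    have h2 := hS1 l
    show ((S l).card : ℝ) + 1 ≤ (a l : ℝ)
    exact_mod_cast h2
  have hik : 0 < nb S k := by
    unfold nb
    exact_mod_cast hpos k
  have hk' : nb S' k = nb S k - 1 := by
    unfold nb
    rw [hS', Function.update_self, Finset.card_erase_of_mem hx]
    have := hpos k
    push_cast [this]
    ring
  have hl' : ∀ l, l ≠ k → nb S' l = nb S l := by
    intro l hl
    unfold nb
    rw [hS', Function.update_of_ne hl]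
  have hi0' : ∀ l, 0 ≤ nb S' l := fun l => by unfold nb; positivity
  have hi1' : ∀ l, nb S' l + 1 ≤ A l := by
    intro l
    by_cases hl : l = k
    · subst hl
      rw [hk']
      have := hi1 l
      linarith
    · rw [hl' l hl]
      exact hi1 l
  -- the two secular functions differ in one term
  have hdiff : ∀ y : ℝ, y < 0 → sec A (nb S) y - sec A (nb S') y =
      - ((y - A k + 2 * nb S k - 1) / (y * (y - A k))) := by
    intro y hy
    unfold sec
    rw [← Finset.add_sum_erase _ _ (Finset.mem_univ k),
      ← Finset.add_sum_erase Finset.univ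
        (fun l => nb S' l * (y - A l + nb S' l) / (y * (y - A l))) (Finset.mem_univ k)]
    have h1 : ∑ l ∈ Finset.univ.erase k, nb S' l * (y - A l + nb S' l) / (y * (y - A l)) =
        ∑ l ∈ Finset.univ.erase k, nb S l * (y - A l + nb S l) / (y * (y - A l)) := by
      apply Finset.sum_congr rfl
      intro l hl
      rw [hl' l (Finset.ne_of_mem_erase hl)]
    rw [h1, hk']
    have h2 : y - A k ≠ 0 := by
      have := hA2 k
      intro hc
      linarith
    have h3 : y ≠ 0 := hy.ne
    field_simp
    ring
  -- the negative parts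
  have hng : ∀ y < 0, sec A (nb S) y = 0 → ng (qt A (nb S)) = 1 - y := fun y hy h0 =>
    ng_qt A (nb S) hA2 hi0 hi1 k hik y hy h0 (qt_ne S)
  have hng' : ∀ y < 0, sec A (nb S') y = 0 → ng (qt A (nb S')) = 1 - y := by
    intro y hy h0
    by_cases hz : ∃ k', 0 < nb S' k'
    · obtain ⟨k', hk1⟩ := hz
      exact ng_qt A (nb S') hA2 hi0' hi1' k' hk1 y hy h0 (qt_ne S')
    · exfalso
      have h1 : ∀ l, nb S' l = 0 := fun l => le_antisymm (not_lt.mp fun h => hz ⟨l, h⟩) (hi0' l)
      unfold sec at h0
      simp only [h1, zero_mul, zero_div, Finset.sum_const_zero] at h0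
      linarith
  have hE : energy ((cliq S).deleteEdges {s(.inl (), .inr ⟨k, x⟩)}) = energy (cliq S) ↔
      ng (qt A (nb S')) = ng (qt A (nb S)) := by
    rw [cliq_delete, energy_cliq, energy_cliq]
    constructor <;> intro h <;> linarith
  rw [hE]
  set t : ℝ := 2 * nb S k - a k - 1 with ht
  have hsec : 0 < t → (sec A (nb S) (-t) = 0 ↔
      ∑ l, nb S l * (t + a l - nb S l) / (t + a l) = t * (t + 1)) := by
    intro ht0
    have h1 : ∀ l, nb S l * (-t - A l + nb S l) / (-t * (-t - A l)) =
        - (nb S l * (t + a l - nb S l) / (t + a l)) / t := by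
      intro l
      have h2 : t + (a l : ℝ) ≠ 0 := by
        have := hA2 l
        rw [hA] at this
        simp only at this
        linarith [this] |> fun h : (0 : ℝ) < t + a l => h.ne'
      have h3 : -t - A l ≠ 0 := by
        rw [hA]
        simp only
        intro hc
        apply h2
        linarith
      rw [hA]
      simp only
      rw [hA] at h3
      simp only at h3
      field_simp
      ring
    unfold sec
    rw [Finset.sum_congr rfl fun l _ => h1 l, ← Finset.sum_div, Finset.sum_neg_distrib]
    constructor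
    · intro h
      field_simp at h
      linarith
    · intro h
      rw [h]
      field_simp
      ring
  constructor
  · intro h
    obtain ⟨y, hy, hy0⟩ := exists_root A (nb S) hA2 hi0 hi1 k hik
    have h1 := hng y hy hy0
    have h2 : ∃ k', 0 < nb S' k' := by
      by_contra hz
      have h3 : nb S' = fun _ => 0 := by
        funext l
        exact le_antisymm (not_lt.mp fun h => hz ⟨l, h⟩) (hi0' l)
      rw [h3, ng_qt_zero A hA2] at h
      linarith
    obtain ⟨k', hk1⟩ := h2
    obtain ⟨y', hy', hy0'⟩ := exists_root A (nb S') hA2 hi0' hi1' k' hk1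
    have h3 := hng' y' hy' hy0'
    have h4 : y' = y := by linarith
    subst h4
    have h5 := hdiff y' hy
    rw [hy0, hy0', sub_zero, eq_comm, neg_eq_zero, div_eq_zero_iff] at h5
    have h6 : y' * (y' - A k) ≠ 0 := by
      apply mul_ne_zero hy.ne
      have := hA2 k
      intro hc
      linarith
    have h7 : y' = -t := by
      rcases h5 with h5 | h5
      · rw [ht]
        rw [hA] at h5
        simp only at h5
        linarith
      · exact absurd h5 h6
    have h8 : 0 < t := by linarith
    exact ⟨h8, (hsec h8).mp (by rw [← h7]; exact hy0)⟩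
  · rintro ⟨h8, h9⟩
    have h10 := (hsec h8).mpr h9
    have h11 : sec A (nb S') (-t) = 0 := by
      have h5 := hdiff (-t) (by linarith)
      have h12 : -t - A k + 2 * nb S k - 1 = 0 := by
        rw [ht, hA]
        simp only
        ring
      rw [h10, h12, zero_div, neg_zero] at h5
      linarith
    rw [hng (-t) (by linarith) h10, hng' (-t) (by linarith) h11]

end Crit

end Pool.Agent.W_44c680_h9
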